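import Pool.Agent.Work.MP_118406_fr.Interface

set_option autoImplicit false

open scoped InnerProductSpace ComplexConjugate Topology BigOperators
open Set Filter MeasureTheory Pool.SI

noncomputable section

namespace Pool.FR

theorem ASM_nn {N : ℕ} (A : Mat N) (hA : A.IsHermitian) : ntr (A ^ 2) = (nn A : ℂ) := by
  unfold ntr nn
  rw [pow_two]
  push_cast
  congr 1
  rw [Matrix.trace]
  refine Finset.sum_congr rfl fun a _ => ?_
  rw [Matrix.diag_apply, Matrix.mul_apply]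
  refine Finset.sum_congr rfl fun b _ => ?_
  have h1 : A b a = conj (A a b) := (hA.apply b a).symm
  rw [h1, Complex.mul_conj, Complex.normSq_eq_norm_sq]
  push_cast
  rfl

theorem ASM_cat (hS : Stmt_SDE) : cat 2 = 1 := by
  obtain ⟨h1, _, _, h4, _⟩ := hS 1
  have h : cat 2 = tau ((0 : Fin 1) :: [0]) := rfl
  rw [h, h4]
  have h5 : ∀ p : Fin ([(0 : Fin 1)]).length,
      (if ([(0 : Fin 1)]).get p = 0 then tau (([(0 : Fin 1)]).take p) *
        tau (([(0 : Fin 1)]).drop (p + 1)) else 0) = 1 := by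
    intro p
    have hp : (p : ℕ) = 0 := by
      have := p.2
      simp only [List.length_singleton] at this
      omega
    rw [if_pos (Subsingleton.elim _ _), hp]
    simp only [List.take_zero, zero_add, List.drop_succ_cons, List.drop_zero, h1, mul_one]
  rw [Finset.sum_congr rfl fun p _ => h5 p]
  simp

theorem ASM_clm (N : ℕ) (hN : 1 ≤ N) : ∃ f : Polynomial ℝ, Clm N f := by
  have hc : ContinuousOn (fun t : ℝ => max (-3) (min 3 t))
      (Set.Icc (-Real.sqrt (2 * N)) (Real.sqrt (2 * N))) := by fun_prop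
  have hN0 : (0 : ℝ) < 1 / N := by
    have : (0 : ℝ) < N := by exact_mod_cast hN
    positivity
  obtain ⟨f, hf⟩ := exists_polynomial_near_of_continuousOn _ _ _ hc (1 / N) hN0
  exact ⟨f, fun t ht => (hf t (abs_le.1 ht)).le⟩

theorem ASM_compl {α : Type} [MeasurableSpace α] (μ : Measure α) [IsProbabilityMeasure μ]
    (S T : Set α) (hST : ∀ x, x ∈ S ∨ x ∈ T) (h : μ T ≤ ENNReal.ofReal (1 / 4)) :
    ENNReal.ofReal (3 / 4) ≤ μ S := by
  have h1 : (1 : ENNReal) ≤ μ S + μ T := by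
    rw [← measure_univ (μ := μ)]
    refine (measure_mono ?_).trans (measure_union_le S T)
    intro x _
    exact hST x
  have h2 : (1 : ENNReal) ≤ μ S + ENNReal.ofReal (1 / 4) := h1.trans (by gcongr)
  have h3 : (1 : ENNReal) = ENNReal.ofReal (3 / 4) + ENNReal.ofReal (1 / 4) := by
    rw [← ENNReal.ofReal_add (by norm_num) (by norm_num)]
    norm_num
  rw [h3] at h2
  exact (ENNReal.add_le_add_iff_right ENNReal.ofReal_ne_top).1 h2

theorem ASM_vol (hGDE : Stmt_GDE) (N : ℕ) (G : Set (Fin N × Fin N → ℝ))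
    (h : ENNReal.ofReal (3 / 4) ≤ gs (Fin N × Fin N) G) :
    ENNReal.ofReal (3 / 4 * Real.sqrt (2 * Real.pi) ^ (N ^ 2)) ≤ volume G := by
  have h1 := hGDE (Fin N × Fin N) (fun _ => 0) 1 (toMeasurable volume G) one_pos
    (measurableSet_toMeasurable _ _)
  rw [measure_toMeasurable] at h1
  have h2 : gs (Fin N × Fin N) G ≤
      gs (Fin N × Fin N) {g | (fun i => (0 : ℝ) + 1 * g i) ∈ toMeasurable volume G} := by
    refine measure_mono fun g hg => ?_
    show (fun i => (0 : ℝ) + 1 * g i) ∈ toMeasurable volume G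
    have h0 : (fun i => (0 : ℝ) + 1 * g i) = g := by
      funext i
      ring
    rw [h0]
    exact subset_toMeasurable _ _ hg
  have h3 := h.trans (h2.trans h1)
  have hs : 0 < Real.sqrt (2 * Real.pi) := Real.sqrt_pos.2 (by positivity)
  have hcard : Fintype.card (Fin N × Fin N) = N ^ 2 := by
    rw [Fintype.card_prod, Fintype.card_fin, pow_two]
  rw [hcard, mul_one] at h3
  calc ENNReal.ofReal (3 / 4 * Real.sqrt (2 * Real.pi) ^ (N ^ 2))
      = ENNReal.ofReal (3 / 4) * ENNReal.ofReal (Real.sqrt (2 * Real.pi) ^ (N ^ 2)) :=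
        ENNReal.ofReal_mul (by norm_num)
    _ ≤ (ENNReal.ofReal ((Real.sqrt (2 * Real.pi) ^ (N ^ 2))⁻¹) * volume G) *
        ENNReal.ofReal (Real.sqrt (2 * Real.pi) ^ (N ^ 2)) := by gcongr
    _ = volume G := by
        rw [mul_comm (ENNReal.ofReal _) (volume G), mul_assoc,
          ← ENNReal.ofReal_mul (by positivity), inv_mul_cancel₀ (by positivity),
          ENNReal.ofReal_one, mul_one]

/-- The two bounds for the measure of `K`. -/
theorem ASM_bounds {α β δ : Type} [MeasurableSpace α] [MeasurableSpace β] [MeasurableSpace δ]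
    (μ : Measure α) (ν : Measure β) (ρ : Measure δ) [SFinite μ] [SFinite ν] [SFinite ρ]
    (K : Set (α × (β × δ))) (hK : MeasurableSet K) (Gg : Set α) (Gx : Set β) (c0 : ENNReal)
    (h1 : ∀ g ∈ Gg, ∀ x ∈ Gx, c0 ≤ ρ {b | (g, (x, b)) ∈ K})
    (B1 : Set β) (B2 : Set δ) (U : ENNReal)
    (h2 : ∀ g x b, (g, (x, b)) ∈ K → x ∈ B1 ∧ b ∈ B2)
    (h3 : ∀ x b, μ {g | (g, (x, b)) ∈ K} ≤ U) :
    c0 * ν Gx * μ Gg ≤ U * (ν B1 * ρ B2) := by
  have low : c0 * ν Gx * μ Gg ≤ (μ.prod (ν.prod ρ)) K := by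
    rw [Measure.prod_apply hK]
    refine le_trans ?_ (mul_meas_ge_le_lintegral (measurable_measure_prodMk_left hK) (c0 * ν Gx))
    refine mul_le_mul_right (measure_mono fun g hg => ?_) _
    show c0 * ν Gx ≤ (ν.prod ρ) (Prod.mk g ⁻¹' K)
    have hKg : MeasurableSet (Prod.mk g ⁻¹' K) := measurable_prodMk_left hK
    rw [Measure.prod_apply hKg]
    refine le_trans ?_ (mul_meas_ge_le_lintegral (measurable_measure_prodMk_left hKg) c0)
    refine mul_le_mul_right (measure_mono fun x hx => ?_) _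
    exact h1 g hg x hx
  have up : (μ.prod (ν.prod ρ)) K ≤ U * (ν B1 * ρ B2) := by
    rw [Measure.prod_apply_symm hK]
    calc ∫⁻ z, μ ((fun g => (g, z)) ⁻¹' K) ∂(ν.prod ρ)
        ≤ ∫⁻ z, (B1 ×ˢ B2).indicator (fun _ => U) z ∂(ν.prod ρ) := by
          refine lintegral_mono fun z => ?_
          obtain ⟨x, b⟩ := z
          by_cases hz : (x, b) ∈ B1 ×ˢ B2
          · rw [indicator_of_mem hz]
            exact h3 x b
          · rw [indicator_of_notMem hz]
            have h4 : (fun g => (g, (x, b))) ⁻¹' K = ∅ := by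
              ext g
              simp only [mem_preimage, mem_empty_iff_false, iff_false]
              intro hg
              exact hz (mk_mem_prod (h2 g x b hg).1 (h2 g x b hg).2)
            show μ ((fun g => (g, (x, b))) ⁻¹' K) ≤ 0
            rw [h4, measure_empty]
      _ ≤ U * (ν.prod ρ) (B1 ×ˢ B2) := lintegral_indicator_const_le _ _
      _ = U * (ν B1 * ρ B2) := by rw [Measure.prod_prod]
  exact low.trans up

theorem p_ASM (hHMB : Stmt_HMB) (hSDE : Stmt_SDE) (hGDE : Stmt_GDE) (hGVB : Stmt_GVB)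
    (hGOD : Stmt_GOD) (hGO1 : Stmt_GO1) (hNEU : Stmt_NEU) (hLOV : Stmt_LOV) (hUPP : Stmt_UPP)
    (hMEA : Stmt_MEA) : Stmt_ASM := by
  obtain ⟨C₁, hC₁, hnet⟩ := hNEU
  refine ⟨C₁, hC₁, ?_⟩
  intro n k y hy θ ε hθ hθ1 hε hε1 hNth
  obtain ⟨p, m0, N0, γ0, hγ0, hL⟩ := hLOV n k y hy θ ε hθ hθ1 hε hε1 hNth
  obtain ⟨N1, hN1⟩ := hGOD k (max m0 2) (min γ0 1) (lt_min hγ0 one_pos)
  obtain ⟨N2, hN2⟩ := hGO1 (max m0 2) (min γ0 1) (lt_min hγ0 one_pos)
  refine ⟨max N0 (max N1 N2), fun N hN hN1' => ?_⟩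
  have hNa : N0 ≤ N := (le_max_left _ _).trans hN
  have hNb : N1 ≤ N := ((le_max_left _ _).trans (le_max_right _ _)).trans hN
  have hNc : N2 ≤ N := ((le_max_right _ _).trans (le_max_right _ _)).trans hN
  have hNr : (0 : ℝ) < N := by exact_mod_cast hN1'
  obtain ⟨f, hf⟩ := ASM_clm N hN1'
  obtain ⟨L, v, hLc, hv, hvn⟩ := hnet ε N hε hε1 hN1'
  have hGg := hN1 N hNb hN1'
  have hGx := hN2 N hNc hN1'
  obtain ⟨hherm, -, -, hnn, -, -, -⟩ := hHMB N hN1'
  have i1 : ∀ (ι : Type) [Fintype ι], IsProbabilityMeasure (gs ι) := fun ι _ => by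
    unfold gs
    infer_instance
  set s : ℝ := Real.sqrt (2 * Real.pi) with hs_def
  have hs : 0 < s := Real.sqrt_pos.2 (by positivity)
  have hsin : 0 ≤ Real.sin θ :=
    Real.sin_nonneg_of_nonneg_of_le_pi hθ.le (hθ1.trans (by linarith [Real.pi_gt_three]))
  -- the good sets
  let Gg : Set (Fin k × Fin N × Fin N → ℝ) := {g | MC k (max m0 2) (min γ0 1) N (hmk g)}
  let Gx : Set (Fin N × Fin N → ℝ) :=
    {x | ∀ j ≤ max m0 2, ‖ntr ((hm x : Mat N) ^ j) - cat j‖ ≤ min γ0 1}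
  have hGg' : ENNReal.ofReal (3 / 4) ≤ gs (Fin k × Fin N × Fin N) Gg :=
    ASM_compl _ Gg _ (fun g => by
      by_cases h : MC k (max m0 2) (min γ0 1) N (hmk g)
      · exact Or.inl h
      · exact Or.inr h) hGg
  have hGx' : ENNReal.ofReal (3 / 4) ≤ gs (Fin N × Fin N) Gx :=
    ASM_compl _ Gx _ (fun x => by
      by_cases h : x ∈ Gx
      · exact Or.inl h
      · right
        by_contra h'
        apply h
        intro j hj
        by_contra h''
        exact h' ⟨j, hj, not_le.1 h''⟩) hGx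
  have hGxv := ASM_vol hGDE N Gx hGx'
  -- the bounds
  have key := ASM_bounds (gs (Fin k × Fin N × Fin N)) (volume : Measure (Fin N × Fin N → ℝ))
    (volume : Measure (Fin n × Fin N × Fin N → ℝ)) _ (hMEA n k N L p f v ε) Gg Gx
    (ENNReal.ofReal (1 / 2 * (s * Real.sin θ) ^ (n * N ^ 2)))
    (by
      intro g hg x hx
      refine (hL N f L v hNa hN1' hf hvn (hmk g) x ⟨hg.1, fun w hw => ?_⟩ fun j hj => ?_).trans ?_
      · exact (hg.2 w (hw.trans (le_max_left _ _))).trans (min_le_left _ _)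
      · exact (hx j (hj.trans (le_max_left _ _))).trans (min_le_left _ _)
      · refine measure_mono fun b hb => ?_
        refine ⟨?_, hb⟩
        show ∑ q, x q ^ 2 ≤ 2 * (N : ℝ) ^ 2
        have h1 := hx 2 (le_max_right _ _)
        rw [ASM_nn _ (hherm x), ASM_cat hSDE] at h1
        have h2 : |nn (hm x : Mat N) - 1| ≤ 1 := by
          have h3 : ((nn (hm x : Mat N) : ℝ) : ℂ) - 1 = ((nn (hm x : Mat N) - 1 : ℝ) : ℂ) := by
            push_cast
            rfl
          rw [h3, Complex.norm_real, Real.norm_eq_abs] at h1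
          exact h1.trans (min_le_right _ _)
        have h4 := (abs_le.1 h2).2
        rw [hnn x] at h4
        have h5 : (∑ q, x q ^ 2) / (N : ℝ) ^ 2 ≤ 2 := by linarith
        rwa [div_le_iff₀ (by positivity)] at h5)
    {x | ∑ i, x i ^ 2 ≤ 2 * Fintype.card (Fin N × Fin N)}
    {b | ∑ i, b i ^ 2 ≤ 80 * Fintype.card (Fin n × Fin N × Fin N)}
    (ENNReal.ofReal (L * (33 * ε) ^ (k * N ^ 2)))
    (by
      intro g x b hz
      obtain ⟨h1, h2, -⟩ := hz
      refine ⟨?_, ?_⟩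
      · show ∑ i, x i ^ 2 ≤ 2 * ((Fintype.card (Fin N × Fin N) : ℕ) : ℝ)
        rw [Fintype.card_prod, Fintype.card_fin]
        push_cast
        have h3 : ∑ q, x q ^ 2 ≤ 2 * (N : ℝ) ^ 2 := h1
        linarith [h3, sq (N : ℝ)]
      · show ∑ i, b i ^ 2 ≤ 80 * ((Fintype.card (Fin n × Fin N × Fin N) : ℕ) : ℝ)
        rw [Fintype.card_prod, Fintype.card_prod, Fintype.card_fin, Fintype.card_fin]
        push_cast
        have h3 : ∑ q, b q ^ 2 ≤ 80 * n * (N : ℝ) ^ 2 := h2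
        have h4 : 80 * (n : ℝ) * (N : ℝ) ^ 2 = 80 * ((n : ℝ) * ((N : ℝ) * N)) := by ring
        linarith)
    (by
      intro x b
      refine le_trans (measure_mono fun g hg => ?_) (hUPP k N L v (FF p f x b) ε hN1' hε hv)
      exact hg.2.2)
  -- volumes of the balls
  have hV1 := hGVB (Fin N × Fin N) 2 (by norm_num)
  have hV2 := hGVB (Fin n × Fin N × Fin N) 80 (by norm_num)
  have hc1 : Fintype.card (Fin N × Fin N) = N ^ 2 := by
    rw [Fintype.card_prod, Fintype.card_fin, pow_two]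
  have hc2 : Fintype.card (Fin n × Fin N × Fin N) = n * N ^ 2 := by
    rw [Fintype.card_prod, Fintype.card_prod, Fintype.card_fin, Fintype.card_fin, pow_two]
  have hlow : ENNReal.ofReal (1 / 2 * (s * Real.sin θ) ^ (n * N ^ 2) * (3 / 4 * s ^ (N ^ 2)) *
      (3 / 4)) ≤ ENNReal.ofReal (1 / 2 * (s * Real.sin θ) ^ (n * N ^ 2)) * volume Gx *
        gs (Fin k × Fin N × Fin N) Gg := by
    rw [ENNReal.ofReal_mul (by positivity), ENNReal.ofReal_mul (by positivity)]
    gcongr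
  have hup : ENNReal.ofReal (L * (33 * ε) ^ (k * N ^ 2)) *
      (volume {x : Fin N × Fin N → ℝ | ∑ i, x i ^ 2 ≤ 2 * Fintype.card (Fin N × Fin N)} *
        volume {b : Fin n × Fin N × Fin N → ℝ |
          ∑ i, b i ^ 2 ≤ 80 * Fintype.card (Fin n × Fin N × Fin N)}) ≤
      ENNReal.ofReal ((C₁ / ε) ^ (N ^ 2) * (33 * ε) ^ (k * N ^ 2) *
        ((s * Real.exp (2 / 2)) ^ (N ^ 2) * (s * Real.exp (80 / 2)) ^ (n * N ^ 2))) := by
    have hX : 0 ≤ (C₁ / ε) ^ (N ^ 2) * (33 * ε) ^ (k * N ^ 2) := by positivity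
    have hY : 0 ≤ (s * Real.exp (2 / 2)) ^ (N ^ 2) := by positivity
    rw [ENNReal.ofReal_mul hX, ENNReal.ofReal_mul hY]
    rw [hc1] at hV1
    rw [hc2] at hV2
    rw [hc1, hc2]
    refine mul_le_mul' ?_ (mul_le_mul' hV1 hV2)
    exact ENNReal.ofReal_le_ofReal (mul_le_mul_of_nonneg_right hLc (by positivity))
  have hfin := (hlow.trans key).trans hup
  rw [ENNReal.ofReal_le_ofReal_iff (by positivity)] at hfin
  -- divide
  have hsN : 0 < s ^ (N ^ 2) * s ^ (n * N ^ 2) := by positivity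
  have e1 : 1 / 2 * (s * Real.sin θ) ^ (n * N ^ 2) * (3 / 4 * s ^ (N ^ 2)) * (3 / 4) =
      (9 / 32 * Real.sin θ ^ (n * N ^ 2)) * (s ^ (N ^ 2) * s ^ (n * N ^ 2)) := by
    rw [mul_pow]
    ring
  have e2 : Real.exp (1 + 40 * n) ^ (N ^ 2) =
      Real.exp (2 / 2) ^ (N ^ 2) * Real.exp (80 / 2) ^ (n * N ^ 2) := by
    rw [← Real.exp_nat_mul, ← Real.exp_nat_mul, ← Real.exp_nat_mul, ← Real.exp_add]
    congr 1
    push_cast
    ring
  have e3 : (C₁ / ε) ^ (N ^ 2) * (33 * ε) ^ (k * N ^ 2) *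
      ((s * Real.exp (2 / 2)) ^ (N ^ 2) * (s * Real.exp (80 / 2)) ^ (n * N ^ 2)) =
      ((C₁ / ε) ^ (N ^ 2) * (33 * ε) ^ (k * N ^ 2) * Real.exp (1 + 40 * n) ^ (N ^ 2)) *
        (s ^ (N ^ 2) * s ^ (n * N ^ 2)) := by
    rw [e2, mul_pow s, mul_pow s]
    ring
  rw [e1, e3] at hfin
  have h9 := le_of_mul_le_mul_right hfin hsN
  have h10 : 0 ≤ Real.sin θ ^ (n * N ^ 2) := pow_nonneg hsin _
  linarith

end Pool.FR
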