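import Pool.Agent.Work.MP_118406_fr.Interface

set_option autoImplicit false

open scoped InnerProductSpace ComplexConjugate Topology BigOperators
open Set Filter MeasureTheory Pool.SI

noncomputable section

namespace Pool.FR

theorem COR_nth_nonneg {n : ℕ} (θ : ℝ) (ξ : Fk (n + 1)) : 0 ≤ Nth θ ξ := by
  unfold Nth
  refine mul_nonneg (by norm_num) (tsum_nonneg fun w => ?_)
  refine mul_nonneg ?_ (sq_nonneg _)
  have h1 : |Real.cos θ ^ cnt w| ≤ 1 := by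
    rw [abs_pow]
    exact pow_le_one₀ (abs_nonneg _) (Real.abs_cos_le_one θ)
  have h2 := le_abs_self (Real.cos θ ^ cnt w)
  linarith

/-- A root. -/
theorem COR_root (a b : ℝ) (ha : 0 ≤ a) (N₀ : ℕ)
    (h : ∀ N : ℕ, N₀ ≤ N → 1 ≤ N → (1 / 8) * b ^ (N ^ 2) ≤ a ^ (N ^ 2)) : b ≤ a := by
  by_contra hab
  push Not at hab
  have hb : 0 < b := lt_of_le_of_lt ha hab
  have h1 : a / b < 1 := by rwa [div_lt_one hb]
  have h0 : 0 ≤ a / b := div_nonneg ha hb.le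
  obtain ⟨m, hm⟩ := exists_pow_lt_of_lt_one (by norm_num : (0 : ℝ) < 1 / 8) h1
  have h2 := h (max N₀ (m + 1)) (le_max_left _ _) (by
    have := le_max_right N₀ (m + 1)
    omega)
  have h3 : m ≤ (max N₀ (m + 1)) ^ 2 := by
    have h4 : m + 1 ≤ max N₀ (m + 1) := le_max_right _ _
    nlinarith
  have h4 : (a / b) ^ ((max N₀ (m + 1)) ^ 2) ≤ (a / b) ^ m :=
    pow_le_pow_of_le_one h0 h1.le h3
  have h5 : (1 : ℝ) / 8 ≤ (a / b) ^ ((max N₀ (m + 1)) ^ 2) := by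
    rw [div_pow, le_div_iff₀ (pow_pos hb _)]
    exact h2
  linarith

/-- The inequality for one value of `ε`. -/
theorem COR_eps (hASM : Stmt_ASM) (n k : ℕ) (hk : 2 ≤ k) : ∃ K : ℝ, 0 < K ∧
    ∀ y : Fin k → (Fk (n + 1) →L[ℂ] Fk (n + 1)), Gen n k y → ∀ θ ε : ℝ, 0 < θ → θ ≤ 1 →
    0 < ε → ε ≤ 1 → (∀ j, Nth θ (y j (vac (n + 1))) ≤ ε ^ 2) → θ ^ n ≤ K * ε ^ (k - 1) := by
  obtain ⟨C₁, hC₁, hA⟩ := hASM
  refine ⟨2 ^ n * (C₁ * 33 ^ k * Real.exp (1 + 40 * n)), by positivity, ?_⟩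
  intro y hy θ ε hθ hθ1 hε hε1 hj
  obtain ⟨N₀, hN⟩ := hA n k y hy θ ε hθ hθ1 hε hε1 hj
  have h1 : Real.sin θ ^ n ≤ C₁ / ε * (33 * ε) ^ k * Real.exp (1 + 40 * n) := by
    refine COR_root _ _ (by positivity) N₀ fun N h2 h3 => ?_
    have h4 := hN N h2 h3
    have e1 : (Real.sin θ ^ n) ^ (N ^ 2) = Real.sin θ ^ (n * N ^ 2) := by rw [pow_mul]
    have e2 : (C₁ / ε * (33 * ε) ^ k * Real.exp (1 + 40 * n)) ^ (N ^ 2) =
        (C₁ / ε) ^ (N ^ 2) * (33 * ε) ^ (k * N ^ 2) * Real.exp (1 + 40 * n) ^ (N ^ 2) := by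
      rw [mul_pow, mul_pow, pow_mul (33 * ε) k (N ^ 2)]
    rw [e1, e2]
    exact h4
  have h2 : θ / 2 ≤ Real.sin θ := by
    have h3 := Real.mul_le_sin hθ.le (by have := Real.pi_gt_three; linarith : θ ≤ Real.pi / 2)
    have h4 : (1 : ℝ) / 2 ≤ 2 / Real.pi := by
      rw [div_le_div_iff₀ (by norm_num) Real.pi_pos]
      have := Real.pi_le_four
      linarith
    have h5 : 1 / 2 * θ ≤ 2 / Real.pi * θ := mul_le_mul_of_nonneg_right h4 hθ.le
    linarith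
  have h3 : (θ / 2) ^ n ≤ Real.sin θ ^ n := pow_le_pow_left₀ (by positivity) h2 n
  have h4 : θ ^ n = 2 ^ n * (θ / 2) ^ n := by
    rw [← mul_pow]
    congr 1
    ring
  have h5 : C₁ / ε * (33 * ε) ^ k * Real.exp (1 + 40 * n) =
      C₁ * 33 ^ k * Real.exp (1 + 40 * n) * ε ^ (k - 1) := by
    obtain ⟨m, rfl⟩ : ∃ m, k = m + 1 := ⟨k - 1, by omega⟩
    rw [Nat.add_sub_cancel, mul_pow, pow_succ ε m]
    field_simp
  rw [h4]
  calc (2 : ℝ) ^ n * (θ / 2) ^ n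
      ≤ 2 ^ n * (C₁ * 33 ^ k * Real.exp (1 + 40 * n) * ε ^ (k - 1)) := by
        refine mul_le_mul_of_nonneg_left ?_ (by positivity)
        rw [← h5]
        exact h3.trans h1
    _ = 2 ^ n * (C₁ * 33 ^ k * Real.exp (1 + 40 * n)) * ε ^ (k - 1) := by ring

theorem p_COR (hASM : Stmt_ASM) : Stmt_COR := by
  intro n k hk
  obtain ⟨K, hK, hE⟩ := COR_eps hASM n k hk
  have hs : (0 : ℝ) < (k : ℝ) - 1 := by
    have : (2 : ℝ) ≤ k := by exact_mod_cast hk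
    linarith
  have hs2 : (((k - 1 : ℕ) : ℝ)) = (k : ℝ) - 1 := by
    rw [Nat.cast_sub (by omega), Nat.cast_one]
  refine ⟨min 1 ((1 / K) ^ (2 / ((k : ℝ) - 1))), lt_min one_pos (by positivity), ?_⟩
  intro y hy θ hθ hθ1
  have hnn : ∀ j, 0 ≤ Nth θ (y j (vac (n + 1))) := fun j => COR_nth_nonneg θ _
  have hle : ∀ j, Nth θ (y j (vac (n + 1))) ≤ ∑ j, Nth θ (y j (vac (n + 1))) := fun j =>
    Finset.single_le_sum (f := fun j => Nth θ (y j (vac (n + 1)))) (fun i _ => hnn i)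
      (Finset.mem_univ j)
  have hE0 : 0 ≤ ∑ j, Nth θ (y j (vac (n + 1))) := Finset.sum_nonneg fun j _ => hnn j
  generalize hEd : ∑ j, Nth θ (y j (vac (n + 1))) = E at hle hE0 ⊢
  have hexp : 0 ≤ 2 * (n : ℝ) / ((k : ℝ) - 1) := by positivity
  have hθe : 0 ≤ θ ^ (2 * (n : ℝ) / ((k : ℝ) - 1)) := Real.rpow_nonneg hθ.le _
  rcases le_or_gt 1 E with h1 | h1
  · have h2 : θ ^ (2 * (n : ℝ) / ((k : ℝ) - 1)) ≤ 1 := Real.rpow_le_one hθ.le hθ1 hexp
    calc min 1 ((1 / K) ^ (2 / ((k : ℝ) - 1))) * θ ^ (2 * (n : ℝ) / ((k : ℝ) - 1))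
        ≤ 1 * 1 := mul_le_mul (min_le_left _ _) h2 hθe zero_le_one
      _ ≤ E := by linarith
  · rcases hE0.eq_or_lt with h2 | h2
    · exfalso
      have hθn : 0 < θ ^ n := pow_pos hθ n
      have h3 : 0 < min 1 (θ ^ n / (2 * K)) := lt_min one_pos (by positivity)
      have h4 := hE y hy θ (min 1 (θ ^ n / (2 * K))) hθ hθ1 h3 (min_le_left _ _) (fun j => by
        refine (hle j).trans ?_
        rw [← h2]
        positivity)
      have h5 : (min 1 (θ ^ n / (2 * K))) ^ (k - 1) ≤ θ ^ n / (2 * K) := by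
        calc (min 1 (θ ^ n / (2 * K))) ^ (k - 1) ≤ (min 1 (θ ^ n / (2 * K))) ^ 1 :=
              pow_le_pow_of_le_one h3.le (min_le_left _ _) (by omega)
          _ = min 1 (θ ^ n / (2 * K)) := pow_one _
          _ ≤ θ ^ n / (2 * K) := min_le_right _ _
      have h6 : K * (min 1 (θ ^ n / (2 * K))) ^ (k - 1) ≤ K * (θ ^ n / (2 * K)) :=
        mul_le_mul_of_nonneg_left h5 hK.le
      have h7 : K * (θ ^ n / (2 * K)) = θ ^ n / 2 := by
        field_simp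
      linarith
    · have h3 := hE y hy θ (Real.sqrt E) hθ hθ1 (Real.sqrt_pos.2 h2)
        (Real.sqrt_le_one.2 h1.le) (fun j => by
          rw [Real.sq_sqrt hE0]
          exact hle j)
      have h4 : θ ^ n / K ≤ Real.sqrt E ^ (k - 1) := by
        rw [div_le_iff₀ hK]
        linarith
      have h5 : (θ ^ n / K) ^ (2 / ((k : ℝ) - 1)) ≤
          (Real.sqrt E ^ (k - 1)) ^ (2 / ((k : ℝ) - 1)) :=
        Real.rpow_le_rpow (by positivity) h4 (by positivity)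
      have h6 : (Real.sqrt E ^ (k - 1)) ^ (2 / ((k : ℝ) - 1)) = E := by
        rw [← Real.rpow_natCast, ← Real.rpow_mul (Real.sqrt_nonneg E), hs2]
        have h7 : ((k : ℝ) - 1) * (2 / ((k : ℝ) - 1)) = ((2 : ℕ) : ℝ) := by
          push_cast
          field_simp
        rw [h7, Real.rpow_natCast, Real.sq_sqrt hE0]
      have h7 : (θ ^ n / K) ^ (2 / ((k : ℝ) - 1)) =
          (1 / K) ^ (2 / ((k : ℝ) - 1)) * θ ^ (2 * (n : ℝ) / ((k : ℝ) - 1)) := by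
        rw [div_eq_mul_one_div, Real.mul_rpow (by positivity) (by positivity), mul_comm,
          ← Real.rpow_natCast, ← Real.rpow_mul hθ.le]
        congr 2
        ring
      calc min 1 ((1 / K) ^ (2 / ((k : ℝ) - 1))) * θ ^ (2 * (n : ℝ) / ((k : ℝ) - 1))
          ≤ (1 / K) ^ (2 / ((k : ℝ) - 1)) * θ ^ (2 * (n : ℝ) / ((k : ℝ) - 1)) :=
            mul_le_mul_of_nonneg_right (min_le_right _ _) hθe
        _ = (θ ^ n / K) ^ (2 / ((k : ℝ) - 1)) := h7.symm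
        _ ≤ E := by rw [← h6]; exact h5

end Pool.FR
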