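import Pool.Agent.Work.MP_118406_fr.InterfaceS

set_option autoImplicit false

/-!
# The degree of approximating polynomials
-/

open scoped InnerProductSpace ComplexConjugate Topology BigOperators
open Set Filter MeasureTheory Pool.SI

noncomputable section

namespace Pool.FR

/-- The degree of good approximations of a generating semicircular family is large. -/
def Stmt_DGR : Prop := ∀ n s : ℕ, n + 1 ≤ s → 2 ≤ s → ∃ c : ℝ, 0 < c ∧
  ∀ (k : ℕ) (S : Finset (Fin k)), S.card = s →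
  ∀ y : Fin k → (Fk (n + 1) →L[ℂ] Fk (n + 1)), Gen n k y →
  ∀ (d : ℕ) (ε : ℝ) (ξ : Fin k → Fk (n + 1)), 1 ≤ d → 0 < ε → ε ≤ 1 →
    (∀ j ∈ S, ∀ w, d < cnt w → ξ j w = 0) → (∀ j ∈ S, ‖y j (vac (n + 1)) - ξ j‖ ≤ ε) →
    c ≤ (d : ℝ) ^ n * ε ^ (2 * (s - (n + 1)))

theorem DGR_norm (hSDE : Stmt_SDE) {n k : ℕ} {y : Fin k → (Fk (n + 1) →L[ℂ] Fk (n + 1))}
    (hy : Gen n k y) (j : Fin k) : ‖y j (vac (n + 1))‖ = 1 := by
  have h1 := hy.mom [j, j]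
  have h2 : tau [j, j] = 1 := by
    obtain ⟨t1, _, _, t4, _⟩ := hSDE k
    rw [t4]
    have h5 : ∀ p : Fin ([j]).length,
        (if ([j]).get p = j then tau (([j]).take p) * tau (([j]).drop (p + 1)) else 0) = 1 := by
      intro p
      have hp : (p : ℕ) = 0 := by
        have := p.2
        simp only [List.length_singleton] at this
        omega
      have hg : ([j]).get p = j := by
        simp
      rw [if_pos hg, hp]
      simp only [List.take_zero, zero_add, List.drop_succ_cons, List.drop_zero, t1, mul_one]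
    rw [Finset.sum_congr rfl fun p _ => h5 p]
    simp
  rw [h2] at h1
  simp only [List.map_cons, List.map_nil, List.prod_cons, List.prod_nil, mul_one] at h1
  have h3 : ⟪vac (n + 1), (y j * y j) (vac (n + 1))⟫_ℂ =
      ⟪y j (vac (n + 1)), y j (vac (n + 1))⟫_ℂ := by
    have h4 : ContinuousLinearMap.adjoint (y j) = y j := by
      rw [← ContinuousLinearMap.star_eq_adjoint]
      exact hy.sa j
    change ⟪vac (n + 1), y j (y j (vac (n + 1)))⟫_ℂ = _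
    rw [← ContinuousLinearMap.adjoint_inner_left, h4]
  rw [h3, inner_self_eq_norm_sq_to_K] at h1
  have h5 : (‖y j (vac (n + 1))‖ : ℂ) ^ 2 = 1 := h1
  have h6 : ‖y j (vac (n + 1))‖ ^ 2 = 1 := by exact_mod_cast h5
  have h7 : 0 ≤ ‖y j (vac (n + 1))‖ := norm_nonneg _
  nlinarith

theorem DGR_low (hNTH : Stmt_NTH) {n : ℕ} (θ : ℝ) (hθ : 0 ≤ θ) (hθ1 : θ ≤ 1) (d : ℕ)
    (ξ : Fk (n + 1)) (h : ∀ w, d < cnt w → ξ w = 0) : Nth θ ξ ≤ 2 * θ ^ 2 * (d * ‖ξ‖ ^ 2) := by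
  have hs : HasSum (fun w : List (Fin (n + 1)) => ‖ξ w‖ ^ 2) (‖ξ‖ ^ 2) := by
    have := lp.hasSum_norm (p := 2) (by norm_num) ξ
    simpa using this
  have hle : ∀ w : List (Fin (n + 1)), (cnt w : ℝ) ^ (1 : ℝ) * ‖ξ w‖ ^ 2 ≤ d * ‖ξ w‖ ^ 2 := by
    intro w
    rw [Real.rpow_one]
    rcases Nat.lt_or_ge d (cnt w) with h1 | h1
    · rw [h w h1]
      simp
    · have : (cnt w : ℝ) ≤ d := by exact_mod_cast h1
      exact mul_le_mul_of_nonneg_right this (sq_nonneg _)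
  have hsum : Summable fun w : List (Fin (n + 1)) => (cnt w : ℝ) ^ (1 : ℝ) * ‖ξ w‖ ^ 2 :=
    Summable.of_nonneg_of_le (fun w => by positivity) hle (hs.summable.mul_left _)
  have h1 := (hNTH n θ hθ hθ1).2.2 1 ξ one_pos le_rfl hsum
  have h2 : ∑' w : List (Fin (n + 1)), (cnt w : ℝ) ^ (1 : ℝ) * ‖ξ w‖ ^ 2 ≤ d * ‖ξ‖ ^ 2 := by
    rw [← (hs.mul_left (d : ℝ)).tsum_eq]
    exact hsum.tsum_le_tsum hle (hs.summable.mul_left _)
  have h3 : θ ^ (2 * (1 : ℝ)) = θ ^ 2 := by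
    rw [mul_one]
    exact Real.rpow_natCast θ 2
  rw [h3] at h1
  exact h1.trans (mul_le_mul_of_nonneg_left h2 (by positivity))

theorem p_DGR (hSDE : Stmt_SDE) (hNTH : Stmt_NTH) (hCOS : Stmt_COS) : Stmt_DGR := by
  intro n s hns hs
  obtain ⟨c, hc, hC⟩ := hCOS n s hs
  have hsr : (0 : ℝ) < s := by
    have : (2 : ℝ) ≤ s := by exact_mod_cast hs
    linarith
  have hs1 : (0 : ℝ) < (s : ℝ) - 1 := by
    have : (2 : ℝ) ≤ s := by exact_mod_cast hs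
    linarith
  have hs2 : (((s - 1 : ℕ) : ℝ)) = (s : ℝ) - 1 := by
    rw [Nat.cast_sub (by omega), Nat.cast_one]
  refine ⟨(c / (20 * s)) ^ (s - 1), by positivity, ?_⟩
  intro k S hS y hy d ε ξ hd hε hε1 h1 h2
  have hdr : (0 : ℝ) < d := by exact_mod_cast hd
  have hd1 : (1 : ℝ) ≤ d := by exact_mod_cast hd
  have ht : 0 < ε ^ 2 / d := by positivity
  have ht1 : ε ^ 2 / d ≤ 1 := by
    rw [div_le_one hdr]
    nlinarith
  have hθ : 0 < Real.sqrt (ε ^ 2 / d) := Real.sqrt_pos.2 ht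
  have hθ1 : Real.sqrt (ε ^ 2 / d) ≤ 1 := Real.sqrt_le_one.2 ht1
  have h3 := hC k S hS y hy _ hθ hθ1
  have h4 : ∀ j ∈ S, Nth (Real.sqrt (ε ^ 2 / d)) (y j (vac (n + 1))) ≤ 20 * ε ^ 2 := by
    intro j hj
    have e1 := ((hNTH n _ hθ.le hθ1).1 (y j (vac (n + 1))) (ξ j)).2
    have e2 := DGR_low hNTH _ hθ.le hθ1 d (ξ j) (h1 j hj)
    rw [Real.sq_sqrt ht.le] at e2
    have e3 : ‖ξ j‖ ≤ 2 := by
      have e4 : ‖ξ j‖ ≤ ‖y j (vac (n + 1))‖ + ‖y j (vac (n + 1)) - ξ j‖ := by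
        have := norm_sub_le (y j (vac (n + 1))) (y j (vac (n + 1)) - ξ j)
        rwa [sub_sub_cancel] at this
      rw [DGR_norm hSDE hy j] at e4
      linarith [h2 j hj]
    have e5 : ‖ξ j‖ ^ 2 ≤ 4 := by
      have := norm_nonneg (ξ j)
      nlinarith
    have e6 : 2 * (ε ^ 2 / d) * (d * ‖ξ j‖ ^ 2) = 2 * ε ^ 2 * ‖ξ j‖ ^ 2 := by
      field_simp
    rw [e6] at e2
    have e7 : 2 * ε ^ 2 * ‖ξ j‖ ^ 2 ≤ 2 * ε ^ 2 * 4 :=
      mul_le_mul_of_nonneg_left e5 (by positivity)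
    have e8 : ‖y j (vac (n + 1)) - ξ j‖ ^ 2 ≤ ε ^ 2 :=
      pow_le_pow_left₀ (norm_nonneg _) (h2 j hj) 2
    linarith
  have h5 : ∑ j ∈ S, Nth (Real.sqrt (ε ^ 2 / d)) (y j (vac (n + 1))) ≤ s * (20 * ε ^ 2) := by
    refine (Finset.sum_le_sum h4).trans (le_of_eq ?_)
    rw [Finset.sum_const, hS, nsmul_eq_mul]
  have h6 : Real.sqrt (ε ^ 2 / d) ^ (2 * (n : ℝ) / ((s : ℝ) - 1)) =
      (ε ^ 2 / d) ^ ((n : ℝ) / ((s : ℝ) - 1)) := by
    rw [Real.sqrt_eq_rpow, ← Real.rpow_mul ht.le]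
    congr 1
    field_simp
  rw [h6] at h3
  have h7 : c / (20 * s) * (ε ^ 2 / d) ^ ((n : ℝ) / ((s : ℝ) - 1)) ≤ ε ^ 2 := by
    have e1 := h3.trans h5
    have e2 : c / (20 * s) * (ε ^ 2 / d) ^ ((n : ℝ) / ((s : ℝ) - 1)) =
        (c * (ε ^ 2 / d) ^ ((n : ℝ) / ((s : ℝ) - 1))) / (20 * s) := by ring
    rw [e2, div_le_iff₀ (by positivity)]
    linarith
  have h8 : (c / (20 * s) * (ε ^ 2 / d) ^ ((n : ℝ) / ((s : ℝ) - 1))) ^ (s - 1) ≤
      (ε ^ 2) ^ (s - 1) := pow_le_pow_left₀ (by positivity) h7 _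
  have h9 : ((ε ^ 2 / d) ^ ((n : ℝ) / ((s : ℝ) - 1))) ^ (s - 1) = (ε ^ 2 / d) ^ n := by
    rw [← Real.rpow_natCast _ (s - 1), ← Real.rpow_mul ht.le, hs2, div_mul_cancel₀ _ hs1.ne',
      Real.rpow_natCast]
  rw [mul_pow, h9, div_pow (ε ^ 2), ← mul_div_assoc, div_le_iff₀ (by positivity)] at h8
  have h10 : (ε ^ 2) ^ (s - 1) = ε ^ (2 * (s - (n + 1))) * (ε ^ 2) ^ n := by
    rw [← pow_mul, ← pow_mul, ← pow_add]
    congr 1
    omega
  rw [h10] at h8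
  have h11 : (c / (20 * s)) ^ (s - 1) * (ε ^ 2) ^ n ≤
      ((d : ℝ) ^ n * ε ^ (2 * (s - (n + 1)))) * (ε ^ 2) ^ n := by
    calc (c / (20 * s)) ^ (s - 1) * (ε ^ 2) ^ n
        ≤ ε ^ (2 * (s - (n + 1))) * (ε ^ 2) ^ n * d ^ n := h8
      _ = ((d : ℝ) ^ n * ε ^ (2 * (s - (n + 1)))) * (ε ^ 2) ^ n := by ring
  exact le_of_mul_le_mul_right h11 (by positivity)

end Pool.FR
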