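import Pool.Agent.Work.MP_118406_fr.Interface

set_option autoImplicit false

/-!
# Irregularity of all isomorphisms: block LOW

For good `Y` and a good gauge `x` the rotation works.
-/

open scoped InnerProductSpace ComplexConjugate Topology BigOperators
open Set Filter MeasureTheory Pool.SI

noncomputable section

namespace Pool.FR

/-- Conjugation by a unitary matrix as an algebra homomorphism. -/
def LOW_cj {N : ℕ} (V : Mat N) (hV : Uni V) : Mat N →ₐ[ℂ] Mat N where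
  toFun X := V * X * star V
  map_one' := by rw [mul_one]; exact hV.2
  map_mul' X Y := by
    have h := hV.1
    calc V * (X * Y) * star V = V * X * 1 * Y * star V := by
          rw [mul_one]; simp only [mul_assoc]
      _ = V * X * (star V * V) * Y * star V := by rw [h]
      _ = V * X * star V * (V * Y * star V) := by simp only [mul_assoc]
  map_zero' := by simp
  map_add' X Y := by simp [mul_add, add_mul]
  commutes' r := by
    rw [← Algebra.commutes r V, mul_assoc, hV.2, mul_one]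

theorem LOW_ev_cj {N : ℕ} {k : Type} (V : Mat N) (hV : Uni V) (A : k → Mat N)
    (q : FreeAlgebra ℂ k) :
    ev (fun i => V * A i * star V) q = V * ev A q * star V := by
  have h : (LOW_cj V hV).comp (ev A) = ev (fun i => V * A i * star V) := by
    apply FreeAlgebra.hom_ext
    funext i
    show (LOW_cj V hV) (ev A (FreeAlgebra.ι ℂ i)) = ev (fun i => V * A i * star V) (FreeAlgebra.ι ℂ i)
    rw [FreeAlgebra.lift_ι_apply, FreeAlgebra.lift_ι_apply]
    rfl
  rw [← h]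
  rfl

theorem LOW_ev_word {k : Type} {R : Type} [Ring R] [Algebra ℂ R] (A : k → R) (w : List k) :
    ev A ((w.map (FreeAlgebra.ι ℂ)).prod) = (w.map A).prod := by
  rw [map_list_prod, List.map_map]
  congr 1
  apply List.map_congr_left
  intro i _
  exact FreeAlgebra.lift_ι_apply A i

theorem LOW_uni_star {N : ℕ} {V : Mat N} (hV : Uni V) : Uni (star V) := by
  refine ⟨?_, ?_⟩
  · rw [star_star]; exact hV.2
  · rw [star_star]; exact hV.1

theorem LOW_nn_nonneg {N : ℕ} (A : Mat N) : 0 ≤ nn A := by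
  unfold nn; positivity

theorem LOW_nn_cj (hMXA : Stmt_MXA) {N : ℕ} (h1 : 1 ≤ N) {V : Mat N} (hV : Uni V) (X : Mat N) :
    nn (V * X * star V) = nn X := by
  obtain ⟨-, -, -, -, -, -, -, h8⟩ := hMXA N h1
  rw [(h8 (star V) (V * X) (LOW_uni_star hV)).2, (h8 V X hV).1]

theorem LOW_nn3 (hMXA : Stmt_MXA) {N : ℕ} (h1 : 1 ≤ N) (A B C : Mat N) :
    nn (A + B + C) ≤ 3 * nn A + 3 * nn B + 3 * nn C := by
  obtain ⟨-, -, -, -, -, h6, -, -⟩ := hMXA N h1
  have ha := Real.sq_sqrt (LOW_nn_nonneg A)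
  have hb := Real.sq_sqrt (LOW_nn_nonneg B)
  have hc := Real.sq_sqrt (LOW_nn_nonneg C)
  have hs := Real.sq_sqrt (LOW_nn_nonneg (A + B + C))
  have e1 := h6 (A + B) C
  have e2 := h6 A B
  have p0 := Real.sqrt_nonneg (nn (A + B + C))
  have pa := Real.sqrt_nonneg (nn A)
  have pb := Real.sqrt_nonneg (nn B)
  have pc := Real.sqrt_nonneg (nn C)
  have e3 : Real.sqrt (nn (A + B + C)) ≤ Real.sqrt (nn A) + Real.sqrt (nn B) + Real.sqrt (nn C) := by
    linarith
  nlinarith [sq_nonneg (Real.sqrt (nn A) - Real.sqrt (nn B)),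
    sq_nonneg (Real.sqrt (nn B) - Real.sqrt (nn C)),
    sq_nonneg (Real.sqrt (nn A) - Real.sqrt (nn C))]

theorem LOW_common {ι : Type} (s : Set ι) (hs : s.Finite) (P : ι → ℝ → Prop)
    (hmono : ∀ i a b, a ≤ b → P i a → P i b) (h : ∀ i, ∃ a, P i a) :
    ∃ a : ℝ, 1 ≤ a ∧ ∀ i ∈ s, P i a := by
  classical
  choose f hf using h
  have h0 : 0 ≤ ∑ i ∈ hs.toFinset, |f i| := Finset.sum_nonneg fun i _ => abs_nonneg _
  refine ⟨1 + ∑ i ∈ hs.toFinset, |f i|, by linarith, fun i hi => hmono i (f i) _ ?_ (hf i)⟩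
  have h1 : |f i| ≤ ∑ i ∈ hs.toFinset, |f i| :=
    Finset.single_le_sum (f := fun i => |f i|) (fun i _ => abs_nonneg _) (hs.mem_toFinset.2 hi)
  linarith [le_abs_self (f i)]

theorem LOW_min {k : ℕ} (δ : Fin k → ℝ) (h : ∀ j, 0 < δ j) :
    ∃ δ₀ : ℝ, 0 < δ₀ ∧ ∀ j, δ₀ ≤ δ j := by
  have h0 : 0 ≤ ∑ j, (δ j)⁻¹ := Finset.sum_nonneg fun j _ => (inv_pos.2 (h j)).le
  refine ⟨(1 + ∑ j, (δ j)⁻¹)⁻¹, by positivity, fun j => ?_⟩
  have h1 : (δ j)⁻¹ ≤ ∑ j, (δ j)⁻¹ :=
    Finset.single_le_sum (f := fun j => (δ j)⁻¹) (fun j _ => (inv_pos.2 (h j)).le)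
      (Finset.mem_univ j)
  rw [inv_le_comm₀ (by positivity) (h j)]
  linarith

theorem LOW_max {k : ℕ} (m : Fin k → ℕ) : ∃ m₀ : ℕ, ∀ j, m j ≤ m₀ :=
  ⟨∑ j, m j, fun j => Finset.single_le_sum (f := m) (fun _ _ => Nat.zero_le _) (Finset.mem_univ j)⟩

theorem LOW_vac (k : ℕ) : ‖vac k‖ = 1 := by
  unfold vac bs
  simp [lp.norm_single]

theorem LOW_mk {k : ℕ} {Ω : Type} [MeasurableSpace Ω] (μ : Measure Ω) [IsProbabilityMeasure μ]
    (E : Fin k → Ω → ℝ) (S : Ω → ℝ) (ε : ℝ) (hε : 0 < ε)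
    (hE0 : ∀ j g, 0 ≤ E j g) (hint : ∀ j, Integrable (E j) μ)
    (hE : ∀ j, ∫ g, E j g ∂μ ≤ 7 * ε ^ 2)
    (hS : ∀ g, S g ≤ ∑ j, (3 * E j g + 15 * ε ^ 2)) :
    μ {g | 144 * k * ε ^ 2 < S g} ≤ ENNReal.ofReal (1 / 4) := by
  rcases Nat.eq_zero_or_pos k with rfl | hk
  · have h0 : {g | 144 * ((0 : ℕ) : ℝ) * ε ^ 2 < S g} = ∅ := by
      ext g
      have := hS g
      simp only [Finset.univ_eq_empty, Finset.sum_empty] at this
      simp only [Nat.cast_zero, mul_zero, zero_mul, mem_ofPred_eq, mem_empty_iff_false, iff_false,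
        not_lt]
      exact this
    rw [h0]
    simp
  · have hkr : (0 : ℝ) < k := by exact_mod_cast hk
    have hTi : ∀ j, Integrable (fun g => 3 * E j g + 15 * ε ^ 2) μ := fun j =>
      ((hint j).const_mul 3).add (integrable_const _)
    have hTint : Integrable (fun g => ∑ j, (3 * E j g + 15 * ε ^ 2)) μ :=
      integrable_finsetSum _ fun j _ => hTi j
    have hT : ∫ g, ∑ j, (3 * E j g + 15 * ε ^ 2) ∂μ ≤ 36 * k * ε ^ 2 := by
      rw [integral_finsetSum _ fun j _ => hTi j]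
      calc ∑ j, ∫ g, (3 * E j g + 15 * ε ^ 2) ∂μ ≤ ∑ _j : Fin k, (36 * ε ^ 2) := by
            refine Finset.sum_le_sum fun j _ => ?_
            rw [integral_add ((hint j).const_mul 3) (integrable_const _), integral_const_mul,
              integral_const]
            simp only [probReal_univ, smul_eq_mul, one_mul]
            linarith [hE j]
        _ = 36 * k * ε ^ 2 := by
            rw [Finset.sum_const, Finset.card_univ, Fintype.card_fin, nsmul_eq_mul]; ring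
    have hm := mul_meas_ge_le_integral_of_nonneg (μ := μ)
      (f := fun g => ∑ j, (3 * E j g + 15 * ε ^ 2))
      (Eventually.of_forall fun g => Finset.sum_nonneg fun j _ =>
        add_nonneg (mul_nonneg (by norm_num) (hE0 j g)) (by positivity)) hTint (144 * k * ε ^ 2)
    have hpos : 0 < 144 * (k : ℝ) * ε ^ 2 := by positivity
    have hr : μ.real {g | 144 * k * ε ^ 2 ≤ ∑ j, (3 * E j g + 15 * ε ^ 2)} ≤ 1 / 4 := by
      have h2 : 144 * (k : ℝ) * ε ^ 2 *
          μ.real {g | 144 * k * ε ^ 2 ≤ ∑ j, (3 * E j g + 15 * ε ^ 2)} ≤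
          144 * (k : ℝ) * ε ^ 2 * (1 / 4) := by
        refine (hm.trans hT).trans (le_of_eq ?_)
        ring
      exact le_of_mul_le_mul_left h2 hpos
    calc μ {g | 144 * k * ε ^ 2 < S g} ≤ μ {g | 144 * k * ε ^ 2 ≤ ∑ j, (3 * E j g + 15 * ε ^ 2)} :=
          measure_mono fun g hg => (le_of_lt hg).trans (hS g)
      _ ≤ ENNReal.ofReal (1 / 4) := by
          rw [← ENNReal.ofReal_toReal (measure_ne_top μ _)]
          exact ENNReal.ofReal_le_ofReal hr

theorem LOW_MC_mono {k m m' : ℕ} {γ γ' : ℝ} {N : ℕ} {A : Fin k → Mat N} (hm : m' ≤ m)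
    (hγ : γ ≤ γ') (h : MC k m γ N A) : MC k m' γ' N A :=
  ⟨h.1, fun w hw => (h.2 w (hw.trans hm)).trans hγ⟩

theorem LOW_nn_symm {N : ℕ} (A B : Mat N) : nn (A - B) = nn (B - A) := by
  unfold nn
  congr 1
  refine Finset.sum_congr rfl fun a _ => Finset.sum_congr rfl fun b _ => ?_
  rw [Matrix.sub_apply, Matrix.sub_apply, norm_sub_rev]

theorem LOW_nn_self {N : ℕ} (A : Mat N) : nn (A - A) = 0 := by
  unfold nn
  simp

theorem LOW_herm {N : ℕ} (V A : Mat N) (hA : A.IsHermitian) :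
    (V * A * star V).IsHermitian := by
  have h : star A = A := hA
  show star (V * A * star V) = V * A * star V
  rw [star_mul, star_star, star_mul, h, mul_assoc]

/-- The tuple with the first matrix replaced by the gauge matrix. -/
def LOW_A' {n N : ℕ} (D V : Mat N) (A : Fin (n + 1) → Mat N) : Fin (n + 1) → Mat N :=
  Fin.cons D fun i => V * A i.succ * star V

theorem LOW_sumle {n N : ℕ} (D V : Mat N) (A : Fin (n + 1) → Mat N) (η : ℝ)
    (h : nn (V * A 0 * star V - D) ≤ η) :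
    ∑ i, nn (LOW_A' D V A i - V * A i * star V) ≤ η := by
  rw [Fin.sum_univ_succ]
  have h0 : nn (LOW_A' D V A 0 - V * A 0 * star V) ≤ η := by
    rw [LOW_nn_symm]
    exact h
  have h1 : ∀ i : Fin n, nn (LOW_A' D V A i.succ - V * A i.succ * star V) = 0 := by
    intro i
    have : LOW_A' D V A i.succ = V * A i.succ * star V := by
      simp [LOW_A']
    rw [this, LOW_nn_self]
  rw [Finset.sum_congr rfl fun i _ => h1 i]
  simpa using h0

theorem LOW_rot (hHMB : Stmt_HMB) {n N : ℕ} (h1 : 1 ≤ N) (θ : ℝ) (D V : Mat N)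
    (A : Fin (n + 1) → Mat N) (xx : Fin n → Fin N × Fin N → ℝ)
    (hxx : ∀ i, hm (xx i) = V * A i.succ * star V) (g : Fin n × Fin N × Fin N → ℝ) :
    (Fin.cons D (hmk fun i => Real.cos θ * xx i.1 i.2 + Real.sin θ * g i) :
      Fin (n + 1) → Mat N) = rotm θ (LOW_A' D V A) (hmk g) := by
  obtain ⟨-, h2, h3, -, -, -, -⟩ := hHMB N h1
  funext i
  refine Fin.cases ?_ (fun i => ?_) i
  · simp [rotm, LOW_A']
  · have e1 : (Fin.cons D (hmk fun i => Real.cos θ * xx i.1 i.2 + Real.sin θ * g i) :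
        Fin (n + 1) → Mat N) i.succ =
        hm (Real.cos θ • xx i + Real.sin θ • (fun p => g (i, p))) := by
      simp only [Fin.cons_succ, hmk]
      rfl
    have e2 : rotm θ (LOW_A' D V A) (hmk g) i.succ =
        (Real.cos θ : ℂ) • (V * A i.succ * star V) + (Real.sin θ : ℂ) • hmk g i := by
      simp only [rotm, Fin.cons_succ, LOW_A']
    rw [e1, e2, (h2 _ _).1, h3, h3, hxx]
    rfl

theorem LOW_csum (hMXA : Stmt_MXA) (hOBB : Stmt_OBB) (hHMB : Stmt_HMB) {n N : ℕ} (h1 : 1 ≤ N)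
    (V : Mat N) (hV : Uni V) (A : Fin (n + 1) → Mat N) (hA : ∀ i, OB 3 (A i))
    (xx : Fin n → Fin N × Fin N → ℝ) (hxx : ∀ i, hm (xx i) = V * A i.succ * star V) :
    ∑ i : Fin n × Fin N × Fin N, xx i.1 i.2 ^ 2 ≤ 9 * n * (N : ℝ) ^ 2 := by
  obtain ⟨-, -, -, h4, -, -, -⟩ := hHMB N h1
  obtain ⟨-, -, -, o4, -⟩ := hOBB N h1
  have hN : (0 : ℝ) < (N : ℝ) ^ 2 := by
    have : (0 : ℝ) < N := by exact_mod_cast h1
    positivity
  rw [Fintype.sum_prod_type]
  calc ∑ i : Fin n, ∑ p : Fin N × Fin N, xx i p ^ 2 ≤ ∑ _i : Fin n, 9 * (N : ℝ) ^ 2 := by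
        refine Finset.sum_le_sum fun i _ => ?_
        have e1 := h4 (xx i)
        have e2 : nn (hm (xx i) : Mat N) ≤ 9 := by
          rw [hxx, LOW_nn_cj hMXA h1 hV]
          have := (o4 3 (A i.succ) (hA i.succ)).2.1
          linarith
        rw [e1, div_le_iff₀ hN] at e2
        exact e2
    _ = 9 * n * (N : ℝ) ^ 2 := by
        rw [Finset.sum_const, Finset.card_univ, Fintype.card_fin, nsmul_eq_mul]; ring

theorem LOW_OB'' (hOBB : Stmt_OBB) {N : ℕ} (h1 : 1 ≤ N) (V : Mat N) (hV : Uni V) (X : Mat N)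
    (hX : OB 3 X) : OB 4 (V * X * star V) := by
  obtain ⟨-, o2, -, o4, o5⟩ := hOBB N h1
  have e1 := (o2 1 3 V X (o5 V hV).1 hX).1
  have e2 := (o2 (1 * 3) 1 (V * X) (star V) e1 (o5 V hV).2).1
  exact (o4 _ _ e2).2.2 4 (by norm_num)

instance LOW_prob (ι : Type) [Fintype ι] : IsProbabilityMeasure (gs ι) := by
  unfold gs
  infer_instance

theorem p_LOW (hMXA : Stmt_MXA) (hOBB : Stmt_OBB) (hHMB : Stmt_HMB) (hBDT : Stmt_BDT)
    (_hSDE : Stmt_SDE) (hEMB : Stmt_EMB) (hNTH : Stmt_NTH) (hSPL : Stmt_SPL) (hTRA : Stmt_TRA)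
    (hCPX : Stmt_CPX) (hMTC : Stmt_MTC) (hGEX : Stmt_GEX) : Stmt_LOW := by
  intro n k y hy θ ε hθ hθ1 hε hε1 hN
  have hp : ∀ j, ∃ p : FreeAlgebra ℂ (Fin (n + 1)), ‖y j - ev sc p‖ ≤ ε := fun j =>
    hSPL (n + 1) (y j) (hy.mem j) ε hε
  choose p hp using hp
  have hNp : ∀ j, Nth θ ((ev sc (p j)) (vac (n + 1))) ≤ 6 * ε ^ 2 := by
    intro j
    have h1 := ((hNTH n θ hθ.le hθ1).1 ((ev sc (p j)) (vac (n + 1))) (y j (vac (n + 1)))).2
    have h2 : ‖(ev sc (p j)) (vac (n + 1)) - y j (vac (n + 1))‖ ≤ ε := by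
      rw [norm_sub_rev]
      have h3 := (y j - ev sc (p j)).le_opNorm (vac (n + 1))
      rw [LOW_vac, mul_one] at h3
      exact h3.trans (hp j)
    have h4 := hN j
    have h5 : ‖(ev sc (p j)) (vac (n + 1)) - y j (vac (n + 1))‖ ^ 2 ≤ ε ^ 2 :=
      pow_le_pow_left₀ (norm_nonneg _) h2 2
    linarith
  -- the rotation error
  have hG := fun j => hGEX n (p j) θ (ε ^ 2) (by positivity)
  choose mG NG δG hδG hG using hG
  obtain ⟨m₀, hm₀⟩ := LOW_max mG
  obtain ⟨NG₀, hNG₀⟩ := LOW_max NG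
  obtain ⟨δ₀, hδ₀, hδ₀'⟩ := LOW_min δG hδG
  -- the polynomials
  obtain ⟨K, hK1, hK⟩ := LOW_common
    (range p ∪ (fun w : List (Fin (n + 1)) => (w.map (FreeAlgebra.ι ℂ)).prod) ''
      {w : List (Fin (n + 1)) | w.length ≤ m₀})
    ((finite_range p).union ((List.finite_length_le (Fin (n + 1)) m₀).image _))
    (fun q K => ∀ (N : ℕ) (A B : Fin (n + 1) → Mat N), 1 ≤ N → (∀ i, OB 4 (A i)) →
      (∀ i, OB 4 (B i)) → nn (ev A q - ev B q) ≤ K * ∑ i, nn (A i - B i))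
    (fun q a b hab h N A B h1 h2 h3 => (h N A B h1 h2 h3).trans
      (mul_le_mul_of_nonneg_right hab (Finset.sum_nonneg fun i _ => LOW_nn_nonneg _)))
    (fun q => by
      obtain ⟨K, -, h⟩ := hBDT (Fin (n + 1)) q
      exact ⟨K, fun N A B h1 h2 h3 => (h N A B h1 h2 h3).2⟩)
  have hK0 : 0 < K := lt_of_lt_of_le one_pos hK1
  obtain ⟨η, hη, hη1, hη2⟩ : ∃ η : ℝ, 0 < η ∧ K * η ≤ ε ^ 2 ∧ K * η ≤ (δ₀ / 2) ^ 2 := by
    refine ⟨min (ε ^ 2 / K) ((δ₀ / 2) ^ 2 / K), by positivity, ?_, ?_⟩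
    · calc K * min (ε ^ 2 / K) ((δ₀ / 2) ^ 2 / K) ≤ K * (ε ^ 2 / K) :=
          mul_le_mul_of_nonneg_left (min_le_left _ _) hK0.le
        _ = ε ^ 2 := by field_simp
    · calc K * min (ε ^ 2 / K) ((δ₀ / 2) ^ 2 / K) ≤ K * ((δ₀ / 2) ^ 2 / K) :=
          mul_le_mul_of_nonneg_left (min_le_right _ _) hK0.le
        _ = (δ₀ / 2) ^ 2 := by field_simp
  obtain ⟨m₂, δ₂, hδ₂, hM⟩ := hMTC η hη
  obtain ⟨m₃, γ₃, hγ₃, hT⟩ := hTRA n k y hy p ε hε hp (max m₀ m₂) (min (δ₀ / 2) (δ₂ / 2))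
    (by positivity)
  obtain ⟨m₄, N₄, γ₄, hγ₄, hC⟩ := hCPX m₂ (δ₂ / 2) (by positivity)
  refine ⟨p, max m₃ m₄, max NG₀ N₄, min γ₃ γ₄, lt_min hγ₃ hγ₄, ?_⟩
  intro N f hNN h1 hf Y x hY hx
  obtain ⟨A, hA3, hAM, hAp⟩ := hT N Y h1 (LOW_MC_mono (le_max_left _ _) (min_le_left _ _) hY)
  obtain ⟨hDh, hD4, hDm⟩ := hC N f (hm x) ((le_max_right _ _).trans hNN) h1 hf
    ((hHMB N h1).1 x) fun j hj => (hx j (hj.trans (le_max_right _ _))).trans (min_le_right _ _)
  set D : Mat N := Polynomial.aeval (hm x : Mat N) f with hDdef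
  have hA4 : ∀ i, OB 4 (A i) := fun i => ((hOBB N h1).2.2.2.1 3 (A i) (hA3 i)).2.2 4 (by norm_num)
  -- the moments of the first matrix
  have hmom : ∀ j ≤ m₂, ‖ntr ((A 0) ^ j) - ntr (D ^ j)‖ ≤ δ₂ := by
    intro j hj
    have e1 := hAM.2 (List.replicate j 0) (by
      rw [List.length_replicate]; exact hj.trans (le_max_right _ _))
    rw [List.map_replicate, List.prod_replicate] at e1
    have e2 : tau (List.replicate j (0 : Fin (n + 1))) = cat j := by
      have e3 := hEMB 1 (n + 1) (fun _ => 0) (List.replicate j (0 : Fin 1))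
        (Function.injective_of_subsingleton _)
      rw [List.map_replicate] at e3
      exact e3
    rw [e2] at e1
    have e4 := hDm j hj
    have e5 : min (δ₀ / 2) (δ₂ / 2) ≤ δ₂ / 2 := min_le_right _ _
    calc ‖ntr ((A 0) ^ j) - ntr (D ^ j)‖
        = ‖(ntr ((A 0) ^ j) - cat j) - (ntr (D ^ j) - cat j)‖ := by congr 1; ring
      _ ≤ ‖ntr ((A 0) ^ j) - cat j‖ + ‖ntr (D ^ j) - cat j‖ := norm_sub_le _ _
      _ ≤ δ₂ / 2 + δ₂ / 2 := add_le_add (e1.trans e5) e4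
      _ = δ₂ := by ring
  obtain ⟨V, hV, hVη⟩ := hM N (A 0) D h1 (hAM.1 0) hDh (hA4 0) hD4 hmom
  -- the two tuples
  have hA'' : ∀ i, OB 4 (V * A i * star V) := fun i => LOW_OB'' hOBB h1 V hV (A i) (hA3 i)
  have hA' : ∀ i, OB 4 (LOW_A' D V A i) := by
    intro i
    refine Fin.cases ?_ (fun i => ?_) i
    · simpa [LOW_A'] using hD4
    · simpa [LOW_A'] using hA'' i.succ
  have hsum := LOW_sumle D V A η hVη
  have hdiff : ∀ q ∈ (range p ∪ (fun w : List (Fin (n + 1)) =>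
      (w.map (FreeAlgebra.ι ℂ)).prod) '' {w : List (Fin (n + 1)) | w.length ≤ m₀}),
      nn (ev (LOW_A' D V A) q - V * ev A q * star V) ≤ K * η := by
    intro q hq
    rw [← LOW_ev_cj V hV A q]
    exact (hK q hq N (LOW_A' D V A) (fun i => V * A i * star V) h1 hA' hA'').trans
      (mul_le_mul_of_nonneg_left hsum hK0.le)
  have hMC' : MC (n + 1) m₀ δ₀ N (LOW_A' D V A) := by
    refine ⟨?_, ?_⟩
    · intro i
      refine Fin.cases ?_ (fun i => ?_) i
      · simpa [LOW_A'] using hDh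
      · simpa [LOW_A'] using LOW_herm V (A i.succ) (hAM.1 i.succ)
    · intro w hw
      have e1 := hdiff _ (Or.inr ⟨w, hw, rfl⟩)
      simp only [LOW_ev_word] at e1
      have e2 := (hMXA N h1).2.2.2.1 ((w.map (LOW_A' D V A)).prod -
        V * (w.map A).prod * star V)
      have e3 : ‖ntr ((w.map (LOW_A' D V A)).prod - V * (w.map A).prod * star V)‖ ≤ δ₀ / 2 := by
        have e4 : ‖ntr ((w.map (LOW_A' D V A)).prod - V * (w.map A).prod * star V)‖ ^ 2 ≤
            (δ₀ / 2) ^ 2 := e2.trans (e1.trans hη2)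
        exact (pow_le_pow_iff_left₀ (norm_nonneg _) (by positivity) two_ne_zero).1 e4
      have e5 : ntr ((w.map (LOW_A' D V A)).prod - V * (w.map A).prod * star V) =
          ntr ((w.map (LOW_A' D V A)).prod) - ntr ((w.map A).prod) := by
        have e6 : ntr (V * (w.map A).prod * star V) = ntr ((w.map A).prod) := by
          rw [(hMXA N h1).2.2.2.2.1 (V * (w.map A).prod) (star V), ← mul_assoc, hV.1, one_mul]
        rw [← e6]
        unfold ntr
        rw [Matrix.trace_sub, mul_sub]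
      rw [e5] at e3
      have e7 := hAM.2 w (hw.trans (le_max_left _ _))
      have e8 : min (δ₀ / 2) (δ₂ / 2) ≤ δ₀ / 2 := min_le_left _ _
      calc ‖ntr ((w.map (LOW_A' D V A)).prod) - tau w‖
          = ‖(ntr ((w.map (LOW_A' D V A)).prod) - ntr ((w.map A).prod)) +
              (ntr ((w.map A).prod) - tau w)‖ := by congr 1; ring
        _ ≤ δ₀ / 2 + δ₀ / 2 := (norm_add_le _ _).trans (add_le_add e3 (e7.trans e8))
        _ = δ₀ := by ring
  -- the coordinates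
  have hxx : ∀ i : Fin n, ∃ xi : Fin N × Fin N → ℝ, hm xi = V * A i.succ * star V := fun i =>
    (hHMB N h1).2.2.2.2.2.1 _ (LOW_herm V (A i.succ) (hAM.1 i.succ))
  choose xx hxx using hxx
  refine ⟨V, fun i => xx i.1 i.2, hV, LOW_csum hMXA hOBB hHMB h1 V hV A hA3 xx hxx, ?_⟩
  have hE := fun j => hG j N (LOW_A' D V A) ((hNG₀ j).trans ((le_max_left _ _).trans hNN)) h1
    (LOW_MC_mono (hm₀ j) (hδ₀' j) hMC')
  refine LOW_mk (gs (Fin n × Fin N × Fin N))
    (fun j g => nn (ev (rotm θ (LOW_A' D V A) (hmk g)) (p j) - ev (LOW_A' D V A) (p j))) _ ε hε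
    (fun j g => LOW_nn_nonneg _) (fun j => (hE j).1)
    (fun j => (hE j).2.trans (by linarith [hNp j])) ?_
  intro g
  refine Finset.sum_le_sum fun j _ => ?_
  have e1 : FF p f x (fun i => Real.cos θ * xx i.1 i.2 + Real.sin θ * g i) j =
      ev (rotm θ (LOW_A' D V A) (hmk g)) (p j) := by
    unfold FF
    rw [← LOW_rot hHMB h1 θ D V A xx hxx g]
  have e2 : FF p f x (fun i => Real.cos θ * xx i.1 i.2 + Real.sin θ * g i) j -
      V * Y j * star V =
      (ev (rotm θ (LOW_A' D V A) (hmk g)) (p j) - ev (LOW_A' D V A) (p j)) +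
      (ev (LOW_A' D V A) (p j) - V * ev A (p j) * star V) +
      V * (ev A (p j) - Y j) * star V := by
    rw [e1, mul_sub, sub_mul]
    abel
  rw [e2]
  have e3 := LOW_nn3 hMXA h1 (ev (rotm θ (LOW_A' D V A) (hmk g)) (p j) - ev (LOW_A' D V A) (p j))
    (ev (LOW_A' D V A) (p j) - V * ev A (p j) * star V) (V * (ev A (p j) - Y j) * star V)
  rw [LOW_nn_cj hMXA h1 hV] at e3
  have e4 := hdiff (p j) (Or.inl ⟨j, rfl⟩)
  have e5 := hAp j
  linarith

end Pool.FR
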