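import Pool.Agent.Work.MP_118406_fr.InterfaceS
import Pool.Agent.Work.MP_118406_fr.B_LOW

set_option autoImplicit false

open scoped InnerProductSpace ComplexConjugate Topology BigOperators
open Set Filter MeasureTheory Pool.SI

noncomputable section

namespace Pool.FR

theorem LOS_mk {k : ℕ} (T : Finset (Fin k)) {Ω : Type} [MeasurableSpace Ω] (μ : Measure Ω) [IsProbabilityMeasure μ]
    (E : Fin k → Ω → ℝ) (S : Ω → ℝ) (ε : ℝ) (hε : 0 < ε)
    (hE0 : ∀ j g, 0 ≤ E j g) (hint : ∀ j, Integrable (E j) μ)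
    (hE : ∀ j ∈ T, ∫ g, E j g ∂μ ≤ 7 * ε ^ 2)
    (hS : ∀ g, S g ≤ ∑ j ∈ T, (3 * E j g + 15 * ε ^ 2)) :
    μ {g | 144 * T.card * ε ^ 2 < S g} ≤ ENNReal.ofReal (1 / 4) := by
  rcases Finset.eq_empty_or_nonempty T with rfl | hk
  · have h0 : {g | 144 * (((∅ : Finset (Fin k)).card : ℕ) : ℝ) * ε ^ 2 < S g} = ∅ := by
      ext g
      have := hS g
      simp only [Finset.sum_empty] at this
      simp only [Finset.card_empty, Nat.cast_zero, mul_zero, zero_mul, mem_ofPred_eq, mem_empty_iff_false, iff_false,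
        not_lt]
      exact this
    rw [h0]
    simp
  · have hkr : (0 : ℝ) < T.card := by exact_mod_cast hk.card_pos
    have hTi : ∀ j, Integrable (fun g => 3 * E j g + 15 * ε ^ 2) μ := fun j =>
      ((hint j).const_mul 3).add (integrable_const _)
    have hTint : Integrable (fun g => ∑ j ∈ T, (3 * E j g + 15 * ε ^ 2)) μ :=
      integrable_finsetSum _ fun j _ => hTi j
    have hT : ∫ g, ∑ j ∈ T, (3 * E j g + 15 * ε ^ 2) ∂μ ≤ 36 * T.card * ε ^ 2 := by
      rw [integral_finsetSum _ fun j _ => hTi j]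
      calc ∑ j ∈ T, ∫ g, (3 * E j g + 15 * ε ^ 2) ∂μ ≤ ∑ _j ∈ T, (36 * ε ^ 2) := by
            refine Finset.sum_le_sum fun j hj => ?_
            rw [integral_add ((hint j).const_mul 3) (integrable_const _), integral_const_mul,
              integral_const]
            simp only [probReal_univ, smul_eq_mul, one_mul]
            linarith [hE j hj]
        _ = 36 * T.card * ε ^ 2 := by
            rw [Finset.sum_const, nsmul_eq_mul]; ring
    have hm := mul_meas_ge_le_integral_of_nonneg (μ := μ)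
      (f := fun g => ∑ j ∈ T, (3 * E j g + 15 * ε ^ 2))
      (Eventually.of_forall fun g => Finset.sum_nonneg fun j _ =>
        add_nonneg (mul_nonneg (by norm_num) (hE0 j g)) (by positivity)) hTint (144 * T.card * ε ^ 2)
    have hpos : 0 < 144 * (T.card : ℝ) * ε ^ 2 := by positivity
    have hr : μ.real {g | 144 * T.card * ε ^ 2 ≤ ∑ j ∈ T, (3 * E j g + 15 * ε ^ 2)} ≤ 1 / 4 := by
      have h2 : 144 * (T.card : ℝ) * ε ^ 2 *
          μ.real {g | 144 * T.card * ε ^ 2 ≤ ∑ j ∈ T, (3 * E j g + 15 * ε ^ 2)} ≤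
          144 * (T.card : ℝ) * ε ^ 2 * (1 / 4) := by
        refine (hm.trans hT).trans (le_of_eq ?_)
        ring
      exact le_of_mul_le_mul_left h2 hpos
    calc μ {g | 144 * T.card * ε ^ 2 < S g} ≤ μ {g | 144 * T.card * ε ^ 2 ≤ ∑ j ∈ T, (3 * E j g + 15 * ε ^ 2)} :=
          measure_mono fun g hg => (le_of_lt hg).trans (hS g)
      _ ≤ ENNReal.ofReal (1 / 4) := by
          rw [← ENNReal.ofReal_toReal (measure_ne_top μ _)]
          exact ENNReal.ofReal_le_ofReal hr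

theorem p_LOS (hMXA : Stmt_MXA) (hOBB : Stmt_OBB) (hHMB : Stmt_HMB) (hBDT : Stmt_BDT)
    (_hSDE : Stmt_SDE) (hEMB : Stmt_EMB) (hNTH : Stmt_NTH) (hSPL : Stmt_SPL) (hTRA : Stmt_TRA)
    (hCPX : Stmt_CPX) (hMTC : Stmt_MTC) (hGEX : Stmt_GEX) : Stmt_LOS := by
  intro n k S y hy θ ε hθ hθ1 hε hε1 hN
  have hp : ∀ j, ∃ p : FreeAlgebra ℂ (Fin (n + 1)), ‖y j - ev sc p‖ ≤ ε := fun j =>
    hSPL (n + 1) (y j) (hy.mem j) ε hε
  choose p hp using hp
  have hNp : ∀ j ∈ S, Nth θ ((ev sc (p j)) (vac (n + 1))) ≤ 6 * ε ^ 2 := by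
    intro j hj
    have h1 := ((hNTH n θ hθ.le hθ1).1 ((ev sc (p j)) (vac (n + 1))) (y j (vac (n + 1)))).2
    have h2 : ‖(ev sc (p j)) (vac (n + 1)) - y j (vac (n + 1))‖ ≤ ε := by
      rw [norm_sub_rev]
      have h3 := (y j - ev sc (p j)).le_opNorm (vac (n + 1))
      rw [LOW_vac, mul_one] at h3
      exact h3.trans (hp j)
    have h4 := hN j hj
    have h5 : ‖(ev sc (p j)) (vac (n + 1)) - y j (vac (n + 1))‖ ^ 2 ≤ ε ^ 2 :=
      pow_le_pow_left₀ (norm_nonneg _) h2 2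
    linarith
  -- the rotation error
  have hG := fun j => hGEX n (p j) θ (ε ^ 2) (by positivity)
  choose mG NG δG hδG hG using hG
  obtain ⟨m₀, hm₀⟩ := LOW_max mG
  obtain ⟨NG₀, hNG₀⟩ := LOW_max NG
  obtain ⟨δ₀, hδ₀, hδ₀'⟩ := LOW_min δG hδG
  -- the polynomials
  obtain ⟨K, hK1, hK⟩ := LOW_common
    (range p ∪ (fun w : List (Fin (n + 1)) => (w.map (FreeAlgebra.ι ℂ)).prod) ''
      {w : List (Fin (n + 1)) | w.length ≤ m₀})
    ((finite_range p).union ((List.finite_length_le (Fin (n + 1)) m₀).image _))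
    (fun q K => ∀ (N : ℕ) (A B : Fin (n + 1) → Mat N), 1 ≤ N → (∀ i, OB 4 (A i)) →
      (∀ i, OB 4 (B i)) → nn (ev A q - ev B q) ≤ K * ∑ i, nn (A i - B i))
    (fun q a b hab h N A B h1 h2 h3 => (h N A B h1 h2 h3).trans
      (mul_le_mul_of_nonneg_right hab (Finset.sum_nonneg fun i _ => LOW_nn_nonneg _)))
    (fun q => by
      obtain ⟨K, -, h⟩ := hBDT (Fin (n + 1)) q
      exact ⟨K, fun N A B h1 h2 h3 => (h N A B h1 h2 h3).2⟩)
  have hK0 : 0 < K := lt_of_lt_of_le one_pos hK1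
  obtain ⟨η, hη, hη1, hη2⟩ : ∃ η : ℝ, 0 < η ∧ K * η ≤ ε ^ 2 ∧ K * η ≤ (δ₀ / 2) ^ 2 := by
    refine ⟨min (ε ^ 2 / K) ((δ₀ / 2) ^ 2 / K), by positivity, ?_, ?_⟩
    · calc K * min (ε ^ 2 / K) ((δ₀ / 2) ^ 2 / K) ≤ K * (ε ^ 2 / K) :=
          mul_le_mul_of_nonneg_left (min_le_left _ _) hK0.le
        _ = ε ^ 2 := by field_simp
    · calc K * min (ε ^ 2 / K) ((δ₀ / 2) ^ 2 / K) ≤ K * ((δ₀ / 2) ^ 2 / K) :=
          mul_le_mul_of_nonneg_left (min_le_right _ _) hK0.le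
        _ = (δ₀ / 2) ^ 2 := by field_simp
  obtain ⟨m₂, δ₂, hδ₂, hM⟩ := hMTC η hη
  obtain ⟨m₃, γ₃, hγ₃, hT⟩ := hTRA n k y hy p ε hε hp (max m₀ m₂) (min (δ₀ / 2) (δ₂ / 2))
    (by positivity)
  obtain ⟨m₄, N₄, γ₄, hγ₄, hC⟩ := hCPX m₂ (δ₂ / 2) (by positivity)
  refine ⟨p, max m₃ m₄, max NG₀ N₄, min γ₃ γ₄, lt_min hγ₃ hγ₄, ?_⟩
  intro N f hNN h1 hf Y x hY hx
  obtain ⟨A, hA3, hAM, hAp⟩ := hT N Y h1 (LOW_MC_mono (le_max_left _ _) (min_le_left _ _) hY)
  obtain ⟨hDh, hD4, hDm⟩ := hC N f (hm x) ((le_max_right _ _).trans hNN) h1 hf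
    ((hHMB N h1).1 x) fun j hj => (hx j (hj.trans (le_max_right _ _))).trans (min_le_right _ _)
  set D : Mat N := Polynomial.aeval (hm x : Mat N) f with hDdef
  have hA4 : ∀ i, OB 4 (A i) := fun i => ((hOBB N h1).2.2.2.1 3 (A i) (hA3 i)).2.2 4 (by norm_num)
  -- the moments of the first matrix
  have hmom : ∀ j ≤ m₂, ‖ntr ((A 0) ^ j) - ntr (D ^ j)‖ ≤ δ₂ := by
    intro j hj
    have e1 := hAM.2 (List.replicate j 0) (by
      rw [List.length_replicate]; exact hj.trans (le_max_right _ _))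
    rw [List.map_replicate, List.prod_replicate] at e1
    have e2 : tau (List.replicate j (0 : Fin (n + 1))) = cat j := by
      have e3 := hEMB 1 (n + 1) (fun _ => 0) (List.replicate j (0 : Fin 1))
        (Function.injective_of_subsingleton _)
      rw [List.map_replicate] at e3
      exact e3
    rw [e2] at e1
    have e4 := hDm j hj
    have e5 : min (δ₀ / 2) (δ₂ / 2) ≤ δ₂ / 2 := min_le_right _ _
    calc ‖ntr ((A 0) ^ j) - ntr (D ^ j)‖
        = ‖(ntr ((A 0) ^ j) - cat j) - (ntr (D ^ j) - cat j)‖ := by congr 1; ring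
      _ ≤ ‖ntr ((A 0) ^ j) - cat j‖ + ‖ntr (D ^ j) - cat j‖ := norm_sub_le _ _
      _ ≤ δ₂ / 2 + δ₂ / 2 := add_le_add (e1.trans e5) e4
      _ = δ₂ := by ring
  obtain ⟨V, hV, hVη⟩ := hM N (A 0) D h1 (hAM.1 0) hDh (hA4 0) hD4 hmom
  -- the two tuples
  have hA'' : ∀ i, OB 4 (V * A i * star V) := fun i => LOW_OB'' hOBB h1 V hV (A i) (hA3 i)
  have hA' : ∀ i, OB 4 (LOW_A' D V A i) := by
    intro i
    refine Fin.cases ?_ (fun i => ?_) i
    · simpa [LOW_A'] using hD4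
    · simpa [LOW_A'] using hA'' i.succ
  have hsum := LOW_sumle D V A η hVη
  have hdiff : ∀ q ∈ (range p ∪ (fun w : List (Fin (n + 1)) =>
      (w.map (FreeAlgebra.ι ℂ)).prod) '' {w : List (Fin (n + 1)) | w.length ≤ m₀}),
      nn (ev (LOW_A' D V A) q - V * ev A q * star V) ≤ K * η := by
    intro q hq
    rw [← LOW_ev_cj V hV A q]
    exact (hK q hq N (LOW_A' D V A) (fun i => V * A i * star V) h1 hA' hA'').trans
      (mul_le_mul_of_nonneg_left hsum hK0.le)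
  have hMC' : MC (n + 1) m₀ δ₀ N (LOW_A' D V A) := by
    refine ⟨?_, ?_⟩
    · intro i
      refine Fin.cases ?_ (fun i => ?_) i
      · simpa [LOW_A'] using hDh
      · simpa [LOW_A'] using LOW_herm V (A i.succ) (hAM.1 i.succ)
    · intro w hw
      have e1 := hdiff _ (Or.inr ⟨w, hw, rfl⟩)
      simp only [LOW_ev_word] at e1
      have e2 := (hMXA N h1).2.2.2.1 ((w.map (LOW_A' D V A)).prod -
        V * (w.map A).prod * star V)
      have e3 : ‖ntr ((w.map (LOW_A' D V A)).prod - V * (w.map A).prod * star V)‖ ≤ δ₀ / 2 := by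
        have e4 : ‖ntr ((w.map (LOW_A' D V A)).prod - V * (w.map A).prod * star V)‖ ^ 2 ≤
            (δ₀ / 2) ^ 2 := e2.trans (e1.trans hη2)
        exact (pow_le_pow_iff_left₀ (norm_nonneg _) (by positivity) two_ne_zero).1 e4
      have e5 : ntr ((w.map (LOW_A' D V A)).prod - V * (w.map A).prod * star V) =
          ntr ((w.map (LOW_A' D V A)).prod) - ntr ((w.map A).prod) := by
        have e6 : ntr (V * (w.map A).prod * star V) = ntr ((w.map A).prod) := by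
          rw [(hMXA N h1).2.2.2.2.1 (V * (w.map A).prod) (star V), ← mul_assoc, hV.1, one_mul]
        rw [← e6]
        unfold ntr
        rw [Matrix.trace_sub, mul_sub]
      rw [e5] at e3
      have e7 := hAM.2 w (hw.trans (le_max_left _ _))
      have e8 : min (δ₀ / 2) (δ₂ / 2) ≤ δ₀ / 2 := min_le_left _ _
      calc ‖ntr ((w.map (LOW_A' D V A)).prod) - tau w‖
          = ‖(ntr ((w.map (LOW_A' D V A)).prod) - ntr ((w.map A).prod)) +
              (ntr ((w.map A).prod) - tau w)‖ := by congr 1; ring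
        _ ≤ δ₀ / 2 + δ₀ / 2 := (norm_add_le _ _).trans (add_le_add e3 (e7.trans e8))
        _ = δ₀ := by ring
  -- the coordinates
  have hxx : ∀ i : Fin n, ∃ xi : Fin N × Fin N → ℝ, hm xi = V * A i.succ * star V := fun i =>
    (hHMB N h1).2.2.2.2.2.1 _ (LOW_herm V (A i.succ) (hAM.1 i.succ))
  choose xx hxx using hxx
  refine ⟨V, fun i => xx i.1 i.2, hV, LOW_csum hMXA hOBB hHMB h1 V hV A hA3 xx hxx, ?_⟩
  have hE := fun j => hG j N (LOW_A' D V A) ((hNG₀ j).trans ((le_max_left _ _).trans hNN)) h1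
    (LOW_MC_mono (hm₀ j) (hδ₀' j) hMC')
  refine LOS_mk S (gs (Fin n × Fin N × Fin N))
    (fun j g => nn (ev (rotm θ (LOW_A' D V A) (hmk g)) (p j) - ev (LOW_A' D V A) (p j))) _ ε hε
    (fun j g => LOW_nn_nonneg _) (fun j => (hE j).1)
    (fun j hj => (hE j).2.trans (by linarith [hNp j hj])) ?_
  intro g
  refine Finset.sum_le_sum fun j _ => ?_
  have e1 : FF p f x (fun i => Real.cos θ * xx i.1 i.2 + Real.sin θ * g i) j =
      ev (rotm θ (LOW_A' D V A) (hmk g)) (p j) := by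
    unfold FF
    rw [← LOW_rot hHMB h1 θ D V A xx hxx g]
  have e2 : FF p f x (fun i => Real.cos θ * xx i.1 i.2 + Real.sin θ * g i) j -
      V * Y j * star V =
      (ev (rotm θ (LOW_A' D V A) (hmk g)) (p j) - ev (LOW_A' D V A) (p j)) +
      (ev (LOW_A' D V A) (p j) - V * ev A (p j) * star V) +
      V * (ev A (p j) - Y j) * star V := by
    rw [e1, mul_sub, sub_mul]
    abel
  rw [e2]
  have e3 := LOW_nn3 hMXA h1 (ev (rotm θ (LOW_A' D V A) (hmk g)) (p j) - ev (LOW_A' D V A) (p j))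
    (ev (LOW_A' D V A) (p j) - V * ev A (p j) * star V) (V * (ev A (p j) - Y j) * star V)
  rw [LOW_nn_cj hMXA h1 hV] at e3
  have e4 := hdiff (p j) (Or.inl ⟨j, rfl⟩)
  have e5 := hAp j
  linarith

end Pool.FR
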