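import Pool.Agent.Work.MP_118406_fr.Interface

set_option autoImplicit false

/-!
# Block LOV: the volume of the good `b`
-/

open scoped InnerProductSpace ComplexConjugate Topology BigOperators
open Set Filter MeasureTheory Pool.SI

noncomputable section

namespace Pool.FR

theorem LOV_tau2 (hSDE : Stmt_SDE) (k : ℕ) (j : Fin k) : tau [j, j] = 1 := by
  obtain ⟨h1, -, -, h4, -⟩ := hSDE k
  rw [h4 j [j]]
  simp [h1]

theorem LOV_nnY (hMXA : Stmt_MXA) (hSDE : Stmt_SDE) {k m N : ℕ} {γ : ℝ} (hN : 1 ≤ N)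
    (hm2 : 2 ≤ m) (hγ : γ ≤ 1) (Y : Fin k → Mat N) (hY : MC k m γ N Y) (j : Fin k) :
    nn (Y j) ≤ 2 := by
  obtain ⟨hH, hw⟩ := hY
  have h1 := hw [j, j] (by simpa using hm2)
  rw [LOV_tau2 hSDE] at h1
  have h2 := ((hMXA N hN).1 (Y j)).2.2
  have h3 : star (Y j) = Y j := hH j
  rw [h3] at h2
  simp only [List.map_cons, List.map_nil, List.prod_cons, List.prod_nil, mul_one] at h1
  rw [h2] at h1
  have h4 : ‖((nn (Y j) : ℂ)) - 1‖ = |nn (Y j) - 1| := by
    rw [← Complex.ofReal_one, ← Complex.ofReal_sub, Complex.norm_real, Real.norm_eq_abs]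
  rw [h4] at h1
  have h5 := (abs_le.1 h1).2
  linarith

theorem LOV_cont_nn {N : ℕ} {X : Type} [TopologicalSpace X] (F : X → Mat N)
    (hF : Continuous F) : Continuous fun x => nn (F x) := by
  unfold nn
  refine continuous_const.mul
    (continuous_finsetSum _ fun a _ => continuous_finsetSum _ fun b _ => ?_)
  exact ((hF.matrix_elem a b).norm).pow 2

theorem LOV_cont_hm {N : ℕ} : Continuous (fun x : Fin N × Fin N → ℝ => (hm x : Mat N)) := by
  refine continuous_matrix fun a b => ?_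
  unfold hm
  by_cases h : a = b
  · simp only [h, if_true]
    fun_prop
  · by_cases h2 : a < b
    · simp only [h, h2, if_true, if_false]
      fun_prop
    · simp only [h, h2, if_false]
      fun_prop

theorem LOV_cont_hmk {n N : ℕ} (i : Fin n) :
    Continuous (fun b : Fin n × Fin N × Fin N → ℝ => (hmk b i : Mat N)) := by
  have h : Continuous fun b : Fin n × Fin N × Fin N → ℝ =>
      (fun p : Fin N × Fin N => b (i, p)) := continuous_pi fun p => continuous_apply (i, p)
  exact LOV_cont_hm.comp h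

theorem LOV_cont_FF (hCTN : Stmt_CTN) {n k N : ℕ} (p : Fin k → FreeAlgebra ℂ (Fin (n + 1)))
    (f : Polynomial ℝ) (x : Fin N × Fin N → ℝ) (j : Fin k) :
    Continuous fun b : Fin n × Fin N × Fin N → ℝ => FF p f x b j := by
  have h := hCTN (Fin (n + 1)) (p j) N (Fin n × Fin N × Fin N → ℝ)
    (fun i b => (Fin.cons (Polynomial.aeval (hm x : Mat N) f) (hmk b) : Fin (n + 1) → Mat N) i)
    (by
      intro i
      refine Fin.cases ?_ (fun i => ?_) i
      · simp only [Fin.cons_zero]
        exact continuous_const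
      · simp only [Fin.cons_succ]
        exact LOV_cont_hmk i)
  exact h

theorem LOV_meas (hCTN : Stmt_CTN) {n k N L : ℕ} (p : Fin k → FreeAlgebra ℂ (Fin (n + 1)))
    (f : Polynomial ℝ) (v : Fin L → Mat N) (ε : ℝ) (Y : Fin k → Mat N)
    (x : Fin N × Fin N → ℝ) :
    MeasurableSet {b : Fin n × Fin N × Fin N → ℝ | Good p f v ε Y x b} := by
  have e : {b : Fin n × Fin N × Fin N → ℝ | Good p f v ε Y x b} =
      {b | ∑ i, b i ^ 2 ≤ 80 * n * (N : ℝ) ^ 2} ∩
        ⋃ l, {b | ∑ j, nn (FF p f x b j - v l * Y j * star (v l)) ≤ 400 * k * ε ^ 2} := by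
    ext b
    simp only [Good, mem_ofPred_eq, mem_inter_iff, mem_iUnion]
  rw [e]
  refine MeasurableSet.inter ?_ (MeasurableSet.iUnion fun l => ?_)
  · exact (isClosed_le (by fun_prop) continuous_const).measurableSet
  · refine (isClosed_le ?_ continuous_const).measurableSet
    refine continuous_finsetSum _ fun j _ => LOV_cont_nn _ ?_
    exact (LOV_cont_FF hCTN p f x j).sub continuous_const

theorem p_LOV (hMXA : Stmt_MXA) (_hHMB : Stmt_HMB) (hGDE : Stmt_GDE) (hGMK : Stmt_GMK)
    (hSDE : Stmt_SDE) (hCTN : Stmt_CTN) (hLOW : Stmt_LOW) : Stmt_LOV := by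
  intro n k y hy θ ε hθ hθ1 hε hε1 hNt
  obtain ⟨p, m, N₀, γ, hγ, H⟩ := hLOW n k y hy θ ε hθ hθ1 hε hε1 hNt
  refine ⟨p, max m 2, N₀, min γ 1, lt_min hγ one_pos, ?_⟩
  intro N f L v hN0 hN1 hf hv Y x hY hx
  have hY' : MC k m γ N Y :=
    ⟨hY.1, fun w hw => (hY.2 w (hw.trans (le_max_left _ _))).trans (min_le_left _ _)⟩
  obtain ⟨V, c, hV, hc, hbad⟩ := H N f hN0 hN1 hf Y x hY'
    (fun j hj => (hx j (hj.trans (le_max_left _ _))).trans (min_le_left _ _))
  obtain ⟨l, hl⟩ := hv V hV
  have hnn : ∀ j, nn (Y j) ≤ 2 := fun j =>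
    LOV_nnY hMXA hSDE hN1 (le_max_right _ _) (min_le_right _ _) Y hY j
  have hs : 0 < Real.sin θ :=
    Real.sin_pos_of_pos_of_lt_pi hθ (by linarith [Real.pi_gt_three])
  have hEm : MeasurableSet {b : Fin n × Fin N × Fin N → ℝ | Good p f v ε Y x b} :=
    LOV_meas hCTN p f v ε Y x
  have hG := hGDE (Fin n × Fin N × Fin N) (fun i => Real.cos θ * c i) (Real.sin θ) _ hs hEm
  have hK := hGMK (Fin n × Fin N × Fin N) 31 (by norm_num)
  have hcard' : Fintype.card (Fin n × Fin N × Fin N) = n * N ^ 2 := by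
    simp only [Fintype.card_prod, Fintype.card_fin]
    ring
  have hcard : (Fintype.card (Fin n × Fin N × Fin N) : ℝ) = n * (N : ℝ) ^ 2 := by
    rw [hcard']
    push_cast
    ring
  have hsub : (univ : Set (Fin n × Fin N × Fin N → ℝ)) ⊆
      {g | (fun i => Real.cos θ * c i + Real.sin θ * g i) ∈
        {b : Fin n × Fin N × Fin N → ℝ | Good p f v ε Y x b}} ∪
      ({g | 144 * k * ε ^ 2 < ∑ j, nn (FF p f x
          (fun i => Real.cos θ * c i + Real.sin θ * g i) j - V * Y j * star V)} ∪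
       {g | 31 * (Fintype.card (Fin n × Fin N × Fin N) : ℝ) < ∑ i, g i ^ 2}) := by
    intro g _
    by_contra hg
    simp only [mem_union, mem_ofPred_eq, not_or, not_lt] at hg
    obtain ⟨hg1, hg2, hg3⟩ := hg
    apply hg1
    refine ⟨?_, l, ?_⟩
    · have h1 : ∀ i, (Real.cos θ * c i + Real.sin θ * g i) ^ 2 ≤ 2 * c i ^ 2 + 2 * g i ^ 2 := by
        intro i
        have e1 : Real.cos θ ^ 2 ≤ 1 := Real.cos_sq_le_one θ
        have e2 : Real.sin θ ^ 2 ≤ 1 := Real.sin_sq_le_one θ
        have e3 : Real.cos θ ^ 2 * c i ^ 2 ≤ c i ^ 2 := by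
          have := mul_le_mul_of_nonneg_right e1 (sq_nonneg (c i))
          linarith
        have e4 : Real.sin θ ^ 2 * g i ^ 2 ≤ g i ^ 2 := by
          have := mul_le_mul_of_nonneg_right e2 (sq_nonneg (g i))
          linarith
        nlinarith [sq_nonneg (Real.cos θ * c i - Real.sin θ * g i)]
      calc ∑ i, (Real.cos θ * c i + Real.sin θ * g i) ^ 2
          ≤ ∑ i, (2 * c i ^ 2 + 2 * g i ^ 2) := Finset.sum_le_sum fun i _ => h1 i
        _ = 2 * ∑ i, c i ^ 2 + 2 * ∑ i, g i ^ 2 := by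
            rw [Finset.sum_add_distrib, Finset.mul_sum, Finset.mul_sum]
        _ ≤ 2 * (9 * n * (N : ℝ) ^ 2) + 2 * (31 * (n * (N : ℝ) ^ 2)) := by
            rw [hcard] at hg3
            linarith
        _ = 80 * n * (N : ℝ) ^ 2 := by ring
    · have h1 : ∀ j, nn (FF p f x (fun i => Real.cos θ * c i + Real.sin θ * g i) j -
          v l * Y j * star (v l)) ≤
          2 * nn (FF p f x (fun i => Real.cos θ * c i + Real.sin θ * g i) j -
            V * Y j * star V) + 16 * ε ^ 2 := by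
        intro j
        have e1 := ((hMXA N hN1).2.1
          (FF p f x (fun i => Real.cos θ * c i + Real.sin θ * g i) j - V * Y j * star V)
          (V * Y j * star V - v l * Y j * star (v l))).1
        rw [sub_add_sub_cancel] at e1
        have e2 := hl (Y j)
        have e3 : 4 * ε ^ 2 * nn (Y j) ≤ 4 * ε ^ 2 * 2 :=
          mul_le_mul_of_nonneg_left (hnn j) (by positivity)
        linarith
      calc ∑ j, nn (FF p f x (fun i => Real.cos θ * c i + Real.sin θ * g i) j -
            v l * Y j * star (v l))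
          ≤ ∑ j, (2 * nn (FF p f x (fun i => Real.cos θ * c i + Real.sin θ * g i) j -
            V * Y j * star V) + 16 * ε ^ 2) := Finset.sum_le_sum fun j _ => h1 j
        _ = 2 * ∑ j, nn (FF p f x (fun i => Real.cos θ * c i + Real.sin θ * g i) j -
            V * Y j * star V) + k * (16 * ε ^ 2) := by
            rw [Finset.sum_add_distrib, Finset.mul_sum, Finset.sum_const, Finset.card_univ,
              Fintype.card_fin, nsmul_eq_mul]
        _ ≤ 2 * (144 * k * ε ^ 2) + k * (16 * ε ^ 2) := by linarith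
        _ ≤ 400 * k * ε ^ 2 := by
            have : (0 : ℝ) ≤ k * ε ^ 2 := by positivity
            nlinarith
  have : IsProbabilityMeasure (gs (Fin n × Fin N × Fin N)) := by
    unfold gs
    infer_instance
  have h1 : (1 : ENNReal) ≤ (gs (Fin n × Fin N × Fin N))
      {g | (fun i => Real.cos θ * c i + Real.sin θ * g i) ∈
        {b : Fin n × Fin N × Fin N → ℝ | Good p f v ε Y x b}} +
      (ENNReal.ofReal (1 / 4) + ENNReal.ofReal (1 / 31)) := by
    calc (1 : ENNReal) = (gs (Fin n × Fin N × Fin N)) univ := (measure_univ).symm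
      _ ≤ _ := measure_mono hsub
      _ ≤ _ := measure_union_le _ _
      _ ≤ _ := by
          gcongr
          exact (measure_union_le _ _).trans (add_le_add hbad hK)
  have h2 : ENNReal.ofReal (1 / 2) ≤ (gs (Fin n × Fin N × Fin N))
      {g | (fun i => Real.cos θ * c i + Real.sin θ * g i) ∈
        {b : Fin n × Fin N × Fin N → ℝ | Good p f v ε Y x b}} := by
    have e1 : ENNReal.ofReal (1 / 4) + ENNReal.ofReal (1 / 31) ≤ ENNReal.ofReal (1 / 2) := by
      rw [← ENNReal.ofReal_add (by norm_num) (by norm_num)]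
      exact ENNReal.ofReal_le_ofReal (by norm_num)
    have e2 : ENNReal.ofReal (1 / 2) + ENNReal.ofReal (1 / 2) = 1 := by
      rw [← ENNReal.ofReal_add (by norm_num) (by norm_num)]
      norm_num
    refine (ENNReal.add_le_add_iff_right (ENNReal.ofReal_ne_top (r := 1 / 2))).1 ?_
    rw [e2]
    exact h1.trans (by gcongr)
  have h3 := h2.trans hG
  rw [hcard'] at h3
  have hQ : 0 < (Real.sqrt (2 * Real.pi) * Real.sin θ) ^ (n * N ^ 2) := by positivity
  calc ENNReal.ofReal (1 / 2 * (Real.sqrt (2 * Real.pi) * Real.sin θ) ^ (n * N ^ 2))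
      = ENNReal.ofReal ((Real.sqrt (2 * Real.pi) * Real.sin θ) ^ (n * N ^ 2)) *
          ENNReal.ofReal (1 / 2) := by rw [mul_comm, ENNReal.ofReal_mul hQ.le]
    _ ≤ ENNReal.ofReal ((Real.sqrt (2 * Real.pi) * Real.sin θ) ^ (n * N ^ 2)) *
          (ENNReal.ofReal (((Real.sqrt (2 * Real.pi) * Real.sin θ) ^ (n * N ^ 2))⁻¹) *
            volume {b : Fin n × Fin N × Fin N → ℝ | Good p f v ε Y x b}) := by
        gcongr
    _ = volume {b : Fin n × Fin N × Fin N → ℝ | Good p f v ε Y x b} := by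
        rw [← mul_assoc, ← ENNReal.ofReal_mul hQ.le, mul_inv_cancel₀ hQ.ne', ENNReal.ofReal_one,
          one_mul]

end Pool.FR
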