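import Pool.Agent.Work.MP_118406_fr.Interface

set_option autoImplicit false

/-!
# Hilbert-Schmidt derivatives

If the commutator `dq i x` with the right annihilation operator is a Hilbert-Schmidt operator then
`∑ (number of letters i in w) |(x Ω) w|² < ∞`.
-/

open scoped InnerProductSpace ComplexConjugate Topology BigOperators
open Set Filter MeasureTheory Pool.SI

noncomputable section

namespace Pool.FR

/-- The two sides of the positions of the letter `i`. -/
def HS_cut {k : ℕ} (i : Fin k) (q : List (Fin k) × List (Fin k)) : List (Fin k) :=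
  q.1 ++ i :: q.2

theorem HS_fib {k : ℕ} (i : Fin k) (w : List (Fin k)) :
    ∃ s : Finset (List (Fin k) × List (Fin k)), (∀ q ∈ s, HS_cut i q = w) ∧
      s.card = w.countP fun a => decide (a = i) := by
  induction w with
  | nil => exact ⟨∅, by simp, by simp⟩
  | cons a w ih =>
    obtain ⟨s, h1, h2⟩ := ih
    have hinj : Function.Injective
        (fun q : List (Fin k) × List (Fin k) => (a :: q.1, q.2)) := by
      rintro ⟨u, v⟩ ⟨u', v'⟩ h
      simpa using h
    by_cases ha : a = i
    · refine ⟨insert (([], w) : List (Fin k) × List (Fin k)) (s.map ⟨_, hinj⟩), ?_, ?_⟩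
      · intro q hq
        rw [Finset.mem_insert, Finset.mem_map] at hq
        rcases hq with rfl | ⟨q', hq', rfl⟩
        · simp [HS_cut, ha]
        · have := h1 q' hq'
          simp only [HS_cut, Function.Embedding.coeFn_mk, List.cons_append] at this ⊢
          rw [this]
      · rw [Finset.card_insert_of_notMem, Finset.card_map, h2, List.countP_cons]
        · simp [ha]
        · simp
    · refine ⟨s.map ⟨_, hinj⟩, ?_, ?_⟩
      · intro q hq
        rw [Finset.mem_map] at hq
        obtain ⟨q', hq', rfl⟩ := hq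
        have := h1 q' hq'
        simp only [HS_cut, Function.Embedding.coeFn_mk, List.cons_append] at this ⊢
        rw [this]
      · rw [Finset.card_map, h2, List.countP_cons]
        simp [ha]

theorem HS_sum {k : ℕ} (i : Fin k) (x : Fk k →L[ℂ] Fk k) (hx : x ∈ Alg k) (h : HS (dq i x)) :
    Summable fun w : List (Fin k) =>
      ((w.countP fun a => decide (a = i) : ℕ) : ℝ) * ‖(x (vac k)) w‖ ^ 2 := by
  classical
  -- the double sum
  have e1 : ∀ u v : List (Fin k), ‖(dq i x (bs v) : Fk k) u‖ = ‖(x (vac k)) (u ++ i :: v.reverse)‖ := by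
    intro u v
    rw [← bs_inner, t_ENT k x hx i u v]
  have e2 : ∀ v : List (Fin k),
      HasSum (fun u : List (Fin k) => ‖(dq i x (bs v) : Fk k) u‖ ^ 2) (‖dq i x (bs v)‖ ^ 2) := by
    intro v
    have := lp.hasSum_norm (p := 2) (by norm_num) (dq i x (bs v))
    simpa using this
  have h1 : Summable fun q : (Σ _ : List (Fin k), List (Fin k)) =>
      ‖(dq i x (bs q.1) : Fk k) q.2‖ ^ 2 := by
    rw [summable_sigma_of_nonneg (fun q => by positivity)]
    refine ⟨fun v => (e2 v).summable, ?_⟩
    refine h.congr fun v => ?_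
    exact ((e2 v).tsum_eq).symm
  have h2 : Summable fun q : List (Fin k) × List (Fin k) => ‖(x (vac k)) (HS_cut i q)‖ ^ 2 := by
    have e3 : Function.Injective (fun q : List (Fin k) × List (Fin k) =>
        (⟨q.2.reverse, q.1⟩ : (Σ _ : List (Fin k), List (Fin k)))) := by
      rintro ⟨u, v⟩ ⟨u', v'⟩ h
      simp only [Sigma.mk.injEq, List.reverse_inj, heq_eq_eq] at h
      exact Prod.ext h.2 h.1
    have := h1.comp_injective e3
    refine this.congr fun q => ?_
    simp only [Function.comp, e1, List.reverse_reverse, HS_cut]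
  choose S hS1 hS2 using HS_fib i
  refine summable_of_sum_le (c := ∑' q, ‖(x (vac k)) (HS_cut i q)‖ ^ 2)
    (fun w => by positivity) fun T => ?_
  have hd : (T : Set (List (Fin k))).PairwiseDisjoint S := by
    intro w _ w' _ hne
    rw [Function.onFun, Finset.disjoint_left]
    intro q hq hq'
    exact hne ((hS1 w q hq).symm.trans (hS1 w' q hq'))
  calc ∑ w ∈ T, ((w.countP fun a => decide (a = i) : ℕ) : ℝ) * ‖(x (vac k)) w‖ ^ 2
      = ∑ w ∈ T, ∑ q ∈ S w, ‖(x (vac k)) (HS_cut i q)‖ ^ 2 := by
        refine Finset.sum_congr rfl fun w _ => ?_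
        rw [Finset.sum_congr rfl (fun q hq => by rw [hS1 w q hq]), Finset.sum_const, hS2,
          nsmul_eq_mul]
    _ = ∑ q ∈ T.biUnion S, ‖(x (vac k)) (HS_cut i q)‖ ^ 2 := by
        rw [Finset.sum_biUnion hd]
    _ ≤ _ := h2.sum_le_tsum _ fun q _ => by positivity

end Pool.FR
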