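import Pool.Agent.Work.MP_118406_fr.Interface

set_option autoImplicit false

open scoped InnerProductSpace ComplexConjugate Topology BigOperators
open Set Filter MeasureTheory Pool.SI

noncomputable section

namespace Pool.FR

theorem CLP_abs (x : ℝ) : |max (-3) (min 3 x)| ≤ 3 := by
  rw [abs_le]
  refine ⟨le_max_left _ _, max_le (by norm_num) (min_le_left _ _)⟩

theorem CLP_sq (x : ℝ) : (max (-3) (min 3 x) - x) ^ 2 ≤ x ^ 2 ∧
    (max (-3) (min 3 x) - x = 0 ∨ 9 ≤ x ^ 2) := by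
  rcases le_total x (-3) with h | h
  · have h1 : max (-3) (min 3 x) = -3 := by
      rw [min_eq_right (by linarith), max_eq_left h]
    rw [h1]
    refine ⟨by nlinarith, Or.inr (by nlinarith)⟩
  · rcases le_total x 3 with h' | h'
    · have h1 : max (-3) (min 3 x) = x := by
        rw [min_eq_right h', max_eq_right h]
      rw [h1]
      refine ⟨by rw [sub_self]; nlinarith [sq_nonneg x], Or.inl (sub_self x)⟩
    · have h1 : max (-3) (min 3 x) = 3 := by
        rw [min_eq_left h', max_eq_right (by norm_num)]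
      rw [h1]
      refine ⟨by nlinarith, Or.inr (by nlinarith)⟩

theorem CLP_pt (x : ℝ) (r M : ℕ) (hr : 1 ≤ r) (hM : r ≤ M) :
    ((max (-3) (min 3 x) - x) ^ 2) ^ r ≤ 9 ^ r * x ^ (2 * M) / 9 ^ M := by
  obtain ⟨h1, h2⟩ := CLP_sq x
  rcases h2 with h2 | h2
  · rw [h2]
    have h3 : ((0 : ℝ) ^ 2) ^ r = 0 := by
      rw [zero_pow (by norm_num), zero_pow (by omega)]
    rw [h3]
    have h4 : 0 ≤ x ^ (2 * M) := by
      rw [pow_mul]
      positivity
    positivity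
  · have h3 : ((max (-3) (min 3 x) - x) ^ 2) ^ r ≤ (x ^ 2) ^ r :=
      pow_le_pow_left₀ (sq_nonneg _) h1 r
    refine h3.trans ?_
    have h4 : (9 : ℝ) ^ r * x ^ (2 * M) / 9 ^ M = 9 ^ r * (x ^ 2 / 9) ^ M := by
      rw [div_pow, pow_mul]
      ring
    have h5 : (x ^ 2) ^ r = 9 ^ r * (x ^ 2 / 9) ^ r := by
      rw [div_pow]
      field_simp
    rw [h4, h5]
    have h6 : 1 ≤ x ^ 2 / 9 := by linarith
    exact mul_le_mul_of_nonneg_left (pow_le_pow_right₀ h6 hM) (by positivity)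

theorem p_CLP (hSPC : Stmt_SPC) (hSPD : Stmt_SPD) : Stmt_CLP := by
  intro N C hN hC
  obtain ⟨U, l, hU, -, hCd⟩ := hSPC N C hC
  obtain ⟨hh, -, -, -, hOB, -, -, -⟩ := hSPD N U (fun a => max (-3) (min 3 (l a))) hN hU
  obtain ⟨-, -, -, htr, -, -, hsub, -⟩ :=
    hSPD N U l hN hU
  obtain ⟨-, -, -, -, -, -, hsub', -⟩ :=
    hSPD N U (fun a => max (-3) (min 3 (l a))) hN hU
  obtain ⟨-, hnn, hpow, -, -, -, -, -⟩ :=
    hSPD N U (fun a => max (-3) (min 3 (l a)) - l a) hN hU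
  refine ⟨dg U (fun a => max (-3) (min 3 (l a))), hh,
    (hOB 3 (by norm_num)).2 (fun a => CLP_abs (l a)), ?_⟩
  intro M hM
  have hN0 : (0 : ℝ) ≤ (N : ℝ)⁻¹ := by positivity
  have e1 : dg U (fun a => max (-3) (min 3 (l a))) - C =
      dg U (fun a => max (-3) (min 3 (l a)) - l a) := by
    rw [hCd]
    exact hsub' l
  have e2 : (ntr (C ^ (2 * M))).re = (N : ℝ)⁻¹ * ∑ a, l a ^ (2 * M) := by
    rw [hCd, htr (2 * M), Complex.ofReal_re]
  rw [e1, e2]
  constructor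
  · rw [hnn]
    have h1 : ∑ a, (max (-3) (min 3 (l a)) - l a) ^ 2 ≤
        ∑ a, 9 * l a ^ (2 * M) / 9 ^ M := by
      refine Finset.sum_le_sum fun a _ => ?_
      have h2 := CLP_pt (l a) 1 M le_rfl (by omega)
      rw [pow_one, pow_one] at h2
      exact h2
    have h2 : 9 * ((N : ℝ)⁻¹ * ∑ a, l a ^ (2 * M)) / 9 ^ M =
        (N : ℝ)⁻¹ * ∑ a, 9 * l a ^ (2 * M) / 9 ^ M := by
      rw [← Finset.sum_div, ← Finset.mul_sum]
      ring
    rw [h2]
    exact mul_le_mul_of_nonneg_left h1 hN0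
  · have e3 : dg U (fun a => max (-3) (min 3 (l a)) - l a) *
        dg U (fun a => max (-3) (min 3 (l a)) - l a) =
        dg U (fun a => (max (-3) (min 3 (l a)) - l a) ^ 2) := by
      rw [← hpow 2, pow_two]
    obtain ⟨-, hnn2, -⟩ := hSPD N U (fun a => (max (-3) (min 3 (l a)) - l a) ^ 2) hN hU
    rw [e3, hnn2]
    have h1 : ∑ a, ((max (-3) (min 3 (l a)) - l a) ^ 2) ^ 2 ≤
        ∑ a, 81 * l a ^ (2 * M) / 9 ^ M := by
      refine Finset.sum_le_sum fun a _ => ?_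
      have h2 := CLP_pt (l a) 2 M (by norm_num) hM
      have h3 : (9 : ℝ) ^ 2 = 81 := by norm_num
      rw [h3] at h2
      exact h2
    have h2 : 81 * ((N : ℝ)⁻¹ * ∑ a, l a ^ (2 * M)) / 9 ^ M =
        (N : ℝ)⁻¹ * ∑ a, 81 * l a ^ (2 * M) / 9 ^ M := by
      rw [← Finset.sum_div, ← Finset.mul_sum]
      ring
    rw [h2]
    exact mul_le_mul_of_nonneg_left h1 hN0

end Pool.FR
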