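import Pool.Agent.Work.MP_118406_fr.Interface

/-! Block CMP (helper58): completeness of the basis. -/

set_option autoImplicit false

open scoped InnerProductSpace ComplexConjugate Topology BigOperators
open Set Filter MeasureTheory Pool.SI

noncomputable section

namespace Pool.FR

/-- The coefficient of the first coordinate. -/
def CMP_al (N : ℕ) (a b : Fin N) : ℂ :=
  if a = b then ((1 / Real.sqrt N : ℝ) : ℂ)
  else if a < b then ((1 / Real.sqrt (2 * N) : ℝ) : ℂ)
  else -(Complex.I * ((1 / Real.sqrt (2 * N) : ℝ) : ℂ))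

/-- The coefficient of the transposed coordinate. -/
def CMP_be (N : ℕ) (a b : Fin N) : ℂ :=
  if a = b then 0
  else if a < b then Complex.I * ((1 / Real.sqrt (2 * N) : ℝ) : ℂ)
  else ((1 / Real.sqrt (2 * N) : ℝ) : ℂ)

theorem CMP_hm {N : ℕ} (p : Fin N × Fin N) (a b : Fin N) :
    (hm (cv p) : Mat N) a b =
      CMP_al N a b * (if (a, b) = p then 1 else 0) +
        CMP_be N a b * (if (b, a) = p then 1 else 0) := by
  unfold hm CMP_al CMP_be cv
  by_cases hab : a = b
  · subst hab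
    by_cases hp : (a, a) = p <;> simp [hp]
  · by_cases hlt : a < b
    · by_cases h1 : (a, b) = p <;> by_cases h2 : (b, a) = p <;> simp [hab, hlt, h1, h2]
    · by_cases h1 : (a, b) = p <;> by_cases h2 : (b, a) = p <;>
        simp [hab, hlt, h1, h2, sub_eq_add_neg, add_comm]

theorem CMP_sum {N : ℕ} (x1 y1 x2 y2 : ℂ) (a b c d : Fin N) :
    ∑ p : Fin N × Fin N,
      (x1 * (if (a, b) = p then 1 else 0) + y1 * (if (b, a) = p then 1 else 0)) *
      (x2 * (if (c, d) = p then 1 else 0) + y2 * (if (d, c) = p then 1 else 0)) =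
    (x1 * x2 + y1 * y2) * (if a = c ∧ b = d then 1 else 0) +
      (x1 * y2 + y1 * x2) * (if a = d ∧ b = c then 1 else 0) := by
  obtain ⟨G, hG⟩ : ∃ G : Fin N × Fin N → ℂ, G = fun p =>
    x2 * (if (c, d) = p then 1 else 0) + y2 * (if (d, c) = p then 1 else 0) := ⟨_, rfl⟩
  have h1 : ∀ p : Fin N × Fin N,
      (x1 * (if (a, b) = p then 1 else 0) + y1 * (if (b, a) = p then 1 else 0)) *
      (x2 * (if (c, d) = p then 1 else 0) + y2 * (if (d, c) = p then 1 else 0)) =
      (if (a, b) = p then x1 * G p else 0) + (if (b, a) = p then y1 * G p else 0) := by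
    intro p
    rw [hG]
    by_cases h1 : (a, b) = p <;> by_cases h2 : (b, a) = p <;> simp [h1, h2, add_mul]
  rw [Finset.sum_congr rfl fun p _ => h1 p, Finset.sum_add_distrib]
  simp only [Finset.sum_ite_eq, Finset.mem_univ, if_true]
  rw [hG]
  simp only [Prod.mk.injEq]
  have e1 : (c = a ∧ d = b) ↔ (a = c ∧ b = d) :=
    ⟨fun h => ⟨h.1.symm, h.2.symm⟩, fun h => ⟨h.1.symm, h.2.symm⟩⟩
  have e2 : (d = a ∧ c = b) ↔ (a = d ∧ b = c) :=
    ⟨fun h => ⟨h.1.symm, h.2.symm⟩, fun h => ⟨h.1.symm, h.2.symm⟩⟩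
  have e3 : (c = b ∧ d = a) ↔ (a = d ∧ b = c) :=
    ⟨fun h => ⟨h.2.symm, h.1.symm⟩, fun h => ⟨h.2.symm, h.1.symm⟩⟩
  have e4 : (d = b ∧ c = a) ↔ (a = c ∧ b = d) :=
    ⟨fun h => ⟨h.2.symm, h.1.symm⟩, fun h => ⟨h.2.symm, h.1.symm⟩⟩
  simp only [e1, e2, e3, e4]
  by_cases h1 : a = c ∧ b = d <;> by_cases h2 : a = d ∧ b = c <;> simp only [h1, h2,
    if_false] <;> ring

theorem CMP_s1 {N : ℕ} :
    ((1 / Real.sqrt N : ℝ) : ℂ) * ((1 / Real.sqrt N : ℝ) : ℂ) = (N : ℂ)⁻¹ := by
  have h0 : (0 : ℝ) ≤ N := Nat.cast_nonneg N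
  have h1 : (1 / Real.sqrt N) * (1 / Real.sqrt N) = (N : ℝ)⁻¹ := by
    rw [div_mul_div_comm, Real.mul_self_sqrt h0, one_mul, one_div]
  rw [← Complex.ofReal_mul, h1, Complex.ofReal_inv, Complex.ofReal_natCast]

theorem CMP_s2 {N : ℕ} :
    ((1 / Real.sqrt (2 * N) : ℝ) : ℂ) * ((1 / Real.sqrt (2 * N) : ℝ) : ℂ) =
      (N : ℂ)⁻¹ / 2 := by
  have h0 : (0 : ℝ) ≤ 2 * N := by positivity
  have h1 : (1 / Real.sqrt (2 * N)) * (1 / Real.sqrt (2 * N)) = (N : ℝ)⁻¹ / 2 := by
    rw [div_mul_div_comm, Real.mul_self_sqrt h0, one_mul, one_div, mul_inv, mul_comm,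
      div_eq_mul_inv]
  rw [← Complex.ofReal_mul, h1, Complex.ofReal_div, Complex.ofReal_inv, Complex.ofReal_natCast,
    Complex.ofReal_ofNat]

theorem p_CMP : Stmt_CMP := by
  intro N _ a b c d
  have h1 : ∀ p : Fin N × Fin N, (hm (cv p) : Mat N) a b * (hm (cv p) : Mat N) c d =
      (CMP_al N a b * (if (a, b) = p then 1 else 0) +
        CMP_be N a b * (if (b, a) = p then 1 else 0)) *
      (CMP_al N c d * (if (c, d) = p then 1 else 0) +
        CMP_be N c d * (if (d, c) = p then 1 else 0)) := by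
    intro p
    rw [CMP_hm, CMP_hm]
  rw [Finset.sum_congr rfl fun p _ => h1 p, CMP_sum]
  have hs1 := CMP_s1 (N := N)
  have hs2 := CMP_s2 (N := N)
  obtain ⟨s, hs⟩ : ∃ s : ℂ, s = ((1 / Real.sqrt N : ℝ) : ℂ) := ⟨_, rfl⟩
  obtain ⟨t, ht⟩ : ∃ t : ℂ, t = ((1 / Real.sqrt (2 * N) : ℝ) : ℂ) := ⟨_, rfl⟩
  rw [← hs] at hs1
  rw [← ht] at hs2
  have hI : Complex.I * Complex.I = -1 := Complex.I_mul_I
  unfold CMP_al CMP_be
  rw [← hs, ← ht]
  by_cases h1 : a = c ∧ b = d
  · obtain ⟨h11, h12⟩ := h1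
    subst h11
    subst h12
    by_cases hab : a = b
    · subst hab
      simp only [and_self, if_true]
      linear_combination hs1
    · have hba : ¬ (b = a) := fun h => hab h.symm
      rcases lt_or_gt_of_ne hab with hlt | hlt
      · simp only [and_self, if_true, hab, hba, hlt, if_false]
        linear_combination t * t * hI
      · have hnl : ¬ (a < b) := not_lt.mpr hlt.le
        simp only [and_self, if_true, hab, hba, hnl, if_false]
        linear_combination t * t * hI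
  · by_cases h2 : a = d ∧ b = c
    · obtain ⟨h21, h22⟩ := h2
      subst h21
      subst h22
      have hab : ¬ (a = b) := by
        intro h
        exact h1 ⟨h, h.symm⟩
      have hba : ¬ (b = a) := fun h => hab h.symm
      rcases lt_or_gt_of_ne hab with hlt | hlt
      · have hnl : ¬ (b < a) := not_lt.mpr hlt.le
        simp only [and_self, if_true, hab, hba, hlt, hnl, if_false]
        linear_combination 2 * hs2 - t * t * hI
      · have hnl : ¬ (a < b) := not_lt.mpr hlt.le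
        simp only [and_self, if_true, hab, hba, hlt, hnl, if_false]
        linear_combination 2 * hs2 - t * t * hI
    · rw [if_neg h1, if_neg h2, if_neg h2]
      ring

end Pool.FR
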