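import Pool.Agent.Work.MP_118406_fr.Interface

set_option autoImplicit false

/-!
# Irregularity of all isomorphisms: block CNV

Convergence of the expectations of products of traces, by the Schwinger-Dyson recursion.
-/

open scoped InnerProductSpace ComplexConjugate Topology BigOperators
open Set Filter MeasureTheory Pool.SI

noncomputable section

namespace Pool.FR

/-- The filter of the good tuples of matrices. -/
def CNV_F {Δ Γ : Type} (t : List (Δ ⊕ Γ) → ℂ) : Filter (Σ N : ℕ, (Δ → Mat N)) where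
  sets := {s | ∃ (m N₀ : ℕ) (δ : ℝ), 0 < δ ∧ ∀ N : ℕ, N₀ ≤ N → 1 ≤ N → ∀ D : Δ → Mat N,
    (∀ w : List Δ, w.length ≤ m → ‖ntr ((w.map D).prod) - t (w.map Sum.inl)‖ ≤ δ) →
    (⟨N, D⟩ : Σ N : ℕ, (Δ → Mat N)) ∈ s}
  univ_sets := ⟨0, 0, 1, one_pos, fun _ _ _ _ _ => trivial⟩
  sets_of_superset := by
    rintro s s' ⟨m, N₀, δ, hδ, h⟩ hs
    exact ⟨m, N₀, δ, hδ, fun N h1 h2 D hD => hs (h N h1 h2 D hD)⟩
  inter_sets := by
    rintro s s' ⟨m, N₀, δ, hδ, h⟩ ⟨m', N₀', δ', hδ', h'⟩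
    refine ⟨max m m', max N₀ N₀', min δ δ', lt_min hδ hδ', fun N h1 h2 D hD => ⟨?_, ?_⟩⟩
    · exact h N (le_trans (le_max_left _ _) h1) h2 D fun w hw =>
        (hD w (le_trans hw (le_max_left _ _))).trans (min_le_left _ _)
    · exact h' N (le_trans (le_max_right _ _) h1) h2 D fun w hw =>
        (hD w (le_trans hw (le_max_right _ _))).trans (min_le_right _ _)

theorem CNV_one {Δ Γ : Type} (t : List (Δ ⊕ Γ) → ℂ) :
    ∀ᶠ x : Σ N : ℕ, (Δ → Mat N) in CNV_F t, 1 ≤ x.1 :=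
  ⟨0, 0, 1, one_pos, fun _ _ h _ _ => h⟩

theorem CNV_top {Δ Γ : Type} (t : List (Δ ⊕ Γ) → ℂ) :
    Tendsto (fun x : Σ N : ℕ, (Δ → Mat N) => x.1) (CNV_F t) atTop := by
  rw [tendsto_atTop]
  intro b
  exact ⟨0, b, 1, one_pos, fun _ h _ _ _ => h⟩

theorem CNV_inv {Δ Γ : Type} (t : List (Δ ⊕ Γ) → ℂ) :
    Tendsto (fun x : Σ N : ℕ, (Δ → Mat N) => ((x.1 : ℂ) ^ 2)⁻¹) (CNV_F t) (𝓝 0) := by
  have h : Tendsto (fun n : ℕ => ((n : ℂ) ^ 2)⁻¹) atTop (𝓝 0) := by
    have h2 := (tendsto_inv_atTop_nhds_zero_nat (𝕜 := ℂ)).pow 2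
    rw [zero_pow two_ne_zero] at h2
    refine h2.congr fun n => ?_
    rw [inv_pow]
  exact h.comp (CNV_top t)

theorem CNV_word {Δ Γ : Type} (t : List (Δ ⊕ Γ) → ℂ) (w : List Δ) :
    Tendsto (fun x : Σ N : ℕ, (Δ → Mat N) => ntr ((w.map x.2).prod)) (CNV_F t)
      (𝓝 (t (w.map Sum.inl))) := by
  rw [Metric.tendsto_nhds]
  intro ε hε
  refine ⟨w.length, 0, ε / 2, by positivity, fun N _ _ D hD => ?_⟩
  have h := hD w le_rfl
  show dist _ _ < ε
  rw [dist_eq_norm]
  linarith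

theorem CNV_list {Δ Γ : Type} (w : List (Δ ⊕ Γ)) (h : ∀ c ∈ w, ∃ d, c = Sum.inl d) :
    ∃ w' : List Δ, w = w'.map Sum.inl := by
  induction w with
  | nil => exact ⟨[], rfl⟩
  | cons c w ih =>
    obtain ⟨w', hw'⟩ := ih fun c' hc' => h c' (List.mem_cons_of_mem _ hc')
    obtain ⟨d, hd⟩ := h c List.mem_cons_self
    exact ⟨d :: w', by rw [List.map_cons, ← hw', hd]⟩

theorem CNV_base {Δ Γ : Type} [Fintype Γ] (t : List (Δ ⊕ Γ) → ℂ) (S : List (List (Δ ⊕ Γ)))
    (h : ∀ w ∈ S, ∀ c ∈ w, ∃ d, c = Sum.inl d) :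
    Tendsto (fun x : Σ N : ℕ, (Δ → Mat N) => Ex x.2 S) (CNV_F t) (𝓝 (S.map t).prod) := by
  have hE : ∀ x : Σ N : ℕ, (Δ → Mat N), Ex x.2 S =
      (S.map fun w => ntr ((w.map (Sum.elim x.2 fun _ : Γ => (0 : Mat x.1))).prod)).prod := by
    intro x
    have h1 : ∀ g : Γ × Fin x.1 × Fin x.1 → ℝ,
        (S.map fun w => ntr ((w.map (Sum.elim x.2 (hmk g))).prod)).prod =
        (S.map fun w => ntr ((w.map (Sum.elim x.2 fun _ : Γ => (0 : Mat x.1))).prod)).prod := by
      intro g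
      refine congrArg List.prod (List.map_congr_left fun w hw => ?_)
      obtain ⟨w', rfl⟩ := CNV_list w (h w hw)
      simp only [List.map_map]
      rfl
    haveI : IsProbabilityMeasure (gs (Γ × Fin x.1 × Fin x.1)) := by
      unfold gs
      infer_instance
    unfold Ex
    rw [integral_congr_ae (Filter.Eventually.of_forall h1), integral_const]
    simp
  refine Tendsto.congr (fun x => (hE x).symm) ?_
  refine tendsto_list_prod S fun w hw => ?_
  obtain ⟨w', rfl⟩ := CNV_list w (h w hw)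
  refine (CNV_word t w').congr fun x => ?_
  rw [List.map_map]
  rfl

/-- The number of Gaussian letters of a word. -/
abbrev CNV_c {Δ Γ : Type} (w : List (Δ ⊕ Γ)) : ℕ := w.countP Sum.isRight

theorem CNV_split {Δ Γ : Type} (w : List (Δ ⊕ Γ)) (p : Fin w.length) (i : Γ)
    (h : w.get p = Sum.inr i) :
    CNV_c (w.take p) + CNV_c (w.drop (p + 1)) + 1 = CNV_c w := by
  have h1 : w = w.take p ++ Sum.inr i :: w.drop (p + 1) := by
    rw [← h]
    conv_lhs => rw [← List.take_append_drop p w, List.drop_eq_getElem_cons p.2]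
    rfl
  conv_rhs => rw [h1]
  unfold CNV_c
  rw [List.countP_append, List.countP_cons]
  simp
  ring

theorem CNV_erase {Δ Γ : Type} (S : List (List (Δ ⊕ Γ))) (q : Fin S.length) :
    CNV_c (S.get q) + ((S.eraseIdx q).map CNV_c).sum = (S.map CNV_c).sum := by
  have h := ((List.getElem_cons_eraseIdx_perm q.2 (l := S)).map CNV_c).sum_eq
  rw [← h, List.map_cons, List.sum_cons]
  rfl

theorem CNV_perm {Δ Γ : Type} [Fintype Γ] {N : ℕ} (D : Δ → Mat N) {S S' : List (List (Δ ⊕ Γ))}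
    (h : S.Perm S') : Ex D S = Ex D S' := by
  unfold Ex
  refine integral_congr_ae (Filter.Eventually.of_forall fun g => ?_)
  exact (h.map _).prod_eq

theorem CNV_rot (hM : Stmt_MXA) {Δ Γ : Type} [Fintype Γ] {N : ℕ} (hN : 1 ≤ N) (D : Δ → Mat N)
    (u v : List (Δ ⊕ Γ)) (S : List (List (Δ ⊕ Γ))) :
    Ex D ((u ++ v) :: S) = Ex D ((v ++ u) :: S) := by
  unfold Ex
  refine integral_congr_ae (Filter.Eventually.of_forall fun g => ?_)
  simp only [List.map_cons, List.prod_cons, List.map_append, List.prod_append]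
  rw [(hM N hN).2.2.2.2.1]

theorem CNV_main (hM : Stmt_MXA) (hR : Stmt_REC) {Δ Γ : Type} [Fintype Γ] [DecidableEq Δ]
    [DecidableEq Γ] (t : List (Δ ⊕ Γ) → ℂ) (ht1 : ∀ u v, t (u ++ v) = t (v ++ u))
    (ht2 : ∀ (i : Γ) (w : List (Δ ⊕ Γ)), t (Sum.inr i :: w) =
      ∑ p : Fin w.length, if w.get p = Sum.inr i then t (w.take p) * t (w.drop (p + 1)) else 0) :
    ∀ (n : ℕ) (S : List (List (Δ ⊕ Γ))), (S.map CNV_c).sum = n →
      Tendsto (fun x : Σ N : ℕ, (Δ → Mat N) => Ex x.2 S) (CNV_F t) (𝓝 (S.map t).prod) := by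
  intro n
  induction n using Nat.strong_induction_on with
  | _ n ih =>
    intro S hS
    by_cases hb : ∀ w ∈ S, ∀ c ∈ w, ∃ d, c = Sum.inl d
    · exact CNV_base t S hb
    push Not at hb
    obtain ⟨u, huS, c, hcu, hc⟩ := hb
    obtain ⟨i, rfl⟩ : ∃ i, c = Sum.inr i := by
      rcases c with d | i
      · exact absurd rfl (hc d)
      · exact ⟨i, rfl⟩
    obtain ⟨u1, u2, rfl⟩ := List.append_of_mem hcu
    obtain ⟨S1, S2, rfl⟩ := List.append_of_mem huS
    have hperm : (S1 ++ (u1 ++ Sum.inr i :: u2) :: S2).Perm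
        ((u1 ++ Sum.inr i :: u2) :: (S1 ++ S2)) := List.perm_middle
    obtain ⟨S', hS'⟩ : ∃ S', S' = S1 ++ S2 := ⟨_, rfl⟩
    rw [← hS'] at hperm
    obtain ⟨w, hw⟩ : ∃ w, w = u2 ++ u1 := ⟨_, rfl⟩
    have hcnt : CNV_c w + (S'.map CNV_c).sum + 1 = n := by
      rw [← hS, (hperm.map CNV_c).sum_eq, List.map_cons, List.sum_cons, hw]
      unfold CNV_c
      rw [List.countP_append, List.countP_append, List.countP_cons]
      simp
      ring
    have hE : ∀ x : Σ N : ℕ, (Δ → Mat N), 1 ≤ x.1 →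
        Ex x.2 (S1 ++ (u1 ++ Sum.inr i :: u2) :: S2) =
        (∑ p : Fin w.length, if w.get p = Sum.inr i then
          Ex x.2 (w.take p :: w.drop (p + 1) :: S') else 0) +
        ((x.1 : ℂ) ^ 2)⁻¹ * ∑ q : Fin S'.length, ∑ p : Fin (S'.get q).length,
          if (S'.get q).get p = Sum.inr i then
            Ex x.2 ((w ++ (S'.get q).drop (p + 1) ++ (S'.get q).take p) :: S'.eraseIdx q)
          else 0 := by
      intro x hx
      rw [CNV_perm x.2 hperm, CNV_rot hM hx, List.cons_append, ← hw]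
      exact hR Δ Γ x.1 x.2 i w S' hx
    have hT : ((S1 ++ (u1 ++ Sum.inr i :: u2) :: S2).map t).prod =
        (∑ p : Fin w.length, if w.get p = Sum.inr i then
          ((w.take p :: w.drop (p + 1) :: S').map t).prod else 0) + 0 *
        ∑ q : Fin S'.length, ∑ p : Fin (S'.get q).length,
          if (S'.get q).get p = Sum.inr i then
            (((w ++ (S'.get q).drop (p + 1) ++ (S'.get q).take p) :: S'.eraseIdx q).map t).prod
          else 0 := by
      rw [(hperm.map t).prod_eq, List.map_cons, List.prod_cons, ht1, List.cons_append, ← hw, ht2,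
        zero_mul, add_zero, Finset.sum_mul]
      refine Finset.sum_congr rfl fun p _ => ?_
      split_ifs
      · rw [List.map_cons, List.map_cons, List.prod_cons, List.prod_cons, mul_assoc]
      · rw [zero_mul]
    rw [hT]
    refine Tendsto.congr' ((CNV_one t).mono fun x hx => (hE x hx).symm) ?_
    refine Tendsto.add (tendsto_finset_sum _ fun p _ => ?_) (Tendsto.mul (CNV_inv t)
      (tendsto_finset_sum _ fun q _ => tendsto_finset_sum _ fun p _ => ?_))
    · split_ifs with h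
      · refine ih _ ?_ _ rfl
        have h1 := CNV_split w p i h
        rw [List.map_cons, List.map_cons, List.sum_cons, List.sum_cons]
        omega
      · exact tendsto_const_nhds
    · split_ifs with h
      · refine ih _ ?_ _ rfl
        have h1 := CNV_split (S'.get q) p i h
        have h2 := CNV_erase S' q
        rw [List.map_cons, List.sum_cons]
        have h3 : CNV_c (w ++ (S'.get q).drop (p + 1) ++ (S'.get q).take p) =
            CNV_c w + CNV_c ((S'.get q).drop (p + 1)) + CNV_c ((S'.get q).take p) := by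
          unfold CNV_c
          rw [List.countP_append, List.countP_append]
        omega
      · exact tendsto_const_nhds

theorem p_CNV (hM : Stmt_MXA) (hR : Stmt_REC) : Stmt_CNV := by
  intro Δ Γ _ _ _ t ht1 ht2 S κ hκ
  have h := CNV_main hM hR t ht1 ht2 _ S rfl
  have h2 := (Metric.tendsto_nhds.1 h) κ hκ
  obtain ⟨m, N₀, δ, hδ, h3⟩ := h2
  refine ⟨m, N₀, δ, hδ, fun N h1 h2 D hD => ?_⟩
  have h4 := h3 N h1 h2 D hD
  change dist _ _ < κ at h4
  rw [dist_eq_norm] at h4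
  exact h4.le

end Pool.FR
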