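import Pool.Agent.Work.MP_118406_fr.Interface

set_option autoImplicit false

open scoped InnerProductSpace ComplexConjugate Topology BigOperators
open Set Filter MeasureTheory Pool.SI

noncomputable section

namespace Pool.FR

theorem p_CTN : Stmt_CTN := by
  intro k p N X _ a ha
  induction p using FreeAlgebra.induction with
  | grade0 r =>
    have h : (fun x => ev (fun i => a i x) (algebraMap ℂ (FreeAlgebra ℂ k) r)) =
        fun _ : X => algebraMap ℂ (Mat N) r := by
      funext x
      exact AlgHom.commutes _ r
    rw [h]
    exact continuous_const
  | grade1 i =>
    have h : (fun x => ev (fun i => a i x) (FreeAlgebra.ι ℂ i)) = a i := by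
      funext x
      exact FreeAlgebra.lift_ι_apply _ i
    rw [h]
    exact ha i
  | mul p q hp hq =>
    have h : (fun x => ev (fun i => a i x) (p * q)) =
        fun x => ev (fun i => a i x) p * ev (fun i => a i x) q := by
      funext x
      exact map_mul _ p q
    rw [h]
    exact Continuous.matrix_mul hp hq
  | add p q hp hq =>
    have h : (fun x => ev (fun i => a i x) (p + q)) =
        fun x => ev (fun i => a i x) p + ev (fun i => a i x) q := by
      funext x
      exact map_add _ p q
    rw [h]
    exact hp.add hq
end Pool.FR
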