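import Pool.Agent.Work.MP_118406_fr.Interface

set_option autoImplicit false

open scoped InnerProductSpace ComplexConjugate Topology BigOperators
open Set Filter MeasureTheory Pool.SI

noncomputable section

namespace Pool.FR

theorem p_DAG : Stmt_DAG := by
  intro k p
  induction p using FreeAlgebra.induction with
  | grade0 r =>
    refine ⟨algebraMap ℂ (FreeAlgebra ℂ k) (star r), fun R _ _ _ _ a ha => ?_⟩
    rw [AlgHom.commutes, AlgHom.commutes, algebraMap_star_comm]
  | grade1 x =>
    refine ⟨FreeAlgebra.ι ℂ x, fun R _ _ _ _ a ha => ?_⟩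
    rw [FreeAlgebra.lift_ι_apply, ha]
  | mul p q hp hq =>
    obtain ⟨p', hp'⟩ := hp
    obtain ⟨q', hq'⟩ := hq
    refine ⟨q' * p', fun R _ _ _ _ a ha => ?_⟩
    rw [map_mul, map_mul, star_mul, hp' R a ha, hq' R a ha]
  | add p q hp hq =>
    obtain ⟨p', hp'⟩ := hp
    obtain ⟨q', hq'⟩ := hq
    refine ⟨p' + q', fun R _ _ _ _ a ha => ?_⟩
    rw [map_add, map_add, star_add, hp' R a ha, hq' R a ha]

end Pool.FR
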