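import Pool.Agent.Work.MP_118406_fr.Interface

set_option autoImplicit false

/-! # Block EV2 -/

open scoped InnerProductSpace ComplexConjugate Topology BigOperators
open Set Filter MeasureTheory Pool.SI

noncomputable section

namespace Pool.FR

theorem p_EV2 (hR : Stmt_RBD) : Stmt_EV2 := by
  intro k ι _ M r
  induction r using FreeAlgebra.induction with
  | grade0 c =>
    refine ⟨‖algebraMap ℂ (Fk k →L[ℂ] Fk k) c‖, norm_nonneg _, fun a b ha hb => ⟨?_, ?_, ?_⟩⟩
    · rw [AlgHom.commutes]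
      exact algebraMap_mem (Alg k) c
    · rw [AlgHom.commutes]
    · rw [AlgHom.commutes, AlgHom.commutes, sub_self, _root_.zero_apply, norm_zero]
      exact mul_nonneg (norm_nonneg _) (Finset.sum_nonneg fun i _ => norm_nonneg _)
  | grade1 x =>
    refine ⟨max M 1, le_max_of_le_right zero_le_one, fun a b ha hb => ⟨?_, ?_, ?_⟩⟩
    · rw [FreeAlgebra.lift_ι_apply]
      exact (ha x).1
    · rw [FreeAlgebra.lift_ι_apply]
      exact (ha x).2.trans (le_max_left _ _)
    · rw [FreeAlgebra.lift_ι_apply, FreeAlgebra.lift_ι_apply]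
      have h1 : ‖(a x - b x) (vac k)‖ ≤ ∑ i, ‖(a i - b i) (vac k)‖ :=
        Finset.single_le_sum (f := fun i => ‖(a i - b i) (vac k)‖) (fun i _ => norm_nonneg _)
          (Finset.mem_univ x)
      have h2 : (0 : ℝ) ≤ ∑ i, ‖(a i - b i) (vac k)‖ :=
        Finset.sum_nonneg fun i _ => norm_nonneg _
      have h3 : (1 : ℝ) ≤ max M 1 := le_max_right _ _
      calc ‖(a x - b x) (vac k)‖ ≤ 1 * ∑ i, ‖(a i - b i) (vac k)‖ := by rw [one_mul]; exact h1
        _ ≤ max M 1 * ∑ i, ‖(a i - b i) (vac k)‖ := mul_le_mul_of_nonneg_right h3 h2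
  | mul p q hp hq =>
    obtain ⟨K, hK0, hK⟩ := hp
    obtain ⟨L, hL0, hL⟩ := hq
    refine ⟨2 * (K * L), by positivity, fun a b ha hb => ?_⟩
    obtain ⟨p1, p2, p3⟩ := hK a b ha hb
    obtain ⟨q1, q2, q3⟩ := hL a b ha hb
    obtain ⟨p4, p5, -⟩ := hK b a hb ha
    obtain ⟨q4, q5, -⟩ := hL b a hb ha
    have hKL : 0 ≤ K * L := by positivity
    have hS : (0 : ℝ) ≤ ∑ i, ‖(a i - b i) (vac k)‖ := Finset.sum_nonneg fun i _ => norm_nonneg _
    refine ⟨?_, ?_, ?_⟩
    · rw [map_mul]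
      exact mul_mem p1 q1
    · rw [map_mul]
      have h := (norm_mul_le (ev a p) (ev a q)).trans
        (mul_le_mul p2 q2 (norm_nonneg _) hK0)
      linarith
    · rw [map_mul, map_mul]
      have e1 : ev a p * ev a q - ev b p * ev b q =
          (ev a p - ev b p) * ev a q + ev b p * (ev a q - ev b q) := by
        noncomm_ring
      have h1 := (hR k (ev a p - ev b p) (ev a q) (sub_mem p1 p4) q1).2
      have h2 : ‖((ev b p) * (ev a q - ev b q)) (vac k)‖ ≤
          ‖ev b p‖ * ‖(ev a q - ev b q) (vac k)‖ :=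
        ContinuousLinearMap.le_opNorm (ev b p) ((ev a q - ev b q) (vac k))
      have h3 : ‖ev a q‖ * ‖(ev a p - ev b p) (vac k)‖ ≤
          L * (K * ∑ i, ‖(a i - b i) (vac k)‖) := mul_le_mul q2 p3 (norm_nonneg _) hL0
      have h4 : ‖ev b p‖ * ‖(ev a q - ev b q) (vac k)‖ ≤
          K * (L * ∑ i, ‖(a i - b i) (vac k)‖) := mul_le_mul p5 q3 (norm_nonneg _) hK0
      rw [e1, _root_.add_apply]
      calc _ ≤ ‖((ev a p - ev b p) * ev a q) (vac k)‖ +
            ‖(ev b p * (ev a q - ev b q)) (vac k)‖ := norm_add_le _ _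
        _ ≤ L * (K * ∑ i, ‖(a i - b i) (vac k)‖) + K * (L * ∑ i, ‖(a i - b i) (vac k)‖) :=
            add_le_add (h1.trans h3) (h2.trans h4)
        _ = _ := by ring
  | add p q hp hq =>
    obtain ⟨K, hK0, hK⟩ := hp
    obtain ⟨L, hL0, hL⟩ := hq
    refine ⟨K + L, by positivity, fun a b ha hb => ?_⟩
    obtain ⟨p1, p2, p3⟩ := hK a b ha hb
    obtain ⟨q1, q2, q3⟩ := hL a b ha hb
    refine ⟨?_, ?_, ?_⟩
    · rw [map_add]
      exact add_mem p1 q1
    · rw [map_add]
      exact (norm_add_le _ _).trans (add_le_add p2 q2)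
    · rw [map_add, map_add, add_sub_add_comm, _root_.add_apply]
      refine (norm_add_le _ _).trans ((add_le_add p3 q3).trans ?_)
      rw [add_mul]

end Pool.FR
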