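import Pool.Agent.Work.MP_118406_fr.Interface

set_option autoImplicit false

open scoped InnerProductSpace ComplexConjugate Topology BigOperators
open Set Filter MeasureTheory Pool.SI

noncomputable section

namespace Pool.FR

/-- The Gaussian density is at most `(√(2π) σ)⁻¹`. -/
theorem GDE_pdf (c x σ : ℝ) (hσ : 0 < σ) :
    ProbabilityTheory.gaussianPDF c (NNReal.mk (σ ^ 2) (sq_nonneg _)) x ≤
      ENNReal.ofReal ((Real.sqrt (2 * Real.pi) * σ)⁻¹) := by
  unfold ProbabilityTheory.gaussianPDF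
  apply ENNReal.ofReal_le_ofReal
  unfold ProbabilityTheory.gaussianPDFReal
  have h1 : ((NNReal.mk (σ ^ 2) (sq_nonneg _) : NNReal) : ℝ) = σ ^ 2 := rfl
  rw [h1]
  have h2 : Real.sqrt (2 * Real.pi * σ ^ 2) = Real.sqrt (2 * Real.pi) * σ := by
    rw [Real.sqrt_mul (by positivity), Real.sqrt_sq hσ.le]
  rw [h2]
  have h3 : Real.exp (-(x - c) ^ 2 / (2 * σ ^ 2)) ≤ 1 := by
    rw [Real.exp_le_one_iff]
    apply div_nonpos_of_nonpos_of_nonneg
    · nlinarith [sq_nonneg (x - c)]
    · positivity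
  have h4 : 0 ≤ (Real.sqrt (2 * Real.pi) * σ)⁻¹ := by positivity
  calc (Real.sqrt (2 * Real.pi) * σ)⁻¹ * Real.exp (-(x - c) ^ 2 / (2 * σ ^ 2))
      ≤ (Real.sqrt (2 * Real.pi) * σ)⁻¹ * 1 := mul_le_mul_of_nonneg_left h3 h4
    _ = _ := mul_one _

theorem GDE_one (c σ : ℝ) (hσ : 0 < σ) (s : Set ℝ) :
    ((ProbabilityTheory.gaussianReal 0 1).map fun x => c + σ * x) s ≤
      ENNReal.ofReal ((Real.sqrt (2 * Real.pi) * σ)⁻¹) * volume s := by
  have h1 : ((ProbabilityTheory.gaussianReal 0 1).map fun x => c + σ * x) =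
      ProbabilityTheory.gaussianReal c (NNReal.mk (σ ^ 2) (sq_nonneg _)) := by
    have h2 : (fun x : ℝ => c + σ * x) = (fun x => c + x) ∘ (fun x => σ * x) := rfl
    rw [h2, ← Measure.map_map (by fun_prop) (by fun_prop),
      ProbabilityTheory.gaussianReal_map_const_mul, ProbabilityTheory.gaussianReal_map_const_add]
    simp
  rw [h1]
  have hv : NNReal.mk (σ ^ 2) (sq_nonneg _) ≠ 0 := by
    intro h
    have h' : ((NNReal.mk (σ ^ 2) (sq_nonneg _) : NNReal) : ℝ) = 0 := by rw [h]; rfl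
    have h'' : σ ^ 2 = 0 := h'
    exact hσ.ne' (pow_eq_zero_iff (two_ne_zero) |>.1 h'')
  rw [ProbabilityTheory.gaussianReal_of_var_ne_zero _ hv]
  have h3 : (volume : Measure ℝ).withDensity
      (ProbabilityTheory.gaussianPDF c (NNReal.mk (σ ^ 2) (sq_nonneg _))) ≤
      (volume : Measure ℝ).withDensity
        (fun _ => ENNReal.ofReal ((Real.sqrt (2 * Real.pi) * σ)⁻¹)) :=
    withDensity_mono (Eventually.of_forall fun x => GDE_pdf c x σ hσ)
  have h4 := h3 s
  rw [withDensity_const] at h4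
  simpa using h4

theorem p_GDE : Stmt_GDE := by
  intro ι _ c σ E hσ hE
  set K : ENNReal := ENNReal.ofReal ((Real.sqrt (2 * Real.pi) * σ)⁻¹) with hK
  have hK0 : K ≠ 0 := by
    rw [hK, Ne, ENNReal.ofReal_eq_zero, not_le]
    positivity
  have hKt : K ≠ ⊤ := ENNReal.ofReal_ne_top
  set μ : ι → Measure ℝ := fun i => (ProbabilityTheory.gaussianReal 0 1).map fun x => c i + σ * x
    with hμ
  have hpr : ∀ i, IsProbabilityMeasure (μ i) := fun i =>
    Measure.isProbabilityMeasure_map (by fun_prop)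
  have hmap : (gs ι).map (fun g i => c i + σ * g i) = Measure.pi μ := by
    unfold gs
    exact Measure.pi_map_pi (μ := fun _ => ProbabilityTheory.gaussianReal 0 1)
      (f := fun i x => c i + σ * x) (fun i => by fun_prop)
  have hme : Measurable (fun (g : ι → ℝ) i => c i + σ * g i) := by fun_prop
  have h1 : (gs ι) {g | (fun i => c i + σ * g i) ∈ E} = Measure.pi μ E := by
    rw [← hmap, Measure.map_apply hme hE]
    rfl
  rw [h1]
  have hcard : ENNReal.ofReal (((Real.sqrt (2 * Real.pi) * σ) ^ Fintype.card ι)⁻¹) =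
      K ^ Fintype.card ι := by
    rw [hK, ← ENNReal.ofReal_pow (by positivity), inv_pow]
  rw [hcard]
  have hKn0 : K ^ Fintype.card ι ≠ 0 := pow_ne_zero _ hK0
  have hKnt : K ^ Fintype.card ι ≠ ⊤ := ENNReal.pow_ne_top hKt
  have h2 : (K ^ Fintype.card ι)⁻¹ • (Measure.pi μ).toOuterMeasure ≤
      OuterMeasure.pi (fun _ : ι => (volume : Measure ℝ).toOuterMeasure) := by
    rw [OuterMeasure.le_pi]
    intro s _
    have h3 : (Measure.pi μ) (Set.pi univ s) ≤ ∏ i, μ i (s i) := by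
      rw [Measure.pi_pi]
    have h4 : ∏ i, μ i (s i) ≤ ∏ i, K * volume (s i) :=
      Finset.prod_le_prod' fun i _ => GDE_one (c i) σ hσ (s i)
    have h5 : ∏ i, K * volume (s i) = K ^ Fintype.card ι * ∏ i, volume (s i) := by
      rw [Finset.prod_mul_distrib, Finset.prod_const, Finset.card_univ]
    have h6 : (Measure.pi μ) (Set.pi univ s) ≤ K ^ Fintype.card ι * ∏ i, volume (s i) :=
      h3.trans (h4.trans h5.le)
    show (K ^ Fintype.card ι)⁻¹ * (Measure.pi μ) (Set.pi univ s) ≤ ∏ i, volume (s i)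
    calc (K ^ Fintype.card ι)⁻¹ * (Measure.pi μ) (Set.pi univ s)
        ≤ (K ^ Fintype.card ι)⁻¹ * (K ^ Fintype.card ι * ∏ i, volume (s i)) :=
          mul_le_mul_right h6 _
      _ = ∏ i, volume (s i) := by
          rw [← mul_assoc, ENNReal.inv_mul_cancel hKn0 hKnt, one_mul]
  have h7 := h2 E
  have h8 : OuterMeasure.pi (fun _ : ι => (volume : Measure ℝ).toOuterMeasure) E =
      (volume : Measure (ι → ℝ)) E := by
    rw [volume_pi, Measure.pi_def, toMeasure_apply _ _ hE]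
  rw [h8] at h7
  have h9 : (K ^ Fintype.card ι)⁻¹ * (Measure.pi μ) E ≤ (volume : Measure (ι → ℝ)) E := h7
  calc (Measure.pi μ) E = K ^ Fintype.card ι * ((K ^ Fintype.card ι)⁻¹ * (Measure.pi μ) E) := by
        rw [← mul_assoc, ENNReal.mul_inv_cancel hKn0 hKnt, one_mul]
    _ ≤ K ^ Fintype.card ι * volume E := mul_le_mul_right h9 _

end Pool.FR
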