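import Pool.Agent.Work.MP_118406_fr.Interface

/-! Block GEX (helper83) -/

set_option autoImplicit false

open scoped InnerProductSpace ComplexConjugate Topology BigOperators
open Set Filter MeasureTheory Pool.SI

noncomputable section

namespace Pool.FR

/-- The numbering of the letters. -/
def GEX_e (n : ℕ) : Fin (n + 1) ⊕ Fin n → Fin (n + 1 + n) :=
  Sum.elim (Fin.castAdd n) (Fin.natAdd (n + 1))

theorem GEX_e_inj (n : ℕ) : Function.Injective (GEX_e n) := by
  rintro (a | a) (b | b) h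
  · have h1 : (Fin.castAdd n a : Fin (n + 1 + n)) = Fin.castAdd n b := h
    exact congrArg Sum.inl (Fin.castAdd_injective _ _ h1)
  · exfalso
    have h1 : (Fin.castAdd n a : Fin (n + 1 + n)) = Fin.natAdd (n + 1) b := h
    have h2 := congrArg Fin.val h1
    simp only [Fin.val_castAdd, Fin.val_natAdd] at h2
    have h3 := a.2
    omega
  · exfalso
    have h1 : (Fin.natAdd (n + 1) a : Fin (n + 1 + n)) = Fin.castAdd n b := h
    have h2 := congrArg Fin.val h1
    simp only [Fin.val_castAdd, Fin.val_natAdd] at h2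
    have h3 := b.2
    omega
  · have h1 : (Fin.natAdd (n + 1) a : Fin (n + 1 + n)) = Fin.natAdd (n + 1) b := h
    have h2 := congrArg Fin.val h1
    simp only [Fin.val_natAdd] at h2
    have h3 : a = b := Fin.ext (by omega)
    rw [h3]

/-- The rotation as a substitution. -/
def GEX_rs {n : ℕ} (θ : ℝ) : Fin (n + 1) → FreeAlgebra ℂ (Fin (n + 1) ⊕ Fin n) :=
  Fin.cons (FreeAlgebra.ι ℂ (Sum.inl 0)) fun i =>
    (Real.cos θ : ℂ) • FreeAlgebra.ι ℂ (Sum.inl i.succ) +
      (Real.sin θ : ℂ) • FreeAlgebra.ι ℂ (Sum.inr i)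

theorem GEX_comp {k l : Type} {R : Type} [Ring R] [Algebra ℂ R] (a : l → R)
    (r : k → FreeAlgebra ℂ l) (p : FreeAlgebra ℂ k) :
    ev a (FreeAlgebra.lift ℂ r p) = ev (fun i => ev a (r i)) p := by
  have h : (ev a).comp (FreeAlgebra.lift ℂ r) = ev (fun i => ev a (r i)) := by
    apply FreeAlgebra.hom_ext
    funext i
    simp
  exact DFunLike.congr_fun h p

theorem GEX_rotm {n N : ℕ} (θ : ℝ) (A : Fin (n + 1) → Mat N) (G : Fin n → Mat N) :
    (fun i => ev (Sum.elim A G) (GEX_rs θ i)) = rotm θ A G := by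
  funext i
  refine Fin.cases ?_ (fun j => ?_) i
  · simp [GEX_rs, rotm]
  · simp [GEX_rs, rotm]

theorem GEX_rotm_zero {n N : ℕ} (A : Fin (n + 1) → Mat N) (G : Fin n → Mat N) :
    rotm 0 A G = A := by
  funext i
  refine Fin.cases ?_ (fun j => ?_) i
  · simp [rotm]
  · simp [rotm]

theorem GEX_rt {n : ℕ} (θ : ℝ) :
    (fun i => ev (fun c => (sc (GEX_e n c) : Fk (n + 1 + n) →L[ℂ] Fk (n + 1 + n))) (GEX_rs θ i)) =
      fun i => ev sc (rt θ i) := by
  funext i
  refine Fin.cases ?_ (fun j => ?_) i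
  · simp [GEX_rs, rt, GEX_e]
  · simp [GEX_rs, rt, GEX_e]

theorem GEX_min {α : Type} (s : Finset α) (f : α → ℝ) (hf : ∀ x, 0 < f x) :
    ∃ d : ℝ, 0 < d ∧ ∀ x ∈ s, d ≤ f x := by
  classical
  induction s using Finset.induction_on with
  | empty => exact ⟨1, one_pos, fun x hx => absurd hx (Finset.notMem_empty x)⟩
  | insert a s _ ih =>
    obtain ⟨d, hd, h⟩ := ih
    refine ⟨min d (f a), lt_min hd (hf a), ?_⟩
    intro x hx
    rcases Finset.mem_insert.1 hx with rfl | hx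
    · exact min_le_right _ _
    · exact (min_le_left _ _).trans (h x hx)

theorem GEX_ntr_sum {N : ℕ} {α : Type} (s : Finset α) (z : α → ℂ) (M : α → Mat N) :
    ntr (∑ w ∈ s, z w • M w) = ∑ w ∈ s, z w * ntr (M w) := by
  unfold ntr
  rw [Matrix.trace_sum, Finset.mul_sum]
  refine Finset.sum_congr rfl fun w _ => ?_
  rw [Matrix.trace_smul, smul_eq_mul]
  ring

theorem GEX_rec (hSDE : Stmt_SDE) (n : ℕ) (i : Fin n) (w : List (Fin (n + 1) ⊕ Fin n)) :
    tau ((Sum.inr i :: w).map (GEX_e n)) =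
      ∑ p : Fin w.length, if w.get p = Sum.inr i then
        tau ((w.take p).map (GEX_e n)) * tau ((w.drop (p + 1)).map (GEX_e n)) else 0 := by
  obtain ⟨-, -, -, h4, -⟩ := hSDE (n + 1 + n)
  rw [List.map_cons, h4]
  refine Fintype.sum_equiv (finCongr (List.length_map (GEX_e n))) _ _ fun p => ?_
  have hg : (w.map (GEX_e n)).get p = GEX_e n (w.get (finCongr (List.length_map (GEX_e n)) p)) := by
    simp
  have hv : ((finCongr (List.length_map (GEX_e n)) p : Fin w.length) : ℕ) = (p : ℕ) := rfl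
  rw [hg, hv, List.map_take, List.map_drop]
  by_cases hc : w.get (finCongr (List.length_map (GEX_e n)) p) = Sum.inr i
  · rw [if_pos (congrArg _ hc), if_pos hc]
  · rw [if_neg (fun h => hc (GEX_e_inj n h)), if_neg hc]

theorem GEX_lim (hROT : Stmt_ROT) (n : ℕ) (p : FreeAlgebra ℂ (Fin (n + 1)))
    (θ : ℝ) (D D' : FreeAlgebra ℂ (Fin (n + 1) ⊕ Fin n))
    (hD : D = FreeAlgebra.lift ℂ (GEX_rs θ) p - FreeAlgebra.lift ℂ (GEX_rs 0) p)
    (hD' : ∀ (R : Type) [Ring R] [StarRing R] [Algebra ℂ R] [StarModule ℂ R]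
      (a : Fin (n + 1) ⊕ Fin n → R), (∀ i, star (a i) = a i) → ev a D' = star (ev a D))
    (c : List (Fin (n + 1) ⊕ Fin n) →₀ ℂ)
    (hc : ∀ (R : Type) [Ring R] [Algebra ℂ R] (a : Fin (n + 1) ⊕ Fin n → R),
      ev a (D' * D) = c.sum fun w z => z • (w.map a).prod) :
    ∑ w ∈ c.support, c w * tau (w.map (GEX_e n)) = (Nth θ ((ev sc p) (vac (n + 1))) : ℂ) := by
  set b : Fin (n + 1) ⊕ Fin n → (Fk (n + 1 + n) →L[ℂ] Fk (n + 1 + n)) :=
    fun x => sc (GEX_e n x) with hb
  have hsa : ∀ i, star (b i) = b i := fun i => (t_BAS (n + 1 + n)).2.2.2.2.2.2.1 _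
  have h1 := hc _ b
  rw [map_mul, hD' _ b hsa] at h1
  have h2 : ev b D = ev sc (FreeAlgebra.lift ℂ (rt θ) p) - ev sc (FreeAlgebra.lift ℂ (rt 0) p) := by
    rw [hD, map_sub, GEX_comp, GEX_comp, GEX_comp, GEX_comp, hb, GEX_rt, GEX_rt]
  rw [← hROT n θ p, ← h2]
  have h3 : ⟪vac (n + 1 + n), (star (ev b D) * ev b D) (vac (n + 1 + n))⟫_ℂ =
      ((‖(ev b D) (vac (n + 1 + n))‖ ^ 2 : ℝ) : ℂ) := by
    rw [ContinuousLinearMap.star_eq_adjoint, mul_apply_eq_comp,
      ContinuousLinearMap.adjoint_inner_right, inner_self_eq_norm_sq_to_K]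
    push_cast
    rfl
  rw [← h3, h1, Finsupp.sum, sum_apply, inner_sum]
  refine Finset.sum_congr rfl fun w _ => ?_
  rw [smul_apply, inner_smul_right, tau, mon, List.map_map]
  rfl

theorem p_GEX (hMXA : Stmt_MXA) (hHMB : Stmt_HMB) (hINT : Stmt_INT) (hCNV : Stmt_CNV)
    (hSDE : Stmt_SDE) (hEMB : Stmt_EMB) (hROT : Stmt_ROT) (hWRD : Stmt_WRD) (hDAG : Stmt_DAG) :
    Stmt_GEX := by
  intro n p θ κ hκ
  set D : FreeAlgebra ℂ (Fin (n + 1) ⊕ Fin n) :=
    FreeAlgebra.lift ℂ (GEX_rs θ) p - FreeAlgebra.lift ℂ (GEX_rs 0) p with hD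
  obtain ⟨D', hD'⟩ := hDAG _ D
  obtain ⟨c, hc⟩ := hWRD _ (D' * D)
  have hlim := GEX_lim hROT n p θ D D' hD (fun R _ _ _ _ a ha => hD' R a ha) c
    (fun R _ _ a => hc R a)
  set B : ℝ := ∑ w ∈ c.support, ‖c w‖ with hB
  have hB0 : 0 ≤ B := Finset.sum_nonneg fun w _ => norm_nonneg _
  set κ' : ℝ := κ / (B + 1) with hκ'
  have hκ'0 : 0 < κ' := by positivity
  obtain ⟨-, hs2, -, -, -⟩ := hSDE (n + 1 + n)
  have hconv := fun w : List (Fin (n + 1) ⊕ Fin n) =>
    hCNV (Fin (n + 1)) (Fin n) (fun v => tau (v.map (GEX_e n)))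
      (fun u v => by
        change tau ((u ++ v).map (GEX_e n)) = tau ((v ++ u).map (GEX_e n))
        rw [List.map_append, List.map_append, hs2])
      (fun i w => GEX_rec hSDE n i w) [w] κ' hκ'0
  choose m N₀ δ hδ hcon using hconv
  obtain ⟨d, hd, hdle⟩ := GEX_min c.support δ hδ
  refine ⟨c.support.sup m, c.support.sup N₀, d, hd, ?_⟩
  intro N A hNN hN hMC
  have hherm : ∀ (g : Fin n × Fin N × Fin N → ℝ) (i : Fin (n + 1) ⊕ Fin n),
      star (Sum.elim A (hmk g) i) = Sum.elim A (hmk g) i := by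
    intro g i
    rcases i with i | i
    · exact hMC.1 i
    · have h1 : Matrix.IsHermitian (hm (fun p => g (i, p)) : Mat N) := (hHMB N hN).1 _
      exact h1
  have hform : ∀ g : Fin n × Fin N × Fin N → ℝ,
      ((nn (ev (rotm θ A (hmk g)) p - ev A p) : ℝ) : ℂ) =
        ∑ w ∈ c.support, c w * ntr ((w.map (Sum.elim A (hmk g))).prod) := by
    intro g
    have h1 := hc _ (Sum.elim A (hmk g))
    rw [map_mul, hD' _ _ (hherm g)] at h1
    have h2 : ev (Sum.elim A (hmk g)) D = ev (rotm θ A (hmk g)) p - ev A p := by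
      rw [hD, map_sub, GEX_comp, GEX_comp, GEX_rotm, GEX_rotm, GEX_rotm_zero]
    rw [← ((hMXA N hN).1 _).2.2, ← h2, h1, Finsupp.sum, GEX_ntr_sum]
  have hint1 : ∀ w : List (Fin (n + 1) ⊕ Fin n),
      Integrable (fun g : Fin n × Fin N × Fin N → ℝ =>
        ntr ((w.map (Sum.elim A (hmk g))).prod)) (gs (Fin n × Fin N × Fin N)) := by
    intro w
    have h1 := hINT (Fin (n + 1)) (Fin n) N A [w] hN
    simpa using h1
  have hintF : Integrable (fun g : Fin n × Fin N × Fin N → ℝ =>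
      ∑ w ∈ c.support, c w * ntr ((w.map (Sum.elim A (hmk g))).prod))
      (gs (Fin n × Fin N × Fin N)) :=
    integrable_finsetSum _ fun w _ => (hint1 w).const_mul _
  have hintC : Integrable (fun g : Fin n × Fin N × Fin N → ℝ =>
      ((nn (ev (rotm θ A (hmk g)) p - ev A p) : ℝ) : ℂ)) (gs (Fin n × Fin N × Fin N)) := by
    refine hintF.congr (Filter.Eventually.of_forall fun g => ?_)
    exact (hform g).symm
  have hintR : Integrable (fun g : Fin n × Fin N × Fin N → ℝ =>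
      nn (ev (rotm θ A (hmk g)) p - ev A p)) (gs (Fin n × Fin N × Fin N)) := by
    have h1 := hintC.re
    simpa using h1
  refine ⟨hintR, ?_⟩
  have hval : ((∫ g : Fin n × Fin N × Fin N → ℝ, nn (ev (rotm θ A (hmk g)) p - ev A p)
      ∂(gs (Fin n × Fin N × Fin N)) : ℝ) : ℂ) = ∑ w ∈ c.support, c w * Ex A [w] := by
    rw [← integral_complex_ofReal]
    rw [integral_congr_ae (Filter.Eventually.of_forall hform),
      integral_finsetSum _ fun w _ => (hint1 w).const_mul _]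
    refine Finset.sum_congr rfl fun w _ => ?_
    rw [integral_const_mul, Ex]
    simp
  have hEx : ∀ w ∈ c.support, ‖Ex A [w] - tau (w.map (GEX_e n))‖ ≤ κ' := by
    intro w hw
    have h1 := hcon w N ((Finset.le_sup (f := N₀) hw).trans hNN) hN A (fun v hv => by
      have h2 := hMC.2 v (hv.trans (Finset.le_sup (f := m) hw))
      have h3 : tau ((v.map Sum.inl).map (GEX_e n)) = tau v := by
        rw [List.map_map]
        exact hEMB (n + 1) (n + 1 + n) (GEX_e n ∘ Sum.inl) v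
          ((GEX_e_inj n).comp Sum.inl_injective)
      rw [h3]
      exact h2.trans (hdle w hw))
    simpa using h1
  have hdiff : ‖((∫ g : Fin n × Fin N × Fin N → ℝ, nn (ev (rotm θ A (hmk g)) p - ev A p)
      ∂(gs (Fin n × Fin N × Fin N)) : ℝ) : ℂ) - (Nth θ ((ev sc p) (vac (n + 1))) : ℂ)‖ ≤ κ := by
    rw [hval, ← hlim, ← Finset.sum_sub_distrib]
    calc ‖∑ w ∈ c.support, (c w * Ex A [w] - c w * tau (w.map (GEX_e n)))‖
        ≤ ∑ w ∈ c.support, ‖c w * Ex A [w] - c w * tau (w.map (GEX_e n))‖ := norm_sum_le _ _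
      _ ≤ ∑ w ∈ c.support, ‖c w‖ * κ' := by
          refine Finset.sum_le_sum fun w hw => ?_
          rw [← mul_sub, norm_mul]
          exact mul_le_mul_of_nonneg_left (hEx w hw) (norm_nonneg _)
      _ = B * κ' := by rw [hB, Finset.sum_mul]
      _ ≤ κ := by
          rw [hκ', mul_div_assoc', div_le_iff₀ (by positivity)]
          nlinarith
  rw [← Complex.ofReal_sub, Complex.norm_real, Real.norm_eq_abs] at hdiff
  linarith [le_abs_self ((∫ g : Fin n × Fin N × Fin N → ℝ, nn (ev (rotm θ A (hmk g)) p - ev A p)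
      ∂(gs (Fin n × Fin N × Fin N))) - Nth θ ((ev sc p) (vac (n + 1))))]

end Pool.FR
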