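import Pool.Agent.Work.MP_118406_fr.Interface

set_option autoImplicit false

open scoped InnerProductSpace ComplexConjugate Topology BigOperators
open Set Filter MeasureTheory Pool.SI

noncomputable section

namespace Pool.FR

theorem GMK_one : ∫⁻ t : ℝ, ENNReal.ofReal (t ^ 2) ∂(ProbabilityTheory.gaussianReal 0 1) = 1 := by
  have hL : MemLp (id : ℝ → ℝ) 2 (ProbabilityTheory.gaussianReal 0 1) :=
    ProbabilityTheory.memLp_id_gaussianReal 2
  have hi : Integrable (fun t : ℝ => t ^ 2) (ProbabilityTheory.gaussianReal 0 1) := hL.integrable_sq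
  have hv : ∫ t : ℝ, t ^ 2 ∂(ProbabilityTheory.gaussianReal 0 1) = 1 := by
    have h1 := ProbabilityTheory.variance_id_gaussianReal (μ := 0) (v := 1)
    rw [ProbabilityTheory.variance_of_integral_eq_zero hL.aestronglyMeasurable.aemeasurable
      (by simpa using ProbabilityTheory.integral_id_gaussianReal (μ := 0) (v := 1))] at h1
    simpa using h1
  rw [← ofReal_integral_eq_lintegral_ofReal hi (Eventually.of_forall fun t => sq_nonneg t), hv]
  simp

theorem GMK_int (ι : Type) [Fintype ι] (i : ι) :
    ∫⁻ x : ι → ℝ, ENNReal.ofReal (x i ^ 2) ∂(gs ι) = 1 := by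
  have h := (measurePreserving_eval (fun _ : ι => ProbabilityTheory.gaussianReal 0 1) i).lintegral_comp
    (f := fun t : ℝ => ENNReal.ofReal (t ^ 2)) (by fun_prop)
  rw [GMK_one] at h
  exact h

theorem p_GMK : Stmt_GMK := by
  intro ι _ R hR
  rcases Nat.eq_zero_or_pos (Fintype.card ι) with h0 | h0
  · have he : IsEmpty ι := Fintype.card_eq_zero_iff.mp h0
    have : {x : ι → ℝ | R * Fintype.card ι < ∑ i, x i ^ 2} = ∅ := by
      ext x
      simp
    rw [this]
    simp
  · have hc : (0 : ℝ) < Fintype.card ι := by exact_mod_cast h0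
    have hint : ∫⁻ x : ι → ℝ, ENNReal.ofReal (∑ i, x i ^ 2) ∂(gs ι) = Fintype.card ι := by
      have h1 : ∀ x : ι → ℝ, ENNReal.ofReal (∑ i, x i ^ 2) = ∑ i, ENNReal.ofReal (x i ^ 2) := by
        intro x
        rw [ENNReal.ofReal_sum_of_nonneg]
        intro i _
        exact sq_nonneg _
      simp only [h1]
      rw [lintegral_finsetSum _ (fun i _ => by fun_prop)]
      simp [GMK_int]
    have hpos : 0 < R * Fintype.card ι := mul_pos hR hc
    have hm := meas_ge_le_lintegral_div (μ := gs ι)
      (f := fun x : ι → ℝ => ENNReal.ofReal (∑ i, x i ^ 2))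
      (Measurable.aemeasurable (ENNReal.measurable_ofReal.comp
        (Finset.measurable_sum _ fun i _ => (measurable_pi_apply i).pow_const 2)))
      (ε := ENNReal.ofReal (R * Fintype.card ι)) (by simpa using hpos) ENNReal.ofReal_ne_top
    have hs : {x : ι → ℝ | R * Fintype.card ι < ∑ i, x i ^ 2} ⊆
        {x : ι → ℝ | ENNReal.ofReal (R * Fintype.card ι) ≤ ENNReal.ofReal (∑ i, x i ^ 2)} := by
      intro x hx
      exact ENNReal.ofReal_le_ofReal (le_of_lt hx)
    refine (measure_mono hs).trans (hm.trans (le_of_eq ?_))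
    rw [hint]
    have hcc : ((Fintype.card ι : ℕ) : ENNReal) = ENNReal.ofReal (Fintype.card ι : ℝ) := by simp
    rw [hcc, ← ENNReal.ofReal_div_of_pos hpos]
    congr 1
    field_simp

end Pool.FR
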