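import Pool.Agent.Work.MP_118406_fr.Interface

set_option autoImplicit false

/-!
# MP_118406_an, THEOREM IR, block GNF: homomorphisms with weakly dense range give generating families
-/

open scoped InnerProductSpace ComplexConjugate Topology BigOperators
open Set Filter MeasureTheory Pool.SI

noncomputable section

namespace Pool.FR

theorem GNF_norm {k n : ℕ} (φ : Alg k →⋆ₐ[ℂ] Alg n) (x : Alg k) : ‖φ x‖ ≤ ‖x‖ := by
  have := IMP_closed k
  have := IMP_closed n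
  exact NonUnitalStarAlgHom.norm_apply_le φ x

/-- The vector functional of the image. -/
def GNF_sig {k n : ℕ} (φ : Alg k →⋆ₐ[ℂ] Alg n) : Alg k →L[ℂ] ℂ :=
  LinearMap.mkContinuous
    { toFun := fun x => ⟪vac n, (φ x : Fk n →L[ℂ] Fk n) (vac n)⟫_ℂ
      map_add' := fun x y => by
        rw [map_add]
        change ⟪vac n, ((φ x : Fk n →L[ℂ] Fk n) + (φ y : Fk n →L[ℂ] Fk n)) (vac n)⟫_ℂ = _
        rw [add_apply, inner_add_right]
      map_smul' := fun c x => by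
        rw [map_smul, RingHom.id_apply, smul_eq_mul]
        change ⟪vac n, (c • (φ x : Fk n →L[ℂ] Fk n)) (vac n)⟫_ℂ = _
        rw [smul_apply, inner_smul_right] } 1 (fun x => by
      change ‖⟪vac n, (φ x : Fk n →L[ℂ] Fk n) (vac n)⟫_ℂ‖ ≤ 1 * ‖x‖
      refine (norm_inner_le_norm _ _).trans ?_
      rw [IMP_vac, one_mul, one_mul]
      refine (ContinuousLinearMap.le_opNorm _ _).trans ?_
      rw [IMP_vac, mul_one]
      exact GNF_norm φ x)

theorem GNF_sig_apply {k n : ℕ} (φ : Alg k →⋆ₐ[ℂ] Alg n) (x : Alg k) :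
    GNF_sig φ x = ⟪vac n, (φ x : Fk n →L[ℂ] Fk n) (vac n)⟫_ℂ := rfl

/-- The trace is preserved. -/
theorem GNF_tr {k n : ℕ} (hk : 2 ≤ k) (φ : Alg k →⋆ₐ[ℂ] Alg n) (x : Alg k) :
    ⟪vac n, (φ x : Fk n →L[ℂ] Fk n) (vac n)⟫_ℂ =
      ⟪vac k, (x : Fk k →L[ℂ] Fk k) (vac k)⟫_ℂ := by
  rw [← GNF_sig_apply]
  refine t_UTF k hk (GNF_sig φ) (fun x y => ?_) ?_ x
  · rw [GNF_sig_apply, GNF_sig_apply, map_mul, map_mul]
    exact (t_ALC n).2.2 _ (φ x).2 _ (φ y).2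
  · rw [GNF_sig_apply, map_one]
    change ⟪vac n, vac n⟫_ℂ = 1
    rw [inner_self_eq_norm_sq_to_K, IMP_vac]
    simp

theorem GNF_hom {R S : Type} [Ring R] [Ring S] [Algebra ℂ R] [Algebra ℂ S] {k : ℕ}
    (F : R →ₐ[ℂ] S) (a : Fin k → R) (q : FreeAlgebra ℂ (Fin k)) :
    F (ev a q) = ev (fun j => F (a j)) q := by
  have h : F.comp (FreeAlgebra.lift ℂ a) = FreeAlgebra.lift ℂ (fun j => F (a j)) := by
    refine FreeAlgebra.hom_ext ?_
    funext j
    simp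
  exact DFunLike.congr_fun h q

theorem GNF_ev {k n : ℕ} (φ : Alg k →⋆ₐ[ℂ] Alg n) (q : FreeAlgebra ℂ (Fin k)) :
    ((φ (ev (ge : Fin k → Alg k) q) : Alg n) : Fk n →L[ℂ] Fk n) =
      ev (fun j => (φ (ge j) : Fk n →L[ℂ] Fk n)) q :=
  GNF_hom (((Alg n).subtype.comp φ : Alg k →⋆ₐ[ℂ] (Fk n →L[ℂ] Fk n)) :
    Alg k →ₐ[ℂ] (Fk n →L[ℂ] Fk n)) (ge : Fin k → Alg k) q

theorem GNF_ev0 {k : ℕ} (q : FreeAlgebra ℂ (Fin k)) :
    ((ev (ge : Fin k → Alg k) q : Alg k) : Fk k →L[ℂ] Fk k) = ev sc q :=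
  GNF_hom (((Alg k).subtype : Alg k →⋆ₐ[ℂ] (Fk k →L[ℂ] Fk k)) :
    Alg k →ₐ[ℂ] (Fk k →L[ℂ] Fk k)) (ge : Fin k → Alg k) q

theorem GNF_prod {k n : ℕ} (φ : Alg k →⋆ₐ[ℂ] Alg n) (w : List (Fin k)) :
    ((φ ((w.map ge).prod) : Alg n) : Fk n →L[ℂ] Fk n) =
      (w.map fun j => (φ (ge j) : Fk n →L[ℂ] Fk n)).prod := by
  induction w with
  | nil =>
    simp only [List.map_nil, List.prod_nil, map_one]
    rfl
  | cons a w ih =>
    rw [List.map_cons, List.prod_cons, List.map_cons, List.prod_cons, map_mul, ← ih]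
    rfl

theorem GNF_prod0 {k : ℕ} (w : List (Fin k)) :
    (((w.map ge).prod : Alg k) : Fk k →L[ℂ] Fk k) = mon w := by
  induction w with
  | nil => rfl
  | cons a w ih =>
    have h : (mon (a :: w) : Fk k →L[ℂ] Fk k) = sc a * mon w := by
      simp [mon]
    rw [h, ← ih, List.map_cons, List.prod_cons]
    rfl

/-- **GNF**: homomorphisms with weakly dense range give generating families. -/
theorem p_GNF (hS : Stmt_SPL) : Stmt_GNF := by
  intro n k hk φ hφ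
  obtain ⟨M, hM⟩ := hφ
  refine ⟨fun j => (φ (ge j)).2, fun j => ?_, fun w => ?_, M + 1, fun i η hη => ?_⟩
  · have h1 : star (ge j : Alg k) = ge j := by
      apply Subtype.ext
      exact (t_BAS k).2.2.2.2.2.2.1 j
    have h2 : star (φ (ge j)) = φ (ge j) := by
      rw [← map_star, h1]
    exact congrArg (Subtype.val) h2
  · rw [← GNF_prod, GNF_tr hk φ, GNF_prod0, tau]
  · obtain ⟨x, hx1, hx2⟩ := hM i (η / 2) (by positivity)
    obtain ⟨q, hq⟩ := hS k (x : Fk k →L[ℂ] Fk k) x.2 (min 1 (η / 2)) (by positivity)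
    have h1 : ‖(φ x : Fk (n + 1) →L[ℂ] Fk (n + 1)) -
        ev (fun j => (φ (ge j) : Fk (n + 1) →L[ℂ] Fk (n + 1))) q‖ ≤ min 1 (η / 2) := by
      have h2 : ‖φ (x - ev (ge : Fin k → Alg k) q)‖ ≤ ‖x - ev (ge : Fin k → Alg k) q‖ :=
        GNF_norm φ _
      have h3 : ‖x - ev (ge : Fin k → Alg k) q‖ = ‖(x : Fk k →L[ℂ] Fk k) - ev sc q‖ := by
        rw [← GNF_ev0]
        rfl
      have h4 : ‖φ (x - ev (ge : Fin k → Alg k) q)‖ =
          ‖(φ x : Fk (n + 1) →L[ℂ] Fk (n + 1)) -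
        ev (fun j => (φ (ge j) : Fk (n + 1) →L[ℂ] Fk (n + 1))) q‖ := by
        rw [← GNF_ev, map_sub]
        rfl
      rw [← h4]
      exact h2.trans (h3.le.trans hq)
    refine ⟨q, ?_, ?_⟩
    · have h2 : ‖ev (fun j => (φ (ge j) : Fk (n + 1) →L[ℂ] Fk (n + 1))) q‖ ≤
          ‖(φ x : Fk (n + 1) →L[ℂ] Fk (n + 1))‖ + ‖(φ x : Fk (n + 1) →L[ℂ] Fk (n + 1)) -
        ev (fun j => (φ (ge j) : Fk (n + 1) →L[ℂ] Fk (n + 1))) q‖ := by
        have := norm_sub_le (φ x : Fk (n + 1) →L[ℂ] Fk (n + 1))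
          ((φ x : Fk (n + 1) →L[ℂ] Fk (n + 1)) -
            ev (fun j => (φ (ge j) : Fk (n + 1) →L[ℂ] Fk (n + 1))) q)
        rwa [sub_sub_cancel] at this
      refine h2.trans (add_le_add hx1 (h1.trans (min_le_left _ _)))
    · have h2 : (sc i - ev (fun j => (φ (ge j) : Fk (n + 1) →L[ℂ] Fk (n + 1))) q)
          (vac (n + 1)) = (sc i - (φ x : Fk (n + 1) →L[ℂ] Fk (n + 1))) (vac (n + 1)) +
          ((φ x : Fk (n + 1) →L[ℂ] Fk (n + 1)) -
            ev (fun j => (φ (ge j) : Fk (n + 1) →L[ℂ] Fk (n + 1))) q) (vac (n + 1)) := by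
        rw [← add_apply, sub_add_sub_cancel]
      rw [h2]
      refine (norm_add_le _ _).trans ?_
      have h3 : ‖((φ x : Fk (n + 1) →L[ℂ] Fk (n + 1)) -
            ev (fun j => (φ (ge j) : Fk (n + 1) →L[ℂ] Fk (n + 1))) q) (vac (n + 1))‖ ≤ η / 2 := by
        refine (ContinuousLinearMap.le_opNorm _ _).trans ?_
        rw [IMP_vac, mul_one]
        exact h1.trans (min_le_right _ _)
      linarith

end Pool.FR
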