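import Pool.Agent.Work.MP_118406_fr.Interface

set_option autoImplicit false

/-!
# Block GO1: the case of one matrix
-/

open scoped InnerProductSpace ComplexConjugate Topology BigOperators
open Set Filter MeasureTheory Pool.SI

noncomputable section

namespace Pool.FR

theorem GO1_map {N : ℕ} (S : Set (Fin N × Fin N → ℝ)) :
    (gs (Fin N × Fin N)) S =
      (gs (Fin 1 × Fin N × Fin N)) {g | (fun p => g (0, p)) ∈ S} := by
  have h := measurePreserving_piCongrLeft
    (fun _ : Fin N × Fin N => ProbabilityTheory.gaussianReal 0 1)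
    (Equiv.uniqueProd (Fin N × Fin N) (Fin 1))
  have h2 := h.measure_preimage_equiv S
  exact h2.symm

theorem p_GO1 (h1 : Stmt_GOD) : Stmt_GO1 := by
  intro m γ hγ
  obtain ⟨N₀, hN₀⟩ := h1 1 m γ hγ
  refine ⟨N₀, fun N hN h1N => ?_⟩
  rw [GO1_map]
  refine le_trans (measure_mono ?_) (hN₀ N hN h1N)
  intro g hg
  simp only [mem_setOf_eq] at hg ⊢
  obtain ⟨j, hj, hlt⟩ := hg
  intro hMC
  have h2 := hMC.2 (List.replicate j 0) (by simpa using hj)
  have e : ((List.replicate j (0 : Fin 1)).map (hmk g)).prod =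
      (hm (fun p => g (0, p)) : Mat N) ^ j := by
    rw [List.map_replicate, List.prod_replicate]
    rfl
  rw [e] at h2
  exact absurd h2 (not_le.2 hlt)

end Pool.FR
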