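import Pool.Agent.Work.MP_118406_fr.Interface

set_option autoImplicit false

/-!
# Block GOD: most GUE tuples are microstates
-/

open scoped InnerProductSpace ComplexConjugate Topology BigOperators
open Set Filter MeasureTheory Pool.SI

noncomputable section

namespace Pool.FR

theorem GOD_prob (ι : Type) [Fintype ι] : IsProbabilityMeasure (gs ι) := by
  unfold gs
  infer_instance

theorem GOD_star_prod {N : ℕ} (L : List (Mat N)) (h : ∀ A ∈ L, star A = A) :
    star L.prod = L.reverse.prod := by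
  induction L with
  | nil => simp
  | cons A L ih =>
    rw [List.prod_cons, star_mul, ih (fun B hB => h B (List.mem_cons_of_mem _ hB)),
      h A List.mem_cons_self, List.reverse_cons, List.prod_append, List.prod_singleton]

theorem GOD_ntr_star {N : ℕ} (A : Mat N) : ntr (star A) = conj (ntr A) := by
  rw [ntr, ntr, Matrix.star_eq_conjTranspose, Matrix.trace_conjTranspose]
  simp

theorem GOD_rev (h1 : Stmt_HMB) {k N : ℕ} (hN : 1 ≤ N) (w : List (Fin k))
    (g : Fin k × Fin N × Fin N → ℝ) :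
    ntr ((w.reverse.map (hmk g)).prod) = conj (ntr ((w.map (hmk g)).prod)) := by
  rw [← GOD_ntr_star, GOD_star_prod, List.map_reverse]
  intro A hA
  obtain ⟨i, -, rfl⟩ := List.mem_map.1 hA
  exact (h1 N hN).1 _

/-- The limit of the moments, as a function of words in the letters of `Empty ⊕ Fin k`. -/
def GOD_t (k : ℕ) (v : List (Empty ⊕ Fin k)) : ℂ := tau (v.map (Sum.elim Empty.elim id))

theorem GOD_t_inr (k : ℕ) (w : List (Fin k)) : GOD_t k (w.map Sum.inr) = tau w := by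
  rw [GOD_t, List.map_map]
  congr 1
  have e : (Sum.elim Empty.elim id ∘ Sum.inr : Fin k → Fin k) = id := by
    funext x
    rfl
  rw [e, List.map_id]

theorem GOD_t_rec (h4 : Stmt_SDE) (k : ℕ) (i : Fin k) (w : List (Empty ⊕ Fin k)) :
    GOD_t k (Sum.inr i :: w) = ∑ p : Fin w.length, if w.get p = Sum.inr i then
      GOD_t k (w.take p) * GOD_t k (w.drop (p + 1)) else 0 := by
  have h := (h4 k).2.2.2.1 i (w.map (Sum.elim Empty.elim id))
  have e0 : GOD_t k (Sum.inr i :: w) = tau (i :: w.map (Sum.elim Empty.elim id)) := rfl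
  rw [e0, h]
  refine Fintype.sum_equiv (finCongr (by simp)) _ _ fun p => ?_
  have hp : (p : ℕ) < w.length := by simpa using p.2
  have e1 : (w.map (Sum.elim Empty.elim id)).get p = Sum.elim Empty.elim id (w.get ⟨p, hp⟩) := by
    simp
  have e2 : (finCongr (by simp) p : Fin w.length) = ⟨p, hp⟩ := rfl
  rw [e2, e1]
  have e3 : (Sum.elim Empty.elim id (w.get ⟨p, hp⟩) = i) ↔ (w.get ⟨p, hp⟩ = Sum.inr i) := by
    rcases w.get ⟨p, hp⟩ with x | x
    · exact x.elim
    · simp
  by_cases hc : w.get ⟨p, hp⟩ = Sum.inr i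
  · rw [if_pos (e3.2 hc), if_pos hc, GOD_t, GOD_t, List.map_take, List.map_drop]
  · rw [if_neg (fun h => hc (e3.1 h)), if_neg hc]

theorem GOD_lim (h3 : Stmt_CNV) (h4 : Stmt_SDE) (k : ℕ) (S : List (List (Empty ⊕ Fin k)))
    (κ : ℝ) (hκ : 0 < κ) : ∃ N₀ : ℕ, ∀ N : ℕ, N₀ ≤ N → 1 ≤ N →
      ‖Ex (Empty.elim : Empty → Mat N) S - (S.map (GOD_t k)).prod‖ ≤ κ := by
  obtain ⟨m, N₀, δ, hδ, h⟩ := h3 Empty (Fin k) (GOD_t k)
    (fun u v => by
      rw [GOD_t, GOD_t, List.map_append, List.map_append]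
      exact (h4 k).2.1 _ _)
    (fun i w => GOD_t_rec h4 k i w) S κ hκ
  refine ⟨N₀, fun N hN h1 => h N hN h1 _ ?_⟩
  intro w _
  rcases w with _ | ⟨a, w⟩
  · have hN0 : (N : ℂ) ≠ 0 := by
      have : N ≠ 0 := by omega
      exact_mod_cast this
    have e1 : ntr ((([] : List Empty).map (Empty.elim : Empty → Mat N)).prod) = 1 := by
      rw [List.map_nil, List.prod_nil, ntr, Matrix.trace_one, Fintype.card_fin]
      exact inv_mul_cancel₀ hN0
    have e2 : GOD_t k (([] : List Empty).map Sum.inl) = 1 := by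
      rw [GOD_t, List.map_nil, List.map_nil]
      exact (h4 k).1
    rw [e1, e2, sub_self, norm_zero]
    exact hδ.le
  · exact a.elim

theorem GOD_word {k N : ℕ} (w : List (Fin k)) (g : Fin k × Fin N × Fin N → ℝ) :
    ((w.map Sum.inr).map (Sum.elim (Empty.elim : Empty → Mat N) (hmk g))).prod =
      (w.map (hmk g)).prod := by
  rw [List.map_map]
  congr 1

theorem GOD_one (h1 : Stmt_HMB) (h2 : Stmt_INT) (h3 : Stmt_CNV) (h4 : Stmt_SDE) (k : ℕ)
    (w : List (Fin k)) (κ : ℝ) (hκ : 0 < κ) : ∃ N₀ : ℕ, ∀ N : ℕ, N₀ ≤ N → 1 ≤ N →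
    Integrable (fun g : Fin k × Fin N × Fin N → ℝ =>
      ‖ntr ((w.map (hmk g)).prod) - tau w‖ ^ 2) (gs (Fin k × Fin N × Fin N)) ∧
    ∫ g : Fin k × Fin N × Fin N → ℝ, ‖ntr ((w.map (hmk g)).prod) - tau w‖ ^ 2
      ∂(gs (Fin k × Fin N × Fin N)) ≤ κ := by
  have hpos : 0 < 1 + 2 * ‖tau w‖ := by positivity
  have hκ' : 0 < κ / (1 + 2 * ‖tau w‖) := by positivity
  obtain ⟨N1, H1⟩ := GOD_lim h3 h4 k [w.map Sum.inr] _ hκ'
  obtain ⟨N2, H2⟩ := GOD_lim h3 h4 k [w.reverse.map Sum.inr] _ hκ'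
  obtain ⟨N3, H3⟩ := GOD_lim h3 h4 k [w.map Sum.inr, w.reverse.map Sum.inr] _ hκ'
  refine ⟨max N1 (max N2 N3), fun N hN hN1 => ?_⟩
  have G1 := H1 N (le_trans (le_max_left _ _) hN) hN1
  have G2 := H2 N (le_trans (le_trans (le_max_left _ _) (le_max_right _ _)) hN) hN1
  have G3 := H3 N (le_trans (le_trans (le_max_right _ _) (le_max_right _ _)) hN) hN1
  have := GOD_prob (Fin k × Fin N × Fin N)
  set T : ℂ := tau w with hT
  set F : (Fin k × Fin N × Fin N → ℝ) → ℂ := fun g => ntr ((w.map (hmk g)).prod) with hF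
  set F' : (Fin k × Fin N × Fin N → ℝ) → ℂ := fun g => ntr ((w.reverse.map (hmk g)).prod)
    with hF'
  have hTr : tau w.reverse = conj T := (h4 k).2.2.1 w
  -- the integrals
  have E1 : Ex (Empty.elim : Empty → Mat N) [w.map Sum.inr] =
      ∫ g, F g ∂(gs (Fin k × Fin N × Fin N)) := by
    rw [Ex]
    refine integral_congr_ae (Eventually.of_forall fun g => ?_)
    simp only [List.map_cons, List.map_nil, List.prod_singleton]
    rw [GOD_word]
  have E2 : Ex (Empty.elim : Empty → Mat N) [w.reverse.map Sum.inr] =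
      ∫ g, F' g ∂(gs (Fin k × Fin N × Fin N)) := by
    rw [Ex]
    refine integral_congr_ae (Eventually.of_forall fun g => ?_)
    simp only [List.map_cons, List.map_nil, List.prod_singleton]
    rw [GOD_word]
  have E3 : Ex (Empty.elim : Empty → Mat N) [w.map Sum.inr, w.reverse.map Sum.inr] =
      ∫ g, F g * F' g ∂(gs (Fin k × Fin N × Fin N)) := by
    rw [Ex]
    refine integral_congr_ae (Eventually.of_forall fun g => ?_)
    simp only [List.map_cons, List.map_nil, List.prod_cons, List.prod_nil, mul_one]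
    rw [GOD_word, GOD_word]
  have I1 : Integrable F (gs (Fin k × Fin N × Fin N)) := by
    refine (h2 Empty (Fin k) N Empty.elim [w.map Sum.inr] hN1).congr
      (Eventually.of_forall fun g => ?_)
    simp only [List.map_cons, List.map_nil, List.prod_singleton]
    rw [GOD_word]
  have I2 : Integrable F' (gs (Fin k × Fin N × Fin N)) := by
    refine (h2 Empty (Fin k) N Empty.elim [w.reverse.map Sum.inr] hN1).congr
      (Eventually.of_forall fun g => ?_)
    simp only [List.map_cons, List.map_nil, List.prod_singleton]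
    rw [GOD_word]
  have I3 : Integrable (fun g => F g * F' g) (gs (Fin k × Fin N × Fin N)) := by
    refine (h2 Empty (Fin k) N Empty.elim [w.map Sum.inr, w.reverse.map Sum.inr] hN1).congr
      (Eventually.of_forall fun g => ?_)
    simp only [List.map_cons, List.map_nil, List.prod_cons, List.prod_nil, mul_one]
    rw [GOD_word, GOD_word]
  have hpt : ∀ g, ((‖F g - T‖ ^ 2 : ℝ) : ℂ) = F g * F' g - conj T * F g - T * F' g + T * conj T := by
    intro g
    have e1 : F' g = conj (F g) := GOD_rev h1 hN1 w g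
    rw [e1]
    push_cast
    rw [← Complex.mul_conj', map_sub]
    ring
  have I4 : Integrable (fun g => F g * F' g - conj T * F g - T * F' g + T * conj T)
      (gs (Fin k × Fin N × Fin N)) :=
    ((I3.sub (I1.const_mul _)).sub (I2.const_mul _)).add (integrable_const _)
  have I5 : Integrable (fun g => ((‖F g - T‖ ^ 2 : ℝ) : ℂ)) (gs (Fin k × Fin N × Fin N)) := by
    refine I4.congr (Eventually.of_forall fun g => ?_)
    exact (hpt g).symm
  have I6 : Integrable (fun g => ‖F g - T‖ ^ 2) (gs (Fin k × Fin N × Fin N)) := by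
    refine I5.re.congr (Eventually.of_forall fun g => ?_)
    exact Complex.ofReal_re _
  refine ⟨I6, ?_⟩
  have V : ((∫ g, ‖F g - T‖ ^ 2 ∂(gs (Fin k × Fin N × Fin N)) : ℝ) : ℂ) =
      (∫ g, F g * F' g ∂(gs (Fin k × Fin N × Fin N))) -
        conj T * (∫ g, F g ∂(gs (Fin k × Fin N × Fin N))) -
        T * (∫ g, F' g ∂(gs (Fin k × Fin N × Fin N))) + T * conj T := by
    rw [← integral_complex_ofReal]
    rw [integral_congr_ae (Eventually.of_forall hpt)]
    have J1 : Integrable (fun g => conj T * F g) (gs (Fin k × Fin N × Fin N)) := I1.const_mul _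
    have J2 : Integrable (fun g => T * F' g) (gs (Fin k × Fin N × Fin N)) := I2.const_mul _
    have K1 : Integrable (fun g => F g * F' g - conj T * F g) (gs (Fin k × Fin N × Fin N)) :=
      I3.sub J1
    have K2 : Integrable (fun g => F g * F' g - conj T * F g - T * F' g)
      (gs (Fin k × Fin N × Fin N)) := K1.sub J2
    rw [integral_add K2 (integrable_const _), integral_sub K1 J2, integral_sub I3 J1,
      integral_const_mul, integral_const_mul, integral_const]
    simp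
  have B1 : ‖(∫ g, F g ∂(gs (Fin k × Fin N × Fin N))) - T‖ ≤ κ / (1 + 2 * ‖T‖) := by
    rw [E1] at G1
    simpa [GOD_t_inr] using G1
  have B2 : ‖(∫ g, F' g ∂(gs (Fin k × Fin N × Fin N))) - conj T‖ ≤ κ / (1 + 2 * ‖T‖) := by
    rw [E2] at G2
    have e : (([w.reverse.map Sum.inr] : List (List (Empty ⊕ Fin k))).map (GOD_t k)).prod =
        conj T := by
      rw [List.map_cons, List.map_nil, List.prod_singleton, GOD_t_inr, hTr]
    rw [e] at G2
    exact G2
  have B3 : ‖(∫ g, F g * F' g ∂(gs (Fin k × Fin N × Fin N))) - T * conj T‖ ≤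
      κ / (1 + 2 * ‖T‖) := by
    rw [E3] at G3
    have e : (([w.map Sum.inr, w.reverse.map Sum.inr] : List (List (Empty ⊕ Fin k))).map
        (GOD_t k)).prod = T * conj T := by
      rw [List.map_cons, List.map_cons, List.map_nil, List.prod_cons, List.prod_singleton,
        GOD_t_inr, GOD_t_inr, hTr]
    rw [e] at G3
    exact G3
  have hnn : 0 ≤ ∫ g, ‖F g - T‖ ^ 2 ∂(gs (Fin k × Fin N × Fin N)) :=
    integral_nonneg fun g => by positivity
  have hn : ∫ g, ‖F g - T‖ ^ 2 ∂(gs (Fin k × Fin N × Fin N)) =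
      ‖((∫ g, ‖F g - T‖ ^ 2 ∂(gs (Fin k × Fin N × Fin N)) : ℝ) : ℂ)‖ := by
    rw [Complex.norm_real, Real.norm_of_nonneg hnn]
  rw [hn, V]
  have e : (∫ g, F g * F' g ∂(gs (Fin k × Fin N × Fin N))) -
        conj T * (∫ g, F g ∂(gs (Fin k × Fin N × Fin N))) -
        T * (∫ g, F' g ∂(gs (Fin k × Fin N × Fin N))) + T * conj T =
      ((∫ g, F g * F' g ∂(gs (Fin k × Fin N × Fin N))) - T * conj T) -
        conj T * ((∫ g, F g ∂(gs (Fin k × Fin N × Fin N))) - T) -
        T * ((∫ g, F' g ∂(gs (Fin k × Fin N × Fin N))) - conj T) := by ring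
  rw [e]
  calc ‖((∫ g, F g * F' g ∂(gs (Fin k × Fin N × Fin N))) - T * conj T) -
        conj T * ((∫ g, F g ∂(gs (Fin k × Fin N × Fin N))) - T) -
        T * ((∫ g, F' g ∂(gs (Fin k × Fin N × Fin N))) - conj T)‖
      ≤ ‖(∫ g, F g * F' g ∂(gs (Fin k × Fin N × Fin N))) - T * conj T‖ +
        ‖conj T * ((∫ g, F g ∂(gs (Fin k × Fin N × Fin N))) - T)‖ +
        ‖T * ((∫ g, F' g ∂(gs (Fin k × Fin N × Fin N))) - conj T)‖ :=
        (norm_sub_le _ _).trans (add_le_add_left (norm_sub_le _ _) _)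
    _ ≤ κ / (1 + 2 * ‖T‖) + ‖T‖ * (κ / (1 + 2 * ‖T‖)) + ‖T‖ * (κ / (1 + 2 * ‖T‖)) := by
        rw [norm_mul, norm_mul, RCLike.norm_conj]
        gcongr
    _ = κ := by
        field_simp
        ring

theorem p_GOD (h1 : Stmt_HMB) (h2 : Stmt_INT) (h3 : Stmt_CNV) (h4 : Stmt_SDE) : Stmt_GOD := by
  intro k m γ hγ
  set W : Finset (List (Fin k)) := (List.finite_length_le (Fin k) m).toFinset with hW
  have hMpos : (0 : ℝ) < 4 * (W.card + 1) := by positivity
  have hκ : 0 < γ ^ 2 / (4 * (W.card + 1)) := by positivity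
  choose N₀ hN₀ using fun w : List (Fin k) => GOD_one h1 h2 h3 h4 k w _ hκ
  refine ⟨W.sup N₀, fun N hN hN1 => ?_⟩
  have := GOD_prob (Fin k × Fin N × Fin N)
  have hsub : {g : Fin k × Fin N × Fin N → ℝ | ¬ MC k m γ N (hmk g)} ⊆
      ⋃ w ∈ W, {g | γ ^ 2 ≤ ‖ntr ((w.map (hmk g)).prod) - tau w‖ ^ 2} := by
    intro g hg
    have hg' : ¬ MC k m γ N (hmk g) := hg
    rw [MC] at hg'
    push Not at hg'
    obtain ⟨w, hw, hlt⟩ := hg' fun i => (h1 N hN1).1 _
    refine Set.mem_iUnion₂.2 ⟨w, ?_, ?_⟩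
    · rw [hW]
      simpa using hw
    · show γ ^ 2 ≤ ‖ntr ((w.map (hmk g)).prod) - tau w‖ ^ 2
      gcongr
  have hone : ∀ w ∈ W, (gs (Fin k × Fin N × Fin N))
      {g | γ ^ 2 ≤ ‖ntr ((w.map (hmk g)).prod) - tau w‖ ^ 2} ≤
        ENNReal.ofReal (1 / (4 * (W.card + 1))) := by
    intro w hw
    obtain ⟨I, hI⟩ := hN₀ w N (le_trans (Finset.le_sup hw) hN) hN1
    have hm := mul_meas_ge_le_integral_of_nonneg
      (Eventually.of_forall fun g => by positivity) I (γ ^ 2)
    have h5 : (gs (Fin k × Fin N × Fin N)).real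
        {g | γ ^ 2 ≤ ‖ntr ((w.map (hmk g)).prod) - tau w‖ ^ 2} ≤ 1 / (4 * (W.card + 1)) := by
      have h6 := hm.trans hI
      have hγ2 : 0 < γ ^ 2 := by positivity
      rw [div_eq_mul_one_div] at h6
      exact le_of_mul_le_mul_left h6 hγ2
    rw [← ENNReal.ofReal_toReal (measure_ne_top (gs (Fin k × Fin N × Fin N)) _)]
    exact ENNReal.ofReal_le_ofReal h5
  calc (gs (Fin k × Fin N × Fin N)) {g | ¬ MC k m γ N (hmk g)}
      ≤ (gs (Fin k × Fin N × Fin N))
        (⋃ w ∈ W, {g | γ ^ 2 ≤ ‖ntr ((w.map (hmk g)).prod) - tau w‖ ^ 2}) := measure_mono hsub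
    _ ≤ ∑ w ∈ W, (gs (Fin k × Fin N × Fin N))
        {g | γ ^ 2 ≤ ‖ntr ((w.map (hmk g)).prod) - tau w‖ ^ 2} := measure_biUnion_finset_le _ _
    _ ≤ ∑ _w ∈ W, ENNReal.ofReal (1 / (4 * (W.card + 1))) := Finset.sum_le_sum hone
    _ = ENNReal.ofReal (W.card * (1 / (4 * (W.card + 1)))) := by
        rw [Finset.sum_const, nsmul_eq_mul, ENNReal.ofReal_mul (by positivity),
          ENNReal.ofReal_natCast]
    _ ≤ ENNReal.ofReal (1 / 4) := by
        apply ENNReal.ofReal_le_ofReal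
        rw [mul_one_div, div_le_div_iff₀ hMpos (by norm_num)]
        nlinarith

end Pool.FR
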