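import Pool.Agent.Work.MP_118406_fr.Interface

set_option autoImplicit false

open scoped InnerProductSpace ComplexConjugate Topology BigOperators
open Set Filter MeasureTheory Pool.SI

noncomputable section

namespace Pool.FR

theorem GVB_int (ι : Type) [Fintype ι] :
    ∫ x : ι → ℝ, ∏ i, Real.exp (-(1 / 2 : ℝ) * x i ^ 2) =
      Real.sqrt (2 * Real.pi) ^ Fintype.card ι := by
  rw [integral_fintype_prod_volume_eq_pow (fun t : ℝ => Real.exp (-(1 / 2 : ℝ) * t ^ 2)),
    integral_gaussian]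
  congr 2
  ring

theorem GVB_integrable (ι : Type) [Fintype ι] :
    Integrable (fun x : ι → ℝ => ∏ i, Real.exp (-(1 / 2 : ℝ) * x i ^ 2)) := by
  exact Integrable.fintype_prod (fun _ => integrable_exp_neg_mul_sq (by norm_num : (0 : ℝ) < 1 / 2))

theorem p_GVB : Stmt_GVB := by
  intro ι _ R hR
  set c := Fintype.card ι with hc
  have hint := GVB_int ι
  have hig := GVB_integrable ι
  have hi2 : Integrable (fun x : ι → ℝ => Real.exp (R / 2) ^ c *
      ∏ i, Real.exp (-(1 / 2 : ℝ) * x i ^ 2)) := hig.const_mul _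
  have hval : ∫ x : ι → ℝ, Real.exp (R / 2) ^ c * ∏ i, Real.exp (-(1 / 2 : ℝ) * x i ^ 2) =
      (Real.sqrt (2 * Real.pi) * Real.exp (R / 2)) ^ c := by
    rw [integral_const_mul, hint, mul_pow, mul_comm]
  have hnn : ∀ x : ι → ℝ, 0 ≤ Real.exp (R / 2) ^ c * ∏ i, Real.exp (-(1 / 2 : ℝ) * x i ^ 2) := by
    intro x
    exact mul_nonneg (by positivity) (Finset.prod_nonneg fun i _ => (Real.exp_pos _).le)
  have hl : ∫⁻ x : ι → ℝ, ENNReal.ofReal (Real.exp (R / 2) ^ c *
      ∏ i, Real.exp (-(1 / 2 : ℝ) * x i ^ 2)) =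
      ENNReal.ofReal ((Real.sqrt (2 * Real.pi) * Real.exp (R / 2)) ^ c) := by
    rw [← hval, ofReal_integral_eq_lintegral_ofReal hi2 (Eventually.of_forall hnn)]
  have hm := meas_ge_le_lintegral_div (μ := (volume : Measure (ι → ℝ)))
    (f := fun x : ι → ℝ => ENNReal.ofReal (Real.exp (R / 2) ^ c *
      ∏ i, Real.exp (-(1 / 2 : ℝ) * x i ^ 2)))
    (hi2.aestronglyMeasurable.aemeasurable.ennreal_ofReal)
    (ε := 1) one_ne_zero ENNReal.one_ne_top
  rw [hl, div_one] at hm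
  refine le_trans (measure_mono ?_) hm
  intro x hx
  have hx' : ∑ i, x i ^ 2 ≤ R * c := hx
  show (1 : ENNReal) ≤ ENNReal.ofReal _
  rw [ENNReal.one_le_ofReal, ← Real.exp_sum, ← Real.exp_nat_mul, ← Real.exp_add,
    ← Finset.mul_sum]
  exact Real.one_le_exp (by nlinarith)

end Pool.FR
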