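import Pool.Agent.Work.MP_118406_fr.Interface

set_option autoImplicit false

/-!
# HMB: real coordinates of hermitian matrices
-/

open scoped InnerProductSpace ComplexConjugate Topology BigOperators
open Set Filter MeasureTheory Pool.SI

noncomputable section

namespace Pool.FR

theorem HMB_sq {N : ℕ} : (Real.sqrt N) * (Real.sqrt N) = N :=
  Real.mul_self_sqrt (Nat.cast_nonneg N)

theorem HMB_sq2 {N : ℕ} : (Real.sqrt (2 * N)) * (Real.sqrt (2 * N)) = 2 * N :=
  Real.mul_self_sqrt (by positivity)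

theorem HMB_herm {N : ℕ} (x : Fin N × Fin N → ℝ) : (hm x : Mat N).IsHermitian := by
  apply Matrix.IsHermitian.ext
  intro a b
  unfold hm
  rcases lt_trichotomy a b with h | h | h
  · have h1 : ¬ a = b := h.ne
    have h2 : ¬ b = a := h.ne'
    have h3 : ¬ b < a := h.not_gt
    simp only [h1, h2, h3, h, if_true, if_false, map_sub, map_mul, Complex.conj_I,
      Complex.conj_ofReal, star_sub, star_mul', Complex.star_def]
    ring
  · subst h
    simp
  · have h1 : ¬ a = b := h.ne'
    have h2 : ¬ b = a := h.ne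
    have h3 : ¬ a < b := h.not_gt
    simp only [h1, h2, h3, h, if_true, if_false, map_add, map_mul, Complex.conj_I,
      Complex.conj_ofReal, star_add, star_mul', Complex.star_def]
    ring

theorem HMB_add {N : ℕ} (x y : Fin N × Fin N → ℝ) : (hm (x + y) : Mat N) = hm x + hm y := by
  ext a b
  simp only [hm, Matrix.add_apply, Pi.add_apply]
  split_ifs
  · push_cast; ring
  · push_cast; ring
  · push_cast; ring

theorem HMB_smul {N : ℕ} (c : ℝ) (x : Fin N × Fin N → ℝ) :
    (hm (c • x) : Mat N) = (c : ℂ) • hm x := by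
  ext a b
  simp only [hm, Matrix.smul_apply, Pi.smul_apply, smul_eq_mul]
  split_ifs
  · push_cast; ring
  · push_cast; ring
  · push_cast; ring

theorem HMB_sub {N : ℕ} (x y : Fin N × Fin N → ℝ) : (hm (x - y) : Mat N) = hm x - hm y := by
  have h : x - y = x + (-1 : ℝ) • y := by
    ext p; simp; ring
  rw [h, HMB_add, HMB_smul]
  ext a b
  simp
  ring

/-- `hm` as an additive map -/
def HMB_hom (N : ℕ) : (Fin N × Fin N → ℝ) →+ Mat N where
  toFun := hm
  map_zero' := by
    have h := HMB_smul (N := N) 0 0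
    simpa using h
  map_add' := HMB_add

theorem HMB_entry {N : ℕ} (hN : 1 ≤ N) (x : Fin N × Fin N → ℝ) (a b : Fin N) :
    ‖(hm x : Mat N) a b‖ ^ 2 = (x (a, b) ^ 2 + x (b, a) ^ 2) / (2 * N) := by
  have hN0 : (0 : ℝ) < N := by exact_mod_cast hN
  have s1 : 0 < Real.sqrt N := Real.sqrt_pos.2 hN0
  have s2 : 0 < Real.sqrt (2 * N) := Real.sqrt_pos.2 (by positivity)
  have e1 := HMB_sq (N := N)
  have e2 := HMB_sq2 (N := N)
  rw [← Complex.normSq_eq_norm_sq]
  unfold hm
  split_ifs with h1 h2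
  · subst h1
    rw [Complex.normSq_ofReal, div_mul_div_comm, e1]
    field_simp
    ring
  · rw [Complex.normSq_apply]
    simp only [Complex.add_re, Complex.ofReal_re, Complex.mul_re, Complex.I_re, Complex.I_im,
      Complex.ofReal_im, Complex.add_im, Complex.mul_im, zero_mul, one_mul, mul_zero, sub_zero,
      add_zero, zero_add, zero_sub]
    rw [div_mul_div_comm, div_mul_div_comm, e2]
    ring
  · rw [Complex.normSq_apply]
    simp only [Complex.sub_re, Complex.ofReal_re, Complex.mul_re, Complex.I_re, Complex.I_im,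
      Complex.ofReal_im, Complex.sub_im, Complex.mul_im, zero_mul, one_mul, mul_zero, sub_zero,
      add_zero, zero_add, zero_sub, neg_mul_neg]
    rw [div_mul_div_comm, div_mul_div_comm, e2]
    ring

theorem HMB_nn {N : ℕ} (hN : 1 ≤ N) (x : Fin N × Fin N → ℝ) :
    nn (hm x : Mat N) = (∑ p, x p ^ 2) / (N : ℝ) ^ 2 := by
  have hN0 : (0 : ℝ) < N := by exact_mod_cast hN
  unfold nn
  have h1 : ∑ a, ∑ b, ‖(hm x : Mat N) a b‖ ^ 2 = (∑ p, x p ^ 2) / N := by
    simp only [HMB_entry hN]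
    rw [Fintype.sum_prod_type]
    have h2 : ∑ a : Fin N, ∑ b : Fin N, (x (a, b) ^ 2 + x (b, a) ^ 2) / (2 * N) =
        ((∑ a : Fin N, ∑ b : Fin N, x (a, b) ^ 2) + ∑ a : Fin N, ∑ b : Fin N, x (b, a) ^ 2) /
          (2 * N) := by
      simp only [add_div, Finset.sum_add_distrib, Finset.sum_div]
    rw [h2, Finset.sum_comm (f := fun a b => x (b, a) ^ 2)]
    field_simp
    ring
  rw [h1]
  field_simp

theorem HMB_sum {N : ℕ} (x : Fin N × Fin N → ℝ) :
    (hm x : Mat N) = ∑ p, (x p : ℂ) • hm (cv p) := by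
  have h : x = ∑ p, x p • cv p := by
    ext q
    simp [cv, Finset.sum_apply]
  calc (hm x : Mat N) = HMB_hom N (∑ p, x p • cv p) := by rw [← h]; rfl
    _ = ∑ p, HMB_hom N (x p • cv p) := map_sum _ _ _
    _ = ∑ p, (x p : ℂ) • hm (cv p) := Finset.sum_congr rfl fun p _ => HMB_smul (x p) (cv p)

theorem HMB_surj {N : ℕ} (hN : 1 ≤ N) (A : Mat N) (hA : A.IsHermitian) :
    ∃ x : Fin N × Fin N → ℝ, hm x = A := by
  have hN0 : (0 : ℝ) < N := by exact_mod_cast hN
  have s1 : Real.sqrt N ≠ 0 := (Real.sqrt_pos.2 hN0).ne'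
  have s2 : Real.sqrt (2 * N) ≠ 0 := (Real.sqrt_pos.2 (by positivity)).ne'
  refine ⟨fun p => if p.1 = p.2 then Real.sqrt N * (A p.1 p.1).re else if p.1 < p.2 then
    Real.sqrt (2 * N) * (A p.1 p.2).re else Real.sqrt (2 * N) * (A p.2 p.1).im, ?_⟩
  ext a b
  have hab : A a b = conj (A b a) := (hA.apply a b).symm
  rcases lt_trichotomy a b with h | h | h
  · have h1 : ¬ a = b := h.ne
    have h2 : ¬ b = a := h.ne'
    have h3 : ¬ b < a := h.not_gt
    simp only [hm, h1, h2, h3, h, if_true, if_false]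
    rw [mul_div_cancel_left₀ _ s2, mul_div_cancel_left₀ _ s2, mul_comm]
    exact Complex.re_add_im _
  · subst h
    simp only [hm, if_true]
    rw [mul_div_cancel_left₀ _ s1]
    have him : (A a a).im = 0 := by
      have := congrArg Complex.im hab
      rw [Complex.conj_im] at this
      linarith
    apply Complex.ext
    · simp
    · simp [him]
  · have h1 : ¬ a = b := h.ne'
    have h2 : ¬ b = a := h.ne
    have h3 : ¬ a < b := h.not_gt
    simp only [hm, h1, h2, h3, h, if_true, if_false]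
    rw [mul_div_cancel_left₀ _ s2, mul_div_cancel_left₀ _ s2, hab]
    apply Complex.ext
    · simp
    · simp

theorem p_HMB (hM : Stmt_MXA) : Stmt_HMB := by
  intro N hN
  obtain ⟨m1, m2, -, -, -, -, m7, -⟩ := hM N hN
  refine ⟨HMB_herm, fun x y => ⟨HMB_add x y, HMB_sub x y⟩, HMB_smul, HMB_nn hN, HMB_sum,
    HMB_surj hN, fun Z => ?_⟩
  have hH : ((1 / 2 : ℂ) • (Z + star Z)).IsHermitian := by
    rw [Matrix.IsHermitian, ← Matrix.star_eq_conjTranspose, star_smul, star_add, star_star,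
      add_comm (star Z) Z]
    congr 1
    simp
  obtain ⟨z, hz⟩ := HMB_surj hN _ hH
  refine ⟨z, fun x => ?_⟩
  have h1 : (∑ p, (z p - x p) ^ 2) / (N : ℝ) ^ 2 = nn (hm (z - x) : Mat N) := by
    rw [HMB_nn hN]
    simp [Pi.sub_apply]
  have hx : star (hm x : Mat N) = hm x := HMB_herm x
  have h2 : (hm (z - x) : Mat N) = (1 / 2 : ℂ) • ((Z - hm x) + star (Z - hm x)) := by
    rw [HMB_sub, hz, star_sub, hx]
    ext a b
    simp only [Matrix.sub_apply, Matrix.smul_apply, Matrix.add_apply, smul_eq_mul]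
    ring
  rw [h1, h2, m7]
  have h3 := (m2 (Z - hm x) (star (Z - hm x))).1
  rw [(m1 (Z - hm x)).2.1] at h3
  have h4 : ‖(1 / 2 : ℂ)‖ ^ 2 = 1 / 4 := by
    rw [norm_div]; norm_num
  rw [h4]
  linarith

end Pool.FR
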