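import Pool.Agent.Work.MP_118406_fr.Interface

set_option autoImplicit false

open scoped InnerProductSpace ComplexConjugate Topology BigOperators
open Set Filter MeasureTheory Pool.SI

noncomputable section

namespace Pool.FR

theorem p_INT (hSTE : Stmt_STE) (hRPR : Stmt_RPR) : Stmt_INT := by
  intro Δ Γ _ N D S hN
  classical
  have h := (hSTE (Γ × Fin N × Fin N) (S.map (Tp D)).prod).1
  refine h.congr (Filter.Eventually.of_forall fun g => ?_)
  simp only
  rw [map_list_prod, List.map_map]
  refine congrArg List.prod (List.map_congr_left fun w _ => ?_)
  exact hRPR Δ Γ N D w g hN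

end Pool.FR
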