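import Pool.Agent.Work.MP_118406_fr.Interface

set_option autoImplicit false

/-!
# Block MT1: two ordered sequences with close counting functions
-/

open scoped InnerProductSpace ComplexConjugate Topology BigOperators
open Set Filter MeasureTheory Pool.SI

noncomputable section

namespace Pool.FR

/-- The number of the `j ≤ J` with `t_j < t`. -/
theorem MT1_ceil (J : ℕ) (hJ : 1 ≤ J) (t : ℝ) (ht : |t| ≤ 4) :
    (t + 4) * J / 8 ≤
      ∑ j ∈ Finset.range (J + 1), (if -4 + 8 * (j : ℝ) / J < t then (1 : ℝ) else 0) ∧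
    ∑ j ∈ Finset.range (J + 1), (if -4 + 8 * (j : ℝ) / J < t then (1 : ℝ) else 0) ≤
      (t + 4) * J / 8 + 1 := by
  have hJ0 : (0 : ℝ) < J := by exact_mod_cast hJ
  have h1 := abs_le.1 ht
  have hs0 : 0 ≤ (t + 4) * J / 8 :=
    div_nonneg (mul_nonneg (by linarith [h1.1]) hJ0.le) (by norm_num)
  have hsJ : (t + 4) * J / 8 ≤ J := by
    have h2 : (t + 4) * J ≤ 8 * J := mul_le_mul_of_nonneg_right (by linarith [h1.2]) hJ0.le
    linarith
  have he : (Finset.range (J + 1)).filter (fun j : ℕ => -4 + 8 * (j : ℝ) / J < t) =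
      Finset.range ⌈(t + 4) * J / 8⌉₊ := by
    ext j
    rw [Finset.mem_filter, Finset.mem_range, Finset.mem_range, Nat.lt_ceil]
    constructor
    · rintro ⟨-, h⟩
      have h2 : 8 * (j : ℝ) / J < t + 4 := by linarith
      rw [div_lt_iff₀ hJ0] at h2
      linarith
    · intro h
      have h2 : 8 * (j : ℝ) < (t + 4) * J := by linarith
      have h3 := (div_lt_iff₀ hJ0).2 h2
      refine ⟨?_, by linarith⟩
      have h4 : (j : ℝ) < J := lt_of_lt_of_le h hsJ
      have h5 : j < J := by exact_mod_cast h4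
      omega
  rw [Finset.sum_boole, he, Finset.card_range]
  exact ⟨Nat.le_ceil _, (Nat.ceil_lt_add_one hs0).le⟩

/-- The distance of two numbers in terms of the counting functions. -/
theorem MT1_dist (J : ℕ) (hJ : 1 ≤ J) (t s : ℝ) (ht : |t| ≤ 4) (hs : |s| ≤ 4) :
    |t - s| ≤ 8 / J * (∑ j ∈ Finset.range (J + 1),
      |(if -4 + 8 * (j : ℝ) / J < t then (1 : ℝ) else 0) -
        (if -4 + 8 * (j : ℝ) / J < s then (1 : ℝ) else 0)| + 1) := by
  have hJ0 : (0 : ℝ) < J := by exact_mod_cast hJ
  obtain ⟨a1, a2⟩ := MT1_ceil J hJ t ht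
  obtain ⟨b1, b2⟩ := MT1_ceil J hJ s hs
  have h1 := Finset.abs_sum_le_sum_abs (fun j : ℕ =>
    (if -4 + 8 * (j : ℝ) / J < t then (1 : ℝ) else 0) -
        (if -4 + 8 * (j : ℝ) / J < s then (1 : ℝ) else 0)) (Finset.range (J + 1))
  rw [Finset.sum_sub_distrib] at h1
  have h2 := abs_le.1 h1
  have h3 : |(t - s) * J / 8| ≤ ∑ j ∈ Finset.range (J + 1),
      |(if -4 + 8 * (j : ℝ) / J < t then (1 : ℝ) else 0) -
        (if -4 + 8 * (j : ℝ) / J < s then (1 : ℝ) else 0)| + 1 := by
    rw [abs_le]
    constructor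
    · linarith [h2.1]
    · linarith [h2.2]
  have h4 : |t - s| = 8 / J * |(t - s) * J / 8| := by
    rw [abs_div, abs_mul, abs_of_pos hJ0, abs_of_pos (by norm_num : (0 : ℝ) < 8)]
    field_simp
  rw [h4]
  exact mul_le_mul_of_nonneg_left h3 (by positivity)

/-- Final segments: one contains the other. -/
theorem MT1_swap {N : ℕ} (l x : Fin N → ℝ) (hl : Monotone l) (hx : Monotone x) (t : ℝ) :
    ∑ a, |(if t < l a then (1 : ℝ) else 0) - (if t < x a then (1 : ℝ) else 0)| ≤
      |((Finset.univ.filter fun a => t < l a).card : ℝ) -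
        (Finset.univ.filter fun a => t < x a).card| := by
  rw [← Finset.sum_boole, ← Finset.sum_boole, ← Finset.sum_sub_distrib]
  by_cases h : ∀ a, t < l a → t < x a
  · have h1 : ∀ a ∈ (Finset.univ : Finset (Fin N)),
        |(if t < l a then (1 : ℝ) else 0) - (if t < x a then (1 : ℝ) else 0)| =
        -((if t < l a then (1 : ℝ) else 0) - (if t < x a then (1 : ℝ) else 0)) := by
      intro a _
      apply abs_of_nonpos
      by_cases h2 : t < l a
      · rw [if_pos h2, if_pos (h a h2)]
        norm_num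
      · rw [if_neg h2]
        split_ifs <;> norm_num
    rw [Finset.sum_congr rfl h1, Finset.sum_neg_distrib]
    exact neg_le_abs _
  · push Not at h
    obtain ⟨a, h2, h3⟩ := h
    have h4 : ∀ b, t < x b → t < l b := by
      intro b hb
      have hab : a ≤ b := by
        by_contra hab
        push Not at hab
        linarith [hx hab.le]
      linarith [hl hab]
    have h1 : ∀ a ∈ (Finset.univ : Finset (Fin N)),
        |(if t < l a then (1 : ℝ) else 0) - (if t < x a then (1 : ℝ) else 0)| =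
        (if t < l a then (1 : ℝ) else 0) - (if t < x a then (1 : ℝ) else 0) := by
      intro a _
      apply abs_of_nonneg
      by_cases h2 : t < x a
      · rw [if_pos h2, if_pos (h4 a h2)]
        norm_num
      · rw [if_neg h2]
        split_ifs <;> norm_num
    rw [Finset.sum_congr rfl h1]
    exact le_abs_self _

/-- The telescoping sum. -/
theorem MT1_tele {N : ℕ} (J : ℕ) (x : Fin N → ℝ) :
    ∑ j ∈ Finset.range (J + 1),
      (((Finset.univ.filter fun a => -4 + 8 * (j : ℝ) / J - 8 / J < x a).card : ℝ) -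
        (Finset.univ.filter fun a => -4 + 8 * (j : ℝ) / J < x a).card) ≤ N := by
  have h1 : ∀ j ∈ Finset.range (J + 1),
      (((Finset.univ.filter fun a => -4 + 8 * (j : ℝ) / J - 8 / J < x a).card : ℝ) -
        (Finset.univ.filter fun a => -4 + 8 * (j : ℝ) / J < x a).card) =
      (fun i : ℕ => ((Finset.univ.filter fun a => -4 + 8 * (i : ℝ) / J - 8 / J < x a).card : ℝ)) j -
      (fun i : ℕ => ((Finset.univ.filter fun a => -4 + 8 * (i : ℝ) / J - 8 / J < x a).card : ℝ))
        (j + 1) := by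
    intro j _
    have h2 : -4 + 8 * ((j + 1 : ℕ) : ℝ) / J - 8 / J = -4 + 8 * (j : ℝ) / J := by
      push_cast
      ring
    simp only [h2]
  rw [Finset.sum_congr rfl h1, Finset.sum_range_sub']
  have h3 : ((Finset.univ.filter fun a => -4 + 8 * ((0 : ℕ) : ℝ) / J - 8 / J < x a).card : ℝ) ≤
      N := by
    have h4 := Finset.card_filter_le (Finset.univ : Finset (Fin N))
      (fun a => -4 + 8 * ((0 : ℕ) : ℝ) / J - 8 / J < x a)
    rw [Finset.card_univ, Fintype.card_fin] at h4
    exact_mod_cast h4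
  have h5 : (0 : ℝ) ≤
      ((Finset.univ.filter fun a => -4 + 8 * ((J + 1 : ℕ) : ℝ) / J - 8 / J < x a).card : ℝ) :=
    Nat.cast_nonneg _
  linarith

/-- The counting function decreases. -/
theorem MT1_anti {N : ℕ} (x : Fin N → ℝ) {s t : ℝ} (h : s ≤ t) :
    ((Finset.univ.filter fun a => t < x a).card : ℝ) ≤
      (Finset.univ.filter fun a => s < x a).card := by
  have h1 : (Finset.univ.filter fun a => t < x a).card ≤
      (Finset.univ.filter fun a => s < x a).card :=
    Finset.card_le_card (Finset.monotone_filter_right _ fun a _ ha => lt_of_le_of_lt h ha)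
  exact_mod_cast h1

theorem p_MT1 : Stmt_MT1 := by
  intro N J l x κ hN hJ hκ hl hx hl4 hx4 hyp
  have hJ0 : (0 : ℝ) < J := by exact_mod_cast hJ
  have hJ1 : (1 : ℝ) ≤ J := by exact_mod_cast hJ
  have hN0 : (0 : ℝ) ≤ N := Nat.cast_nonneg _
  have h8 : (0 : ℝ) < 8 / J := by positivity
  -- the sum over `j`
  have hj : ∑ j ∈ Finset.range (J + 1),
      |((Finset.univ.filter fun a => -4 + 8 * (j : ℝ) / J < l a).card : ℝ) -
        (Finset.univ.filter fun a => -4 + 8 * (j : ℝ) / J < x a).card| ≤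
      2 * N + (J + 1) * (κ * N) := by
    have h1 : ∀ j ∈ Finset.range (J + 1),
        |((Finset.univ.filter fun a => -4 + 8 * (j : ℝ) / J < l a).card : ℝ) -
          (Finset.univ.filter fun a => -4 + 8 * (j : ℝ) / J < x a).card| ≤
        ((((Finset.univ.filter fun a => -4 + 8 * (j : ℝ) / J - 8 / J < x a).card : ℝ) -
          (Finset.univ.filter fun a => -4 + 8 * (j : ℝ) / J < x a).card) +
        (((Finset.univ.filter fun a => -4 + 8 * (j : ℝ) / J - 8 / J < l a).card : ℝ) -
          (Finset.univ.filter fun a => -4 + 8 * (j : ℝ) / J < l a).card)) + κ * N := by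
      intro j hj
      obtain ⟨e1, e2⟩ := hyp j (by
        rw [Finset.mem_range] at hj
        omega)
      have e3 := MT1_anti x (show -4 + 8 * (j : ℝ) / J - 8 / J ≤ -4 + 8 * (j : ℝ) / J by linarith)
      have e4 := MT1_anti l (show -4 + 8 * (j : ℝ) / J - 8 / J ≤ -4 + 8 * (j : ℝ) / J by linarith)
      rw [abs_le]
      constructor
      · linarith
      · linarith
    refine (Finset.sum_le_sum h1).trans ?_
    rw [Finset.sum_add_distrib, Finset.sum_add_distrib, Finset.sum_const, Finset.card_range,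
      nsmul_eq_mul]
    have h2 := MT1_tele J x
    have h3 := MT1_tele J l
    push_cast
    linarith
  -- the sum of the distances
  have hd : ∑ a, |l a - x a| ≤ 8 / J * (3 * N + (J + 1) * (κ * N)) := by
    have h1 : ∀ a ∈ (Finset.univ : Finset (Fin N)), |l a - x a| ≤
        8 / J * (∑ j ∈ Finset.range (J + 1),
          |(if -4 + 8 * (j : ℝ) / J < l a then (1 : ℝ) else 0) -
            (if -4 + 8 * (j : ℝ) / J < x a then (1 : ℝ) else 0)| + 1) :=
      fun a _ => MT1_dist J hJ (l a) (x a) (hl4 a) (hx4 a)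
    refine (Finset.sum_le_sum h1).trans ?_
    rw [← Finset.mul_sum, Finset.sum_add_distrib, Finset.sum_comm, Finset.sum_const,
      Finset.card_univ, Fintype.card_fin, nsmul_eq_mul, mul_one]
    refine mul_le_mul_of_nonneg_left ?_ h8.le
    have h2 : ∑ j ∈ Finset.range (J + 1), ∑ a : Fin N,
        |(if -4 + 8 * (j : ℝ) / J < l a then (1 : ℝ) else 0) -
            (if -4 + 8 * (j : ℝ) / J < x a then (1 : ℝ) else 0)| ≤
        2 * N + (J + 1) * (κ * N) :=
      (Finset.sum_le_sum fun j _ => MT1_swap l x hl hx _).trans hj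
    linarith
  -- squares
  have hs : ∑ a, (l a - x a) ^ 2 ≤ 8 * ∑ a, |l a - x a| := by
    rw [Finset.mul_sum]
    refine Finset.sum_le_sum fun a _ => ?_
    have h1 : |l a - x a| ≤ 8 := by
      have h2 := abs_sub (l a) (x a)
      linarith [hl4 a, hx4 a]
    calc (l a - x a) ^ 2 = |l a - x a| * |l a - x a| := by rw [← sq_abs, sq]
      _ ≤ 8 * |l a - x a| := mul_le_mul_of_nonneg_right h1 (abs_nonneg _)
  have hf : 8 / J * (3 * N + (J + 1) * (κ * N)) ≤ N * (24 / J + 16 * κ) := by
    have h1 : 8 / J * (3 * N + (J + 1) * (κ * N)) =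
        N * (24 / J) + 8 * (κ * N) + 8 * (κ * N) / J := by
      field_simp
      ring
    have h2 : 8 * (κ * N) / J ≤ 8 * (κ * N) :=
      div_le_self (by positivity) hJ1
    rw [h1]
    linarith
  calc ∑ a, (l a - x a) ^ 2 ≤ 8 * ∑ a, |l a - x a| := hs
    _ ≤ 8 * (N * (24 / J + 16 * κ)) := by
        refine mul_le_mul_of_nonneg_left (hd.trans hf) (by norm_num)
    _ = 8 * N * (24 / J + 16 * κ) := by ring

end Pool.FR
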