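import Pool.Agent.Work.MP_118406_fr.Interface

set_option autoImplicit false

open scoped InnerProductSpace ComplexConjugate Topology BigOperators
open Set Filter MeasureTheory Pool.SI

noncomputable section

namespace Pool.FR

/-- The continuous step. -/
def MTC_g (s h t : ℝ) : ℝ := max 0 (min 1 ((t - (s - h)) / h))

theorem MTC_g_cont (s h : ℝ) : Continuous (MTC_g s h) := by
  unfold MTC_g
  fun_prop

theorem MTC_ind_le (s h t : ℝ) (hh : 0 < h) : (if s < t then (1 : ℝ) else 0) ≤ MTC_g s h t := by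
  unfold MTC_g
  split_ifs with h1
  · have h2 : (1 : ℝ) ≤ (t - (s - h)) / h := by
      rw [le_div_iff₀ hh]; linarith
    rw [min_eq_left h2]
    exact le_max_right _ _
  · exact le_max_left _ _

theorem MTC_le_ind (s h t : ℝ) (hh : 0 < h) : MTC_g s h t ≤ (if s - h < t then (1 : ℝ) else 0) := by
  unfold MTC_g
  split_ifs with h1
  · exact max_le zero_le_one (min_le_left _ _)
  · have h2 : (t - (s - h)) / h ≤ 0 := by
      apply div_nonpos_of_nonpos_of_nonneg _ hh.le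
      push Not at h1
      linarith
    exact max_le le_rfl ((min_le_right _ _).trans h2)

theorem MTC_cnt (N : ℕ) (l x : Fin N → ℝ) (hl : ∀ a, |l a| ≤ 4) (hx : ∀ a, |x a| ≤ 4)
    (s h κ : ℝ) (hh : 0 < h) (p : Polynomial ℝ)
    (hp : ∀ t ∈ Set.Icc (-4 : ℝ) 4, |p.eval t - MTC_g s h t| < κ / 4)
    (hd : |∑ a, p.eval (l a) - ∑ a, p.eval (x a)| ≤ κ / 4 * N) :
    ((Finset.univ.filter fun a => s < l a).card : ℝ) ≤
      (Finset.univ.filter fun a => s - h < x a).card + κ * N := by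
  have hκ : 0 < κ := by
    have := hp 0 ⟨by norm_num, by norm_num⟩
    have h2 := abs_nonneg (p.eval 0 - MTC_g s h 0)
    linarith
  have e1 : ((Finset.univ.filter fun a => s < l a).card : ℝ) = ∑ a, (if s < l a then (1 : ℝ) else 0) := by
    rw [Finset.sum_boole]
  have e2 : ((Finset.univ.filter fun a => s - h < x a).card : ℝ) =
      ∑ a, (if s - h < x a then (1 : ℝ) else 0) := by
    rw [Finset.sum_boole]
  have hN : ∑ a : Fin N, (κ / 4) = κ / 4 * N := by simp [mul_comm]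
  have s1 : ∑ a, (if s < l a then (1 : ℝ) else 0) ≤ ∑ a, p.eval (l a) + κ / 4 * N := by
    rw [← hN, ← Finset.sum_add_distrib]
    refine Finset.sum_le_sum fun a _ => ?_
    have h1 := MTC_ind_le s h (l a) hh
    have h2 := hp (l a) ⟨(abs_le.1 (hl a)).1, (abs_le.1 (hl a)).2⟩
    have h3 := (abs_lt.1 h2).1
    linarith
  have s2 : ∑ a, p.eval (x a) ≤ ∑ a, (if s - h < x a then (1 : ℝ) else 0) + κ / 4 * N := by
    rw [← hN, ← Finset.sum_add_distrib]
    refine Finset.sum_le_sum fun a _ => ?_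
    have h1 := MTC_le_ind s h (x a) hh
    have h2 := hp (x a) ⟨(abs_le.1 (hx a)).1, (abs_le.1 (hx a)).2⟩
    have h3 := (abs_lt.1 h2).2
    linarith
  have s3 := (abs_le.1 hd).2
  have hN0 : (0 : ℝ) ≤ κ * N := by positivity
  rw [e1, e2]
  have : κ / 4 * N = (κ * N) / 4 := by ring
  rw [this] at s1 s2 s3
  linarith

theorem MTC_poly (N m : ℕ) (l x : Fin N → ℝ) (p : Polynomial ℝ) (δ : ℝ)
    (hm : p.natDegree ≤ m)
    (hd : ∀ j ≤ m, |(N : ℝ)⁻¹ * ∑ a, l a ^ j - (N : ℝ)⁻¹ * ∑ a, x a ^ j| ≤ δ) :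
    |∑ a, p.eval (l a) - ∑ a, p.eval (x a)| ≤
      δ * (∑ i ∈ Finset.range (m + 1), |p.coeff i|) * N := by
  rcases Nat.eq_zero_or_pos N with h0 | h0
  · subst h0; simp
  have hN : (0 : ℝ) < N := by exact_mod_cast h0
  have e : ∀ y : Fin N → ℝ, ∑ a, p.eval (y a) =
      ∑ i ∈ Finset.range (m + 1), p.coeff i * ∑ a, y a ^ i := by
    intro y
    have : ∀ a, p.eval (y a) = ∑ i ∈ Finset.range (m + 1), p.coeff i * y a ^ i := fun a =>
      Polynomial.eval_eq_sum_range' (by omega) _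
    rw [Finset.sum_congr rfl fun a _ => this a, Finset.sum_comm]
    refine Finset.sum_congr rfl fun i _ => ?_
    rw [Finset.mul_sum]
  rw [e l, e x, ← Finset.sum_sub_distrib]
  refine (Finset.abs_sum_le_sum_abs _ _).trans ?_
  rw [mul_assoc, Finset.sum_mul, Finset.mul_sum]
  refine Finset.sum_le_sum fun i hi => ?_
  have hi' : i ≤ m := by
    have := Finset.mem_range.1 hi; omega
  have h1 := hd i hi'
  have h2 : ∑ a, l a ^ i - ∑ a, x a ^ i =
      (N : ℝ) * ((N : ℝ)⁻¹ * ∑ a, l a ^ i - (N : ℝ)⁻¹ * ∑ a, x a ^ i) := by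
    field_simp
  rw [← mul_sub, h2, abs_mul, abs_mul, abs_of_pos hN]
  have h3 := abs_nonneg (p.coeff i)
  calc |p.coeff i| * (↑N * |(N : ℝ)⁻¹ * ∑ a, l a ^ i - (N : ℝ)⁻¹ * ∑ a, x a ^ i|)
      ≤ |p.coeff i| * (↑N * δ) := by gcongr
    _ = δ * (|p.coeff i| * ↑N) := by ring

theorem p_MTC (_h1 : Stmt_MXA) (h2 : Stmt_SPC) (h3 : Stmt_SPD) (h4 : Stmt_MT1) : Stmt_MTC := by
  intro η hη
  obtain ⟨J0, hJ0⟩ := exists_nat_gt (384 / η)
  set J : ℕ := J0 + 1 with hJ
  have hJpos : (0 : ℝ) < J := by rw [hJ]; positivity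
  have hJ1 : 1 ≤ J := by omega
  have hJ2 : 384 / η < (J : ℝ) := hJ0.trans (by rw [hJ]; push_cast; linarith)
  have hJ3 : 24 / (J : ℝ) ≤ η / 16 := by
    rw [div_lt_iff₀ hη] at hJ2
    rw [div_le_div_iff₀ hJpos (by norm_num)]
    linarith
  set κ : ℝ := η / 256 with hκ
  have hκ0 : 0 < κ := by rw [hκ]; positivity
  have hh : (0 : ℝ) < 8 / J := by positivity
  have hex : ∀ j : ℕ, ∃ p : Polynomial ℝ, ∀ t ∈ Set.Icc (-4 : ℝ) 4,
      |p.eval t - MTC_g (-4 + 8 * (j : ℝ) / J) (8 / J) t| < κ / 4 := by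
    intro j
    exact exists_polynomial_near_of_continuousOn (-4) 4 _
      (MTC_g_cont _ _).continuousOn (κ / 4) (by positivity)
  choose p hp using hex
  set m : ℕ := (Finset.range (J + 1)).sup fun j => (p j).natDegree with hmdef
  have hm : ∀ j ≤ J, (p j).natDegree ≤ m := fun j hj =>
    Finset.le_sup (f := fun j => (p j).natDegree) (Finset.mem_range.2 (by omega))
  set B : ℝ := ∑ j ∈ Finset.range (J + 1), ∑ i ∈ Finset.range (m + 1), |(p j).coeff i| with hB
  have hB0 : 0 ≤ B := Finset.sum_nonneg fun j _ => Finset.sum_nonneg fun i _ => abs_nonneg _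
  have hBj : ∀ j ≤ J, ∑ i ∈ Finset.range (m + 1), |(p j).coeff i| ≤ B := fun j hj =>
    Finset.single_le_sum (f := fun j => ∑ i ∈ Finset.range (m + 1), |(p j).coeff i|)
      (fun j _ => Finset.sum_nonneg fun i _ => abs_nonneg _) (Finset.mem_range.2 (by omega))
  refine ⟨m, κ / 4 / (B + 1), by positivity, ?_⟩
  intro N P Q hN hP hQ hOP hOQ hd
  obtain ⟨U, l, hU, hlm, rfl⟩ := h2 N P hP
  obtain ⟨U', x, hU', hxm, rfl⟩ := h2 N Q hQ
  obtain ⟨-, -, -, a4, a5, -, -, a8⟩ := h3 N U l hN hU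
  obtain ⟨-, b2, -, b4, b5, -, b7, -⟩ := h3 N U' x hN hU'
  have hl : ∀ a, |l a| ≤ 4 := (a5 4 (by norm_num)).1 hOP
  have hx : ∀ a, |x a| ≤ 4 := (b5 4 (by norm_num)).1 hOQ
  have hmom : ∀ j ≤ m, |(N : ℝ)⁻¹ * ∑ a, l a ^ j - (N : ℝ)⁻¹ * ∑ a, x a ^ j| ≤
      κ / 4 / (B + 1) := by
    intro j hj
    have := hd j hj
    rw [a4 j, b4 j, ← Complex.ofReal_sub, Complex.norm_real, Real.norm_eq_abs] at this
    exact this
  have hmom' : ∀ j ≤ m, |(N : ℝ)⁻¹ * ∑ a, x a ^ j - (N : ℝ)⁻¹ * ∑ a, l a ^ j| ≤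
      κ / 4 / (B + 1) := by
    intro j hj
    rw [abs_sub_comm]
    exact hmom j hj
  have hbd : ∀ j ≤ J, κ / 4 / (B + 1) * (∑ i ∈ Finset.range (m + 1), |(p j).coeff i|) * (N : ℝ) ≤
      κ / 4 * N := by
    intro j hj
    have h5 := hBj j hj
    have h6 : κ / 4 / (B + 1) * (∑ i ∈ Finset.range (m + 1), |(p j).coeff i|) ≤ κ / 4 := by
      rw [div_mul_eq_mul_div, div_le_iff₀ (by linarith)]
      have : (0 : ℝ) < κ / 4 := by positivity
      exact mul_le_mul_of_nonneg_left (by linarith) this.le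
    exact mul_le_mul_of_nonneg_right h6 (Nat.cast_nonneg N)
  have key := h4 N J l x κ hN hJ1 hκ0.le hlm hxm hl hx (by
    intro j hj
    constructor
    · exact MTC_cnt N l x hl hx _ _ κ hh (p j) (hp j)
        ((MTC_poly N m l x (p j) _ (hm j hj) hmom).trans (hbd j hj))
    · exact MTC_cnt N x l hx hl _ _ κ hh (p j) (hp j)
        ((MTC_poly N m x l (p j) _ (hm j hj) hmom').trans (hbd j hj)))
  have hNpos : (0 : ℝ) < N := by exact_mod_cast hN
  refine ⟨U' * star U, ⟨?_, ?_⟩, ?_⟩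
  · rw [star_mul, star_star]
    calc U * star U' * (U' * star U) = U * (star U' * U') * star U := by
          simp only [mul_assoc]
      _ = 1 := by rw [hU'.1, mul_one, hU.2]
  · rw [star_mul, star_star]
    calc U' * star U * (U * star U') = U' * (star U * U) * star U' := by
          simp only [mul_assoc]
      _ = 1 := by rw [hU.1, mul_one, hU'.2]
  · have e1 : (U' * star U) * dg U l * star (U' * star U) = dg U' l := by
      rw [a8 (U' * star U), mul_assoc, hU.1, mul_one]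
    obtain ⟨-, -, -, -, -, -, c7, -⟩ := h3 N U' l hN hU'
    rw [e1, c7 x]
    obtain ⟨-, d2, -, -, -, -, -, -⟩ := h3 N U' (fun a => l a - x a) hN hU'
    rw [d2]
    calc (N : ℝ)⁻¹ * ∑ a, (l a - x a) ^ 2 ≤ (N : ℝ)⁻¹ * (8 * N * (24 / J + 16 * κ)) := by
          gcongr
      _ = 8 * (24 / J + 16 * κ) := by field_simp
      _ ≤ η := by rw [hκ]; linarith

end Pool.FR
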