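import Pool.Agent.Work.MP_118406_fr.Interface

set_option autoImplicit false

/-!
Block NEU: a net of the unitary group.
-/

open scoped InnerProductSpace ComplexConjugate Topology BigOperators
open Set Filter MeasureTheory Pool.SI

noncomputable section

namespace Pool.FR

section

open Complex

theorem NEU_exp {A : Type} [CStarAlgebra A] (u : unitary A)
    (hfin : (spectrum ℂ (u : A)).Finite) :
    selfAdjoint.expUnitary (Unitary.argSelfAdjoint u) = u := by
  ext
  have : ContinuousOn arg (spectrum ℂ (u : A)) := hfin.continuousOn _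
  rw [selfAdjoint.expUnitary_coe, Unitary.argSelfAdjoint_coe,
    ← CFC.exp_eq_normedSpace_exp (𝕜 := ℂ), ← cfc_comp_smul .., ← cfc_comp' ..]
  conv_rhs => rw [← cfc_id' ℂ (u : A)]
  refine cfc_congr fun y hy ↦ ?_
  have hy₁ : ‖y‖ = 1 := spectrum.norm_eq_one_of_unitary u.2 hy
  have hy2 : I * y.arg = log y :=
    Complex.ext (by simp [log_re, spectrum.norm_eq_one_of_unitary u.2 hy]) (by simp [log_im])
  have hy3 : y ≠ 0 := by
    intro h
    rw [h] at hy₁
    simp at hy₁
  simpa [← exp_eq_exp_ℂ, hy2] using exp_log hy3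

theorem NEU_norm_exp {A : Type} [CStarAlgebra A] (x : selfAdjoint A) (t : ℝ) :
    ‖NormedSpace.exp (t • (I • (x : A)))‖ ≤ 1 := by
  have h : NormedSpace.exp (t • (I • (x : A))) = ((selfAdjoint.expUnitary (t • x) : unitary A) : A) := by
    rw [selfAdjoint.expUnitary_coe]
    congr 1
    rw [selfAdjoint.val_smul, smul_comm]
  rw [h]
  rcases subsingleton_or_nontrivial A with hA | hA
  · have : ((selfAdjoint.expUnitary (t • x) : unitary A) : A) = 0 := Subsingleton.elim _ _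
    rw [this, norm_zero]
    norm_num
  · exact (CStarRing.norm_coe_unitary _).le

theorem NEU_lip {A : Type} [CStarAlgebra A] (x y : selfAdjoint A) :
    ‖(selfAdjoint.expUnitary x : A) - selfAdjoint.expUnitary y‖ ≤ ‖x - y‖ := by
  set X : A := I • (x : A) with hX
  set Y : A := I • (y : A) with hY
  let f : ℝ → A := fun t => NormedSpace.exp (t • X) * NormedSpace.exp ((1 - t) • Y)
  have hd : ∀ t : ℝ, HasDerivAt f
      (NormedSpace.exp (t • X) * (X - Y) * NormedSpace.exp ((1 - t) • Y)) t := by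
    intro t
    have h1 : HasDerivAt (fun u : ℝ => NormedSpace.exp (u • X)) (NormedSpace.exp (t • X) * X) t :=
      hasDerivAt_exp_smul_const X t
    have h2 : HasDerivAt (fun u : ℝ => NormedSpace.exp (u • Y))
        (Y * NormedSpace.exp ((1 - t) • Y)) (1 - t) := hasDerivAt_exp_smul_const' Y (1 - t)
    have h3 : HasDerivAt (fun u : ℝ => 1 - u) (-1) t := by
      simpa using (hasDerivAt_id t).const_sub 1
    have h4 := h2.scomp t h3
    have h5 := h1.mul h4
    refine h5.congr_deriv ?_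
    simp only [neg_smul, one_smul, Function.comp_apply]
    noncomm_ring
  have hmain : ‖f 1 - f 0‖ ≤ ‖X - Y‖ := by
    refine norm_image_sub_le_of_norm_deriv_le_segment_01'
      (f' := fun t => NormedSpace.exp (t • X) * (X - Y) * NormedSpace.exp ((1 - t) • Y))
      (fun t _ => (hd t).hasDerivWithinAt) (fun t _ => ?_)
    calc ‖NormedSpace.exp (t • X) * (X - Y) * NormedSpace.exp ((1 - t) • Y)‖
        ≤ ‖NormedSpace.exp (t • X)‖ * ‖X - Y‖ * ‖NormedSpace.exp ((1 - t) • Y)‖ :=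
          (norm_mul_le _ _).trans (mul_le_mul_of_nonneg_right (norm_mul_le _ _) (norm_nonneg _))
      _ ≤ 1 * ‖X - Y‖ * 1 := by
          have h1 := NEU_norm_exp x t
          have h2 := NEU_norm_exp y (1 - t)
          rw [← hX] at h1
          rw [← hY] at h2
          gcongr
      _ = ‖X - Y‖ := by ring
  have e1 : f 1 = (selfAdjoint.expUnitary x : A) := by
    simp only [f, one_smul, sub_self, zero_smul, NormedSpace.exp_zero, mul_one]
    rw [selfAdjoint.expUnitary_coe]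
  have e0 : f 0 = (selfAdjoint.expUnitary y : A) := by
    simp only [f, one_smul, sub_zero, zero_smul, NormedSpace.exp_zero, one_mul]
    rw [selfAdjoint.expUnitary_coe]
  rw [e1, e0] at hmain
  refine hmain.trans (le_of_eq ?_)
  rw [hX, hY, ← smul_sub, norm_smul, norm_I, one_mul]
  rfl

end

open scoped Matrix.Norms.L2Operator in
theorem NEU_nn_mul {N : ℕ} (B Y : Mat N) : nn (B * Y) ≤ ‖B‖ ^ 2 * nn Y := by
  have h : ∀ b : Fin N, ∑ a, ‖(B * Y) a b‖ ^ 2 ≤ ‖B‖ ^ 2 * ∑ a, ‖Y a b‖ ^ 2 := by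
    intro b
    have h1 := Matrix.l2_opNorm_mulVec B ((EuclideanSpace.equiv (Fin N) ℂ).symm (fun c => Y c b))
    have h2 : ‖(EuclideanSpace.equiv (Fin N) ℂ).symm
        (B.mulVec ((EuclideanSpace.equiv (Fin N) ℂ).symm (fun c => Y c b)))‖ ^ 2 ≤
        (‖B‖ * ‖(EuclideanSpace.equiv (Fin N) ℂ).symm (fun c => Y c b)‖) ^ 2 :=
      pow_le_pow_left₀ (norm_nonneg _) h1 2
    rw [mul_pow, EuclideanSpace.norm_sq_eq, EuclideanSpace.norm_sq_eq] at h2
    simpa [Matrix.mulVec, dotProduct, Matrix.mul_apply] using h2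
  unfold nn
  rw [Finset.sum_comm]
  rw [Finset.sum_comm (f := fun a b => ‖Y a b‖ ^ 2)]
  calc (N : ℝ)⁻¹ * ∑ b, ∑ a, ‖(B * Y) a b‖ ^ 2
      ≤ (N : ℝ)⁻¹ * ∑ b, ‖B‖ ^ 2 * ∑ a, ‖Y a b‖ ^ 2 := by
        refine mul_le_mul_of_nonneg_left (Finset.sum_le_sum fun b _ => h b) (by positivity)
    _ = ‖B‖ ^ 2 * ((N : ℝ)⁻¹ * ∑ b, ∑ a, ‖Y a b‖ ^ 2) := by
        rw [← Finset.mul_sum]
        ring

theorem NEU_conj (hM : Stmt_MXA) {N : ℕ} (hN : 1 ≤ N) (ε : ℝ) (hε : 0 < ε) (V v : Mat N)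
    (hV : Uni V) (hv : Uni v) (hD : ∀ Y : Mat N, nn ((V - v) * Y) ≤ ε ^ 2 * nn Y) (Y : Mat N) :
    nn (V * Y * star V - v * Y * star v) ≤ 4 * ε ^ 2 * nn Y := by
  obtain ⟨m1, -, -, -, -, m6, -, m8⟩ := hM N hN
  have hVs : Uni (star V) := ⟨by rw [star_star]; exact hV.2, by rw [star_star]; exact hV.1⟩
  have e : V * Y * star V - v * Y * star v = (V - v) * Y * star V + v * (Y * star (V - v)) := by
    rw [star_sub]
    noncomm_ring
  have hY : 0 ≤ nn Y := (m1 Y).1
  have a1 : nn ((V - v) * Y * star V) ≤ ε ^ 2 * nn Y := by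
    rw [(m8 (star V) ((V - v) * Y) hVs).2]
    exact hD Y
  have a2 : nn (v * (Y * star (V - v))) ≤ ε ^ 2 * nn Y := by
    rw [(m8 v _ hv).1, ← (m1 (Y * star (V - v))).2.1, star_mul, star_star]
    have := hD (star Y)
    rwa [(m1 Y).2.1] at this
  have s1 : Real.sqrt (nn ((V - v) * Y * star V)) ≤ ε * Real.sqrt (nn Y) := by
    refine (Real.sqrt_le_sqrt a1).trans (le_of_eq ?_)
    rw [Real.sqrt_mul (by positivity), Real.sqrt_sq hε.le]
  have s2 : Real.sqrt (nn (v * (Y * star (V - v)))) ≤ ε * Real.sqrt (nn Y) := by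
    refine (Real.sqrt_le_sqrt a2).trans (le_of_eq ?_)
    rw [Real.sqrt_mul (by positivity), Real.sqrt_sq hε.le]
  have s3 : Real.sqrt (nn (V * Y * star V - v * Y * star v)) ≤ 2 * ε * Real.sqrt (nn Y) := by
    rw [e]
    refine (m6 _ _).trans ?_
    linarith
  have n0 : 0 ≤ nn (V * Y * star V - v * Y * star v) := (m1 _).1
  have n1 := Real.sq_sqrt n0
  have n2 := Real.sq_sqrt hY
  have n3 := pow_le_pow_left₀ (Real.sqrt_nonneg _) s3 2
  rw [n1, mul_pow, n2] at n3
  linarith [n3]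

open scoped Matrix.Norms.L2Operator in
theorem p_NEU (hM : Stmt_MXA) (hH : Stmt_HMB) (hT : Stmt_NTP) : Stmt_NEU := by
  refine ⟨12, by norm_num, fun ε N hε hε1 hN => ?_⟩
  obtain ⟨b1, b2, b3, -, -, b6, -⟩ := hH N hN
  let φ : (Fin N × Fin N → ℝ) →ₗ[ℝ] selfAdjoint (Mat N) :=
    { toFun := fun x => ⟨hm x, (b1 x)⟩
      map_add' := fun x y => Subtype.ext (b2 x y).1
      map_smul' := fun c x => Subtype.ext (by
        change (hm (c • x) : Mat N) = c • hm x
        rw [b3 c x]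
        ext a b
        simp [Matrix.smul_apply]) }
  have hφ : Function.Surjective φ := by
    rintro ⟨A, hA⟩
    obtain ⟨x, hx⟩ := b6 A hA
    exact ⟨x, Subtype.ext hx⟩
  have : FiniteDimensional ℝ (selfAdjoint (Mat N)) := Module.Finite.of_surjective φ hφ
  have hdim : Module.finrank ℝ (selfAdjoint (Mat N)) ≤ N ^ 2 := by
    have h1 := LinearMap.finrank_le_finrank_of_surjective (f := φ) hφ
    rw [Module.finrank_fintype_fun_eq_card, Fintype.card_prod, Fintype.card_fin] at h1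
    nlinarith
  obtain ⟨s, hs, hc⟩ := hT (selfAdjoint (Mat N)) 4 ε hε (by linarith)
  refine ⟨s.card, fun l => ((selfAdjoint.expUnitary (s.equivFin.symm l : selfAdjoint (Mat N)) :
    unitary (Mat N)) : Mat N), ?_, ?_, ?_⟩
  · refine hs.trans ?_
    have h1 : (1 : ℝ) ≤ 3 * 4 / ε := by
      rw [le_div_iff₀ hε]
      linarith
    calc (3 * 4 / ε) ^ Module.finrank ℝ (selfAdjoint (Mat N)) ≤ (3 * 4 / ε) ^ (N ^ 2) :=
          pow_le_pow_right₀ h1 hdim
      _ = (12 / ε) ^ (N ^ 2) := by norm_num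
  · intro l
    exact ⟨Unitary.coe_star_mul_self _, Unitary.coe_mul_star_self _⟩
  · intro V hV
    let u : unitary (Mat N) := ⟨V, Unitary.mem_iff.2 hV⟩
    have hu : selfAdjoint.expUnitary (Unitary.argSelfAdjoint u) = u :=
      NEU_exp u (Matrix.finite_spectrum V)
    have hn : ‖Unitary.argSelfAdjoint u‖ ≤ 4 :=
      (Unitary.norm_argSelfAdjoint_le_pi u).trans Real.pi_lt_four.le
    obtain ⟨c, hcs, hcn⟩ := hc _ hn
    refine ⟨s.equivFin ⟨c, hcs⟩, fun Y => ?_⟩
    simp only [Equiv.symm_apply_apply]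
    have hv : Uni ((selfAdjoint.expUnitary c : unitary (Mat N)) : Mat N) :=
      ⟨Unitary.coe_star_mul_self _, Unitary.coe_mul_star_self _⟩
    have hd : ‖V - ((selfAdjoint.expUnitary c : unitary (Mat N)) : Mat N)‖ ≤ ε := by
      have h1 := NEU_lip (Unitary.argSelfAdjoint u) c
      rw [hu] at h1
      exact h1.trans hcn
    refine NEU_conj hM hN ε hε V _ hV hv (fun Y => ?_) Y
    refine (NEU_nn_mul _ Y).trans ?_
    refine mul_le_mul_of_nonneg_right ?_ ((hM N hN).1 Y).1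
    exact pow_le_pow_left₀ (norm_nonneg _) hd 2

end Pool.FR
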