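import Pool.Agent.Work.MP_118406_fr.Interface

set_option autoImplicit false

/-! Block NTH: the functional `Nth`. -/

open scoped InnerProductSpace ComplexConjugate Topology BigOperators
open Set Filter MeasureTheory Pool.SI

noncomputable section

namespace Pool.FR

theorem NTH_hasSum {k : ℕ} (ξ : Fk k) : HasSum (fun w => ‖ξ w‖ ^ 2) (‖ξ‖ ^ 2) := by
  have h := lp.hasSum_norm (p := 2) (E := fun _ : List (Fin k) => ℂ) (by norm_num) ξ
  simpa using h

theorem NTH_coef {θ : ℝ} (h0 : 0 ≤ θ) (h1 : θ ≤ 1) (m : ℕ) :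
    0 ≤ 1 - Real.cos θ ^ m ∧ 1 - Real.cos θ ^ m ≤ 1 := by
  have hc : 0 ≤ Real.cos θ :=
    Real.cos_nonneg_of_neg_pi_div_two_le_of_le (by linarith [Real.pi_pos])
      (by linarith [Real.pi_gt_three])
  have h2 : Real.cos θ ^ m ≤ 1 := pow_le_one₀ hc (Real.cos_le_one θ)
  have h3 : 0 ≤ Real.cos θ ^ m := pow_nonneg hc m
  constructor <;> linarith

theorem NTH_summable {n : ℕ} {θ : ℝ} (h0 : 0 ≤ θ) (h1 : θ ≤ 1) (ξ : Fk (n + 1)) :
    Summable (fun w => (1 - Real.cos θ ^ cnt w) * ‖ξ w‖ ^ 2) := by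
  refine Summable.of_nonneg_of_le (fun w => ?_) (fun w => ?_) (NTH_hasSum ξ).summable
  · exact mul_nonneg (NTH_coef h0 h1 _).1 (by positivity)
  · have h := (NTH_coef h0 h1 (cnt w)).2
    have h2 : 0 ≤ ‖ξ w‖ ^ 2 := by positivity
    nlinarith

theorem NTH_min {u α : ℝ} (hu : 0 ≤ u) (h0 : 0 < α) (h1 : α ≤ 1) {c : ℝ} (hc1 : c ≤ 1)
    (hcu : c ≤ u) : c ≤ u ^ α := by
  rcases le_total u 1 with h | h
  · rcases hu.eq_or_lt with h2 | h2
    · rw [← h2, Real.zero_rpow h0.ne']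
      rw [← h2] at hcu
      exact hcu
    · have h3 : u ^ (1 : ℝ) ≤ u ^ α := Real.rpow_le_rpow_of_exponent_ge h2 h h1
      rw [Real.rpow_one] at h3
      linarith
  · have h3 : (1 : ℝ) ≤ u ^ α := Real.one_le_rpow h h0.le
    linarith

theorem p_NTH : Stmt_NTH := by
  intro n θ h0 h1
  refine ⟨?_, ?_, ?_⟩
  · intro ξ η
    constructor
    · unfold Nth
      apply mul_nonneg (by norm_num)
      exact tsum_nonneg fun w => mul_nonneg (NTH_coef h0 h1 _).1 (by positivity)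
    · unfold Nth
      have hs1 := NTH_summable h0 h1 ξ
      have hs2 := NTH_summable h0 h1 η
      have hs3 := NTH_hasSum (ξ - η)
      have h2 : ∑' w : List (Fin (n + 1)), (1 - Real.cos θ ^ cnt w) * ‖ξ w‖ ^ 2 ≤
          2 * (∑' w : List (Fin (n + 1)), (1 - Real.cos θ ^ cnt w) * ‖η w‖ ^ 2) +
            2 * ‖ξ - η‖ ^ 2 := by
        rw [← hs3.tsum_eq, ← tsum_mul_left, ← tsum_mul_left,
          ← (hs2.mul_left 2).tsum_add (hs3.summable.mul_left 2)]
        refine hs1.tsum_le_tsum (fun w => ?_)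
          ((hs2.mul_left 2).add (hs3.summable.mul_left 2))
        have h3 : ‖ξ w‖ ≤ ‖η w‖ + ‖(ξ - η) w‖ := by
          have h4 : ξ w = η w + (ξ - η) w := by
            rw [lp.coeFn_sub, Pi.sub_apply]
            ring
          calc ‖ξ w‖ = ‖η w + (ξ - η) w‖ := by rw [← h4]
            _ ≤ ‖η w‖ + ‖(ξ - η) w‖ := norm_add_le _ _
        have h5 : ‖ξ w‖ ^ 2 ≤ 2 * ‖η w‖ ^ 2 + 2 * ‖(ξ - η) w‖ ^ 2 := by
          nlinarith [norm_nonneg (ξ w), norm_nonneg (η w), norm_nonneg ((ξ - η) w),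
            sq_nonneg (‖η w‖ - ‖(ξ - η) w‖)]
        obtain ⟨h6, h7⟩ := NTH_coef h0 h1 (cnt w)
        have h8 : 0 ≤ ‖(ξ - η) w‖ ^ 2 := by positivity
        nlinarith [mul_le_mul_of_nonneg_left h5 h6]
      linarith
  · intro ξ
    refine ⟨NTH_summable h0 h1 ξ, ?_⟩
    unfold Nth
    apply mul_le_mul_of_nonneg_left _ (by norm_num)
    rw [← (NTH_hasSum ξ).tsum_eq]
    refine (NTH_summable h0 h1 ξ).tsum_le_tsum (fun w => ?_) (NTH_hasSum ξ).summable
    have h := (NTH_coef h0 h1 (cnt w)).2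
    have h2 : 0 ≤ ‖ξ w‖ ^ 2 := by positivity
    nlinarith
  · intro α ξ hα hα1 hs
    unfold Nth
    rw [mul_assoc]
    apply mul_le_mul_of_nonneg_left _ (by norm_num)
    rw [← tsum_mul_left]
    refine (NTH_summable h0 h1 ξ).tsum_le_tsum (fun w => ?_) (hs.mul_left _)
    rw [← mul_assoc]
    apply mul_le_mul_of_nonneg_right _ (by positivity)
    have hcu : 1 - Real.cos θ ^ cnt w ≤ (cnt w : ℝ) * θ ^ 2 := by
      have h2 : 1 + (cnt w : ℝ) * (Real.cos θ - 1) ≤ (1 + (Real.cos θ - 1)) ^ cnt w :=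
        one_add_mul_le_pow (by linarith [Real.neg_one_le_cos θ]) _
      have h3 : 1 + (Real.cos θ - 1) = Real.cos θ := by ring
      rw [h3] at h2
      have h4 := Real.one_sub_sq_div_two_le_cos (x := θ)
      have h5 : (0 : ℝ) ≤ cnt w := Nat.cast_nonneg _
      nlinarith [mul_le_mul_of_nonneg_left h4 h5, mul_nonneg h5 (sq_nonneg θ)]
    have h6 := NTH_min (u := (cnt w : ℝ) * θ ^ 2) (by positivity) hα hα1
      (NTH_coef h0 h1 (cnt w)).2 hcu
    refine h6.trans (le_of_eq ?_)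
    rw [Real.mul_rpow (by positivity) (by positivity), mul_comm]
    congr 1
    rw [Real.rpow_mul h0, Real.rpow_two]

end Pool.FR
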