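import Pool.Agent.Work.MP_118406_fr.B_NTH

set_option autoImplicit false

/-! Block NTO: the sharper behaviour of `Nth` for exponents `< 1`. -/

open scoped InnerProductSpace ComplexConjugate Topology BigOperators
open Set Filter MeasureTheory Pool.SI

noncomputable section

namespace Pool.FR

theorem NTO_sq {θ : ℝ} (m : ℕ) : 1 - Real.cos θ ^ m ≤ (m : ℝ) * θ ^ 2 := by
  have h2 : 1 + (m : ℝ) * (Real.cos θ - 1) ≤ (1 + (Real.cos θ - 1)) ^ m :=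
    one_add_mul_le_pow (by linarith [Real.neg_one_le_cos θ]) _
  have h3 : 1 + (Real.cos θ - 1) = Real.cos θ := by ring
  rw [h3] at h2
  have h4 := Real.one_sub_sq_div_two_le_cos (x := θ)
  have h5 : (0 : ℝ) ≤ m := Nat.cast_nonneg _
  nlinarith [mul_le_mul_of_nonneg_left h4 h5, mul_nonneg h5 (sq_nonneg θ)]

theorem NTO_pow {θ α : ℝ} (h0 : 0 ≤ θ) (h1 : θ ≤ 1) (hα : 0 < α) (hα1 : α ≤ 1) (m : ℕ) :
    1 - Real.cos θ ^ m ≤ (m : ℝ) ^ α * θ ^ (2 * α) := by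
  have h6 := NTH_min (u := (m : ℝ) * θ ^ 2) (by positivity) hα hα1 (NTH_coef h0 h1 m).2 (NTO_sq m)
  refine h6.trans (le_of_eq ?_)
  rw [Real.mul_rpow (by positivity) (by positivity)]
  congr 1
  rw [Real.rpow_mul h0, Real.rpow_two]

theorem NTO_lim {α : ℝ} (hα1 : α < 1) (m : ℕ) (c : ℝ) (hc : 0 ≤ c) :
    Tendsto (fun θ : ℝ => ((1 - Real.cos θ ^ m) / θ ^ (2 * α)) * c) (𝓝[>] 0) (𝓝 0) := by
  have hev : ∀ᶠ θ : ℝ in 𝓝[>] 0, 0 < θ ∧ θ < 1 := Ioo_mem_nhdsGT one_pos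
  have hup : Tendsto (fun θ : ℝ => ((m : ℝ) * θ ^ (2 - 2 * α)) * c) (𝓝[>] 0) (𝓝 0) := by
    have h1 : Tendsto (fun θ : ℝ => θ ^ (2 - 2 * α)) (𝓝[>] 0) (𝓝 0) := by
      have h2 : Tendsto (fun θ : ℝ => θ ^ (2 - 2 * α)) (𝓝 0) (𝓝 ((0 : ℝ) ^ (2 - 2 * α))) :=
        (Real.continuousAt_rpow_const 0 (2 - 2 * α) (Or.inr (by linarith))).tendsto
      rw [Real.zero_rpow (by linarith)] at h2
      exact h2.mono_left nhdsWithin_le_nhds
    have h3 := (h1.const_mul (m : ℝ)).mul_const c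
    simpa using h3
  refine tendsto_of_tendsto_of_tendsto_of_le_of_le' tendsto_const_nhds hup ?_ ?_
  · filter_upwards [hev] with θ hθ
    have h1 := (NTH_coef hθ.1.le hθ.2.le m).1
    have h2 : 0 < θ ^ (2 * α) := Real.rpow_pos_of_pos hθ.1 _
    positivity
  · filter_upwards [hev] with θ hθ
    have h2 : 0 < θ ^ (2 * α) := Real.rpow_pos_of_pos hθ.1 _
    refine mul_le_mul_of_nonneg_right ?_ hc
    rw [div_le_iff₀ h2]
    have h3 : θ ^ (2 - 2 * α) * θ ^ (2 * α) = θ ^ 2 := by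
      rw [← Real.rpow_add hθ.1]
      rw [show (2 - 2 * α + 2 * α : ℝ) = ((2 : ℕ) : ℝ) by push_cast; ring, Real.rpow_natCast]
    calc 1 - Real.cos θ ^ m ≤ (m : ℝ) * θ ^ 2 := NTO_sq m
      _ = (m : ℝ) * θ ^ (2 - 2 * α) * θ ^ (2 * α) := by rw [← h3]; ring

theorem p_NTO : Stmt_NTO := by
  intro n α ξ hα hα1 hs
  have hev : ∀ᶠ θ : ℝ in 𝓝[>] 0, 0 < θ ∧ θ < 1 := Ioo_mem_nhdsGT one_pos
  have key : Tendsto (fun θ : ℝ => ∑' w : List (Fin (n + 1)),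
      ((1 - Real.cos θ ^ cnt w) / θ ^ (2 * α)) * ‖ξ w‖ ^ 2) (𝓝[>] 0)
      (𝓝 (∑' w : List (Fin (n + 1)), (0 : ℝ))) := by
    refine tendsto_tsum_of_dominated_convergence hs ?_ ?_
    · intro w
      exact NTO_lim hα1 (cnt w) (‖ξ w‖ ^ 2) (by positivity)
    · filter_upwards [hev] with θ hθ w
      have h1 := (NTH_coef hθ.1.le hθ.2.le (cnt w)).1
      have h2 : 0 < θ ^ (2 * α) := Real.rpow_pos_of_pos hθ.1 _
      rw [Real.norm_of_nonneg (by positivity)]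
      refine mul_le_mul_of_nonneg_right ?_ (by positivity)
      rw [div_le_iff₀ h2]
      exact NTO_pow hθ.1.le hθ.2.le hα hα1.le (cnt w)
  rw [tsum_zero] at key
  have h2 := key.const_mul (2 : ℝ)
  rw [mul_zero] at h2
  refine h2.congr fun θ => ?_
  unfold Nth
  rw [mul_div_assoc, ← tsum_div_const]
  congr 1
  refine tsum_congr fun w => ?_
  ring

end Pool.FR
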