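import Pool.Agent.Work.MP_118406_fr.Interface

set_option autoImplicit false

/-! Block NTP: nets in a ball of a finite dimensional normed space. -/

open scoped InnerProductSpace ComplexConjugate Topology BigOperators
open Set Filter MeasureTheory Pool.SI

noncomputable section

namespace Pool.FR

lemma NTP_card (E : Type) [NormedAddCommGroup E] [NormedSpace ℝ E] [FiniteDimensional ℝ E]
    (R ε : ℝ) (hε : 0 < ε) (hR : ε ≤ R) (s : Finset E) (hs : ∀ c ∈ s, ‖c‖ ≤ R)
    (h : ∀ c ∈ s, ∀ d ∈ s, c ≠ d → ε ≤ ‖c - d‖) :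
    (s.card : ℝ) ≤ (3 * R / ε) ^ Module.finrank ℝ E := by
  borelize E
  let μ : Measure E := Measure.addHaar
  have δpos : 0 < ε / 2 := by positivity
  have ρpos : 0 < 3 * R / 2 := by linarith
  set A := ⋃ c ∈ s, Metric.ball (c : E) (ε / 2) with hA
  have D : Set.Pairwise (s : Set E) (Function.onFun Disjoint fun c => Metric.ball (c : E) (ε / 2)) := by
    rintro c hc d hd hcd
    apply Metric.ball_disjoint_ball
    rw [dist_eq_norm]
    have := h c hc d hd hcd
    linarith
  have A_subset : A ⊆ Metric.ball (0 : E) (3 * R / 2) := by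
    refine iUnion₂_subset fun x hx => ?_
    apply Metric.ball_subset_ball'
    rw [dist_zero_right]
    have := hs x hx
    linarith
  have I : (s.card : ENNReal) * ENNReal.ofReal ((ε / 2) ^ Module.finrank ℝ E) * μ (Metric.ball 0 1) ≤
      ENNReal.ofReal ((3 * R / 2) ^ Module.finrank ℝ E) * μ (Metric.ball 0 1) :=
    calc
      (s.card : ENNReal) * ENNReal.ofReal ((ε / 2) ^ Module.finrank ℝ E) * μ (Metric.ball 0 1)
          = μ A := by
        rw [hA, measure_biUnion_finset D fun c _ => measurableSet_ball]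
        simp only [μ.addHaar_ball_of_pos _ δpos, Finset.sum_const, nsmul_eq_mul, mul_assoc]
      _ ≤ μ (Metric.ball (0 : E) (3 * R / 2)) := measure_mono A_subset
      _ = ENNReal.ofReal ((3 * R / 2) ^ Module.finrank ℝ E) * μ (Metric.ball 0 1) := by
        rw [μ.addHaar_ball_of_pos _ ρpos]
  have J : (s.card : ENNReal) * ENNReal.ofReal ((ε / 2) ^ Module.finrank ℝ E) ≤
      ENNReal.ofReal ((3 * R / 2) ^ Module.finrank ℝ E) :=
    (ENNReal.mul_le_mul_iff_left (Metric.measure_ball_pos _ _ zero_lt_one).ne'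
      measure_ball_lt_top.ne).1 I
  have K := ENNReal.toReal_le_of_le_ofReal (pow_nonneg ρpos.le _) J
  rw [ENNReal.toReal_mul, ENNReal.toReal_natCast, ENNReal.toReal_ofReal (by positivity)] at K
  have e1 : (3 * R / ε) ^ Module.finrank ℝ E =
      (3 * R / 2) ^ Module.finrank ℝ E / (ε / 2) ^ Module.finrank ℝ E := by
    rw [← div_pow]
    congr 1
    field_simp
  rw [e1, le_div_iff₀ (by positivity)]
  exact K

theorem p_NTP : Stmt_NTP := by
  intro E _ _ _ R ε hε hR
  let P : ℕ → Prop := fun n => ∃ s : Finset E, s.card = n ∧ (∀ c ∈ s, ‖c‖ ≤ R) ∧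
    (∀ c ∈ s, ∀ d ∈ s, c ≠ d → ε ≤ ‖c - d‖)
  have h0 : P 0 := ⟨∅, by simp, by simp, by simp⟩
  have hb : ∀ n, P n → (n : ℝ) ≤ (3 * R / ε) ^ Module.finrank ℝ E := by
    rintro n ⟨s, hc, h1, h2⟩
    rw [← hc]
    exact NTP_card E R ε hε hR s h1 h2
  obtain ⟨n, hn, hn'⟩ : ∃ n, P n ∧ ¬ P (n + 1) := by
    by_contra hcon
    push Not at hcon
    have hall : ∀ n, P n := by
      intro n
      induction n with
      | zero => exact h0
      | succ n ih => exact hcon n ih
    obtain ⟨m, hm⟩ := exists_nat_gt ((3 * R / ε) ^ Module.finrank ℝ E)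
    exact absurd (hb m (hall m)) (not_le.mpr hm)
  obtain ⟨s, hc, h1, h2⟩ := hn
  refine ⟨s, NTP_card E R ε hε hR s h1 h2, ?_⟩
  intro x hx
  by_contra hcon
  push Not at hcon
  apply hn'
  classical
  have hxs : x ∉ s := by
    intro hxs
    have := hcon x hxs
    rw [sub_self, norm_zero] at this
    linarith
  refine ⟨insert x s, by rw [Finset.card_insert_of_notMem hxs, hc], ?_, ?_⟩
  · intro c hc'
    rcases Finset.mem_insert.mp hc' with rfl | hc'
    · exact hx
    · exact h1 c hc'
  · intro c hc' d hd' hcd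
    rcases Finset.mem_insert.mp hc' with h3 | h3 <;> rcases Finset.mem_insert.mp hd' with h4 | h4
    · exact absurd (h3.trans h4.symm) hcd
    · rw [h3]
      exact (hcon d h4).le
    · rw [norm_sub_rev, h4]
      exact (hcon c h3).le
    · exact h2 c h3 d h4 hcd

end Pool.FR
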