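import Pool.Agent.Work.MP_118406_fr.Interface

set_option autoImplicit false

/-!
# Block OBB: calculus of the operator norm bound
-/

open scoped InnerProductSpace ComplexConjugate Topology BigOperators
open Set Filter MeasureTheory Pool.SI

noncomputable section

namespace Pool.FR

/-- `nn 1 = 1`. -/
theorem OBB_nn_one {N : ℕ} (hN : 1 ≤ N) : nn (1 : Mat N) = 1 := by
  have h1 : ∀ a : Fin N, ∑ b : Fin N, ‖(1 : Mat N) a b‖ ^ 2 = 1 := by
    intro a
    rw [Finset.sum_eq_single a]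
    · simp
    · intro b _ hb
      simp [Matrix.one_apply_ne (Ne.symm hb)]
    · simp
  have hN0 : (N : ℝ) ≠ 0 := by
    have : 0 < N := hN
    positivity
  unfold nn
  simp only [h1]
  simp [hN0]

/-- The square root form of the bounds. -/
theorem OBB_sqrt_le {x y c : ℝ} (hc : 0 ≤ c) (h : x ≤ c ^ 2 * y) :
    Real.sqrt x ≤ c * Real.sqrt y := by
  calc Real.sqrt x ≤ Real.sqrt (c ^ 2 * y) := Real.sqrt_le_sqrt h
    _ = c * Real.sqrt y := by
        rw [Real.sqrt_mul (sq_nonneg c), Real.sqrt_sq hc]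

/-- Back to squares. -/
theorem OBB_of_sqrt {x y c : ℝ} (hx : 0 ≤ x) (hy : 0 ≤ y)
    (h : Real.sqrt x ≤ c * Real.sqrt y) : x ≤ c ^ 2 * y := by
  have h1 : Real.sqrt x ^ 2 ≤ (c * Real.sqrt y) ^ 2 :=
    pow_le_pow_left₀ (Real.sqrt_nonneg x) h 2
  rw [Real.sq_sqrt hx, mul_pow, Real.sq_sqrt hy] at h1
  exact h1

theorem OBB_add (hM : Stmt_MXA) {N : ℕ} (hN : 1 ≤ N) {c d : ℝ} {A B : Mat N}
    (hA : OB c A) (hB : OB d B) : OB (c + d) (A + B) := by
  obtain ⟨h1, -, -, -, -, h6, -, -⟩ := hM N hN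
  refine ⟨add_nonneg hA.1 hB.1, fun D => ⟨?_, ?_⟩⟩
  · apply OBB_of_sqrt (h1 _).1 (h1 _).1
    rw [add_mul A B D]
    calc Real.sqrt (nn (A * D + B * D)) ≤ Real.sqrt (nn (A * D)) + Real.sqrt (nn (B * D)) :=
          h6 _ _
      _ ≤ c * Real.sqrt (nn D) + d * Real.sqrt (nn D) :=
          add_le_add (OBB_sqrt_le hA.1 (hA.2 D).1) (OBB_sqrt_le hB.1 (hB.2 D).1)
      _ = (c + d) * Real.sqrt (nn D) := by ring
  · apply OBB_of_sqrt (h1 _).1 (h1 _).1
    rw [mul_add D A B]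
    calc Real.sqrt (nn (D * A + D * B)) ≤ Real.sqrt (nn (D * A)) + Real.sqrt (nn (D * B)) :=
          h6 _ _
      _ ≤ c * Real.sqrt (nn D) + d * Real.sqrt (nn D) :=
          add_le_add (OBB_sqrt_le hA.1 (hA.2 D).2) (OBB_sqrt_le hB.1 (hB.2 D).2)
      _ = (c + d) * Real.sqrt (nn D) := by ring

theorem OBB_smul (hM : Stmt_MXA) {N : ℕ} (hN : 1 ≤ N) {c : ℝ} (z : ℂ) {A : Mat N}
    (hA : OB c A) : OB (‖z‖ * c) (z • A) := by
  obtain ⟨-, -, -, -, -, -, h7, -⟩ := hM N hN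
  refine ⟨mul_nonneg (norm_nonneg z) hA.1, fun D => ⟨?_, ?_⟩⟩
  · rw [smul_mul_assoc, h7, mul_pow, mul_assoc]
    exact mul_le_mul_of_nonneg_left (hA.2 D).1 (by positivity)
  · rw [mul_smul_comm, h7, mul_pow, mul_assoc]
    exact mul_le_mul_of_nonneg_left (hA.2 D).2 (by positivity)

theorem p_OBB (hM : Stmt_MXA) : Stmt_OBB := by
  intro N hN
  obtain ⟨h1, -, -, -, -, h6, h7, h8⟩ := hM N hN
  have hone : OB 1 (1 : Mat N) := ⟨zero_le_one, fun D => by simp⟩
  refine ⟨hone, ?_, ?_, ?_, ?_⟩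
  · intro c d A B hA hB
    refine ⟨⟨mul_nonneg hA.1 hB.1, fun D => ⟨?_, ?_⟩⟩, OBB_add hM hN hA hB, ?_⟩
    · calc nn (A * B * D) = nn (A * (B * D)) := by rw [mul_assoc]
        _ ≤ c ^ 2 * nn (B * D) := (hA.2 _).1
        _ ≤ c ^ 2 * (d ^ 2 * nn D) := mul_le_mul_of_nonneg_left (hB.2 D).1 (by positivity)
        _ = (c * d) ^ 2 * nn D := by ring
    · calc nn (D * (A * B)) = nn (D * A * B) := by rw [mul_assoc]
        _ ≤ d ^ 2 * nn (D * A) := (hB.2 _).2
        _ ≤ d ^ 2 * (c ^ 2 * nn D) := mul_le_mul_of_nonneg_left (hA.2 D).2 (by positivity)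
        _ = (c * d) ^ 2 * nn D := by ring
    · have h := OBB_add hM hN hA (OBB_smul hM hN (-1) hB)
      simpa [sub_eq_add_neg] using h
  · intro c z A hA
    exact OBB_smul hM hN z hA
  · intro c A hA
    refine ⟨⟨hA.1, fun D => ⟨?_, ?_⟩⟩, ?_, ?_⟩
    · have e : star (star D * A) = star A * D := by
        rw [star_mul, star_star]
      rw [← e, (h1 _).2.1]
      have := (hA.2 (star D)).2
      rwa [(h1 D).2.1] at this
    · have e : star (A * star D) = D * star A := by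
        rw [star_mul, star_star]
      rw [← e, (h1 _).2.1]
      have := (hA.2 (star D)).1
      rwa [(h1 D).2.1] at this
    · have := (hA.2 1).1
      rwa [mul_one, OBB_nn_one hN, mul_one] at this
    · intro d hd
      refine ⟨hA.1.trans hd, fun D => ?_⟩
      have hs : c ^ 2 ≤ d ^ 2 := pow_le_pow_left₀ hA.1 hd 2
      exact ⟨(hA.2 D).1.trans (mul_le_mul_of_nonneg_right hs (h1 D).1),
        (hA.2 D).2.trans (mul_le_mul_of_nonneg_right hs (h1 D).1)⟩
  · intro V hV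
    have hV' : Uni (star V) := by
      refine ⟨?_, ?_⟩
      · rw [star_star]; exact hV.2
      · rw [star_star]; exact hV.1
    refine ⟨⟨zero_le_one, fun D => ⟨?_, ?_⟩⟩, ⟨zero_le_one, fun D => ⟨?_, ?_⟩⟩⟩
    · rw [(h8 V D hV).1]; simp
    · rw [(h8 V D hV).2]; simp
    · rw [(h8 (star V) D hV').1]; simp
    · rw [(h8 (star V) D hV').2]; simp

end Pool.FR
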