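import Pool.Agent.Work.MP_118406_fr.Interface

set_option autoImplicit false

/-!
# Block RBD: right multiplication
-/

open scoped InnerProductSpace ComplexConjugate Topology BigOperators
open Set Filter MeasureTheory Pool.SI

noncomputable section

namespace Pool.FR

theorem RBD_star (k : ℕ) (x : Fk k →L[ℂ] Fk k) (hx : x ∈ Alg k) :
    ‖(star x) (vac k)‖ = ‖x (vac k)‖ := by
  obtain ⟨-, -, -, -, j5, -, -⟩ := t_JOP k
  rw [← (t_ALC k).2.1 x hx, j5]

theorem p_RBD : Stmt_RBD := by
  intro k x z hx hz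
  refine ⟨RBD_star k x hx, ?_⟩
  have h1 : x * z ∈ Alg k := mul_mem hx hz
  rw [← RBD_star k (x * z) h1, star_mul, ← RBD_star k x hx]
  calc ‖(star z * star x) (vac k)‖ = ‖(star z) ((star x) (vac k))‖ := rfl
    _ ≤ ‖star z‖ * ‖(star x) (vac k)‖ := (star z).le_opNorm _
    _ = ‖z‖ * ‖(star x) (vac k)‖ := by
        rw [ContinuousLinearMap.star_eq_adjoint, LinearIsometryEquiv.norm_map]

end Pool.FR
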