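import Pool.Agent.Work.MP_118406_fr.Interface

set_option autoImplicit false

open scoped InnerProductSpace ComplexConjugate Topology BigOperators
open Set Filter MeasureTheory Pool.SI

noncomputable section

namespace Pool.FR

theorem RDW_one {Δ Γ : Type} [DecidableEq Δ] [DecidableEq Γ] {N : ℕ} (D : Δ → Mat N) (c : Δ ⊕ Γ)
    (i : Γ) (q : Fin N × Fin N) :
    (Lp D c).map (MvPolynomial.pderiv (i, q)) =
      if c = Sum.inr i then (hm (cv q) : Mat N).map MvPolynomial.C else 0 := by
  rcases c with j | j
  · rw [if_neg (by simp)]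
    ext a b
    simp [Lp]
  · have h1 : ∀ a b, (Lp D (Sum.inr j : Δ ⊕ Γ)) a b = ∑ p : Fin N × Fin N,
        (MvPolynomial.X (j, p) : MvPolynomial (Γ × Fin N × Fin N) ℂ) *
          MvPolynomial.C ((hm (cv p) : Mat N) a b) := by
      intro a b
      simp [Lp, Matrix.sum_apply]
    by_cases hj : j = i
    · subst hj
      rw [if_pos rfl]
      refine Matrix.ext fun a b => ?_
      rw [Matrix.map_apply, h1, map_sum, Matrix.map_apply]
      rw [Finset.sum_eq_single q]
      · rw [Derivation.leibniz, MvPolynomial.pderiv_C, MvPolynomial.pderiv_X]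
        simp
      · intro p _ hp
        rw [Derivation.leibniz, MvPolynomial.pderiv_C, MvPolynomial.pderiv_X, Pi.single_eq_of_ne]
        · simp
        · intro h
          exact hp (by simpa using h)
      · intro h
        exact absurd (Finset.mem_univ q) h
    · rw [if_neg (by simpa using hj)]
      refine Matrix.ext fun a b => ?_
      rw [Matrix.map_apply, h1, map_sum, Matrix.zero_apply]
      refine Finset.sum_eq_zero fun p _ => ?_
      rw [Derivation.leibniz, MvPolynomial.pderiv_C, MvPolynomial.pderiv_X, Pi.single_eq_of_ne]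
      · simp
      · intro h
        exact hj (congrArg Prod.fst h)

theorem RDW_mul {σ : Type} {N : ℕ} (A B : Matrix (Fin N) (Fin N) (MvPolynomial σ ℂ)) (s : σ) :
    (A * B).map (MvPolynomial.pderiv s) =
      A.map (MvPolynomial.pderiv s) * B + A * B.map (MvPolynomial.pderiv s) := by
  refine Matrix.ext fun a b => ?_
  rw [Matrix.map_apply, Matrix.mul_apply, map_sum, Matrix.add_apply, Matrix.mul_apply,
    Matrix.mul_apply, ← Finset.sum_add_distrib]
  refine Finset.sum_congr rfl fun c _ => ?_
  rw [Derivation.leibniz, Matrix.map_apply, Matrix.map_apply, smul_eq_mul, smul_eq_mul]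
  ring

theorem p_RDW : Stmt_RDW := by
  intro Δ Γ _ _ N D w i q
  induction w with
  | nil =>
    refine Matrix.ext fun a b => ?_
    simp only [Wp, List.map_nil, List.prod_nil, Matrix.map_apply]
    rw [Matrix.one_apply]
    split_ifs <;> simp
  | cons c w ih =>
    have h1 : ∀ (c : Δ ⊕ Γ) (u : List (Δ ⊕ Γ)), Wp D (c :: u) = Lp D c * Wp D u := by
      intro c u
      simp [Wp]
    have h0 : Wp D ([] : List (Δ ⊕ Γ)) = 1 := by simp [Wp]
    rw [h1, RDW_mul, ih, RDW_one, Finset.mul_sum]
    change _ = ∑ p : Fin (w.length + 1), _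
    rw [Fin.sum_univ_succ]
    congr 1
    · simp only [List.get_eq_getElem, Fin.val_zero, List.getElem_cons_zero, List.take_zero,
        zero_add, List.drop_succ_cons, List.drop_zero]
      rw [h0, one_mul]
      split_ifs
      · rfl
      · rw [zero_mul]
    · refine Finset.sum_congr rfl fun p _ => ?_
      simp only [List.get_eq_getElem, Fin.val_succ, List.getElem_cons_succ, List.take_succ_cons,
        List.drop_succ_cons]
      rw [h1]
      split_ifs
      · rw [Matrix.mul_assoc, Matrix.mul_assoc, Matrix.mul_assoc]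
      · rw [mul_zero]

end Pool.FR
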