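import Pool.Agent.Work.MP_118406_fr.Interface

set_option autoImplicit false

/-!
# Block REC: the Schwinger-Dyson recursion
-/

open scoped InnerProductSpace ComplexConjugate Topology BigOperators
open Set Filter MeasureTheory Pool.SI

noncomputable section

namespace Pool.FR

/-- The basis matrices as matrices of constant polynomials. -/
def REC_E (Γ : Type) {N : ℕ} (q : Fin N × Fin N) :
    Matrix (Fin N) (Fin N) (MvPolynomial (Γ × Fin N × Fin N) ℂ) :=
  (hm (cv q) : Mat N).map MvPolynomial.C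

theorem REC_comp (hC : Stmt_CMP) {N : ℕ} (Γ : Type) (hN : 1 ≤ N) (a b c d : Fin N) :
    ∑ q : Fin N × Fin N, REC_E Γ q a b * REC_E Γ q c d =
      if a = d ∧ b = c then MvPolynomial.C ((N : ℂ)⁻¹) else 0 := by
  have h := hC N hN a b c d
  simp only [REC_E, Matrix.map_apply, ← map_mul, ← map_sum, h]
  split_ifs <;> simp

theorem REC_ex (q : Type) [Fintype q] {N : ℕ} {R : Type} [CommRing R]
    (f : q → Fin N → Fin N → Fin N → Fin N → R) :
    ∑ x : q, ∑ a, ∑ d, ∑ c, ∑ b, f x a d c b = ∑ a, ∑ d, ∑ c, ∑ b, ∑ x : q, f x a d c b := by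
  rw [Finset.sum_comm]
  refine Finset.sum_congr rfl fun a _ => ?_
  rw [Finset.sum_comm]
  refine Finset.sum_congr rfl fun d _ => ?_
  rw [Finset.sum_comm]
  refine Finset.sum_congr rfl fun c _ => ?_
  rw [Finset.sum_comm]

/-- `∑_q Tr(E_q A E_q B) = N⁻¹ Tr A Tr B`. -/
theorem REC_tr1 (hC : Stmt_CMP) {N : ℕ} {Γ : Type} (hN : 1 ≤ N)
    (A B : Matrix (Fin N) (Fin N) (MvPolynomial (Γ × Fin N × Fin N) ℂ)) :
    ∑ q : Fin N × Fin N, (REC_E Γ q * A * REC_E Γ q * B).trace =
      MvPolynomial.C ((N : ℂ)⁻¹) * (A.trace * B.trace) := by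
  have h : ∀ q : Fin N × Fin N, (REC_E Γ q * A * REC_E Γ q * B).trace =
      ∑ a, ∑ d, ∑ c, ∑ b, (REC_E Γ q a b * REC_E Γ q c d) * (A b c * B d a) := by
    intro q
    simp only [Matrix.trace, Matrix.diag, Matrix.mul_apply, Finset.sum_mul]
    refine Finset.sum_congr rfl fun a _ => Finset.sum_congr rfl fun d _ =>
      Finset.sum_congr rfl fun c _ => Finset.sum_congr rfl fun b _ => ?_
    ring
  rw [Finset.sum_congr rfl fun q _ => h q, REC_ex]
  have h2 : ∀ a d c b : Fin N, ∑ q : Fin N × Fin N,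
      (REC_E Γ q a b * REC_E Γ q c d) * (A b c * B d a) =
      if d = a then (if b = c then MvPolynomial.C ((N : ℂ)⁻¹) * (A b c * B d a) else 0) else 0 := by
    intro a d c b
    rw [← Finset.sum_mul, REC_comp hC Γ hN]
    by_cases h1 : d = a
    · by_cases h2 : b = c
      · simp [h1, h2]
      · simp [h1, h2]
    · have h3 : ¬ (a = d) := fun h => h1 h.symm
      simp [h1, h3]
  simp only [h2]
  have h3 : ∀ a d c : Fin N, (∑ b : Fin N, if d = a then
      (if b = c then MvPolynomial.C ((N : ℂ)⁻¹) * (A b c * B d a) else 0) else 0) =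
      if d = a then MvPolynomial.C ((N : ℂ)⁻¹) * (A c c * B d a) else 0 := by
    intro a d c
    by_cases h1 : d = a
    · simp [h1]
    · simp [h1]
  simp only [h3]
  have h4 : ∀ a : Fin N, (∑ d : Fin N, ∑ c : Fin N,
      if d = a then MvPolynomial.C ((N : ℂ)⁻¹) * (A c c * B d a) else 0) =
      MvPolynomial.C ((N : ℂ)⁻¹) * (A.trace * B a a) := by
    intro a
    rw [Finset.sum_eq_single a]
    · simp only [if_true, Matrix.trace, Matrix.diag, Finset.sum_mul, Finset.mul_sum]
    · intro d _ hd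
      simp [hd]
    · intro h
      exact absurd (Finset.mem_univ a) h
  simp only [h4]
  rw [← Finset.mul_sum, ← Finset.mul_sum]
  rfl

/-- `∑_q Tr(E_q A) Tr(E_q B) = N⁻¹ Tr(A B)`. -/
theorem REC_tr2 (hC : Stmt_CMP) {N : ℕ} {Γ : Type} (hN : 1 ≤ N)
    (A B : Matrix (Fin N) (Fin N) (MvPolynomial (Γ × Fin N × Fin N) ℂ)) :
    ∑ q : Fin N × Fin N, (REC_E Γ q * A).trace * (REC_E Γ q * B).trace =
      MvPolynomial.C ((N : ℂ)⁻¹) * (A * B).trace := by
  have h : ∀ q : Fin N × Fin N, (REC_E Γ q * A).trace * (REC_E Γ q * B).trace =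
      ∑ a, ∑ d, ∑ c, ∑ b, (REC_E Γ q a b * REC_E Γ q c d) * (A b a * B d c) := by
    intro q
    simp only [Matrix.trace, Matrix.diag, Matrix.mul_apply]
    rw [Finset.sum_mul]
    refine Finset.sum_congr rfl fun a _ => ?_
    rw [Finset.sum_comm, Finset.sum_comm]
    rw [Finset.sum_mul_sum]
    have e : (∑ d : Fin N, ∑ c : Fin N, ∑ b : Fin N,
        (REC_E Γ q a b * REC_E Γ q c d) * (A b a * B d c)) =
        ∑ b : Fin N, ∑ c : Fin N, ∑ d : Fin N,
        (REC_E Γ q a b * REC_E Γ q c d) * (A b a * B d c) := by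
      rw [Finset.sum_comm]
      rw [Finset.sum_congr rfl fun c _ => Finset.sum_comm]
      rw [Finset.sum_comm]
    rw [e]
    refine Finset.sum_congr rfl fun b _ => ?_
    refine Finset.sum_congr rfl fun c _ => ?_
    rw [Finset.mul_sum]
    refine Finset.sum_congr rfl fun d _ => ?_
    ring
  rw [Finset.sum_congr rfl fun q _ => h q, REC_ex]
  have h2 : ∀ a d c b : Fin N, ∑ q : Fin N × Fin N,
      (REC_E Γ q a b * REC_E Γ q c d) * (A b a * B d c) =
      if d = a then (if b = c then MvPolynomial.C ((N : ℂ)⁻¹) * (A b a * B d c) else 0) else 0 := by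
    intro a d c b
    rw [← Finset.sum_mul, REC_comp hC Γ hN]
    by_cases h1 : d = a
    · by_cases h2 : b = c
      · simp [h1, h2]
      · simp [h1, h2]
    · have h3 : ¬ (a = d) := fun h => h1 h.symm
      simp [h1, h3]
  simp only [h2]
  have h3 : ∀ a d c : Fin N, (∑ b : Fin N, if d = a then
      (if b = c then MvPolynomial.C ((N : ℂ)⁻¹) * (A b a * B d c) else 0) else 0) =
      if d = a then MvPolynomial.C ((N : ℂ)⁻¹) * (A c a * B d c) else 0 := by
    intro a d c
    by_cases h1 : d = a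
    · simp [h1]
    · simp [h1]
  simp only [h3]
  have h4 : ∀ a : Fin N, (∑ d : Fin N, ∑ c : Fin N,
      if d = a then MvPolynomial.C ((N : ℂ)⁻¹) * (A c a * B d c) else 0) =
      MvPolynomial.C ((N : ℂ)⁻¹) * (∑ c : Fin N, B a c * A c a) := by
    intro a
    rw [Finset.sum_eq_single a]
    · simp only [if_true, Finset.mul_sum]
      refine Finset.sum_congr rfl fun c _ => ?_
      ring
    · intro d _ hd
      simp [hd]
    · intro h
      exact absurd (Finset.mem_univ a) h
  simp only [h4]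
  rw [← Finset.mul_sum, Matrix.trace_mul_comm]
  simp only [Matrix.trace, Matrix.diag, Matrix.mul_apply]

/-- The Leibniz rule for lists. -/
theorem REC_leib {σ α : Type} (d : Derivation ℂ (MvPolynomial σ ℂ) (MvPolynomial σ ℂ))
    (f : α → MvPolynomial σ ℂ) (S : List α) :
    d ((S.map f).prod) = ∑ q : Fin S.length, d (f (S.get q)) * ((S.eraseIdx q).map f).prod := by
  induction S with
  | nil => simp
  | cons a S ih =>
    rw [List.map_cons, List.prod_cons, Derivation.leibniz, ih]
    simp only [smul_eq_mul]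
    change _ = ∑ q : Fin (S.length + 1), _
    rw [Fin.sum_univ_succ]
    simp only [Finset.mul_sum]
    rw [add_comm]
    congr 1
    · simp [mul_comm]
    · refine Finset.sum_congr rfl fun j _ => ?_
      simp only [Fin.val_succ, List.eraseIdx_cons_succ, List.map_cons, List.prod_cons]
      simp only [List.get_cons_succ']
      ring

/-- The Leibniz rule for a product of matrices whose first factor is constant. -/
theorem REC_cmul {σ : Type} {N : ℕ} (d : Derivation ℂ (MvPolynomial σ ℂ) (MvPolynomial σ ℂ))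
    (M : Mat N) (A : Matrix (Fin N) (Fin N) (MvPolynomial σ ℂ)) :
    d ((M.map MvPolynomial.C * A).trace) = (M.map MvPolynomial.C * A.map d).trace := by
  simp only [Matrix.trace, Matrix.diag, Matrix.mul_apply, map_sum, Matrix.map_apply]
  refine Finset.sum_congr rfl fun a _ => Finset.sum_congr rfl fun b _ => ?_
  rw [Derivation.leibniz]
  have : d (MvPolynomial.C (M a b) : MvPolynomial σ ℂ) = 0 := by
    have := d.map_algebraMap (M a b)
    simpa [MvPolynomial.algebraMap_eq] using this
  rw [this]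
  simp

theorem REC_Wp_app {Δ Γ : Type} {N : ℕ} (D : Δ → Mat N) (u v : List (Δ ⊕ Γ)) :
    Wp D (u ++ v) = Wp D u * Wp D v := by
  simp [Wp]

/-- The expectation. -/
def REC_I {σ : Type} [Fintype σ] (P : MvPolynomial σ ℂ) : ℂ :=
  ∫ g : σ → ℝ, MvPolynomial.aeval (fun i => (g i : ℂ)) P ∂(gs σ)

theorem REC_Ic (hS : Stmt_STE) {σ : Type} [Fintype σ] [DecidableEq σ] (c : ℂ)
    (P : MvPolynomial σ ℂ) : REC_I (MvPolynomial.C c * P) = c * REC_I P := by
  unfold REC_I
  rw [← integral_const_mul]
  refine integral_congr_ae (Filter.Eventually.of_forall fun g => ?_)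
  simp

theorem REC_Iadd (hS : Stmt_STE) {σ : Type} [Fintype σ] [DecidableEq σ]
    (P Q : MvPolynomial σ ℂ) : REC_I (P + Q) = REC_I P + REC_I Q := by
  unfold REC_I
  rw [← integral_add (hS σ P).1 (hS σ Q).1]
  refine integral_congr_ae (Filter.Eventually.of_forall fun g => ?_)
  simp

theorem REC_Isum (hS : Stmt_STE) {σ : Type} [Fintype σ] [DecidableEq σ] {κ : Type}
    (s : Finset κ) (P : κ → MvPolynomial σ ℂ) : REC_I (∑ j ∈ s, P j) = ∑ j ∈ s, REC_I (P j) := by
  classical
  induction s using Finset.induction_on with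
  | empty => simp [REC_I]
  | insert a s ha ih =>
    rw [Finset.sum_insert ha, Finset.sum_insert ha, REC_Iadd hS, ih]

theorem REC_I0 {σ : Type} [Fintype σ] : REC_I (0 : MvPolynomial σ ℂ) = 0 := by
  simp [REC_I]

theorem REC_Ex (hR : Stmt_RPR) {Δ Γ : Type} [Fintype Γ] {N : ℕ} (hN : 1 ≤ N)
    (D : Δ → Mat N) (S : List (List (Δ ⊕ Γ))) : Ex D S = REC_I ((S.map (Tp D)).prod) := by
  unfold Ex REC_I
  refine integral_congr_ae (Filter.Eventually.of_forall fun g => ?_)
  have h : (MvPolynomial.aeval (fun i => (g i : ℂ))) ((S.map (Tp D)).prod) =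
      (S.map fun w => (MvPolynomial.aeval (fun i => (g i : ℂ))) (Tp D w)).prod := by
    rw [map_list_prod, List.map_map]
    rfl
  change _ = (MvPolynomial.aeval (fun i => (g i : ℂ))) ((S.map (Tp D)).prod)
  rw [h]
  change (S.map fun w => ntr ((w.map (Sum.elim D (hmk g))).prod)).prod =
    (S.map fun w => (MvPolynomial.aeval (fun i => (g i : ℂ))) (Tp D w)).prod
  congr 1
  refine List.map_congr_left fun w _ => ?_
  exact (hR Δ Γ N D w g hN).symm

/-- The derivative of the trace of a word. -/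
theorem REC_dTp (hW : Stmt_RDW) {Δ Γ : Type} [DecidableEq Δ] [DecidableEq Γ] {N : ℕ}
    (D : Δ → Mat N) (u : List (Δ ⊕ Γ)) (i : Γ) (q : Fin N × Fin N) :
    MvPolynomial.pderiv (i, q) (Tp D u) = MvPolynomial.C ((N : ℂ)⁻¹) *
      ∑ p : Fin u.length, if u.get p = Sum.inr i then
        (REC_E Γ q * (Wp D (u.drop (p + 1)) * Wp D (u.take p))).trace else 0 := by
  unfold Tp
  rw [Derivation.leibniz, MvPolynomial.pderiv_C, smul_zero, add_zero, smul_eq_mul]
  congr 1
  have h : MvPolynomial.pderiv (i, q) (Wp D u).trace =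
      ((Wp D u).map (MvPolynomial.pderiv (i, q))).trace := by
    simp [Matrix.trace, map_sum]
  rw [h, hW Δ Γ N D u i q, Matrix.trace_sum]
  refine Finset.sum_congr rfl fun p _ => ?_
  split_ifs
  · rw [Matrix.mul_assoc, Matrix.trace_mul_comm, Matrix.mul_assoc]
    rfl
  · exact Matrix.trace_zero _ _

theorem p_REC (hS : Stmt_STE) (hR : Stmt_RPR) (hW : Stmt_RDW) (hC : Stmt_CMP) : Stmt_REC := by
  intro Δ Γ _ _ _ N D i w S hN
  rw [REC_Ex hR hN]
  set c : MvPolynomial (Γ × Fin N × Fin N) ℂ := MvPolynomial.C ((N : ℂ)⁻¹) with hc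
  set Pi : MvPolynomial (Γ × Fin N × Fin N) ℂ := (S.map (Tp D)).prod with hPi
  -- the first trace
  have h1 : Tp D (Sum.inr i :: w) = ∑ q : Fin N × Fin N,
      MvPolynomial.X (i, q) * (c * (REC_E Γ q * Wp D w).trace) := by
    have e1 : Wp D (Sum.inr i :: w) = (∑ q : Fin N × Fin N,
        (MvPolynomial.X (i, q) : MvPolynomial (Γ × Fin N × Fin N) ℂ) • REC_E Γ q) * Wp D w := by
      simp only [Wp, List.map_cons, List.prod_cons]
      rfl
    unfold Tp
    rw [e1, Finset.sum_mul, Matrix.trace_sum, Finset.mul_sum]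
    refine Finset.sum_congr rfl fun q _ => ?_
    rw [Matrix.smul_mul, Matrix.trace_smul, smul_eq_mul]
    ring
  have h2 : REC_I (((Sum.inr i :: w) :: S).map (Tp D)).prod =
      ∑ q : Fin N × Fin N, REC_I (MvPolynomial.pderiv (i, q)
        ((c * (REC_E Γ q * Wp D w).trace) * Pi)) := by
    rw [List.map_cons, List.prod_cons, h1, Finset.sum_mul, REC_Isum hS]
    refine Finset.sum_congr rfl fun q _ => ?_
    have := (hS (Γ × Fin N × Fin N) ((c * (REC_E Γ q * Wp D w).trace) * Pi)).2 (i, q)
    unfold REC_I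
    rw [← this]
    rw [mul_assoc]
  rw [h2]
  have h3 : ∀ q : Fin N × Fin N, MvPolynomial.pderiv (i, q)
      ((c * (REC_E Γ q * Wp D w).trace) * Pi) =
      Pi * (c * ∑ p : Fin w.length, if w.get p = Sum.inr i then
        (REC_E Γ q * Wp D (w.take p) * REC_E Γ q * Wp D (w.drop (p + 1))).trace else 0) +
      ∑ s : Fin S.length, ∑ p : Fin (S.get s).length, if (S.get s).get p = Sum.inr i then
        (c * c * ((REC_E Γ q * Wp D w).trace *
          (REC_E Γ q * (Wp D ((S.get s).drop (p + 1)) * Wp D ((S.get s).take p))).trace)) *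
          ((S.eraseIdx s).map (Tp D)).prod else 0 := by
    intro q
    rw [Derivation.leibniz, smul_eq_mul, smul_eq_mul, add_comm]
    congr 1
    · congr 1
      rw [hc, Derivation.leibniz, MvPolynomial.pderiv_C, smul_zero, add_zero, smul_eq_mul]
      congr 1
      unfold REC_E
      rw [REC_cmul, hW Δ Γ N D w i q, Finset.mul_sum, Matrix.trace_sum]
      refine Finset.sum_congr rfl fun p _ => ?_
      split_ifs
      · simp only [Matrix.mul_assoc]
      · simp
    · rw [hPi, REC_leib, Finset.mul_sum]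
      refine Finset.sum_congr rfl fun s _ => ?_
      rw [REC_dTp hW, ← hc, Finset.mul_sum, Finset.sum_mul, Finset.mul_sum]
      refine Finset.sum_congr rfl fun p _ => ?_
      split_ifs
      · ring
      · ring
  have h4 : ∑ q : Fin N × Fin N, REC_I (MvPolynomial.pderiv (i, q)
        ((c * (REC_E Γ q * Wp D w).trace) * Pi)) =
      REC_I (∑ q : Fin N × Fin N, MvPolynomial.pderiv (i, q)
        ((c * (REC_E Γ q * Wp D w).trace) * Pi)) := (REC_Isum hS _ _).symm
  have h5 : (∑ q : Fin N × Fin N, MvPolynomial.pderiv (i, q)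
        ((c * (REC_E Γ q * Wp D w).trace) * Pi)) =
      (∑ p : Fin w.length, if w.get p = Sum.inr i then
        Tp D (w.take p) * (Tp D (w.drop (p + 1)) * Pi) else 0) +
      MvPolynomial.C (((N : ℂ) ^ 2)⁻¹) * ∑ s : Fin S.length, ∑ p : Fin (S.get s).length,
        if (S.get s).get p = Sum.inr i then
          Tp D (w ++ (S.get s).drop (p + 1) ++ (S.get s).take p) *
            ((S.eraseIdx s).map (Tp D)).prod else 0 := by
    rw [Finset.sum_congr rfl fun q _ => h3 q, Finset.sum_add_distrib]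
    congr 1
    · simp only [Finset.mul_sum]
      rw [Finset.sum_comm]
      refine Finset.sum_congr rfl fun p _ => ?_
      split_ifs
      · rw [← Finset.mul_sum, ← Finset.mul_sum, REC_tr1 hC hN, ← hc]
        unfold Tp
        rw [← hc]
        ring
      · simp
    · rw [Finset.sum_comm, Finset.mul_sum]
      refine Finset.sum_congr rfl fun s _ => ?_
      rw [Finset.sum_comm, Finset.mul_sum]
      refine Finset.sum_congr rfl fun p _ => ?_
      split_ifs
      · rw [← Finset.sum_mul, ← Finset.mul_sum, REC_tr2 hC hN, ← hc]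
        unfold Tp
        rw [REC_Wp_app, REC_Wp_app, ← hc, Matrix.mul_assoc]
        have : (MvPolynomial.C (((N : ℂ) ^ 2)⁻¹) : MvPolynomial (Γ × Fin N × Fin N) ℂ) =
            c * c := by
          rw [hc, ← map_mul]
          congr 1
          rw [sq, mul_inv]
        rw [this]
        ring
      · simp
  rw [h4, h5, REC_Iadd hS, REC_Isum hS, REC_Ic hS, REC_Isum hS]
  congr 1
  · refine Finset.sum_congr rfl fun p _ => ?_
    split_ifs
    · rw [REC_Ex hR hN]
      simp only [List.map_cons, List.prod_cons, hPi]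
    · exact REC_I0
  · congr 1
    refine Finset.sum_congr rfl fun s _ => ?_
    rw [REC_Isum hS]
    refine Finset.sum_congr rfl fun p _ => ?_
    split_ifs
    · rw [REC_Ex hR hN]
      simp only [List.map_cons, List.prod_cons]
    · exact REC_I0

end Pool.FR
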