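import Pool.Agent.Work.MP_118406_fr.Interface

set_option autoImplicit false

/-!
# MP_118406_an, THEOREM IR, block ROT: the rotation on the Fock space
-/

open scoped InnerProductSpace ComplexConjugate Topology BigOperators
open Set Filter MeasureTheory Pool.SI

noncomputable section

namespace Pool.FR

/-- The rotated creation operators. -/
def ROT_L {n : ℕ} (θ : ℝ) : Fin (n + 1) → (Fk (n + 1 + n) →L[ℂ] Fk (n + 1 + n)) :=
  Fin.cons (lc (Fin.castAdd n 0)) fun i =>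
    (Real.cos θ : ℂ) • lc (Fin.castAdd n i.succ) + (Real.sin θ : ℂ) • lc (Fin.natAdd (n + 1) i)

/-- The vectors `L_w Ω`. -/
def ROT_V {n : ℕ} (θ : ℝ) : List (Fin (n + 1)) → Fk (n + 1 + n)
  | [] => vac (n + 1 + n)
  | i :: w => ROT_L θ i (ROT_V θ w)

theorem ROT_ll {k : ℕ} (i j : Fin k) (x : Fk k) :
    ContinuousLinearMap.adjoint (lc i) (lc j x) = if i = j then x else 0 := by
  have h : (ContinuousLinearMap.adjoint (lc i)) * lc j =
      (if i = j then (1 : Fk k →L[ℂ] Fk k) else 0) := by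
    refine (t_BAS k).2.2.2.2.1 _ _ fun w => ?_
    rw [mul_apply_eq_comp, lc_bs, ((t_BAS k).2.2.2.1 i j w).1]
    split_ifs <;> rfl
  have h2 := DFunLike.congr_fun h x
  rw [mul_apply_eq_comp] at h2
  rw [h2]
  split_ifs <;> rfl

theorem ROT_adj_smul {k : ℕ} (c d : ℝ) (A B : Fk k →L[ℂ] Fk k) (x : Fk k) :
    ContinuousLinearMap.adjoint ((c : ℂ) • A + (d : ℂ) • B) x =
      (c : ℂ) • ContinuousLinearMap.adjoint A x + (d : ℂ) • ContinuousLinearMap.adjoint B x := by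
  rw [map_add, LinearIsometryEquiv.map_smulₛₗ, LinearIsometryEquiv.map_smulₛₗ]
  simp only [Complex.conj_ofReal]
  rfl

theorem ROT_adj0 {n : ℕ} (θ : ℝ) (i : Fin (n + 1)) :
    ContinuousLinearMap.adjoint (ROT_L θ i) (vac (n + 1 + n)) = 0 := by
  refine Fin.cases ?_ (fun i => ?_) i
  · exact ((t_BAS (n + 1 + n)).2.2.1 _).1
  · show ContinuousLinearMap.adjoint ((Real.cos θ : ℂ) • lc (Fin.castAdd n i.succ) +
      (Real.sin θ : ℂ) • lc (Fin.natAdd (n + 1) i)) (vac (n + 1 + n)) = 0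
    rw [ROT_adj_smul, ((t_BAS (n + 1 + n)).2.2.1 _).1, ((t_BAS (n + 1 + n)).2.2.1 _).1]
    simp

theorem ROT_adj {n : ℕ} (θ φ : ℝ) (i j : Fin (n + 1)) (x : Fk (n + 1 + n)) :
    ContinuousLinearMap.adjoint (ROT_L θ i) (ROT_L φ j x) =
      if i = j then (if i = 0 then x else (Real.cos (θ - φ) : ℂ) • x) else 0 := by
  have hne : ∀ (a : Fin (n + 1)) (b : Fin n), Fin.castAdd n a ≠ Fin.natAdd (n + 1) b := by
    intro a b h
    have := congrArg Fin.val h
    simp at this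
    omega
  refine Fin.cases ?_ (fun i => ?_) i
  · refine Fin.cases ?_ (fun j => ?_) j
    · show ContinuousLinearMap.adjoint (lc (Fin.castAdd n 0)) (lc (Fin.castAdd n 0) x) = _
      rw [ROT_ll]
      simp
    · show ContinuousLinearMap.adjoint (lc (Fin.castAdd n 0))
        (((Real.cos φ : ℂ) • lc (Fin.castAdd n j.succ) +
          (Real.sin φ : ℂ) • lc (Fin.natAdd (n + 1) j)) x) = _
      have h1 : (Fin.castAdd n (0 : Fin (n + 1))) ≠ Fin.castAdd n j.succ := by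
        intro h
        have := congrArg Fin.val h
        simp at this
      rw [add_apply, smul_apply,
        smul_apply, map_add, map_smul, map_smul, ROT_ll, ROT_ll,
        if_neg h1, if_neg (hne _ _), if_neg (Fin.succ_ne_zero j).symm]
      simp
  · refine Fin.cases ?_ (fun j => ?_) j
    · show ContinuousLinearMap.adjoint ((Real.cos θ : ℂ) • lc (Fin.castAdd n i.succ) +
        (Real.sin θ : ℂ) • lc (Fin.natAdd (n + 1) i)) (lc (Fin.castAdd n 0) x) = _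
      have h1 : Fin.castAdd n i.succ ≠ (Fin.castAdd n (0 : Fin (n + 1))) := by
        intro h
        have := congrArg Fin.val h
        simp at this
      rw [ROT_adj_smul, ROT_ll, ROT_ll, if_neg h1, if_neg (hne _ _).symm,
        if_neg (Fin.succ_ne_zero i)]
      simp
    · show ContinuousLinearMap.adjoint ((Real.cos θ : ℂ) • lc (Fin.castAdd n i.succ) +
        (Real.sin θ : ℂ) • lc (Fin.natAdd (n + 1) i))
        (((Real.cos φ : ℂ) • lc (Fin.castAdd n j.succ) +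
          (Real.sin φ : ℂ) • lc (Fin.natAdd (n + 1) j)) x) = _
      have h1 : (Fin.castAdd n i.succ = Fin.castAdd n j.succ) ↔ i = j := by
        rw [Fin.ext_iff, Fin.ext_iff]
        simp
      have h2 : (Fin.natAdd (n + 1) i = Fin.natAdd (n + 1) j) ↔ i = j := by
        rw [Fin.ext_iff, Fin.ext_iff]
        simp
      have h3 : (i.succ = j.succ) ↔ i = j := Fin.succ_inj
      rw [ROT_adj_smul, add_apply, smul_apply,
        smul_apply, map_add, map_smul, map_smul, map_add, map_smul, map_smul,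
        ROT_ll, ROT_ll, ROT_ll, ROT_ll, if_neg (hne _ _), if_neg (hne _ _).symm,
        if_neg (Fin.succ_ne_zero i)]
      by_cases hij : i = j
      · subst hij
        rw [if_pos rfl, if_pos rfl, if_pos rfl, Real.cos_sub]
        simp only [smul_zero, add_zero, zero_add, smul_smul, ← add_smul]
        push_cast
        rfl
      · rw [if_neg (fun h => hij (h1.1 h)), if_neg (fun h => hij (h2.1 h)),
          if_neg (fun h => hij (h3.1 h))]
        simp

theorem ROT_cnt {n : ℕ} (i : Fin (n + 1)) (w : List (Fin (n + 1))) :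
    cnt (i :: w) = cnt w + if i = 0 then 0 else 1 := by
  unfold cnt
  rw [List.countP_cons]
  by_cases h : i = 0 <;> simp [h]

theorem ROT_inner {n : ℕ} (θ φ : ℝ) (w v : List (Fin (n + 1))) :
    ⟪ROT_V θ w, ROT_V φ v⟫_ℂ = if w = v then ((Real.cos (θ - φ) ^ cnt w : ℝ) : ℂ) else 0 := by
  induction w generalizing v with
  | nil =>
    cases v with
    | nil =>
      show ⟪vac (n + 1 + n), vac (n + 1 + n)⟫_ℂ = _
      rw [vac, bs_inner, bs_apply, if_pos rfl, if_pos rfl]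
      simp [cnt]
    | cons j v =>
      show ⟪vac (n + 1 + n), ROT_L φ j (ROT_V φ v)⟫_ℂ = _
      rw [← ContinuousLinearMap.adjoint_inner_left, ROT_adj0, inner_zero_left]
      simp
  | cons i w ih =>
    cases v with
    | nil =>
      show ⟪ROT_L θ i (ROT_V θ w), vac (n + 1 + n)⟫_ℂ = _
      rw [← ContinuousLinearMap.adjoint_inner_right, ROT_adj0, inner_zero_right]
      simp
    | cons j v =>
      show ⟪ROT_L θ i (ROT_V θ w), ROT_L φ j (ROT_V φ v)⟫_ℂ = _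
      rw [← ContinuousLinearMap.adjoint_inner_right, ROT_adj]
      by_cases hij : i = j
      · subst hij
        rw [if_pos rfl, ROT_cnt]
        by_cases hi : i = 0
        · rw [if_pos hi, if_pos hi, ih]
          simp
        · rw [if_neg hi, if_neg hi, inner_smul_right, ih]
          by_cases hwv : w = v
          · subst hwv
            rw [if_pos rfl, if_pos rfl, pow_succ]
            push_cast
            ring
          · rw [if_neg hwv, if_neg (by simpa using hwv), mul_zero]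
      · rw [if_neg hij, inner_zero_right, if_neg (by simp [hij])]

theorem ROT_on {n : ℕ} (θ : ℝ) : Orthonormal ℂ (ROT_V θ : List (Fin (n + 1)) → Fk (n + 1 + n)) := by
  classical
  rw [orthonormal_iff_ite]
  intro w v
  rw [ROT_inner, sub_self, Real.cos_zero, one_pow]
  simp

/-- The isometry `T_θ`. -/
def ROT_T {n : ℕ} (θ : ℝ) : Fk (n + 1) →ₗᵢ[ℂ] Fk (n + 1 + n) :=
  (ROT_on θ).orthogonalFamily.linearIsometry

theorem ROT_T_bs {n : ℕ} (θ : ℝ) (w : List (Fin (n + 1))) : ROT_T θ (bs w) = ROT_V θ w := by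
  rw [ROT_T, bs]
  simp

theorem ROT_int {n : ℕ} (θ : ℝ) (i : Fin (n + 1)) (ξ : Fk (n + 1)) :
    ROT_T θ (sc i ξ) =
      (ROT_L θ i + ContinuousLinearMap.adjoint (ROT_L θ i)) (ROT_T θ ξ) := by
  have h : (ROT_T θ).toContinuousLinearMap.comp (sc i) =
      (ROT_L θ i + ContinuousLinearMap.adjoint (ROT_L θ i)).comp
        (ROT_T θ).toContinuousLinearMap := by
    refine ContinuousLinearMap.ext_on (t_BAS (n + 1)).2.2.2.2.2.1 ?_
    rintro x ⟨w, rfl⟩
    show ROT_T θ (sc i (bs w)) = (ROT_L θ i) (ROT_T θ (bs w)) +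
      ContinuousLinearMap.adjoint (ROT_L θ i) (ROT_T θ (bs w))
    rw [sc, add_apply, map_add, lc_bs, ROT_T_bs, ROT_T_bs]
    show ROT_L θ i (ROT_V θ w) + _ = _
    congr 1
    cases w with
    | nil =>
      have h1 := ((t_BAS (n + 1)).2.2.1 i).1
      rw [vac] at h1
      rw [h1, map_zero]
      exact (ROT_adj0 θ i).symm
    | cons j w =>
      rw [((t_BAS (n + 1)).2.2.2.1 i j w).1]
      show _ = ContinuousLinearMap.adjoint (ROT_L θ i) (ROT_L θ j (ROT_V θ w))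
      rw [ROT_adj, sub_self, Real.cos_zero]
      by_cases hij : i = j
      · rw [if_pos hij, if_pos hij, ROT_T_bs]
        simp
      · rw [if_neg hij, if_neg hij, map_zero]
  exact DFunLike.congr_fun h ξ

theorem ROT_rt {n : ℕ} (θ : ℝ) (i : Fin (n + 1)) :
    ev (sc : Fin (n + 1 + n) → _) (rt θ i) =
      ROT_L θ i + ContinuousLinearMap.adjoint (ROT_L θ i) := by
  refine Fin.cases ?_ (fun i => ?_) i
  · show ev (sc : Fin (n + 1 + n) → _) (FreeAlgebra.ι ℂ (Fin.castAdd n 0)) =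
      lc (Fin.castAdd n 0) + ContinuousLinearMap.adjoint (lc (Fin.castAdd n 0))
    rw [FreeAlgebra.lift_ι_apply]
    rfl
  · show ev (sc : Fin (n + 1 + n) → _) ((Real.cos θ : ℂ) • FreeAlgebra.ι ℂ (Fin.castAdd n i.succ) +
      (Real.sin θ : ℂ) • FreeAlgebra.ι ℂ (Fin.natAdd (n + 1) i)) =
      ((Real.cos θ : ℂ) • lc (Fin.castAdd n i.succ) +
        (Real.sin θ : ℂ) • lc (Fin.natAdd (n + 1) i)) +
      ContinuousLinearMap.adjoint ((Real.cos θ : ℂ) • lc (Fin.castAdd n i.succ) +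
        (Real.sin θ : ℂ) • lc (Fin.natAdd (n + 1) i))
    rw [map_add, map_smul, map_smul, FreeAlgebra.lift_ι_apply, FreeAlgebra.lift_ι_apply]
    ext1 x
    rw [add_apply, add_apply, ROT_adj_smul]
    simp only [sc, add_apply, smul_apply, smul_add]
    abel

theorem ROT_ev {n : ℕ} (θ : ℝ) (p : FreeAlgebra ℂ (Fin (n + 1))) (ξ : Fk (n + 1)) :
    ev sc (FreeAlgebra.lift ℂ (rt θ) p) (ROT_T θ ξ) = ROT_T θ (ev sc p ξ) := by
  induction p using FreeAlgebra.induction generalizing ξ with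
  | grade0 r =>
    rw [AlgHom.commutes, AlgHom.commutes, AlgHom.commutes, Algebra.algebraMap_eq_smul_one,
      Algebra.algebraMap_eq_smul_one]
    simp
  | grade1 i =>
    rw [FreeAlgebra.lift_ι_apply, FreeAlgebra.lift_ι_apply, ROT_rt, ROT_int]
  | mul a b ha hb =>
    rw [map_mul, map_mul, map_mul, mul_apply_eq_comp, mul_apply_eq_comp,
      hb, ha]
  | add a b ha hb =>
    rw [map_add, map_add, map_add, add_apply, add_apply,
      map_add, hb, ha]

theorem ROT_coef {n : ℕ} (θ φ : ℝ) (w : List (Fin (n + 1))) (ξ : Fk (n + 1)) :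
    ⟪ROT_V θ w, ROT_T φ ξ⟫_ℂ = ((Real.cos (θ - φ) ^ cnt w : ℝ) : ℂ) * ξ w := by
  have h : (innerSL ℂ (ROT_V θ w)).comp (ROT_T φ).toContinuousLinearMap =
      ((Real.cos (θ - φ) ^ cnt w : ℝ) : ℂ) • innerSL ℂ (bs w : Fk (n + 1)) := by
    refine ContinuousLinearMap.ext_on (t_BAS (n + 1)).2.2.2.2.2.1 ?_
    rintro x ⟨v, rfl⟩
    show ⟪ROT_V θ w, ROT_T φ (bs v)⟫_ℂ = ((Real.cos (θ - φ) ^ cnt w : ℝ) : ℂ) • ⟪bs w, bs v⟫_ℂ
    rw [ROT_T_bs, ROT_inner, bs_inner, bs_apply]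
    by_cases hwv : w = v
    · simp [hwv]
    · simp [hwv]
  have h2 := DFunLike.congr_fun h ξ
  have h3 : ⟪ROT_V θ w, ROT_T φ ξ⟫_ℂ = ((Real.cos (θ - φ) ^ cnt w : ℝ) : ℂ) • ⟪bs w, ξ⟫_ℂ := h2
  rw [h3, bs_inner, smul_eq_mul]

theorem ROT_sum {n : ℕ} (θ : ℝ) (ξ : Fk (n + 1)) :
    HasSum (fun w : List (Fin (n + 1)) => Real.cos θ ^ cnt w * ‖ξ w‖ ^ 2)
      (⟪ROT_T θ ξ, ROT_T 0 ξ⟫_ℂ).re := by
  have h1 : ⟪ROT_T θ ξ, ROT_T 0 ξ⟫_ℂ =
      ⟪ξ, ContinuousLinearMap.adjoint (ROT_T θ).toContinuousLinearMap (ROT_T 0 ξ)⟫_ℂ := by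
    rw [ContinuousLinearMap.adjoint_inner_right]
    rfl
  rw [h1]
  have h2 := lp.hasSum_inner (𝕜 := ℂ) ξ
    (ContinuousLinearMap.adjoint (ROT_T θ).toContinuousLinearMap (ROT_T 0 ξ))
  have h3 := Complex.hasSum_re h2
  convert h3 using 2 with w
  have h4 : (ContinuousLinearMap.adjoint (ROT_T θ).toContinuousLinearMap (ROT_T 0 ξ) :
      Fk (n + 1)) w = ((Real.cos θ ^ cnt w : ℝ) : ℂ) * ξ w := by
    rw [← bs_inner, ContinuousLinearMap.adjoint_inner_right]
    show ⟪ROT_T θ (bs w), ROT_T 0 ξ⟫_ℂ = _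
    rw [ROT_T_bs, ROT_coef, sub_zero]
  rw [h4, RCLike.inner_apply]
  have h5 : ((Real.cos θ ^ cnt w : ℝ) : ℂ) * ξ w * conj (ξ w) =
      ((Real.cos θ ^ cnt w * ‖ξ w‖ ^ 2 : ℝ) : ℂ) := by
    rw [mul_assoc, Complex.mul_conj, Complex.normSq_eq_norm_sq]
    push_cast
    ring
  rw [h5, Complex.ofReal_re]

theorem ROT_norm {n : ℕ} (ξ : Fk (n + 1)) :
    HasSum (fun w : List (Fin (n + 1)) => ‖ξ w‖ ^ 2) (‖ξ‖ ^ 2) := by
  have h := ROT_sum 0 ξ
  rw [Real.cos_zero] at h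
  have h2 : (⟪ROT_T 0 ξ, ROT_T 0 ξ⟫_ℂ).re = ‖ξ‖ ^ 2 := by
    rw [LinearIsometry.inner_map_map, inner_self_eq_norm_sq_to_K]
    norm_cast
  rw [h2] at h
  simpa using h

theorem p_ROT : Stmt_ROT := by
  intro n θ p
  have hv : ∀ φ : ℝ, ROT_T φ (vac (n + 1)) = vac (n + 1 + n) := fun φ => ROT_T_bs φ []
  have h1 : ∀ φ : ℝ, ev sc (FreeAlgebra.lift ℂ (rt φ) p) (vac (n + 1 + n)) =
      ROT_T φ (ev sc p (vac (n + 1))) := by
    intro φ
    rw [← ROT_ev, hv]
  rw [sub_apply, h1, h1]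
  set ξ : Fk (n + 1) := ev sc p (vac (n + 1)) with hξ
  have h2 := @norm_sub_sq ℂ _ _ _ _ (ROT_T θ ξ) (ROT_T 0 ξ)
  rw [LinearIsometry.norm_map, LinearIsometry.norm_map] at h2
  rw [h2, Nth]
  have h3 : HasSum (fun w : List (Fin (n + 1)) => (1 - Real.cos θ ^ cnt w) * ‖ξ w‖ ^ 2)
      (‖ξ‖ ^ 2 - (⟪ROT_T θ ξ, ROT_T 0 ξ⟫_ℂ).re) := by
    have h5 : (fun w : List (Fin (n + 1)) => (1 - Real.cos θ ^ cnt w) * ‖ξ w‖ ^ 2) =
        fun w => ‖ξ w‖ ^ 2 - Real.cos θ ^ cnt w * ‖ξ w‖ ^ 2 := by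
      funext w
      ring
    rw [h5]
    exact (ROT_norm ξ).sub (ROT_sum θ ξ)
  rw [h3.tsum_eq]
  show ‖ξ‖ ^ 2 - 2 * (⟪ROT_T θ ξ, ROT_T 0 ξ⟫_ℂ).re + ‖ξ‖ ^ 2 = _
  ring

end Pool.FR
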