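import Pool.Agent.Work.MP_118406_fr.Interface

set_option autoImplicit false

open scoped InnerProductSpace ComplexConjugate Topology BigOperators
open Set Filter MeasureTheory Pool.SI

noncomputable section

namespace Pool.FR

theorem RPR_lp (hHMB : Stmt_HMB) (Δ Γ : Type) (N : ℕ) (hN : 1 ≤ N) (D : Δ → Mat N)
    (g : Γ × Fin N × Fin N → ℝ) (c : Δ ⊕ Γ) :
    (MvPolynomial.aeval (fun i => (g i : ℂ)) :
      MvPolynomial (Γ × Fin N × Fin N) ℂ →ₐ[ℂ] ℂ).mapMatrix (Lp D c) =
      Sum.elim D (hmk g) c := by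
  obtain ⟨-, -, -, -, h5, -⟩ := hHMB N hN
  cases c with
  | inl i =>
    ext a b
    simp [Lp]
  | inr i =>
    have h := h5 (fun p => g (i, p))
    show _ = hm fun p => g (i, p)
    rw [h]
    simp only [Lp, Sum.elim_inr, map_sum]
    refine Finset.sum_congr rfl fun p _ => ?_
    ext a b
    simp

theorem p_RPR (hHMB : Stmt_HMB) : Stmt_RPR := by
  intro Δ Γ _ N D w g hN
  have h1 : (MvPolynomial.aeval (fun i => (g i : ℂ)) :
      MvPolynomial (Γ × Fin N × Fin N) ℂ →ₐ[ℂ] ℂ).mapMatrix (Wp D w) =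
      (w.map (Sum.elim D (hmk g))).prod := by
    unfold Wp
    rw [map_list_prod, List.map_map]
    congr 1
    refine List.map_congr_left fun c _ => ?_
    exact RPR_lp hHMB Δ Γ N hN D g c
  unfold Tp ntr
  rw [map_mul, ← h1]
  congr 1
  · simp
  · simp [Matrix.trace]

end Pool.FR
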