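import Pool.Agent.Work.MP_118406_fr.Interface

set_option autoImplicit false

/-!
# Block SDE: the recursion for `tau`
-/

open scoped InnerProductSpace ComplexConjugate Topology BigOperators
open Set Filter MeasureTheory Pool.SI

noncomputable section

namespace Pool.FR

theorem SDE_append {k : ℕ} (u v : List (Fin k)) :
    (mon (u ++ v) : Fk k →L[ℂ] Fk k) = mon u * mon v := by
  simp [mon]

theorem SDE_cons {k : ℕ} (i : Fin k) (v : List (Fin k)) :
    (mon (i :: v) : Fk k →L[ℂ] Fk k) = sc i * mon v := by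
  simp [mon]

theorem SDE_nil {k : ℕ} : (mon ([] : List (Fin k)) : Fk k →L[ℂ] Fk k) = 1 := by
  simp [mon]

theorem SDE_mem {k : ℕ} (w : List (Fin k)) : (mon w : Fk k →L[ℂ] Fk k) ∈ Alg k := by
  have h := (t_SPN k).2.1
  have h2 : (mon w : Fk k →L[ℂ] Fk k) ∈
      ((Alg k : StarSubalgebra ℂ (Fk k →L[ℂ] Fk k)) : Set (Fk k →L[ℂ] Fk k)) := by
    rw [h]
    exact subset_closure (Submodule.subset_span ⟨w, rfl⟩)
  exact h2

theorem SDE_vac {k : ℕ} : ⟪vac k, vac k⟫_ℂ = 1 := by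
  rw [vac, bs_inner, bs_apply]
  simp

theorem SDE_nvac {k : ℕ} : ‖vac k‖ = 1 := (bs_orthonormal (k := k)).1 []

theorem SDE_dq_mul {k : ℕ} (i : Fin k) (x y : Fk k →L[ℂ] Fk k) :
    dq i (x * y) = dq i x * y + x * dq i y := by
  simp only [dq]
  noncomm_ring

theorem SDE_dq_mon {k : ℕ} (i : Fin k) (w : List (Fin k)) :
    (dq i (mon w) : Fk k →L[ℂ] Fk k) = ∑ p : Fin w.length, if w.get p = i then
      mon (w.take p) * Pv k * mon (w.drop (p + 1)) else 0 := by
  induction w with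
  | nil =>
    rw [SDE_nil]
    simp [dq]
  | cons j w ih =>
    rw [SDE_cons, SDE_dq_mul, ih, (t_COM k).1 i j]
    have h : ∀ F : Fin (j :: w).length → (Fk k →L[ℂ] Fk k),
        ∑ p, F p = F ⟨0, by simp⟩ + ∑ p : Fin w.length, F ⟨p + 1, by simp⟩ := by
      intro F
      exact Fin.sum_univ_succ (n := w.length) F
    rw [h]
    congr 1
    · by_cases hij : i = j
      · subst hij
        simp [SDE_nil]
      · have hji : ¬ j = i := fun h => hij h.symm
        simp [hij, hji]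
    · rw [Finset.mul_sum]
      refine Finset.sum_congr rfl fun p _ => ?_
      have e1 : (j :: w).get ⟨(p : ℕ) + 1, by simp⟩ = w.get p := by
        simp
      rw [e1]
      by_cases hp : w.get p = i
      · rw [if_pos hp, if_pos hp]
        have e2 : (j :: w).take (((⟨(p : ℕ) + 1, by simp⟩ : Fin (j :: w).length) : ℕ)) =
            j :: w.take p := by
          simp
        have e3 : (j :: w).drop ((((⟨(p : ℕ) + 1, by simp⟩ : Fin (j :: w).length) : ℕ)) + 1) =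
            w.drop (p + 1) := by
          simp
        rw [e2, e3, SDE_cons]
        simp only [mul_assoc]
      · rw [if_neg hp, if_neg hp, mul_zero]

theorem SDE_P {k : ℕ} (x y : Fk k →L[ℂ] Fk k) :
    ⟪vac k, (x * Pv k * y) (vac k)⟫_ℂ = ⟪vac k, x (vac k)⟫_ℂ * ⟪vac k, y (vac k)⟫_ℂ := by
  have h : (x * Pv k * y) (vac k) = ⟪vac k, y (vac k)⟫_ℂ • x (vac k) := by
    simp only [ContinuousLinearMap.mul_apply, Pv, ContinuousLinearMap.smulRight_apply,
      innerSL_apply_apply, map_smul]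
  rw [h, inner_smul_right, mul_comm]

theorem SDE_rec {k : ℕ} (i : Fin k) (w : List (Fin k)) : tau (i :: w) =
    ∑ p : Fin w.length, if w.get p = i then tau (w.take p) * tau (w.drop (p + 1)) else 0 := by
  obtain ⟨b1, b2, b3, b4, b5, b6, b7, b8⟩ := t_BAS k
  have e1 : (sc i : Fk k →L[ℂ] Fk k) (vac k) = rc i (vac k) := by
    rw [sc, ContinuousLinearMap.add_apply, (b3 i).1, add_zero, vac, lc_bs, rc_bs]
    rfl
  have e2 : tau (i :: w) = ⟪vac k, (dq i (mon w) : Fk k →L[ℂ] Fk k) (vac k)⟫_ℂ := by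
    rw [tau, SDE_cons, ContinuousLinearMap.mul_apply]
    have e3 : ⟪vac k, (sc i : Fk k →L[ℂ] Fk k) ((mon w : Fk k →L[ℂ] Fk k) (vac k))⟫_ℂ =
        ⟪(sc i : Fk k →L[ℂ] Fk k) (vac k), (mon w : Fk k →L[ℂ] Fk k) (vac k)⟫_ℂ := by
      conv_rhs => rw [← b7 i, ContinuousLinearMap.star_eq_adjoint,
        ContinuousLinearMap.adjoint_inner_left]
    rw [e3, e1, ← ContinuousLinearMap.adjoint_inner_right, dq, ContinuousLinearMap.sub_apply,
      ContinuousLinearMap.mul_apply, ContinuousLinearMap.mul_apply, (b3 i).2, map_zero, sub_zero]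
  rw [e2, SDE_dq_mon]
  have e4 : ∀ (n : ℕ) (F : Fin n → (Fk k →L[ℂ] Fk k)), ⟪vac k, (∑ p, F p) (vac k)⟫_ℂ =
      ∑ p, ⟪vac k, F p (vac k)⟫_ℂ := by
    intro n F
    rw [ContinuousLinearMap.sum_apply, inner_sum]
  rw [e4]
  refine Finset.sum_congr rfl fun p _ => ?_
  by_cases hp : w.get p = i
  · rw [if_pos hp, if_pos hp, SDE_P]
    rfl
  · rw [if_neg hp, if_neg hp]
    simp

theorem SDE_norm {k : ℕ} (w : List (Fin k)) : ‖(mon w : Fk k →L[ℂ] Fk k)‖ ≤ 2 ^ w.length := by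
  induction w with
  | nil =>
    rw [SDE_nil]
    have h : ‖(1 : Fk k →L[ℂ] Fk k)‖ ≤ 1 := ContinuousLinearMap.norm_id_le
    simpa using h
  | cons j w ih =>
    rw [SDE_cons, List.length_cons, pow_succ]
    have h8 := (t_BAS k).2.2.2.2.2.2.2 j
    calc ‖(sc j : Fk k →L[ℂ] Fk k) * mon w‖
        ≤ ‖(sc j : Fk k →L[ℂ] Fk k)‖ * ‖(mon w : Fk k →L[ℂ] Fk k)‖ := norm_mul_le _ _
      _ ≤ 2 * 2 ^ w.length := mul_le_mul h8 ih (norm_nonneg _) (by norm_num)
      _ = 2 ^ w.length * 2 := by ring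

theorem p_SDE : Stmt_SDE := by
  intro k
  refine ⟨?_, ?_, ?_, SDE_rec, ?_⟩
  · rw [tau, SDE_nil, ContinuousLinearMap.one_apply, SDE_vac]
  · intro u v
    rw [tau, tau, SDE_append, SDE_append]
    exact (t_ALC k).2.2 _ (SDE_mem u) _ (SDE_mem v)
  · intro w
    rw [tau, tau, ← (t_SPN k).2.2 w, ContinuousLinearMap.star_eq_adjoint,
      ContinuousLinearMap.adjoint_inner_right, inner_conj_symm]
  · intro w
    rw [tau]
    calc ‖⟪vac k, (mon w : Fk k →L[ℂ] Fk k) (vac k)⟫_ℂ‖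
        ≤ ‖vac k‖ * ‖(mon w : Fk k →L[ℂ] Fk k) (vac k)‖ := norm_inner_le_norm _ _
      _ ≤ ‖vac k‖ * (‖(mon w : Fk k →L[ℂ] Fk k)‖ * ‖vac k‖) := by
          gcongr
          exact ContinuousLinearMap.le_opNorm _ _
      _ = ‖(mon w : Fk k →L[ℂ] Fk k)‖ := by rw [SDE_nvac]; ring
      _ ≤ 2 ^ w.length := SDE_norm w

end Pool.FR
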