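import Pool.Agent.Work.MP_118406_fr.Interface

set_option autoImplicit false

/-! Block SPC: the spectral theorem with ordered eigenvalues. -/

open scoped InnerProductSpace ComplexConjugate Topology BigOperators
open Set Filter MeasureTheory Pool.SI

noncomputable section

namespace Pool.FR

theorem p_SPC : Stmt_SPC := by
  intro N C hC
  -- the unsorted decomposition
  set V : Mat N := (hC.eigenvectorUnitary : Mat N) with hV
  set e : Fin N → ℝ := hC.eigenvalues with he
  have hV1 : star V * V = 1 := Unitary.coe_star_mul_self hC.eigenvectorUnitary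
  have hV2 : V * star V = 1 := Unitary.coe_mul_star_self hC.eigenvectorUnitary
  have hspec : C = V * Matrix.diagonal (fun a => (e a : ℂ)) * star V := by
    have h := hC.spectral_theorem
    rw [Unitary.conjStarAlgAut_apply] at h
    exact h
  -- the sorting permutation
  set σ : Equiv.Perm (Fin N) := Tuple.sort e with hσ
  have hmono : Monotone (e ∘ σ) := Tuple.monotone_sort e
  set Q : Mat N := fun a b => if a = σ b then 1 else 0 with hQ
  have hQ1 : star Q * Q = 1 := by
    ext a b
    rw [Matrix.mul_apply, Matrix.one_apply]
    simp only [Matrix.star_apply, hQ]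
    by_cases hab : a = b
    · subst hab
      simp
    · rw [if_neg hab]
      simp [Ne.symm hab]
  have hQ2 : Q * star Q = 1 := mul_eq_one_comm.1 hQ1
  have hVQ : ∀ a b, (V * Q) a b = V a (σ b) := by
    intro a b
    rw [Matrix.mul_apply]
    simp [hQ]
  refine ⟨V * Q, e ∘ σ, ⟨?_, ?_⟩, hmono, ?_⟩
  · rw [star_mul]
    calc star Q * star V * (V * Q) = star Q * (star V * V) * Q := by simp only [mul_assoc]
      _ = 1 := by rw [hV1, mul_one, hQ1]
  · rw [star_mul]
    calc V * Q * (star Q * star V) = V * (Q * star Q) * star V := by simp only [mul_assoc]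
      _ = 1 := by rw [hQ2, mul_one, hV2]
  · have hd : Matrix.diagonal (fun a => (e a : ℂ)) =
        Q * Matrix.diagonal (fun a => (((e ∘ σ) a : ℝ) : ℂ)) * star Q := by
      have h1 : Matrix.diagonal (fun a => (e a : ℂ)) * Q =
          Q * Matrix.diagonal (fun a => (((e ∘ σ) a : ℝ) : ℂ)) := by
        ext a b
        rw [Matrix.diagonal_mul, Matrix.mul_diagonal]
        simp only [hQ, Function.comp]
        by_cases h : a = σ b
        · rw [h]; simp
        · simp [h]
      rw [← h1, mul_assoc, hQ2, mul_one]
    rw [dg, hspec, hd, star_mul]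
    simp only [mul_assoc]

end Pool.FR
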