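import Pool.Agent.Work.MP_118406_fr.Interface

set_option autoImplicit false

open scoped InnerProductSpace ComplexConjugate Topology BigOperators
open Set Filter MeasureTheory Pool.SI

noncomputable section

namespace Pool.FR

theorem SPD_uni {N : ℕ} {U : Mat N} (h : Uni U) : Uni (star U) := by
  refine ⟨?_, ?_⟩
  · rw [star_star]
    exact h.2
  · rw [star_star]
    exact h.1

theorem SPD_add {N : ℕ} (U : Mat N) (l m : Fin N → ℝ) :
    dg U l + dg U m = dg U (fun a => l a + m a) := by
  unfold dg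
  rw [← Matrix.add_mul, ← Matrix.mul_add, Matrix.diagonal_add]
  congr 3
  funext a
  push_cast
  rfl

theorem SPD_smul {N : ℕ} (U : Mat N) (c : ℝ) (l : Fin N → ℝ) :
    (c : ℝ) • dg U l = dg U (fun a => c * l a) := by
  unfold dg
  rw [← Matrix.smul_mul, ← Matrix.mul_smul, ← Matrix.diagonal_smul]
  congr 3
  funext a
  simp [Complex.real_smul]

theorem SPD_one {N : ℕ} {U : Mat N} (h : Uni U) : dg U (fun _ => 1) = 1 := by
  unfold dg
  simp only [Complex.ofReal_one, Matrix.diagonal_one, Matrix.mul_one]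
  exact h.2

theorem SPD_mul {N : ℕ} {U : Mat N} (h : Uni U) (l m : Fin N → ℝ) :
    dg U l * dg U m = dg U (fun a => l a * m a) := by
  unfold dg
  have : U * Matrix.diagonal (fun a => (l a : ℂ)) * star U *
      (U * Matrix.diagonal (fun a => (m a : ℂ)) * star U) =
      U * (Matrix.diagonal (fun a => (l a : ℂ)) * (star U * U) *
        Matrix.diagonal (fun a => (m a : ℂ))) * star U := by
    simp only [Matrix.mul_assoc]
  rw [this, h.1, Matrix.mul_one, Matrix.diagonal_mul_diagonal]
  congr 3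
  funext a
  push_cast
  rfl

theorem SPD_pow {N : ℕ} {U : Mat N} (h : Uni U) (l : Fin N → ℝ) (j : ℕ) :
    (dg U l) ^ j = dg U (fun a => l a ^ j) := by
  induction j with
  | zero => simp [SPD_one h]
  | succ j ih =>
    rw [pow_succ, ih, SPD_mul h]
    congr 1

theorem SPD_dnn {N : ℕ} (l : Fin N → ℝ) :
    nn (Matrix.diagonal (fun a => (l a : ℂ)) : Mat N) = (N : ℝ)⁻¹ * ∑ a, l a ^ 2 := by
  unfold nn
  congr 1
  refine Finset.sum_congr rfl fun a _ => ?_
  rw [Finset.sum_eq_single a]
  · simp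
  · intro b _ hb
    rw [Matrix.diagonal_apply_ne _ (Ne.symm hb)]
    simp
  · simp

theorem SPD_dl {N : ℕ} (l : Fin N → ℝ) (c : ℝ) (hc : ∀ a, |l a| ≤ c) (D : Mat N) :
    nn (Matrix.diagonal (fun a => (l a : ℂ)) * D) ≤ c ^ 2 * nn D := by
  unfold nn
  have hN : (0 : ℝ) ≤ (N : ℝ)⁻¹ := by positivity
  rw [mul_left_comm]
  refine mul_le_mul_of_nonneg_left ?_ hN
  rw [Finset.mul_sum]
  refine Finset.sum_le_sum fun a _ => ?_
  rw [Finset.mul_sum]
  refine Finset.sum_le_sum fun b _ => ?_
  rw [Matrix.diagonal_mul, norm_mul, mul_pow]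
  refine mul_le_mul_of_nonneg_right ?_ (by positivity)
  have h1 : ‖(l a : ℂ)‖ = |l a| := by simp
  rw [h1]
  exact pow_le_pow_left₀ (abs_nonneg _) (hc a) 2

theorem SPD_dr {N : ℕ} (l : Fin N → ℝ) (c : ℝ) (hc : ∀ a, |l a| ≤ c) (D : Mat N) :
    nn (D * Matrix.diagonal (fun a => (l a : ℂ))) ≤ c ^ 2 * nn D := by
  unfold nn
  have hN : (0 : ℝ) ≤ (N : ℝ)⁻¹ := by positivity
  rw [mul_left_comm]
  refine mul_le_mul_of_nonneg_left ?_ hN
  rw [Finset.mul_sum]
  refine Finset.sum_le_sum fun a _ => ?_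
  rw [Finset.mul_sum]
  refine Finset.sum_le_sum fun b _ => ?_
  rw [Matrix.mul_diagonal, norm_mul, mul_pow, mul_comm]
  refine mul_le_mul_of_nonneg_right ?_ (by positivity)
  have h1 : ‖(l b : ℂ)‖ = |l b| := by simp
  rw [h1]
  exact pow_le_pow_left₀ (abs_nonneg _) (hc b) 2

theorem SPD_unit {N : ℕ} (a : Fin N) (z : ℂ) :
    nn (Matrix.single a a z : Mat N) = (N : ℝ)⁻¹ * ‖z‖ ^ 2 := by
  unfold nn
  congr 1
  rw [Finset.sum_eq_single a]
  · rw [Finset.sum_eq_single a]
    · simp
    · intro b _ hb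
      rw [Matrix.single_apply_of_ne]
      · simp
      · rintro ⟨_, h⟩
        exact hb h.symm
    · simp
  · intro b _ hb
    refine Finset.sum_eq_zero fun c _ => ?_
    rw [Matrix.single_apply_of_ne]
    · simp
    · rintro ⟨h, _⟩
      exact hb h.symm
  · simp

theorem p_SPD (hMXA : Stmt_MXA) : Stmt_SPD := by
  intro N U l hN hU
  obtain ⟨m1, m2, m3, m4, m5, m6, m7, m8⟩ := hMXA N hN
  have hU' := SPD_uni hU
  have hNr : (0 : ℝ) < (N : ℝ)⁻¹ := by
    have : (0 : ℝ) < N := by exact_mod_cast hN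
    positivity
  have htr : ∀ m : Fin N → ℝ, ntr (dg U m) = (((N : ℝ)⁻¹ * ∑ a, m a : ℝ) : ℂ) := by
    intro m
    have h1 : ntr (dg U m) = ntr (Matrix.diagonal (fun a => (m a : ℂ)) : Mat N) := by
      unfold dg
      rw [m5, ← Matrix.mul_assoc, hU.1, Matrix.one_mul]
    rw [h1]
    unfold ntr
    rw [Matrix.trace_diagonal]
    push_cast
    rfl
  refine ⟨?_, ?_, SPD_pow hU l, ?_, ?_, ?_, ?_, ?_⟩
  · unfold dg
    have hd : (Matrix.diagonal (fun a => (l a : ℂ)) : Mat N).IsHermitian := by
      refine Matrix.isHermitian_diagonal_of_self_adjoint _ ?_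
      rw [IsSelfAdjoint]
      funext a
      simp
    exact Matrix.isHermitian_mul_mul_conjTranspose U hd
  · unfold dg
    rw [(m8 (star U) (U * Matrix.diagonal (fun a => (l a : ℂ))) hU').2,
      (m8 U (Matrix.diagonal (fun a => (l a : ℂ))) hU).1, SPD_dnn]
  · intro j
    rw [SPD_pow hU, htr]
  · intro c hc
    constructor
    · intro hOB a
      have h1 := (hOB.2 (U * Matrix.single a a 1)).1
      have h2 : dg U l * (U * Matrix.single a a 1) =
          U * (Matrix.single a a ((l a : ℂ)) : Mat N) := by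
        unfold dg
        have : U * Matrix.diagonal (fun a => (l a : ℂ)) * star U * (U * Matrix.single a a 1) =
            U * (Matrix.diagonal (fun a => (l a : ℂ)) * ((star U * U) * Matrix.single a a 1)) := by
          simp only [Matrix.mul_assoc]
        rw [this, hU.1, Matrix.one_mul]
        congr 1
        ext i j
        rw [Matrix.diagonal_mul]
        by_cases h : a = i ∧ a = j
        · obtain ⟨rfl, rfl⟩ := h
          simp
        · rw [Matrix.single_apply_of_ne _ _ _ _ _ h, Matrix.single_apply_of_ne _ _ _ _ _ h, mul_zero]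
      rw [h2, (m8 U _ hU).1, (m8 U _ hU).1, SPD_unit, SPD_unit] at h1
      simp only [norm_one, one_pow, mul_one, Complex.norm_real, Real.norm_eq_abs] at h1
      have h3 : |l a| ^ 2 ≤ c ^ 2 := by
        have h4 : (N : ℝ)⁻¹ * |l a| ^ 2 ≤ (N : ℝ)⁻¹ * c ^ 2 := by
          calc (N : ℝ)⁻¹ * |l a| ^ 2 ≤ c ^ 2 * (N : ℝ)⁻¹ := h1
            _ = (N : ℝ)⁻¹ * c ^ 2 := by ring
        exact le_of_mul_le_mul_left h4 hNr
      exact abs_le_of_sq_le_sq (by simpa using h3) hc
    · intro h
      refine ⟨hc, fun D => ⟨?_, ?_⟩⟩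
      · have h1 : dg U l * D = U * (Matrix.diagonal (fun a => (l a : ℂ)) * (star U * D)) := by
          unfold dg
          simp only [Matrix.mul_assoc]
        rw [h1, (m8 U _ hU).1]
        refine (SPD_dl l c h _).trans ?_
        rw [(m8 (star U) D hU').1]
      · have h1 : D * dg U l = ((D * U) * Matrix.diagonal (fun a => (l a : ℂ))) * star U := by
          unfold dg
          simp only [Matrix.mul_assoc]
        rw [h1, (m8 (star U) _ hU').2]
        refine (SPD_dr l c h _).trans ?_
        rw [(m8 U D hU).2]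
  · intro f
    induction f using Polynomial.induction_on' with
    | add p q hp hq =>
      rw [map_add, hp, hq, SPD_add]
      congr 1
      funext a
      rw [Polynomial.eval_add]
    | monomial n c =>
      rw [Polynomial.aeval_monomial, SPD_pow hU, ← Algebra.smul_def, SPD_smul]
      congr 1
      funext a
      rw [Polynomial.eval_monomial]
  · intro m
    have h1 := SPD_add U l (fun a => (-1 : ℝ) * m a)
    rw [← SPD_smul] at h1
    rw [sub_eq_add_neg]
    have h2 : (-1 : ℝ) • dg U m = - dg U m := by simp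
    rw [h2] at h1
    rw [h1]
    congr 1
    funext a
    ring
  · intro V
    unfold dg
    rw [star_mul]
    simp only [Matrix.mul_assoc]

end Pool.FR
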