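import Pool.Agent.Work.MP_118406_fr.Interface

set_option autoImplicit false

/-! Block SPL: approximation by polynomials (typed by helper56). -/

open scoped InnerProductSpace ComplexConjugate Topology BigOperators
open Set Filter MeasureTheory Pool.SI

noncomputable section

namespace Pool.FR

theorem SPL_mon {k : ℕ} (w : List (Fin k)) :
    (mon w : Fk k →L[ℂ] Fk k) = ev sc ((w.map (FreeAlgebra.ι ℂ)).prod) := by
  rw [map_list_prod, List.map_map]
  have h : (⇑(ev (sc : Fin k → (Fk k →L[ℂ] Fk k))) ∘ FreeAlgebra.ι ℂ) = sc := by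
    funext i
    exact FreeAlgebra.lift_ι_apply _ _
  rw [h]
  rfl

theorem p_SPL : Stmt_SPL := by
  intro k x hx η hη
  have h1 : x ∈ closure (Submodule.span ℂ (range (mon : List (Fin k) → (Fk k →L[ℂ] Fk k))) :
      Set (Fk k →L[ℂ] Fk k)) := by
    rw [← (t_SPN k).2.1]
    exact hx
  obtain ⟨y, hy, hxy⟩ := Metric.mem_closure_iff.1 h1 η hη
  have h2 : Submodule.span ℂ (range (mon : List (Fin k) → (Fk k →L[ℂ] Fk k))) ≤
      (ev (sc : Fin k → (Fk k →L[ℂ] Fk k))).toLinearMap.range := by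
    rw [Submodule.span_le]
    rintro _ ⟨w, rfl⟩
    exact ⟨_, (SPL_mon w).symm⟩
  obtain ⟨p, hp⟩ := h2 hy
  refine ⟨p, ?_⟩
  have h3 : ev sc p = y := hp
  rw [h3, ← dist_eq_norm]
  exact hxy.le

end Pool.FR
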