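import Pool.Agent.Work.MP_118406_fr.Interface

set_option autoImplicit false

/-! Block STE: Stein's lemma for polynomials. -/

open scoped InnerProductSpace ComplexConjugate Topology BigOperators
open Set Filter MeasureTheory Pool.SI

noncomputable section

namespace Pool.FR

lemma STE_int_exp (n : ℕ) :
    Integrable (fun x : ℝ => x ^ n * ProbabilityTheory.gaussianPDFReal 0 1 x) := by
  have h := integrable_rpow_mul_exp_neg_mul_sq (b := 1 / 2) (by norm_num) (s := n)
    (by have := Nat.cast_nonneg (α := ℝ) n; linarith)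
  have h2 := h.const_mul ((Real.sqrt (2 * Real.pi * 1))⁻¹)
  refine h2.congr (Eventually.of_forall fun x => ?_)
  simp only [ProbabilityTheory.gaussianPDFReal, Real.rpow_natCast, NNReal.coe_one, sub_zero]
  have e : -(1 / 2) * x ^ 2 = -x ^ 2 / (2 * 1) := by ring
  rw [e]
  ring

lemma STE_deriv (x : ℝ) : HasDerivAt (ProbabilityTheory.gaussianPDFReal 0 1)
    (-(x * ProbabilityTheory.gaussianPDFReal 0 1 x)) x := by
  have h1 : HasDerivAt (fun x : ℝ => -(x - 0) ^ 2 / (2 * ((1 : NNReal) : ℝ))) (-x) x := by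
    have h2 := (((hasDerivAt_id x).sub_const (0 : ℝ)).pow 2).neg.div_const (2 * ((1 : NNReal) : ℝ))
    have e : -(((2 : ℕ) : ℝ) * (id x - 0) ^ (2 - 1) * 1) / (2 * ((1 : NNReal) : ℝ)) = -x := by
      simp only [id_eq, NNReal.coe_one]
      push_cast
      ring
    rw [e] at h2
    exact h2
  have h3 := h1.exp.const_mul ((Real.sqrt (2 * Real.pi * ((1 : NNReal) : ℝ)))⁻¹)
  rw [ProbabilityTheory.gaussianPDFReal_def]
  have e : (Real.sqrt (2 * Real.pi * ((1 : NNReal) : ℝ)))⁻¹ *
      (Real.exp (-(x - 0) ^ 2 / (2 * ((1 : NNReal) : ℝ))) * -x) =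
      -(x * (fun x => (Real.sqrt (2 * Real.pi * ((1 : NNReal) : ℝ)))⁻¹ *
        Real.exp (-(x - 0) ^ 2 / (2 * ((1 : NNReal) : ℝ)))) x) := by
    ring
  rw [e] at h3
  exact h3

lemma STE_rec (n : ℕ) : ∫ x, x ^ (n + 1) * ProbabilityTheory.gaussianPDFReal 0 1 x =
    n * ∫ x, x ^ (n - 1) * ProbabilityTheory.gaussianPDFReal 0 1 x := by
  have h := integral_mul_deriv_eq_deriv_mul_of_integrable (u := fun x : ℝ => x ^ n)
    (u' := fun x : ℝ => (n : ℝ) * x ^ (n - 1))
    (v := ProbabilityTheory.gaussianPDFReal 0 1)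
    (v' := fun x => -(x * ProbabilityTheory.gaussianPDFReal 0 1 x))
    (fun x _ => hasDerivAt_pow n x) (fun x _ => STE_deriv x) ?_ ?_ ?_
  · have e1 : (fun x : ℝ => x ^ n * -(x * ProbabilityTheory.gaussianPDFReal 0 1 x)) =
        fun x => -(x ^ (n + 1) * ProbabilityTheory.gaussianPDFReal 0 1 x) := by
      funext x
      ring
    have e2 : (fun x : ℝ => (n : ℝ) * x ^ (n - 1) * ProbabilityTheory.gaussianPDFReal 0 1 x) =
        fun x => (n : ℝ) * (x ^ (n - 1) * ProbabilityTheory.gaussianPDFReal 0 1 x) := by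
      funext x
      ring
    rw [e1, e2, integral_neg, integral_const_mul] at h
    linarith
  · have h1 := (STE_int_exp (n + 1)).neg
    refine h1.congr (Eventually.of_forall fun x => ?_)
    simp only [Pi.mul_apply, Pi.neg_apply]
    ring
  · have h1 := (STE_int_exp (n - 1)).const_mul (n : ℝ)
    refine h1.congr (Eventually.of_forall fun x => ?_)
    simp only [Pi.mul_apply]
    ring
  · exact STE_int_exp n

/-- The moments of the Gaussian. -/
def STE_m (n : ℕ) : ℂ := ∫ x : ℝ, (x : ℂ) ^ n ∂(ProbabilityTheory.gaussianReal 0 1)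

lemma STE_m_eq (n : ℕ) :
    STE_m n = ((∫ x, x ^ n * ProbabilityTheory.gaussianPDFReal 0 1 x : ℝ) : ℂ) := by
  unfold STE_m
  rw [ProbabilityTheory.integral_gaussianReal_eq_integral_smul one_ne_zero]
  have h := integral_ofReal (𝕜 := ℂ) (μ := volume)
    (f := fun x : ℝ => x ^ n * ProbabilityTheory.gaussianPDFReal 0 1 x)
  refine Eq.trans ?_ h
  refine integral_congr_ae (Eventually.of_forall fun x => ?_)
  simp only [Complex.real_smul, Complex.coe_algebraMap]
  push_cast
  ring

lemma STE_m_rec (n : ℕ) : STE_m (n + 1) = n * STE_m (n - 1) := by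
  rw [STE_m_eq, STE_m_eq, STE_rec]
  push_cast
  ring

lemma STE_m_int (n : ℕ) :
    Integrable (fun x : ℝ => (x : ℂ) ^ n) (ProbabilityTheory.gaussianReal 0 1) := by
  have h1 : MemLp (id : ℝ → ℝ) (n : ENNReal) (ProbabilityTheory.gaussianReal 0 1) :=
    ProbabilityTheory.memLp_id_gaussianReal' _ (ENNReal.natCast_ne_top n)
  have h2 := h1.integrable_norm_pow'
  refine h2.mono' ?_ (Eventually.of_forall fun x => ?_)
  · exact (Continuous.pow Complex.continuous_ofReal n).aestronglyMeasurable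
  · simp

variable {ι : Type} [Fintype ι]

lemma STE_mono (s : ι →₀ ℕ) (c : ℂ) (g : ι → ℝ) :
    MvPolynomial.aeval (fun i => (g i : ℂ)) (MvPolynomial.monomial s c) =
      c * ∏ i, (g i : ℂ) ^ (s i) := by
  rw [MvPolynomial.aeval_monomial, Finsupp.prod_fintype _ _ (fun i => pow_zero _)]
  rfl

lemma STE_mono_int (s : ι →₀ ℕ) (c : ℂ) :
    Integrable (fun g : ι → ℝ => MvPolynomial.aeval (fun i => (g i : ℂ))
      (MvPolynomial.monomial s c)) (gs ι) := by
  simp only [STE_mono]
  exact (Integrable.fintype_prod (f := fun i (x : ℝ) => (x : ℂ) ^ (s i))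
    fun i => STE_m_int (s i)).const_mul c

lemma STE_mono_val (s : ι →₀ ℕ) (c : ℂ) :
    ∫ g : ι → ℝ, MvPolynomial.aeval (fun i => (g i : ℂ)) (MvPolynomial.monomial s c) ∂(gs ι) =
      c * ∏ i, STE_m (s i) := by
  simp only [STE_mono]
  rw [integral_const_mul]
  congr 1
  exact integral_fintype_prod_eq_prod (fun i (x : ℝ) => (x : ℂ) ^ (s i))

lemma STE_int (P : MvPolynomial ι ℂ) :
    Integrable (fun g : ι → ℝ => MvPolynomial.aeval (fun i => (g i : ℂ)) P) (gs ι) := by
  induction P using MvPolynomial.induction_on' with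
  | monomial s c => exact STE_mono_int s c
  | add p q hp hq =>
    simp only [map_add]
    exact hp.add hq

lemma STE_mono_stein [DecidableEq ι] (s : ι →₀ ℕ) (c : ℂ) (i : ι) :
    ∫ g : ι → ℝ, MvPolynomial.aeval (fun i => (g i : ℂ))
      (MvPolynomial.X i * MvPolynomial.monomial s c) ∂(gs ι) =
    ∫ g : ι → ℝ, MvPolynomial.aeval (fun i => (g i : ℂ))
      (MvPolynomial.pderiv i (MvPolynomial.monomial s c)) ∂(gs ι) := by
  have e : (MvPolynomial.X i * MvPolynomial.monomial s c : MvPolynomial ι ℂ) =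
      MvPolynomial.monomial (Finsupp.single i 1 + s) c := by
    rw [MvPolynomial.monomial_single_add, pow_one]
  have k1 := Finset.mul_prod_erase Finset.univ
      (fun j => STE_m ((Finsupp.single i 1 + s : ι →₀ ℕ) j)) (Finset.mem_univ i)
  have k2 := Finset.mul_prod_erase Finset.univ
      (fun j => STE_m ((s - Finsupp.single i 1 : ι →₀ ℕ) j)) (Finset.mem_univ i)
  rw [e, MvPolynomial.pderiv_monomial, STE_mono_val, STE_mono_val]
  refine Eq.trans (congrArg (fun z => c * z) k1.symm) ?_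
  refine Eq.trans ?_ (congrArg (fun z => c * (s i : ℂ) * z) k2)
  beta_reduce
  have e1 : STE_m ((Finsupp.single i 1 + s : ι →₀ ℕ) i) =
      s i * STE_m ((s - Finsupp.single i 1 : ι →₀ ℕ) i) := by
    have e2 : (Finsupp.single i 1 + s : ι →₀ ℕ) i = s i + 1 := by
      simp [add_comm]
    have e3 : (s - Finsupp.single i 1 : ι →₀ ℕ) i = s i - 1 := by
      simp
    rw [e2, e3, STE_m_rec]
  have e4 : ∏ j ∈ Finset.univ.erase i, STE_m ((Finsupp.single i 1 + s : ι →₀ ℕ) j) =
      ∏ j ∈ Finset.univ.erase i, STE_m ((s - Finsupp.single i 1 : ι →₀ ℕ) j) := by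
    refine Finset.prod_congr rfl fun j hj => ?_
    have hji : i ≠ j := (Finset.ne_of_mem_erase hj).symm
    simp [Finsupp.single_eq_of_ne hji, Finsupp.single_eq_of_ne hji.symm]
  rw [e1, e4]
  ring

theorem p_STE : Stmt_STE := by
  intro ι _ _ P
  refine ⟨STE_int P, fun i => ?_⟩
  induction P using MvPolynomial.induction_on' with
  | monomial s c => exact STE_mono_stein s c i
  | add p q hp hq =>
    rw [mul_add, map_add]
    simp only [map_add]
    rw [integral_add (STE_int _) (STE_int _), integral_add (STE_int _) (STE_int _), hp, hq]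

end Pool.FR
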