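import Pool.Agent.Work.MP_118406_fr.Interface

set_option autoImplicit false

/-!
# Block TR1: the matrices `C_i = q_i(Y)`
-/

open scoped InnerProductSpace ComplexConjugate Topology BigOperators
open Set Filter MeasureTheory Pool.SI

noncomputable section

namespace Pool.FR

/-- Substitution of polynomials. -/
theorem TR1_subst {a b : Type} (q : a → FreeAlgebra ℂ b) (r : FreeAlgebra ℂ (a ⊕ b)) {R : Type}
    [Ring R] [Algebra ℂ R] (Y : b → R) :
    ev Y (FreeAlgebra.lift ℂ (Sum.elim q (FreeAlgebra.ι ℂ)) r) =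
      ev (Sum.elim (fun i => ev Y (q i)) Y) r := by
  have h : (ev Y).comp (FreeAlgebra.lift ℂ (Sum.elim q (FreeAlgebra.ι ℂ))) =
      ev (Sum.elim (fun i => ev Y (q i)) Y) := by
    apply FreeAlgebra.hom_ext
    funext x
    rcases x with i | j
    · simp [ev]
    · simp [ev]
  exact DFunLike.congr_fun h r

/-- The real part of a polynomial. -/
theorem TR1_re (hDAG : Stmt_DAG) (k : Type) (p : FreeAlgebra ℂ k) : ∃ q : FreeAlgebra ℂ k,
    ∀ (R : Type) [Ring R] [StarRing R] [Algebra ℂ R] [StarModule ℂ R] (a : k → R),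
      (∀ i, star (a i) = a i) → ev a q = (1 / 2 : ℂ) • (ev a p + star (ev a p)) := by
  obtain ⟨p', hp'⟩ := hDAG k p
  refine ⟨(1 / 2 : ℂ) • (p + p'), fun R _ _ _ _ a ha => ?_⟩
  rw [map_smul, map_add, hp' R a ha]

theorem TR1_star {R : Type} [Ring R] [StarRing R] [Algebra ℂ R] [StarModule ℂ R] (z : R) :
    star ((1 / 2 : ℂ) • (z + star z)) = (1 / 2 : ℂ) • (z + star z) := by
  rw [star_smul, star_add, star_star, add_comm (star z) z]
  congr 1
  rw [Complex.star_def, map_div₀, map_one, Complex.conj_ofNat]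

/-- The traces of a polynomial in microstates. -/
theorem TR1_word (hWRD : Stmt_WRD) (k : ℕ) (p : FreeAlgebra ℂ (Fin k)) :
    ∃ (m : ℕ) (S : ℝ), 0 ≤ S ∧ ∀ (n : ℕ) (y : Fin k → (Fk (n + 1) →L[ℂ] Fk (n + 1))),
      (∀ w : List (Fin k), ⟪vac (n + 1), ((w.map y).prod) (vac (n + 1))⟫_ℂ = tau w) →
      ∀ (N : ℕ) (Y : Fin k → Mat N) (m' : ℕ) (γ : ℝ), m ≤ m' → MC k m' γ N Y →
        ‖ntr (ev Y p) - ⟪vac (n + 1), (ev y p) (vac (n + 1))⟫_ℂ‖ ≤ S * γ := by
  obtain ⟨c, hc⟩ := hWRD (Fin k) p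
  refine ⟨∑ w ∈ c.support, w.length, ∑ w ∈ c.support, ‖c w‖,
    Finset.sum_nonneg fun w _ => norm_nonneg _, fun n y hy N Y m' γ hm hMC => ?_⟩
  have h1 : ntr (ev Y p) = ∑ w ∈ c.support, c w * ntr ((w.map Y).prod) := by
    rw [hc (Mat N) Y, Finsupp.sum, ntr, Matrix.trace_sum, Finset.mul_sum]
    refine Finset.sum_congr rfl fun w _ => ?_
    rw [Matrix.trace_smul, smul_eq_mul, ntr, mul_left_comm]
  have h2 : ⟪vac (n + 1), (ev y p) (vac (n + 1))⟫_ℂ = ∑ w ∈ c.support, c w * tau w := by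
    rw [hc _ y, Finsupp.sum, _root_.sum_apply, inner_sum]
    refine Finset.sum_congr rfl fun w _ => ?_
    rw [_root_.smul_apply, inner_smul_right, hy w]
  rw [h1, h2, ← Finset.sum_sub_distrib, Finset.sum_mul]
  refine (norm_sum_le _ _).trans (Finset.sum_le_sum fun w hw => ?_)
  rw [← mul_sub, norm_mul]
  refine mul_le_mul_of_nonneg_left (hMC.2 w ?_) (norm_nonneg _)
  exact (Finset.single_le_sum (f := fun w : List (Fin k) => w.length)
    (fun _ _ => Nat.zero_le _) hw).trans hm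

theorem p_TR1 (_ : Stmt_MXA) (_ : Stmt_SDE) (hRBD : Stmt_RBD) (hEV2 : Stmt_EV2)
    (hWRD : Stmt_WRD) (hDAG : Stmt_DAG) : Stmt_TR1 := by
  intro n k y hy R κ hκ
  obtain ⟨M, hM⟩ := hy.gen
  have hB := Pool.SI.t_BAS (n + 1)
  have hsa : ∀ i : Fin (n + 1), star (sc i : Fk (n + 1) →L[ℂ] Fk (n + 1)) = sc i :=
    hB.2.2.2.2.2.2.1
  have hs2 : ∀ i : Fin (n + 1), ‖(sc i : Fk (n + 1) →L[ℂ] Fk (n + 1))‖ ≤ 2 := hB.2.2.2.2.2.2.2
  have hvac : ‖vac (n + 1)‖ = 1 := (bs_orthonormal (k := n + 1)).1 []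
  obtain ⟨M', hM'⟩ : ∃ M' : ℝ, M' = max M (max 2 (∑ j, ‖y j‖)) := ⟨_, rfl⟩
  have hMM : M ≤ M' := by
    rw [hM']
    exact le_max_left _ _
  have h2M : 2 ≤ M' := by
    rw [hM']
    exact (le_max_left _ _).trans (le_max_right _ _)
  have hyM : ∀ j, ‖y j‖ ≤ M' := by
    intro j
    rw [hM']
    exact ((Finset.single_le_sum (f := fun j => ‖y j‖) (fun _ _ => norm_nonneg _)
      (Finset.mem_univ j)).trans (le_max_right _ _)).trans (le_max_right _ _)
  choose K hK0 hK using hEV2 (n + 1) (Fin (n + 1) ⊕ Fin k) M'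
  obtain ⟨Kt, hKt⟩ : ∃ Kt : ℝ, Kt = ∑ r ∈ R, K r := ⟨_, rfl⟩
  have hKt0 : 0 ≤ Kt := by
    rw [hKt]
    exact Finset.sum_nonneg fun r _ => hK0 r
  have hKr : ∀ r ∈ R, K r ≤ Kt := by
    intro r hr
    rw [hKt]
    exact Finset.single_le_sum (f := K) (fun r _ => hK0 r) hr
  obtain ⟨η, hη⟩ : ∃ η : ℝ, η = κ / (2 * ((n + 1) * Kt + 1)) := ⟨_, rfl⟩
  have hden : (0 : ℝ) < 2 * ((n + 1) * Kt + 1) := by positivity
  have hη0 : 0 < η := by
    rw [hη]
    exact div_pos hκ hden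
  have hηκ : Kt * ((n + 1) * η) ≤ κ / 2 := by
    have h1 : η * (2 * ((n + 1) * Kt + 1)) = κ := by
      rw [hη]
      exact div_mul_cancel₀ _ hden.ne'
    nlinarith
  choose q0 hq0 hq0' using fun i => hM i η hη0
  choose q hq using fun i => TR1_re hDAG (Fin k) (q0 i)
  have hmem : ∀ p : FreeAlgebra ℂ (Fin k), ev y p ∈ Alg (n + 1) := fun p => by
    obtain ⟨K1, -, h1⟩ := hEV2 (n + 1) (Fin k) M' p
    exact (h1 y y (fun j => ⟨hy.mem j, hyM j⟩) (fun j => ⟨hy.mem j, hyM j⟩)).1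
  have hqy : ∀ i, ev y (q i) = (1 / 2 : ℂ) • (ev y (q0 i) + star (ev y (q0 i))) :=
    fun i => hq i _ y hy.sa
  have hhalf : ‖(1 / 2 : ℂ)‖ = 1 / 2 := by
    rw [norm_div, norm_one, Complex.norm_ofNat]
  have hnorm : ∀ i, ‖ev y (q i)‖ ≤ M := by
    intro i
    rw [hqy i, norm_smul, hhalf]
    have h1 := norm_add_le (ev y (q0 i)) (star (ev y (q0 i)))
    have h2 : ‖star (ev y (q0 i))‖ = ‖ev y (q0 i)‖ := by
      rw [ContinuousLinearMap.star_eq_adjoint]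
      exact LinearIsometryEquiv.norm_map ContinuousLinearMap.adjoint _
    linarith [hq0 i]
  have hdist : ∀ i, ‖(sc i - ev y (q i)) (vac (n + 1))‖ ≤ η := by
    intro i
    have e : sc i - ev y (q i) =
        (1 / 2 : ℂ) • ((sc i - ev y (q0 i)) + star (sc i - ev y (q0 i))) := by
      rw [hqy i, star_sub, hsa i]
      module
    have h1 := (hRBD (n + 1) (sc i - ev y (q0 i)) 1
      (sub_mem (sc_mem i) (hmem (q0 i))) (one_mem _)).1
    rw [e, _root_.smul_apply, _root_.add_apply, norm_smul, hhalf]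
    have h2 := norm_add_le ((sc i - ev y (q0 i)) (vac (n + 1)))
      ((star (sc i - ev y (q0 i))) (vac (n + 1)))
    rw [h1] at h2
    linarith [hq0' i]
  have hfock : ∀ r ∈ R, ‖⟪vac (n + 1), (ev (Sum.elim (fun i => ev y (q i)) y) r) (vac (n + 1))⟫_ℂ -
      ⟪vac (n + 1), (ev (Sum.elim sc y) r) (vac (n + 1))⟫_ℂ‖ ≤ κ / 2 := by
    intro r hr
    have h1 := (hK r (Sum.elim (fun i => ev y (q i)) y) (Sum.elim sc y) (by
      rintro (i | j)
      · exact ⟨hmem (q i), (hnorm i).trans hMM⟩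
      · exact ⟨hy.mem j, hyM j⟩) (by
      rintro (i | j)
      · exact ⟨sc_mem i, (hs2 i).trans h2M⟩
      · exact ⟨hy.mem j, hyM j⟩)).2.2
    rw [Fintype.sum_sum_type] at h1
    have h3 : ∑ j : Fin k, ‖((Sum.elim (fun i => ev y (q i)) y (Sum.inr j : Fin (n + 1) ⊕ Fin k) -
        Sum.elim sc y (Sum.inr j : Fin (n + 1) ⊕ Fin k)) : Fk (n + 1) →L[ℂ] Fk (n + 1))
          (vac (n + 1))‖ = 0 := by
      refine Finset.sum_eq_zero fun j _ => ?_
      rw [Sum.elim_inr, Sum.elim_inr, sub_self, _root_.zero_apply, norm_zero]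
    have h4 : ∑ i : Fin (n + 1), ‖((Sum.elim (fun i => ev y (q i)) y
        (Sum.inl i : Fin (n + 1) ⊕ Fin k) -
        Sum.elim sc y (Sum.inl i : Fin (n + 1) ⊕ Fin k)) : Fk (n + 1) →L[ℂ] Fk (n + 1))
          (vac (n + 1))‖ ≤ (n + 1) * η := by
      have h5 : ∀ i ∈ (Finset.univ : Finset (Fin (n + 1))), ‖((Sum.elim (fun i => ev y (q i)) y
        (Sum.inl i : Fin (n + 1) ⊕ Fin k) -
        Sum.elim sc y (Sum.inl i : Fin (n + 1) ⊕ Fin k)) : Fk (n + 1) →L[ℂ] Fk (n + 1))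
          (vac (n + 1))‖ ≤ η := by
        intro i _
        rw [Sum.elim_inl, Sum.elim_inl, ← norm_neg, ← _root_.neg_apply, neg_sub]
        exact hdist i
      refine (Finset.sum_le_card_nsmul _ _ _ h5).trans ?_
      rw [Finset.card_univ, Fintype.card_fin, nsmul_eq_mul]
      push_cast
      exact le_refl _
    rw [h3, add_zero] at h1
    rw [← inner_sub_right, ← _root_.sub_apply]
    refine (norm_inner_le_norm _ _).trans ?_
    rw [hvac, one_mul]
    refine h1.trans ?_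
    calc _ ≤ K r * ((n + 1) * η) := mul_le_mul_of_nonneg_left h4 (hK0 r)
      _ ≤ Kt * ((n + 1) * η) := mul_le_mul_of_nonneg_right (hKr r hr) (by positivity)
      _ ≤ κ / 2 := hηκ
  choose mr Sr hS0 hW using fun r : FreeAlgebra ℂ (Fin (n + 1) ⊕ Fin k) =>
    TR1_word hWRD k (FreeAlgebra.lift ℂ (Sum.elim q (FreeAlgebra.ι ℂ)) r)
  obtain ⟨St, hSt⟩ : ∃ St : ℝ, St = ∑ r ∈ R, Sr r := ⟨_, rfl⟩
  have hSt0 : 0 ≤ St := by
    rw [hSt]
    exact Finset.sum_nonneg fun r _ => hS0 r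
  obtain ⟨γ, hγ⟩ : ∃ γ : ℝ, γ = κ / (2 * (St + 1)) := ⟨_, rfl⟩
  have hden2 : (0 : ℝ) < 2 * (St + 1) := by positivity
  have hγ0 : 0 < γ := by
    rw [hγ]
    exact div_pos hκ hden2
  refine ⟨q, ∑ r ∈ R, mr r, γ, hγ0, fun N Y hN hMC => ⟨fun i => ?_, fun r hr => ?_⟩⟩
  · have h1 := hq i (Mat N) Y fun j => hMC.1 j
    have h2 := TR1_star (ev Y (q0 i))
    rw [← h1] at h2
    exact h2
  · have h1 := hW r n y hy.mom N Y _ γ
      (Finset.single_le_sum (f := mr) (fun _ _ => Nat.zero_le _) hr) hMC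
    rw [TR1_subst, TR1_subst] at h1
    have h2 : Sr r * γ ≤ κ / 2 := by
      have h3 : Sr r ≤ St := by
        rw [hSt]
        exact Finset.single_le_sum (f := Sr) (fun r _ => hS0 r) hr
      have h4 : γ * (2 * (St + 1)) = κ := by
        rw [hγ]
        exact div_mul_cancel₀ _ hden2.ne'
      have h5 : Sr r * γ ≤ St * γ := mul_le_mul_of_nonneg_right h3 hγ0.le
      nlinarith
    have h3 := hfock r hr
    calc _ = ‖(ntr (ev (Sum.elim (fun i => ev Y (q i)) Y) r) -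
          ⟪vac (n + 1), (ev (Sum.elim (fun i => ev y (q i)) y) r) (vac (n + 1))⟫_ℂ) +
          (⟪vac (n + 1), (ev (Sum.elim (fun i => ev y (q i)) y) r) (vac (n + 1))⟫_ℂ -
            ⟪vac (n + 1), (ev (Sum.elim sc y) r) (vac (n + 1))⟫_ℂ)‖ := by
          rw [sub_add_sub_cancel]
      _ ≤ Sr r * γ + κ / 2 := (norm_add_le _ _).trans (add_le_add h1 h3)
      _ ≤ κ := by linarith

end Pool.FR
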