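import Pool.Agent.Work.MP_118406_fr.Interface

set_option autoImplicit false

/-! Block TR2: clamping the tuple. -/

open scoped InnerProductSpace ComplexConjugate Topology BigOperators
open Set Filter MeasureTheory Pool.SI

noncomputable section

namespace Pool.FR

theorem TR2_star {k N : ℕ} {C : Fin k → Mat N} (hC : ∀ i, (C i).IsHermitian)
    (v : List (Fin k)) : star ((v.map C).prod) = (v.reverse.map C).prod := by
  induction v with
  | nil => simp
  | cons i v ih =>
    rw [List.map_cons, List.prod_cons, star_mul, ih, List.reverse_cons, List.map_append,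
      List.prod_append, List.map_singleton, List.prod_singleton]
    have h : star (C i) = C i := (hC i).eq
    rw [h]

theorem TR2_dz (hM : Stmt_MXA) {N : ℕ} (hN : 1 ≤ N) (D Z : Mat N) (hD : star D = D) :
    nn (D * Z) ^ 2 ≤ nn (D * D) * nn (Z * star Z) := by
  obtain ⟨h1, -, h3, -, h5, -, -, -⟩ := hM N hN
  have e1 : ((nn (D * Z) : ℝ) : ℂ) = ntr ((D * D) * (Z * star Z)) := by
    rw [← (h1 (D * Z)).2.2, star_mul, hD]
    have e2 : star Z * D * (D * Z) = star Z * (D * D * Z) := by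
      simp only [mul_assoc]
    rw [e2, h5 (star Z) (D * D * Z), mul_assoc]
  have h := h3 (D * D) (Z * star Z)
  rw [← e1, Complex.norm_real, Real.norm_eq_abs, sq_abs] at h
  exact h

theorem TR2_zz (hM : Stmt_MXA) (hS : Stmt_SDE) {k N : ℕ} (hN : 1 ≤ N) {m : ℕ} {γ : ℝ}
    (hγ : γ ≤ 1) {C : Fin k → Mat N} (hC : MC k m γ N C) (v : List (Fin k))
    (hv : 4 * v.length ≤ m) :
    nn ((v.map C).prod * star ((v.map C).prod)) ≤ (2 ^ (v.length + 1)) ^ 4 := by
  obtain ⟨h1, -, -, -, -, -, -, -⟩ := hM N hN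
  set Z := (v.map C).prod with hZ
  have e1 : ((nn (Z * star Z) : ℝ) : ℂ) =
      ntr (((v ++ (v.reverse ++ (v ++ v.reverse))).map C).prod) := by
    rw [← (h1 (Z * star Z)).2.2, star_mul, star_star, List.map_append, List.map_append,
      List.map_append, List.prod_append, List.prod_append, List.prod_append,
      ← TR2_star hC.1 v, ← hZ]
    simp only [mul_assoc]
  have hl : (v ++ (v.reverse ++ (v ++ v.reverse))).length = 4 * v.length := by
    simp only [List.length_append, List.length_reverse]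
    omega
  have h2 := hC.2 (v ++ (v.reverse ++ (v ++ v.reverse))) (by rw [hl]; exact hv)
  have h3 := (hS k).2.2.2.2 (v ++ (v.reverse ++ (v ++ v.reverse)))
  rw [hl] at h3
  rw [← e1] at h2
  have h4 : ‖((nn (Z * star Z) : ℝ) : ℂ)‖ ≤ 2 ^ (4 * v.length) + 1 := by
    calc ‖((nn (Z * star Z) : ℝ) : ℂ)‖
        = ‖(((nn (Z * star Z) : ℝ) : ℂ) - tau (v ++ (v.reverse ++ (v ++ v.reverse)))) +
            tau (v ++ (v.reverse ++ (v ++ v.reverse)))‖ := by
          congr 1
          ring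
      _ ≤ ‖((nn (Z * star Z) : ℝ) : ℂ) - tau (v ++ (v.reverse ++ (v ++ v.reverse)))‖ +
            ‖tau (v ++ (v.reverse ++ (v ++ v.reverse)))‖ := norm_add_le _ _
      _ ≤ 2 ^ (4 * v.length) + 1 := by linarith
  rw [Complex.norm_real, Real.norm_eq_abs] at h4
  have h5 := le_trans (le_abs_self _) h4
  refine le_trans h5 ?_
  have h6 : (1 : ℝ) ≤ 2 ^ (4 * v.length) := one_le_pow₀ (by norm_num)
  have h7 : ((2 : ℝ) ^ (v.length + 1)) ^ 4 = 16 * 2 ^ (4 * v.length) := by
    rw [← pow_mul, show (v.length + 1) * 4 = 4 + 4 * v.length by ring, pow_add]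
    norm_num
  rw [h7]
  linarith

theorem TR2_sqrt_le {x y : ℝ} (hy : 0 ≤ y) (h : x ≤ y ^ 2) : Real.sqrt x ≤ y := by
  rw [← Real.sqrt_sq hy]
  exact Real.sqrt_le_sqrt h

theorem TR2_word (hM : Stmt_MXA) (hS : Stmt_SDE) {k N : ℕ} (hN : 1 ≤ N) {m : ℕ} {γ η : ℝ}
    (hγ : γ ≤ 1) (hη : 0 ≤ η) {A C : Fin k → Mat N} (hC : MC k m γ N C)
    (hA : ∀ i, (A i).IsHermitian) (hOB : ∀ i, OB 3 (A i))
    (hD : ∀ i, nn ((A i - C i) * (A i - C i)) ≤ η ^ 4) :
    ∀ v : List (Fin k), 4 * v.length ≤ m →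
      Real.sqrt (nn ((v.map A).prod - (v.map C).prod)) ≤ 2 * 4 ^ v.length * η := by
  intro v
  induction v with
  | nil =>
    intro _
    have h0 : nn ((([] : List (Fin k)).map A).prod - (([] : List (Fin k)).map C).prod) = 0 := by
      simp [nn]
    rw [h0, Real.sqrt_zero]
    positivity
  | cons i v ih =>
    intro hl
    rw [List.length_cons] at hl
    have ih' := ih (by omega)
    have hM' := hM N hN
    rw [List.map_cons, List.prod_cons, List.map_cons, List.prod_cons]
    set P := (v.map A).prod with hP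
    set Z := (v.map C).prod with hZ
    have e : A i * P - C i * Z = A i * (P - Z) + (A i - C i) * Z := by
      rw [mul_sub, sub_mul]
      abel
    rw [e]
    have h1 := hM'.2.2.2.2.2.1 (A i * (P - Z)) ((A i - C i) * Z)
    have h2 : Real.sqrt (nn (A i * (P - Z))) ≤ 3 * Real.sqrt (nn (P - Z)) := by
      apply TR2_sqrt_le (by positivity)
      rw [mul_pow, Real.sq_sqrt (hM'.1 _).1]
      exact ((hOB i).2 (P - Z)).1
    have hst : star (A i - C i) = A i - C i := by
      rw [star_sub]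
      have a1 : star (A i) = A i := (hA i).eq
      have a2 : star (C i) = C i := (hC.1 i).eq
      rw [a1, a2]
    have h3 := TR2_dz hM hN (A i - C i) Z hst
    have h4 := TR2_zz hM hS hN hγ hC v (by omega)
    rw [← hZ] at h4
    have h5 : nn ((A i - C i) * Z) ^ 2 ≤ ((η * 2 ^ (v.length + 1)) ^ 2) ^ 2 := by
      calc nn ((A i - C i) * Z) ^ 2
          ≤ nn ((A i - C i) * (A i - C i)) * nn (Z * star Z) := h3
        _ ≤ η ^ 4 * (2 ^ (v.length + 1)) ^ 4 :=
          mul_le_mul (hD i) h4 (hM'.1 _).1 (by positivity)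
        _ = ((η * 2 ^ (v.length + 1)) ^ 2) ^ 2 := by ring
    have h6 : nn ((A i - C i) * Z) ≤ (η * 2 ^ (v.length + 1)) ^ 2 :=
      (sq_le_sq₀ (hM'.1 _).1 (by positivity)).1 h5
    have h7 : Real.sqrt (nn ((A i - C i) * Z)) ≤ η * 2 ^ (v.length + 1) :=
      TR2_sqrt_le (by positivity) h6
    have h8 : (2 : ℝ) ^ v.length ≤ 4 ^ v.length := pow_le_pow_left₀ (by norm_num) (by norm_num) _
    have h9 : η * 2 ^ (v.length + 1) ≤ 2 * 4 ^ v.length * η := by
      rw [pow_succ]
      nlinarith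
    have h10 : 2 * 4 ^ (i :: v).length * η = 4 * (2 * 4 ^ v.length * η) := by
      rw [List.length_cons, pow_succ]
      ring
    rw [h10]
    linarith

theorem TR2_sum (hM : Stmt_MXA) {N : ℕ} (hN : 1 ≤ N) {α : Type} (s : Finset α) (z : α → ℂ)
    (X : α → Mat N) :
    Real.sqrt (nn (∑ w ∈ s, z w • X w)) ≤ ∑ w ∈ s, ‖z w‖ * Real.sqrt (nn (X w)) := by
  classical
  obtain ⟨-, -, -, -, -, h6, h7, -⟩ := hM N hN
  induction s using Finset.induction_on with
  | empty =>
    have h0 : nn (∑ w ∈ (∅ : Finset α), z w • X w) = 0 := by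
      simp [nn]
    rw [h0, Real.sqrt_zero, Finset.sum_empty]
  | insert a s ha ih =>
    rw [Finset.sum_insert ha, Finset.sum_insert ha]
    refine (h6 _ _).trans (add_le_add ?_ ih)
    rw [h7, Real.sqrt_mul (by positivity), Real.sqrt_sq (norm_nonneg _)]

theorem p_TR2 (hMXA : Stmt_MXA) (_hOBB : Stmt_OBB) (hSDE : Stmt_SDE) (hWRD : Stmt_WRD)
    (hCLP : Stmt_CLP) : Stmt_TR2 := by
  classical
  intro n m₁ δ κ ι _ p hδ hκ
  choose c hc using fun j => hWRD (Fin (n + 1)) (p j)
  set S : ι → ℝ := fun j => ∑ w ∈ (c j).support, ‖c j w‖ * (2 * 4 ^ w.length) with hS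
  have hS0 : ∀ j, 0 ≤ S j := fun j => Finset.sum_nonneg fun w _ => by positivity
  set T : ℝ := ∑ j, S j with hT
  have hT0 : 0 ≤ T := Finset.sum_nonneg fun j _ => hS0 j
  have hST : ∀ j, S j ≤ T := fun j =>
    Finset.single_le_sum (f := S) (fun j _ => hS0 j) (Finset.mem_univ j)
  set L : ℕ := m₁ + ∑ j, ∑ w ∈ (c j).support, w.length with hL
  have hLw : ∀ j, ∀ w ∈ (c j).support, w.length ≤ L := by
    intro j w hw
    have h1 : w.length ≤ ∑ w ∈ (c j).support, w.length :=
      Finset.single_le_sum (f := fun w : List (Fin (n + 1)) => w.length)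
        (fun _ _ => Nat.zero_le _) hw
    have h2 : ∑ w ∈ (c j).support, w.length ≤ ∑ j, ∑ w ∈ (c j).support, w.length :=
      Finset.single_le_sum (f := fun j => ∑ w ∈ (c j).support, w.length)
        (fun _ _ => Nat.zero_le _) (Finset.mem_univ j)
    omega
  set η : ℝ := min (δ / (4 * 4 ^ m₁)) (Real.sqrt κ / (1 + T)) with hη
  have hη0 : 0 < η := lt_min (by positivity) (by positivity)
  have hη1 : 2 * 4 ^ m₁ * η ≤ δ / 2 := by
    have h1 : η ≤ δ / (4 * 4 ^ m₁) := min_le_left _ _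
    calc 2 * 4 ^ m₁ * η ≤ 2 * 4 ^ m₁ * (δ / (4 * 4 ^ m₁)) :=
          mul_le_mul_of_nonneg_left h1 (by positivity)
      _ = δ / 2 := by
        have h2 : (4 : ℝ) ^ m₁ ≠ 0 := by positivity
        field_simp
        norm_num
  have hη2 : (1 + T) * η ≤ Real.sqrt κ := by
    have h1 : η ≤ Real.sqrt κ / (1 + T) := min_le_right _ _
    have h2 : 0 < 1 + T := by linarith
    calc (1 + T) * η ≤ (1 + T) * (Real.sqrt κ / (1 + T)) :=
          mul_le_mul_of_nonneg_left h1 h2.le
      _ = Real.sqrt κ := mul_div_cancel₀ _ h2.ne'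
  obtain ⟨M₀, hM₀⟩ := exists_pow_lt_of_lt_one (show 0 < η ^ 4 / 162 by positivity)
    (show (4 / 9 : ℝ) < 1 by norm_num)
  set M : ℕ := M₀ + 2 with hMd
  have hβ : 81 * ((4 : ℝ) ^ M + 1) / 9 ^ M ≤ η ^ 4 := by
    have h1 : (4 / 9 : ℝ) ^ M ≤ (4 / 9) ^ M₀ :=
      pow_le_pow_of_le_one (by norm_num) (by norm_num) (by omega)
    have h2 : (1 : ℝ) ≤ 4 ^ M := one_le_pow₀ (by norm_num)
    have h3 : 81 * ((4 : ℝ) ^ M + 1) / 9 ^ M ≤ 162 * (4 / 9) ^ M := by
      rw [div_pow, ← mul_div_assoc]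
      apply div_le_div_of_nonneg_right _ (by positivity)
      linarith
    linarith
  refine ⟨4 * L + 2 * M, min 1 (δ / 2), lt_min one_pos (by positivity), ?_⟩
  intro N C hN hC
  have hγ : min 1 (δ / 2) ≤ 1 := min_le_left _ _
  choose A hA1 hA2 hA3 using fun i => hCLP N (C i) hN (hC.1 i)
  have hD : ∀ i, nn ((A i - C i) * (A i - C i)) ≤ η ^ 4 := by
    intro i
    refine ((hA3 i M (by omega)).2).trans ?_
    refine le_trans ?_ hβ
    apply div_le_div_of_nonneg_right _ (by positivity)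
    apply mul_le_mul_of_nonneg_left _ (by norm_num)
    have h1 := hC.2 (List.replicate (2 * M) i) (by rw [List.length_replicate]; omega)
    rw [List.map_replicate, List.prod_replicate] at h1
    have h2 := (hSDE (n + 1)).2.2.2.2 (List.replicate (2 * M) i)
    rw [List.length_replicate, pow_mul] at h2
    have h3 : (ntr (C i ^ (2 * M))).re ≤ ‖ntr (C i ^ (2 * M))‖ := Complex.re_le_norm _
    have h4 : ‖ntr (C i ^ (2 * M))‖ ≤ ‖ntr (C i ^ (2 * M)) - tau (List.replicate (2 * M) i)‖ +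
        ‖tau (List.replicate (2 * M) i)‖ := by
      have h5 := norm_add_le (ntr (C i ^ (2 * M)) - tau (List.replicate (2 * M) i))
        (tau (List.replicate (2 * M) i))
      rwa [sub_add_cancel] at h5
    have h6 : ((2 : ℝ) ^ 2) ^ M = 4 ^ M := by norm_num
    rw [h6] at h2
    linarith
  have hw := TR2_word hMXA hSDE hN hγ hη0.le hC hA1 hA2 hD
  refine ⟨A, hA2, ⟨hA1, ?_⟩, ?_⟩
  · intro w hwl
    have h1 := hw w (by omega)
    have h2 := (hMXA N hN).2.2.2.1 ((w.map A).prod - (w.map C).prod)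
    have h3 : ‖ntr ((w.map A).prod - (w.map C).prod)‖ ≤
        Real.sqrt (nn ((w.map A).prod - (w.map C).prod)) :=
      Real.le_sqrt_of_sq_le h2
    have h4 : ntr ((w.map A).prod - (w.map C).prod) = ntr ((w.map A).prod) -
        ntr ((w.map C).prod) := by
      unfold ntr
      rw [Matrix.trace_sub, mul_sub]
    rw [h4] at h3
    have h5 := hC.2 w (by omega)
    have h6 : (4 : ℝ) ^ w.length ≤ 4 ^ m₁ := pow_le_pow_right₀ (by norm_num) hwl
    have h7 : 2 * 4 ^ w.length * η ≤ 2 * 4 ^ m₁ * η := by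
      apply mul_le_mul_of_nonneg_right _ hη0.le
      linarith
    have h8 : min 1 (δ / 2) ≤ δ / 2 := min_le_right _ _
    have h9 := norm_add_le (ntr ((w.map A).prod) - ntr ((w.map C).prod))
      (ntr ((w.map C).prod) - tau w)
    rw [sub_add_sub_cancel] at h9
    linarith
  · intro j
    have h1 : ev A (p j) - ev C (p j) =
        ∑ w ∈ (c j).support, c j w • ((w.map A).prod - (w.map C).prod) := by
      rw [hc j (Mat N) A, hc j (Mat N) C, Finsupp.sum, Finsupp.sum, ← Finset.sum_sub_distrib]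
      refine Finset.sum_congr rfl fun w _ => ?_
      rw [smul_sub]
    have h2 := TR2_sum hMXA hN (c j).support (fun w => c j w)
      (fun w => (w.map A).prod - (w.map C).prod)
    rw [← h1] at h2
    have h3 : ∑ w ∈ (c j).support, ‖c j w‖ *
        Real.sqrt (nn ((w.map A).prod - (w.map C).prod)) ≤ S j * η := by
      rw [hS, Finset.sum_mul]
      refine Finset.sum_le_sum fun w hwm => ?_
      have h4 := hw w (by have := hLw j w hwm; omega)
      calc ‖c j w‖ * Real.sqrt (nn ((w.map A).prod - (w.map C).prod))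
          ≤ ‖c j w‖ * (2 * 4 ^ w.length * η) :=
            mul_le_mul_of_nonneg_left h4 (norm_nonneg _)
        _ = ‖c j w‖ * (2 * 4 ^ w.length) * η := by ring
    have h5 : S j * η ≤ (1 + T) * η :=
      mul_le_mul_of_nonneg_right (by have := hST j; linarith) hη0.le
    have h6 : Real.sqrt (nn (ev A (p j) - ev C (p j))) ≤ Real.sqrt κ := by linarith
    exact (Real.sqrt_le_sqrt_iff hκ.le).1 h6

end Pool.FR
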