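import Pool.Agent.Work.MP_118406_fr.Interface

set_option autoImplicit false

/-!
# Block TRA: from `Y` to `A`
-/

open scoped InnerProductSpace ComplexConjugate Topology BigOperators
open Set Filter MeasureTheory Pool.SI

noncomputable section

namespace Pool.FR

/-- The word polynomial in the letters `Sum.inl i`. -/
def TRA_W {n k : ℕ} (v : List (Fin (n + 1))) : FreeAlgebra ℂ (Fin (n + 1) ⊕ Fin k) :=
  (v.map (fun i => FreeAlgebra.ι ℂ (Sum.inl i : Fin (n + 1) ⊕ Fin k))).prod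

theorem TRA_evW {n k : ℕ} {R : Type} [Ring R] [Algebra ℂ R] (a : Fin (n + 1) → R)
    (b : Fin k → R) (v : List (Fin (n + 1))) :
    ev (Sum.elim a b) (TRA_W (k := k) v) = (v.map a).prod := by
  rw [TRA_W, map_list_prod, List.map_map]
  congr 1
  refine List.map_congr_left fun i _ => ?_
  simp [ev]

/-- The polynomial `p` in the letters `Sum.inl i`, minus the letter `Sum.inr j`. -/
def TRA_T {n k : ℕ} (p : FreeAlgebra ℂ (Fin (n + 1))) (j : Fin k) :
    FreeAlgebra ℂ (Fin (n + 1) ⊕ Fin k) :=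
  FreeAlgebra.lift ℂ (fun i => FreeAlgebra.ι ℂ (Sum.inl i : Fin (n + 1) ⊕ Fin k)) p -
    FreeAlgebra.ι ℂ (Sum.inr j)

theorem TRA_evT {n k : ℕ} {R : Type} [Ring R] [Algebra ℂ R] (a : Fin (n + 1) → R)
    (b : Fin k → R) (p : FreeAlgebra ℂ (Fin (n + 1))) (j : Fin k) :
    ev (Sum.elim a b) (TRA_T p j) = ev a p - b j := by
  have h : (ev (Sum.elim a b)).comp
      (FreeAlgebra.lift ℂ (fun i => FreeAlgebra.ι ℂ (Sum.inl i : Fin (n + 1) ⊕ Fin k))) =
      ev a := by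
    apply FreeAlgebra.hom_ext
    funext i
    simp [ev]
  have h2 := DFunLike.congr_fun h p
  rw [AlgHom.comp_apply] at h2
  rw [TRA_T, map_sub, h2]
  simp [ev]

theorem TRA_sc {k : ℕ} (i : Fin k) : star (sc i : Fk k →L[ℂ] Fk k) = sc i := by
  rw [sc, star_add, ← ContinuousLinearMap.star_eq_adjoint, star_star, add_comm]

theorem TRA_inner {k : ℕ} (T : Fk k →L[ℂ] Fk k) (v : Fk k) :
    ⟪v, (star T * T) v⟫_ℂ = ((‖T v‖ ^ 2 : ℝ) : ℂ) := by
  rw [mul_apply_eq_comp, ContinuousLinearMap.star_eq_adjoint,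
    ContinuousLinearMap.adjoint_inner_right, inner_self_eq_norm_sq_to_K]
  norm_cast

theorem p_TRA (hMXA : Stmt_MXA) (hDAG : Stmt_DAG) (hTR1 : Stmt_TR1) (hTR2 : Stmt_TR2) :
    Stmt_TRA := by
  classical
  intro n k y hy p ε hε hp m₁ δ hδ
  have hε2 : 0 < ε ^ 2 / 2 := by positivity
  obtain ⟨m', γ', hγ', hA⟩ := hTR2 n m₁ δ (ε ^ 2 / 2) (Fin k) p hδ hε2
  choose dag hdag using hDAG (Fin (n + 1) ⊕ Fin k)
  have hfin : {l : List (Fin (n + 1)) | l.length ≤ m'}.Finite := List.finite_length_le _ _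
  obtain ⟨q, m, γ, hγ, h1⟩ := hTR1 n k y hy
    ((hfin.toFinset.image TRA_W) ∪
      Finset.univ.image (fun j : Fin k => dag (TRA_T (p j) j) * TRA_T (p j) j))
    (min γ' (ε ^ 2 / 2)) (lt_min hγ' hε2)
  refine ⟨m, γ, hγ, fun N Y hN hY => ?_⟩
  obtain ⟨hherm, hr⟩ := h1 N Y hN hY
  obtain ⟨m1, m2, -⟩ := hMXA N hN
  have hMC : MC (n + 1) m' γ' N (fun i => ev Y (q i)) := by
    refine ⟨hherm, fun w hw => ?_⟩
    have h2 := hr (TRA_W w) (Finset.mem_union_left _
      (Finset.mem_image.2 ⟨w, hfin.mem_toFinset.2 hw, rfl⟩))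
    rw [TRA_evW, TRA_evW] at h2
    exact h2.trans (min_le_left _ _)
  have hnn : ∀ j, nn (ev (fun i => ev Y (q i)) (p j) - Y j) ≤ 3 * ε ^ 2 / 2 := by
    intro j
    have h2 := hr _ (Finset.mem_union_right _ (Finset.mem_image.2 ⟨j, Finset.mem_univ _, rfl⟩))
    have hsa : ∀ i, star (Sum.elim (fun i => ev Y (q i)) Y i) =
        Sum.elim (fun i => ev Y (q i)) Y i := by
      rintro (i | i)
      · exact hherm i
      · exact hY.1 i
    have hsa' : ∀ i, star (Sum.elim sc y i) = Sum.elim sc y i := by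
      rintro (i | i)
      · exact TRA_sc i
      · exact hy.sa i
    rw [map_mul, map_mul, hdag _ _ _ hsa, hdag _ _ _ hsa', TRA_evT, TRA_evT, (m1 _).2.2,
      TRA_inner, ← Complex.ofReal_sub, Complex.norm_real, Real.norm_eq_abs] at h2
    have h3 : ‖(ev sc (p j) - y j) (vac (n + 1))‖ ≤ ε := by
      refine (ContinuousLinearMap.le_opNorm _ _).trans ?_
      have hv : ‖vac (n + 1)‖ = 1 := bs_orthonormal.1 _
      rw [hv, mul_one, norm_sub_rev]
      exact hp j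
    have h4 := (abs_le.1 h2).2
    have h5 : ‖(ev sc (p j) - y j) (vac (n + 1))‖ ^ 2 ≤ ε ^ 2 :=
      pow_le_pow_left₀ (norm_nonneg _) h3 2
    have h6 := min_le_right γ' (ε ^ 2 / 2)
    linarith
  obtain ⟨A, hA1, hA2, hA3⟩ := hA N _ hN hMC
  refine ⟨A, hA1, hA2, fun j => ?_⟩
  have h2 := (m2 (ev A (p j) - ev (fun i => ev Y (q i)) (p j))
    (ev (fun i => ev Y (q i)) (p j) - Y j)).1
  rw [sub_add_sub_cancel] at h2
  have h3 := hA3 j
  have h4 := hnn j
  linarith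

end Pool.FR
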