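import Pool.Agent.Work.MP_118406_fr.Interface

set_option autoImplicit false

open scoped InnerProductSpace ComplexConjugate Topology BigOperators
open Set Filter MeasureTheory Pool.SI

noncomputable section

namespace Pool.FR

theorem p_WRD : Stmt_WRD := by
  intro k p
  have key : ∃ c : List k →₀ ℂ, ∀ (R : Type) [Ring R] [Algebra ℂ R] (a : k → R),
      ev a p = Finsupp.linearCombination ℂ (fun w : List k => (w.map a).prod) c := by
    induction p using FreeAlgebra.induction with
    | grade0 r =>
      refine ⟨Finsupp.single [] r, fun R _ _ a => ?_⟩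
      rw [Finsupp.linearCombination_single, AlgHom.commutes, Algebra.algebraMap_eq_smul_one]
      simp
    | grade1 x =>
      refine ⟨Finsupp.single [x] 1, fun R _ _ a => ?_⟩
      rw [Finsupp.linearCombination_single, FreeAlgebra.lift_ι_apply]
      simp
    | mul p q hp hq =>
      obtain ⟨c, hc⟩ := hp
      obtain ⟨d, hd⟩ := hq
      refine ⟨c.sum fun w z => d.sum fun v y => Finsupp.single (w ++ v) (z * y),
        fun R _ _ a => ?_⟩
      rw [map_mul, hc, hd, map_finsuppSum, Finsupp.linearCombination_apply,
        Finsupp.linearCombination_apply, Finsupp.sum, Finsupp.sum, Finset.sum_mul, Finsupp.sum]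
      refine Finset.sum_congr rfl fun w _ => ?_
      rw [map_finsuppSum, Finsupp.sum, Finset.mul_sum]
      refine Finset.sum_congr rfl fun v _ => ?_
      rw [Finsupp.linearCombination_single, List.map_append, List.prod_append, smul_mul_smul_comm]
    | add p q hp hq =>
      obtain ⟨c, hc⟩ := hp
      obtain ⟨d, hd⟩ := hq
      refine ⟨c + d, fun R _ _ a => ?_⟩
      rw [map_add, map_add, hc, hd]
  obtain ⟨c, hc⟩ := key
  refine ⟨c, fun R _ _ a => ?_⟩
  rw [hc, Finsupp.linearCombination_apply]

end Pool.FR
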