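import Pool.Agent.Work.MP_118406_fr.InterfaceS
import Pool.Agent.Work.MP_118406_fr.B_ASM

set_option autoImplicit false

open scoped InnerProductSpace ComplexConjugate Topology BigOperators
open Set Filter MeasureTheory Pool.SI

noncomputable section

namespace Pool.FR

theorem p_ASS (hHMB : Stmt_HMB) (hSDE : Stmt_SDE) (hGDE : Stmt_GDE) (hGVB : Stmt_GVB)
    (hGOD : Stmt_GOD) (hGO1 : Stmt_GO1) (hNEU : Stmt_NEU) (hLOV : Stmt_LVS) (hUPP : Stmt_UPS)
    (hMEA : Stmt_MES) : Stmt_ASS := by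
  obtain ⟨C₁, hC₁, hnet⟩ := hNEU
  refine ⟨C₁, hC₁, ?_⟩
  intro n k S y hy θ ε hθ hθ1 hε hε1 hNth
  obtain ⟨p, m0, N0, γ0, hγ0, hL⟩ := hLOV n k S y hy θ ε hθ hθ1 hε hε1 hNth
  obtain ⟨N1, hN1⟩ := hGOD k (max m0 2) (min γ0 1) (lt_min hγ0 one_pos)
  obtain ⟨N2, hN2⟩ := hGO1 (max m0 2) (min γ0 1) (lt_min hγ0 one_pos)
  refine ⟨max N0 (max N1 N2), fun N hN hN1' => ?_⟩
  have hNa : N0 ≤ N := (le_max_left _ _).trans hN
  have hNb : N1 ≤ N := ((le_max_left _ _).trans (le_max_right _ _)).trans hN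
  have hNc : N2 ≤ N := ((le_max_right _ _).trans (le_max_right _ _)).trans hN
  have hNr : (0 : ℝ) < N := by exact_mod_cast hN1'
  obtain ⟨f, hf⟩ := ASM_clm N hN1'
  obtain ⟨L, v, hLc, hv, hvn⟩ := hnet ε N hε hε1 hN1'
  have hGg := hN1 N hNb hN1'
  have hGx := hN2 N hNc hN1'
  obtain ⟨hherm, -, -, hnn, -, -, -⟩ := hHMB N hN1'
  have i1 : ∀ (ι : Type) [Fintype ι], IsProbabilityMeasure (gs ι) := fun ι _ => by
    unfold gs
    infer_instance
  set s : ℝ := Real.sqrt (2 * Real.pi) with hs_def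
  have hs : 0 < s := Real.sqrt_pos.2 (by positivity)
  have hsin : 0 ≤ Real.sin θ :=
    Real.sin_nonneg_of_nonneg_of_le_pi hθ.le (hθ1.trans (by linarith [Real.pi_gt_three]))
  -- the good sets
  let Gg : Set (Fin k × Fin N × Fin N → ℝ) := {g | MC k (max m0 2) (min γ0 1) N (hmk g)}
  let Gx : Set (Fin N × Fin N → ℝ) :=
    {x | ∀ j ≤ max m0 2, ‖ntr ((hm x : Mat N) ^ j) - cat j‖ ≤ min γ0 1}
  have hGg' : ENNReal.ofReal (3 / 4) ≤ gs (Fin k × Fin N × Fin N) Gg :=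
    ASM_compl _ Gg _ (fun g => by
      by_cases h : MC k (max m0 2) (min γ0 1) N (hmk g)
      · exact Or.inl h
      · exact Or.inr h) hGg
  have hGx' : ENNReal.ofReal (3 / 4) ≤ gs (Fin N × Fin N) Gx :=
    ASM_compl _ Gx _ (fun x => by
      by_cases h : x ∈ Gx
      · exact Or.inl h
      · right
        by_contra h'
        apply h
        intro j hj
        by_contra h''
        exact h' ⟨j, hj, not_le.1 h''⟩) hGx
  have hGxv := ASM_vol hGDE N Gx hGx'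
  -- the bounds
  have key := ASM_bounds (gs (Fin k × Fin N × Fin N)) (volume : Measure (Fin N × Fin N → ℝ))
    (volume : Measure (Fin n × Fin N × Fin N → ℝ)) _ (hMEA n k N L S p f v ε) Gg Gx
    (ENNReal.ofReal (1 / 2 * (s * Real.sin θ) ^ (n * N ^ 2)))
    (by
      intro g hg x hx
      refine (hL N f L v hNa hN1' hf hvn (hmk g) x ⟨hg.1, fun w hw => ?_⟩ fun j hj => ?_).trans ?_
      · exact (hg.2 w (hw.trans (le_max_left _ _))).trans (min_le_left _ _)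
      · exact (hx j (hj.trans (le_max_left _ _))).trans (min_le_left _ _)
      · refine measure_mono fun b hb => ?_
        refine ⟨?_, hb⟩
        show ∑ q, x q ^ 2 ≤ 2 * (N : ℝ) ^ 2
        have h1 := hx 2 (le_max_right _ _)
        rw [ASM_nn _ (hherm x), ASM_cat hSDE] at h1
        have h2 : |nn (hm x : Mat N) - 1| ≤ 1 := by
          have h3 : ((nn (hm x : Mat N) : ℝ) : ℂ) - 1 = ((nn (hm x : Mat N) - 1 : ℝ) : ℂ) := by
            push_cast
            rfl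
          rw [h3, Complex.norm_real, Real.norm_eq_abs] at h1
          exact h1.trans (min_le_right _ _)
        have h4 := (abs_le.1 h2).2
        rw [hnn x] at h4
        have h5 : (∑ q, x q ^ 2) / (N : ℝ) ^ 2 ≤ 2 := by linarith
        rwa [div_le_iff₀ (by positivity)] at h5)
    {x | ∑ i, x i ^ 2 ≤ 2 * Fintype.card (Fin N × Fin N)}
    {b | ∑ i, b i ^ 2 ≤ 80 * Fintype.card (Fin n × Fin N × Fin N)}
    (ENNReal.ofReal (L * (33 * ε) ^ (S.card * N ^ 2)))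
    (by
      intro g x b hz
      obtain ⟨h1, h2, -⟩ := hz
      refine ⟨?_, ?_⟩
      · show ∑ i, x i ^ 2 ≤ 2 * ((Fintype.card (Fin N × Fin N) : ℕ) : ℝ)
        rw [Fintype.card_prod, Fintype.card_fin]
        push_cast
        have h3 : ∑ q, x q ^ 2 ≤ 2 * (N : ℝ) ^ 2 := h1
        linarith [h3, sq (N : ℝ)]
      · show ∑ i, b i ^ 2 ≤ 80 * ((Fintype.card (Fin n × Fin N × Fin N) : ℕ) : ℝ)
        rw [Fintype.card_prod, Fintype.card_prod, Fintype.card_fin, Fintype.card_fin]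
        push_cast
        have h3 : ∑ q, b q ^ 2 ≤ 80 * n * (N : ℝ) ^ 2 := h2
        have h4 : 80 * (n : ℝ) * (N : ℝ) ^ 2 = 80 * ((n : ℝ) * ((N : ℝ) * N)) := by ring
        linarith)
    (by
      intro x b
      refine le_trans (measure_mono fun g hg => ?_) (hUPP k N L S v (FF p f x b) ε hN1' hε hv)
      exact hg.2.2)
  -- volumes of the balls
  have hV1 := hGVB (Fin N × Fin N) 2 (by norm_num)
  have hV2 := hGVB (Fin n × Fin N × Fin N) 80 (by norm_num)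
  have hc1 : Fintype.card (Fin N × Fin N) = N ^ 2 := by
    rw [Fintype.card_prod, Fintype.card_fin, pow_two]
  have hc2 : Fintype.card (Fin n × Fin N × Fin N) = n * N ^ 2 := by
    rw [Fintype.card_prod, Fintype.card_prod, Fintype.card_fin, Fintype.card_fin, pow_two]
  have hlow : ENNReal.ofReal (1 / 2 * (s * Real.sin θ) ^ (n * N ^ 2) * (3 / 4 * s ^ (N ^ 2)) *
      (3 / 4)) ≤ ENNReal.ofReal (1 / 2 * (s * Real.sin θ) ^ (n * N ^ 2)) * volume Gx *
        gs (Fin k × Fin N × Fin N) Gg := by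
    rw [ENNReal.ofReal_mul (by positivity), ENNReal.ofReal_mul (by positivity)]
    gcongr
  have hup : ENNReal.ofReal (L * (33 * ε) ^ (S.card * N ^ 2)) *
      (volume {x : Fin N × Fin N → ℝ | ∑ i, x i ^ 2 ≤ 2 * Fintype.card (Fin N × Fin N)} *
        volume {b : Fin n × Fin N × Fin N → ℝ |
          ∑ i, b i ^ 2 ≤ 80 * Fintype.card (Fin n × Fin N × Fin N)}) ≤
      ENNReal.ofReal ((C₁ / ε) ^ (N ^ 2) * (33 * ε) ^ (S.card * N ^ 2) *
        ((s * Real.exp (2 / 2)) ^ (N ^ 2) * (s * Real.exp (80 / 2)) ^ (n * N ^ 2))) := by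
    have hX : 0 ≤ (C₁ / ε) ^ (N ^ 2) * (33 * ε) ^ (S.card * N ^ 2) := by positivity
    have hY : 0 ≤ (s * Real.exp (2 / 2)) ^ (N ^ 2) := by positivity
    rw [ENNReal.ofReal_mul hX, ENNReal.ofReal_mul hY]
    rw [hc1] at hV1
    rw [hc2] at hV2
    rw [hc1, hc2]
    refine mul_le_mul' ?_ (mul_le_mul' hV1 hV2)
    exact ENNReal.ofReal_le_ofReal (mul_le_mul_of_nonneg_right hLc (by positivity))
  have hfin := (hlow.trans key).trans hup
  rw [ENNReal.ofReal_le_ofReal_iff (by positivity)] at hfin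
  -- divide
  have hsN : 0 < s ^ (N ^ 2) * s ^ (n * N ^ 2) := by positivity
  have e1 : 1 / 2 * (s * Real.sin θ) ^ (n * N ^ 2) * (3 / 4 * s ^ (N ^ 2)) * (3 / 4) =
      (9 / 32 * Real.sin θ ^ (n * N ^ 2)) * (s ^ (N ^ 2) * s ^ (n * N ^ 2)) := by
    rw [mul_pow]
    ring
  have e2 : Real.exp (1 + 40 * n) ^ (N ^ 2) =
      Real.exp (2 / 2) ^ (N ^ 2) * Real.exp (80 / 2) ^ (n * N ^ 2) := by
    rw [← Real.exp_nat_mul, ← Real.exp_nat_mul, ← Real.exp_nat_mul, ← Real.exp_add]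
    congr 1
    push_cast
    ring
  have e3 : (C₁ / ε) ^ (N ^ 2) * (33 * ε) ^ (S.card * N ^ 2) *
      ((s * Real.exp (2 / 2)) ^ (N ^ 2) * (s * Real.exp (80 / 2)) ^ (n * N ^ 2)) =
      ((C₁ / ε) ^ (N ^ 2) * (33 * ε) ^ (S.card * N ^ 2) * Real.exp (1 + 40 * n) ^ (N ^ 2)) *
        (s ^ (N ^ 2) * s ^ (n * N ^ 2)) := by
    rw [e2, mul_pow s, mul_pow s]
    ring
  rw [e1, e3] at hfin
  have h9 := le_of_mul_le_mul_right hfin hsN
  have h10 : 0 ≤ Real.sin θ ^ (n * N ^ 2) := pow_nonneg hsin _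
  linarith

end Pool.FR
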