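import Pool.Agent.Work.MP_118406_fr.InterfaceS

set_option autoImplicit false

/-!
# The fractional Sobolev classes, for a sub-family
-/

open scoped InnerProductSpace ComplexConjugate Topology BigOperators
open Set Filter MeasureTheory Pool.SI

noncomputable section

namespace Pool.FR

theorem p_CRS (hNTH : Stmt_NTH) (hNTO : Stmt_NTO) (hCOS : Stmt_COS) : Stmt_CRS := by
  intro n k S hS y hy α hα hα1 hs
  obtain ⟨c, hc, hC⟩ := hCOS n S.card hS
  have hs1 : (0 : ℝ) < (S.card : ℝ) - 1 := by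
    have : (2 : ℝ) ≤ S.card := by exact_mod_cast hS
    linarith
  have hI : Ioc (0 : ℝ) 1 ∈ 𝓝[>] (0 : ℝ) := Ioc_mem_nhdsGT one_pos
  -- the quotient
  have hq : ∀ᶠ θ : ℝ in 𝓝[>] 0, c * θ ^ (2 * (n : ℝ) / ((S.card : ℝ) - 1) - 2 * α) ≤
      ∑ j ∈ S, Nth θ (y j (vac (n + 1))) / θ ^ (2 * α) := by
    filter_upwards [hI] with θ hθ
    have h1 := hC k S rfl y hy θ hθ.1 hθ.2
    have h2 : 0 < θ ^ (2 * α) := Real.rpow_pos_of_pos hθ.1 _
    rw [Real.rpow_sub hθ.1, ← Finset.sum_div, ← mul_div_assoc]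
    exact div_le_div_of_nonneg_right h1 h2.le
  have h1 : α * ((S.card : ℝ) - 1) ≤ n := by
    by_contra hcon
    push Not at hcon
    have ha : 0 < 2 * α - 2 * (n : ℝ) / ((S.card : ℝ) - 1) := by
      rw [sub_pos, div_lt_iff₀ hs1]
      linarith
    have h3 : ∀ᶠ θ : ℝ in 𝓝[>] 0, c ≤
        (∑ j ∈ S, 2 * ∑' w, (cnt w : ℝ) ^ α * ‖(y j (vac (n + 1))) w‖ ^ 2) *
          θ ^ (2 * α - 2 * (n : ℝ) / ((S.card : ℝ) - 1)) := by
      filter_upwards [hI] with θ hθ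
      have e1 := hC k S rfl y hy θ hθ.1 hθ.2
      have e2 : ∑ j ∈ S, Nth θ (y j (vac (n + 1))) ≤
          (∑ j ∈ S, 2 * ∑' w, (cnt w : ℝ) ^ α * ‖(y j (vac (n + 1))) w‖ ^ 2) * θ ^ (2 * α) := by
        rw [Finset.sum_mul]
        refine Finset.sum_le_sum fun j hj => ?_
        refine ((hNTH n θ hθ.1.le hθ.2).2.2 α _ hα hα1 (hs j hj)).trans (le_of_eq ?_)
        ring
      have e3 : 0 < θ ^ (2 * (n : ℝ) / ((S.card : ℝ) - 1)) := Real.rpow_pos_of_pos hθ.1 _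
      rw [Real.rpow_sub hθ.1, ← mul_div_assoc, le_div_iff₀ e3]
      exact e1.trans e2
    have h4 : Tendsto (fun θ : ℝ =>
        (∑ j ∈ S, 2 * ∑' w, (cnt w : ℝ) ^ α * ‖(y j (vac (n + 1))) w‖ ^ 2) *
          θ ^ (2 * α - 2 * (n : ℝ) / ((S.card : ℝ) - 1))) (𝓝[>] 0) (𝓝 0) := by
      have e1 : Tendsto (fun θ : ℝ => θ ^ (2 * α - 2 * (n : ℝ) / ((S.card : ℝ) - 1)))
          (𝓝[>] 0) (𝓝 0) := by
        have e2 := (Real.continuousAt_rpow_const 0
          (2 * α - 2 * (n : ℝ) / ((S.card : ℝ) - 1)) (Or.inr ha.le)).tendsto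
        rw [Real.zero_rpow ha.ne'] at e2
        exact e2.mono_left nhdsWithin_le_nhds
      have e3 := e1.const_mul
        (∑ j ∈ S, 2 * ∑' w, (cnt w : ℝ) ^ α * ‖(y j (vac (n + 1))) w‖ ^ 2)
      rwa [mul_zero] at e3
    have h5 := ge_of_tendsto h4 h3
    linarith
  refine ⟨h1, fun hα2 => ?_⟩
  rcases h1.lt_or_eq with h2 | h2
  · exact h2
  · exfalso
    have ha : 2 * (n : ℝ) / ((S.card : ℝ) - 1) - 2 * α = 0 := by
      rw [← h2]
      field_simp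
      ring
    simp only [ha, Real.rpow_zero, mul_one] at hq
    have h3 : Tendsto (fun θ : ℝ => ∑ j ∈ S, Nth θ (y j (vac (n + 1))) / θ ^ (2 * α))
        (𝓝[>] 0) (𝓝 0) := by
      have := tendsto_finsetSum S fun j hj => hNTO n α (y j (vac (n + 1))) hα hα2 (hs j hj)
      simpa using this
    have h4 := ge_of_tendsto h3 hq
    linarith

end Pool.FR
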