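import Pool.Agent.Work.MP_118406_fr.InterfaceS

set_option autoImplicit false

/-!
# Small balls of the Gaussian measure, in some of the coordinates
-/

open scoped InnerProductSpace ComplexConjugate Topology BigOperators
open Set Filter MeasureTheory Pool.SI

noncomputable section

namespace Pool.FR

/-- The exponential moment of one coordinate. -/
theorem GSS_one (y r : ℝ) (hr : 0 < r) (hr1 : r < 1) :
    ∫⁻ x, ENNReal.ofReal (Real.exp (-(1 / r ^ 2 - 1) * (y - x) ^ 2 / 2))
      ∂(ProbabilityTheory.gaussianReal 0 1) ≤ ENNReal.ofReal r := by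
  have hlam : 0 < 1 / r ^ 2 - 1 := by
    have : 1 < 1 / r ^ 2 := by
      rw [lt_div_iff₀ (by positivity)]
      nlinarith
    linarith
  rw [ProbabilityTheory.gaussianReal_of_var_ne_zero 0 one_ne_zero,
    lintegral_withDensity_eq_lintegral_mul _ (ProbabilityTheory.measurable_gaussianPDF 0 1)
      (by fun_prop)]
  set lam := 1 / r ^ 2 - 1 with hl
  have hr2 : lam + 1 = 1 / r ^ 2 := by rw [hl]; ring
  have h1 : ∀ x : ℝ, (ProbabilityTheory.gaussianPDF 0 1 *
      fun x => ENNReal.ofReal (Real.exp (-lam * (y - x) ^ 2 / 2))) x ≤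
      ENNReal.ofReal ((Real.sqrt (2 * Real.pi))⁻¹ *
        Real.exp (-(1 / (2 * r ^ 2)) * (x - lam * r ^ 2 * y) ^ 2)) := by
    intro x
    simp only [Pi.mul_apply, ProbabilityTheory.gaussianPDF, ProbabilityTheory.gaussianPDFReal,
      NNReal.coe_one, mul_one, sub_zero]
    rw [← ENNReal.ofReal_mul (by positivity)]
    apply ENNReal.ofReal_le_ofReal
    rw [mul_assoc, ← Real.exp_add]
    apply mul_le_mul_of_nonneg_left _ (by positivity)
    apply Real.exp_le_exp.2
    have e1 : -x ^ 2 / 2 + -lam * (y - x) ^ 2 / 2 =
        -(1 / (2 * r ^ 2)) * (x - lam * r ^ 2 * y) ^ 2 - lam * r ^ 2 * y ^ 2 / 2 := by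
      have e2 : lam = 1 / r ^ 2 - 1 := hl
      rw [e2]
      field_simp
      ring
    rw [e1]
    have : 0 ≤ lam * r ^ 2 * y ^ 2 / 2 := by positivity
    linarith
  refine (lintegral_mono h1).trans ?_
  rw [← ofReal_integral_eq_lintegral_ofReal]
  · apply ENNReal.ofReal_le_ofReal
    rw [integral_const_mul, integral_sub_right_eq_self
      (fun x : ℝ => Real.exp (-(1 / (2 * r ^ 2)) * x ^ 2)), integral_gaussian]
    have e3 : Real.pi / (1 / (2 * r ^ 2)) = (2 * Real.pi) * r ^ 2 := by
      field_simp
    rw [e3, Real.sqrt_mul (show (0 : ℝ) ≤ 2 * Real.pi by positivity), Real.sqrt_sq hr.le,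
      ← mul_assoc, inv_mul_cancel₀ (by positivity), one_mul]
  · apply Integrable.const_mul
    exact (integrable_exp_neg_mul_sq (b := 1 / (2 * r ^ 2)) (by positivity)).comp_sub_right _
  · filter_upwards with x
    positivity

theorem p_GSS : Stmt_GSS := by
  intro ι _ T y r hr
  classical
  have hP : IsProbabilityMeasure (gs ι) := by
    unfold gs
    infer_instance
  rcases le_or_gt 1 r with h1 | h1
  · refine prob_le_one.trans ?_
    rw [← ENNReal.ofReal_one]
    apply ENNReal.ofReal_le_ofReal
    have : 1 ≤ Real.exp (1 / 2) := Real.one_le_exp (by norm_num)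
    exact one_le_pow₀ (by nlinarith)
  · set lam := 1 / r ^ 2 - 1 with hl
    have hlam : 0 < lam := by
      have : 1 < 1 / r ^ 2 := by
        rw [lt_div_iff₀ (by positivity)]
        nlinarith
      linarith
    -- the exponential function
    let g : ι → ℝ → ℝ := fun i t => if i ∈ T then Real.exp (-lam * (y i - t) ^ 2 / 2) else 1
    have hg0 : ∀ i t, 0 ≤ g i t := by
      intro i t
      simp only [g]
      split_ifs
      · exact (Real.exp_pos _).le
      · exact zero_le_one
    have hgc : ∀ i, Continuous (g i) := by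
      intro i
      by_cases hi : i ∈ T
      · simp only [g, hi, if_true]
        fun_prop
      · simp only [g, hi, if_false]
        exact continuous_const
    have hg1 : ∀ i t, g i t ≤ 1 := by
      intro i t
      simp only [g]
      split_ifs
      · apply Real.exp_le_one_iff.2
        have : 0 ≤ lam * (y i - t) ^ 2 := by positivity
        linarith
      · exact le_rfl
    have hgi : ∀ i, Integrable (g i) (ProbabilityTheory.gaussianReal 0 1) := by
      intro i
      refine Integrable.mono' (integrable_const (1 : ℝ)) (hgc i).aestronglyMeasurable ?_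
      filter_upwards with t
      rw [Real.norm_eq_abs, abs_of_nonneg (hg0 i t)]
      exact hg1 i t
    have hgI : ∀ i, ∫ t, g i t ∂(ProbabilityTheory.gaussianReal 0 1) ≤
        if i ∈ T then r else 1 := by
      intro i
      by_cases hi : i ∈ T
      · rw [if_pos hi, integral_eq_lintegral_of_nonneg_ae (Eventually.of_forall (hg0 i))
          (hgc i).aestronglyMeasurable]
        refine ENNReal.toReal_le_of_le_ofReal hr.le ?_
        simp only [g, hi, if_true]
        exact GSS_one (y i) r hr h1
      · rw [if_neg hi]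
        simp only [g, hi, if_false]
        simp
    let f : (ι → ℝ) → ENNReal := fun x => ENNReal.ofReal (∏ i, g i (x i))
    have hf : ∀ x, f x = ENNReal.ofReal (Real.exp (-lam * (∑ i ∈ T, (y i - x i) ^ 2) / 2)) := by
      intro x
      simp only [f, g]
      rw [Finset.prod_ite_mem, Finset.univ_inter, ← Real.exp_sum]
      congr 2
      rw [← Finset.sum_div, ← Finset.mul_sum]
    have hint : ∫⁻ x, f x ∂(gs ι) ≤ ENNReal.ofReal (r ^ T.card) := by
      have hI : Integrable (fun x : ι → ℝ => ∏ i, g i (x i)) (gs ι) :=
        Integrable.fintype_prod fun i => hgi i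
      simp only [f]
      rw [← ofReal_integral_eq_lintegral_ofReal hI
        (Eventually.of_forall fun x => Finset.prod_nonneg fun i _ => hg0 i (x i))]
      apply ENNReal.ofReal_le_ofReal
      have e1 : ∫ x, ∏ i, g i (x i) ∂(gs ι) =
          ∏ i, ∫ t, g i t ∂(ProbabilityTheory.gaussianReal 0 1) := by
        unfold gs
        exact integral_fintype_prod_eq_prod _
      rw [e1]
      calc ∏ i, ∫ t, g i t ∂(ProbabilityTheory.gaussianReal 0 1)
          ≤ ∏ i, (if i ∈ T then r else 1) := by
            apply Finset.prod_le_prod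
            · intro i _
              exact integral_nonneg (hg0 i)
            · intro i _
              exact hgI i
        _ = r ^ T.card := by
            rw [Finset.prod_ite_mem, Finset.univ_inter, Finset.prod_const]
    -- Markov
    have hE : (gs ι) {x | ∑ i ∈ T, (y i - x i) ^ 2 ≤ r ^ 2 * T.card} ≤
        ENNReal.ofReal (Real.exp (lam * r ^ 2 * T.card / 2)) * ∫⁻ x, f x ∂(gs ι) := by
      rw [← lintegral_const_mul' _ _ ENNReal.ofReal_ne_top]
      have hmeas : MeasurableSet {x : ι → ℝ | ∑ i ∈ T, (y i - x i) ^ 2 ≤ r ^ 2 * T.card} :=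
        (isClosed_le (by fun_prop) continuous_const).measurableSet
      rw [← lintegral_indicator_one hmeas]
      refine lintegral_mono fun x => ?_
      by_cases hx : x ∈ {x : ι → ℝ | ∑ i ∈ T, (y i - x i) ^ 2 ≤ r ^ 2 * T.card}
      · rw [indicator_of_mem hx]
        rw [hf, ← ENNReal.ofReal_mul (Real.exp_pos _).le, ← Real.exp_add]
        simp only [Pi.one_apply]
        rw [← ENNReal.ofReal_one]
        apply ENNReal.ofReal_le_ofReal
        apply Real.one_le_exp
        have hx' : ∑ i ∈ T, (y i - x i) ^ 2 ≤ r ^ 2 * T.card := hx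
        have := mul_le_mul_of_nonneg_left hx' hlam.le
        linarith
      · rw [indicator_of_notMem hx]
        exact bot_le
    refine hE.trans ?_
    calc ENNReal.ofReal (Real.exp (lam * r ^ 2 * T.card / 2)) * ∫⁻ x, f x ∂(gs ι)
        ≤ ENNReal.ofReal (Real.exp (lam * r ^ 2 * T.card / 2)) * ENNReal.ofReal (r ^ T.card) := by
          gcongr
      _ = ENNReal.ofReal (Real.exp (lam * r ^ 2 * T.card / 2) * r ^ T.card) := by
          rw [ENNReal.ofReal_mul (Real.exp_pos _).le]
      _ ≤ ENNReal.ofReal ((Real.exp (1 / 2) * r) ^ T.card) := by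
          apply ENNReal.ofReal_le_ofReal
          rw [mul_pow, ← Real.exp_nat_mul]
          apply mul_le_mul_of_nonneg_right _ (by positivity)
          apply Real.exp_le_exp.2
          have e1 : lam * r ^ 2 = 1 - r ^ 2 := by
            rw [hl]
            field_simp
          rw [e1]
          have e2 : (0 : ℝ) ≤ T.card := by positivity
          have e3 : 0 ≤ r ^ 2 * T.card := by positivity
          linarith

end Pool.FR
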