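import Pool.Agent.Work.MP_118406_fr.InterfaceS
import Pool.Agent.Work.MP_118406_fr.B_MEA

set_option autoImplicit false

open scoped InnerProductSpace ComplexConjugate Topology BigOperators
open Set Filter MeasureTheory Pool.SI

noncomputable section

namespace Pool.FR

theorem p_MES (hC : Stmt_CTN) : Stmt_MES := by
  intro n k N L S p f v ε
  have hm1 := MEA_hm N
  have hmk1 : ∀ (Γ : Type) (i : Γ), Continuous fun g : Γ × Fin N × Fin N → ℝ => (hmk g i : Mat N) := by
    intro Γ i
    exact hm1.comp (continuous_pi fun q => continuous_apply _)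
  -- the tuple
  have ha : ∀ i : Fin (n + 1), Continuous fun z : (Fin k × Fin N × Fin N → ℝ) ×
      ((Fin N × Fin N → ℝ) × (Fin n × Fin N × Fin N → ℝ)) =>
      (Fin.cons (Polynomial.aeval (hm z.2.1 : Mat N) f) (hmk z.2.2) : Fin (n + 1) → Mat N) i := by
    intro i
    refine Fin.cases ?_ (fun j => ?_) i
    · simp only [Fin.cons_zero]
      exact (Polynomial.continuous_aeval f).comp (hm1.comp (continuous_fst.comp continuous_snd))
    · simp only [Fin.cons_succ]
      exact (hmk1 _ j).comp (continuous_snd.comp continuous_snd)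
  have hFF : ∀ j : Fin k, Continuous fun z : (Fin k × Fin N × Fin N → ℝ) ×
      ((Fin N × Fin N → ℝ) × (Fin n × Fin N × Fin N → ℝ)) => FF p f z.2.1 z.2.2 j := by
    intro j
    exact hC (Fin (n + 1)) (p j) N ((Fin k × Fin N × Fin N → ℝ) ×
      ((Fin N × Fin N → ℝ) × (Fin n × Fin N × Fin N → ℝ)))
      (fun i (z : (Fin k × Fin N × Fin N → ℝ) ×
      ((Fin N × Fin N → ℝ) × (Fin n × Fin N × Fin N → ℝ))) =>
        (Fin.cons (Polynomial.aeval (hm z.2.1 : Mat N) f)
      (hmk z.2.2) : Fin (n + 1) → Mat N) i) ha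
  have hY : ∀ j : Fin k, Continuous fun z : (Fin k × Fin N × Fin N → ℝ) ×
      ((Fin N × Fin N → ℝ) × (Fin n × Fin N × Fin N → ℝ)) => (hmk z.1 j : Mat N) := by
    intro j
    exact (hmk1 _ j).comp continuous_fst
  have hset : {z : (Fin k × Fin N × Fin N → ℝ) ×
      ((Fin N × Fin N → ℝ) × (Fin n × Fin N × Fin N → ℝ)) |
        ∑ q, z.2.1 q ^ 2 ≤ 2 * (N : ℝ) ^ 2 ∧ GoodS S p f v ε (hmk z.1) z.2.1 z.2.2} =
      {z | ∑ q, z.2.1 q ^ 2 ≤ 2 * (N : ℝ) ^ 2} ∩
        ({z | ∑ i, z.2.2 i ^ 2 ≤ 80 * n * (N : ℝ) ^ 2} ∩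
          ⋃ l : Fin L, {z | ∑ j ∈ S, nn (FF p f z.2.1 z.2.2 j - v l * hmk z.1 j * star (v l)) ≤
            400 * S.card * ε ^ 2}) := by
    ext z
    simp only [Set.mem_ofPred_eq, Set.mem_inter_iff, Set.mem_iUnion, GoodS]
  rw [hset]
  refine IsClosed.measurableSet ?_
  refine IsClosed.inter ?_ (IsClosed.inter ?_ ?_)
  · refine isClosed_le ?_ continuous_const
    exact continuous_finsetSum _ fun q _ => ((continuous_apply q).comp
      (continuous_fst.comp continuous_snd)).pow 2
  · refine isClosed_le ?_ continuous_const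
    exact continuous_finsetSum _ fun q _ => ((continuous_apply q).comp
      (continuous_snd.comp continuous_snd)).pow 2
  · refine isClosed_iUnion_of_finite fun l => ?_
    refine isClosed_le ?_ continuous_const
    refine continuous_finsetSum _ fun j _ => (MEA_nn N).comp ((hFF j).sub ?_)
    exact (continuous_const.matrix_mul (hY j)).matrix_mul continuous_const

end Pool.FR
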