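import Pool.Agent.Work.MP_118406_fr.B_MXA_49
import Pool.Agent.Work.MP_118406_fr.B_HMB
import Pool.Agent.Work.MP_118406_fr.B_STE
import Pool.Agent.Work.MP_118406_fr.B_RPR
import Pool.Agent.Work.MP_118406_fr.B_INT
import Pool.Agent.Work.MP_118406_fr.B_RDW
import Pool.Agent.Work.MP_118406_fr.B_CMP
import Pool.Agent.Work.MP_118406_fr.B_REC
import Pool.Agent.Work.MP_118406_fr.B_CNV
import Pool.Agent.Work.MP_118406_fr.B_SDE
import Pool.Agent.Work.MP_118406_fr.B_EMB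
import Pool.Agent.Work.MP_118406_fr.B_ROT
import Pool.Agent.Work.MP_118406_fr.B_WRD
import Pool.Agent.Work.MP_118406_fr.B_DAG
import Pool.Agent.Work.MP_118406_fr.B_GEX
import Pool.Agent.Work.MP_118406_fr.B_GOD
import Pool.Agent.Work.MP_118406_fr.B_MT1
import Pool.Agent.Work.MP_118406_fr.B_GDE
import Pool.Agent.Work.MP_118406_fr.B_GMK
import Pool.Agent.Work.MP_118406_fr.B_CTN
import Pool.Agent.Work.MP_118406_fr.B_OBB
import Pool.Agent.Work.MP_118406_fr.B_BDT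
import Pool.Agent.Work.MP_118406_fr.B_NTH
import Pool.Agent.Work.MP_118406_fr.B_SPL
import Pool.Agent.Work.MP_118406_fr.B_RBD_49
import Pool.Agent.Work.MP_118406_fr.B_EV2
import Pool.Agent.Work.MP_118406_fr.B_TR1
import Pool.Agent.Work.MP_118406_fr.B_SPC
import Pool.Agent.Work.MP_118406_fr.B_SPD
import Pool.Agent.Work.MP_118406_fr.B_CLP
import Pool.Agent.Work.MP_118406_fr.B_TR2
import Pool.Agent.Work.MP_118406_fr.B_TRA
import Pool.Agent.Work.MP_118406_fr.B_CPX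
import Pool.Agent.Work.MP_118406_fr.B_MTC
import Pool.Agent.Work.MP_118406_fr.B_NTO
import Pool.Agent.Work.MP_118406_fr.B_GVB
import Pool.Agent.Work.MP_118406_fr.B_GO1
import Pool.Agent.Work.MP_118406_fr.B_NTP
import Pool.Agent.Work.MP_118406_fr.B_NEU
import Pool.Agent.Work.MP_118406_fr.B_GNF
import Pool.Agent.Work.MP_118406_fr.S_LOS
import Pool.Agent.Work.MP_118406_fr.S_LVS
import Pool.Agent.Work.MP_118406_fr.S_GSS
import Pool.Agent.Work.MP_118406_fr.S_UPS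
import Pool.Agent.Work.MP_118406_fr.S_MES
import Pool.Agent.Work.MP_118406_fr.S_ASS
import Pool.Agent.Work.MP_118406_fr.S_COS
import Pool.Agent.Work.MP_118406_fr.S_CRS
import Pool.Agent.Work.MP_118406_fr.DGR

set_option autoImplicit false

noncomputable section

namespace Pool.FR

theorem t_MXA : Stmt_MXA := p_MXA
theorem t_HMB : Stmt_HMB := p_HMB t_MXA
theorem t_STE : Stmt_STE := p_STE
theorem t_RPR : Stmt_RPR := p_RPR t_HMB
theorem t_INT : Stmt_INT := p_INT t_STE t_RPR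
theorem t_RDW : Stmt_RDW := p_RDW
theorem t_CMP : Stmt_CMP := p_CMP
theorem t_REC : Stmt_REC := p_REC t_STE t_RPR t_RDW t_CMP
theorem t_CNV : Stmt_CNV := p_CNV t_MXA t_REC
theorem t_SDE : Stmt_SDE := p_SDE
theorem t_EMB : Stmt_EMB := p_EMB t_SDE
theorem t_ROT : Stmt_ROT := p_ROT
theorem t_WRD : Stmt_WRD := p_WRD
theorem t_DAG : Stmt_DAG := p_DAG
theorem t_GEX : Stmt_GEX := p_GEX t_MXA t_HMB t_INT t_CNV t_SDE t_EMB t_ROT t_WRD t_DAG
theorem t_GOD : Stmt_GOD := p_GOD t_HMB t_INT t_CNV t_SDE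
theorem t_MT1 : Stmt_MT1 := p_MT1
theorem t_GDE : Stmt_GDE := p_GDE
theorem t_GMK : Stmt_GMK := p_GMK
theorem t_CTN : Stmt_CTN := p_CTN
theorem t_OBB : Stmt_OBB := p_OBB t_MXA
theorem t_BDT : Stmt_BDT := p_BDT t_MXA t_OBB
theorem t_NTH : Stmt_NTH := p_NTH
theorem t_SPL : Stmt_SPL := p_SPL
theorem t_RBD : Stmt_RBD := p_RBD
theorem t_EV2 : Stmt_EV2 := p_EV2 t_RBD
theorem t_TR1 : Stmt_TR1 := p_TR1 t_MXA t_SDE t_RBD t_EV2 t_WRD t_DAG
theorem t_SPC : Stmt_SPC := p_SPC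
theorem t_SPD : Stmt_SPD := p_SPD t_MXA
theorem t_CLP : Stmt_CLP := p_CLP t_SPC t_SPD
theorem t_TR2 : Stmt_TR2 := p_TR2 t_MXA t_OBB t_SDE t_WRD t_CLP
theorem t_TRA : Stmt_TRA := p_TRA t_MXA t_DAG t_TR1 t_TR2
theorem t_CPX : Stmt_CPX := p_CPX t_SPC t_SPD t_SDE
theorem t_MTC : Stmt_MTC := p_MTC t_MXA t_SPC t_SPD t_MT1
theorem t_NTO : Stmt_NTO := p_NTO
theorem t_GVB : Stmt_GVB := p_GVB
theorem t_GO1 : Stmt_GO1 := p_GO1 t_GOD
theorem t_NTP : Stmt_NTP := p_NTP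
theorem t_NEU : Stmt_NEU := p_NEU t_MXA t_HMB t_NTP
theorem t_GNF : Stmt_GNF := p_GNF t_SPL
theorem t_LOS : Stmt_LOS := p_LOS t_MXA t_OBB t_HMB t_BDT t_SDE t_EMB t_NTH t_SPL t_TRA t_CPX t_MTC t_GEX
theorem t_LVS : Stmt_LVS := p_LVS t_MXA t_HMB t_GDE t_GMK t_SDE t_CTN t_LOS
theorem t_GSS : Stmt_GSS := p_GSS
theorem t_UPS : Stmt_UPS := p_UPS t_MXA t_HMB t_GSS
theorem t_MES : Stmt_MES := p_MES t_CTN
theorem t_ASS : Stmt_ASS := p_ASS t_HMB t_SDE t_GDE t_GVB t_GOD t_GO1 t_NEU t_LVS t_UPS t_MES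
theorem t_COS : Stmt_COS := p_COS t_ASS
theorem t_CRS : Stmt_CRS := p_CRS t_NTH t_NTO t_COS
theorem t_DGR : Stmt_DGR := p_DGR t_SDE t_NTH t_COS

end Pool.FR
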