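import Pool.Agent.Work.MP_118406_fr.Interface

set_option autoImplicit false

open scoped InnerProductSpace ComplexConjugate Topology BigOperators
open Set Filter MeasureTheory Pool.SI

noncomputable section

namespace Pool.FR

/-- Polynomials in bounded matrices. -/
theorem p_BDT (hMXA : Stmt_MXA) (hOBB : Stmt_OBB) : Stmt_BDT := by
  intro k _ p
  induction p using FreeAlgebra.induction with
  | grade0 r =>
    refine ⟨‖r‖, norm_nonneg _, ?_⟩
    intro N A B hN hA hB
    obtain ⟨o1, o2, o3, o4, o5⟩ := hOBB N hN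
    obtain ⟨m1, m2, m3, m4, m5, m6, m7, m8⟩ := hMXA N hN
    have hs : 0 ≤ ∑ i, nn (A i - B i) := Finset.sum_nonneg fun i _ => (m1 _).1
    refine ⟨?_, ?_⟩
    · have h := o3 1 r 1 o1
      rw [mul_one] at h
      rw [AlgHom.commutes, Algebra.algebraMap_eq_smul_one]
      exact h
    · rw [AlgHom.commutes, AlgHom.commutes, sub_self]
      have h0 : nn (0 : Mat N) = 0 := by
        have := m7 0 (0 : Mat N)
        rw [zero_smul, norm_zero] at this
        rw [this]; ring
      rw [h0]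
      exact mul_nonneg (norm_nonneg _) hs
  | grade1 i =>
    refine ⟨4, by norm_num, ?_⟩
    intro N A B hN hA hB
    obtain ⟨m1, m2, m3, m4, m5, m6, m7, m8⟩ := hMXA N hN
    have hs : 0 ≤ ∑ i, nn (A i - B i) := Finset.sum_nonneg fun i _ => (m1 _).1
    rw [FreeAlgebra.lift_ι_apply, FreeAlgebra.lift_ι_apply]
    refine ⟨hA i, ?_⟩
    have h1 : nn (A i - B i) ≤ ∑ i, nn (A i - B i) :=
      Finset.single_le_sum (f := fun i => nn (A i - B i)) (fun j _ => (m1 _).1) (Finset.mem_univ i)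
    linarith
  | mul p q hp hq =>
    obtain ⟨K, hK, hp⟩ := hp
    obtain ⟨L, hL, hq⟩ := hq
    refine ⟨K * L + (2 * L ^ 2 * K + 2 * K ^ 2 * L), by positivity, ?_⟩
    intro N A B hN hA hB
    obtain ⟨o1, o2, o3, o4, o5⟩ := hOBB N hN
    obtain ⟨m1, m2, m3, m4, m5, m6, m7, m8⟩ := hMXA N hN
    have hs : 0 ≤ ∑ i, nn (A i - B i) := Finset.sum_nonneg fun i _ => (m1 _).1
    obtain ⟨hp1, hp2⟩ := hp N A B hN hA hB
    obtain ⟨hp3, -⟩ := hp N B B hN hB hB
    obtain ⟨hq1, hq2⟩ := hq N A B hN hA hB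
    rw [map_mul, map_mul]
    refine ⟨?_, ?_⟩
    · refine (o4 _ _ (o2 K L _ _ hp1 hq1).1).2.2 _ ?_
      have : 0 ≤ 2 * L ^ 2 * K + 2 * K ^ 2 * L := by positivity
      linarith
    · have e : ev A p * ev A q - ev B p * ev B q =
          (ev A p - ev B p) * ev A q + ev B p * (ev A q - ev B q) := by
        noncomm_ring
      rw [e]
      have h1 := (m2 ((ev A p - ev B p) * ev A q) (ev B p * (ev A q - ev B q))).1
      have h2 : nn ((ev A p - ev B p) * ev A q) ≤ L ^ 2 * nn (ev A p - ev B p) := (hq1.2 _).2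
      have h3 : nn (ev B p * (ev A q - ev B q)) ≤ K ^ 2 * nn (ev A q - ev B q) := (hp3.2 _).1
      have h4 : L ^ 2 * nn (ev A p - ev B p) ≤ L ^ 2 * (K * ∑ i, nn (A i - B i)) :=
        mul_le_mul_of_nonneg_left hp2 (by positivity)
      have h5 : K ^ 2 * nn (ev A q - ev B q) ≤ K ^ 2 * (L * ∑ i, nn (A i - B i)) :=
        mul_le_mul_of_nonneg_left hq2 (by positivity)
      have h6 : 0 ≤ K * L * ∑ i, nn (A i - B i) := by positivity
      nlinarith
  | add p q hp hq =>
    obtain ⟨K, hK, hp⟩ := hp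
    obtain ⟨L, hL, hq⟩ := hq
    refine ⟨2 * K + 2 * L, by positivity, ?_⟩
    intro N A B hN hA hB
    obtain ⟨o1, o2, o3, o4, o5⟩ := hOBB N hN
    obtain ⟨m1, m2, m3, m4, m5, m6, m7, m8⟩ := hMXA N hN
    obtain ⟨hp1, hp2⟩ := hp N A B hN hA hB
    obtain ⟨hq1, hq2⟩ := hq N A B hN hA hB
    rw [map_add, map_add]
    refine ⟨?_, ?_⟩
    · refine (o4 _ _ (o2 K L _ _ hp1 hq1).2.1).2.2 _ ?_
      linarith
    · have e : ev A p + ev A q - (ev B p + ev B q) =
          (ev A p - ev B p) + (ev A q - ev B q) := by abel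
      rw [e]
      have h1 := (m2 (ev A p - ev B p) (ev A q - ev B q)).1
      nlinarith

end Pool.FR
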