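import Pool.Agent.Work.MP_118406_fr.Interface

set_option autoImplicit false

open scoped InnerProductSpace ComplexConjugate Topology BigOperators
open Set Filter MeasureTheory Pool.SI

noncomputable section

namespace Pool.FR

theorem CPX_cat2 (hSDE : Stmt_SDE) : cat 2 = 1 := by
  have h := (hSDE 1).2.2.2.1 0 [0]
  have h0 := (hSDE 1).1
  have h1 : (∑ p : Fin 1, (if ([0] : List (Fin 1)).get p = 0 then
      tau (([0] : List (Fin 1)).take p) * tau (([0] : List (Fin 1)).drop (p + 1)) else 0)) = 1 := by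
    simp [h0]
  exact h.trans h1

theorem CPX_cat_le (hSDE : Stmt_SDE) (j : ℕ) : ‖cat j‖ ≤ 2 ^ j := by
  have h := (hSDE 1).2.2.2.2 (List.replicate j (0 : Fin 1))
  rw [List.length_replicate] at h
  exact h

theorem CPX_clamp (t : ℝ) : |max (-3) (min 3 t)| ≤ 3 ∧ |max (-3) (min 3 t)| ≤ |t| ∧
    (|t| ≤ 3 → max (-3) (min 3 t) = t) := by
  refine ⟨?_, ?_, ?_⟩
  · rw [abs_le]
    exact ⟨le_max_left _ _, max_le (by norm_num) (min_le_left _ _)⟩
  · rcases le_total t (-3) with h | h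
    · rw [min_eq_right (by linarith), max_eq_left h, abs_of_nonpos (by norm_num),
        abs_of_nonpos (by linarith)]
      linarith
    · rcases le_total t 3 with h' | h'
      · rw [min_eq_right h', max_eq_right h]
      · rw [min_eq_left h', max_eq_right (by norm_num), abs_of_nonneg (by norm_num),
          abs_of_nonneg (by linarith)]
        exact h'
  · intro h
    rw [abs_le] at h
    rw [min_eq_right h.2, max_eq_right h.1]

theorem CPX_pt (M j : ℕ) (hj : j ≤ 2 * M) (t s : ℝ) (e : ℝ) (he : e ≤ 1)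
    (hs : |s - max (-3) (min 3 t)| ≤ e) :
    |s ^ j - t ^ j| ≤ j * 4 ^ j * e + 2 * 3 ^ j * (t ^ (2 * M) / 9 ^ M) := by
  obtain ⟨c1, c2, c3⟩ := CPX_clamp t
  set c := max (-3) (min 3 t) with hc
  have he0 : 0 ≤ e := le_trans (abs_nonneg _) hs
  have hs4 : |s| ≤ 4 := by
    have : |s| ≤ |s - c| + |c| := by
      have := abs_add_le (s - c) c
      simpa using this
    linarith
  have h1 : |s ^ j - c ^ j| ≤ j * 4 ^ j * e := by
    have h := abs_pow_sub_pow_le s c j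
    have hm : max |s| |c| ≤ 4 := max_le hs4 (by linarith)
    have hm0 : 0 ≤ max |s| |c| := le_trans (abs_nonneg _) (le_max_left _ _)
    have h4 : (max |s| |c|) ^ (j - 1) ≤ 4 ^ j :=
      le_trans (pow_le_pow_left₀ hm0 hm _) (pow_le_pow_right₀ (by norm_num) (Nat.sub_le _ _))
    calc |s ^ j - c ^ j| ≤ |s - c| * j * (max |s| |c|) ^ (j - 1) := h
      _ ≤ e * j * 4 ^ j := by
        apply mul_le_mul _ h4 (by positivity) (by positivity)
        exact mul_le_mul_of_nonneg_right hs (Nat.cast_nonneg _)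
      _ = j * 4 ^ j * e := by ring
  have ht0 : 0 ≤ t ^ (2 * M) := by rw [pow_mul]; positivity
  have h2 : |c ^ j - t ^ j| ≤ 2 * 3 ^ j * (t ^ (2 * M) / 9 ^ M) := by
    rcases le_or_gt |t| 3 with h | h
    · rw [c3 h, sub_self, abs_zero]
      positivity
    · have h3 : |c ^ j - t ^ j| ≤ 2 * |t| ^ j := by
        have a1 : |c ^ j| ≤ |t| ^ j := by
          rw [abs_pow]; exact pow_le_pow_left₀ (abs_nonneg _) c2 _
        have a2 : |t ^ j| = |t| ^ j := abs_pow _ _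
        have := abs_sub (c ^ j) (t ^ j)
        linarith
      have h5 : |t| ^ j * 9 ^ M ≤ 3 ^ j * t ^ (2 * M) := by
        have e1 : (9 : ℝ) ^ M = 3 ^ (2 * M - j) * 3 ^ j := by
          rw [← pow_add, Nat.sub_add_cancel hj, pow_mul]; norm_num
        have e2 : t ^ (2 * M) = |t| ^ (2 * M - j) * |t| ^ j := by
          rw [← pow_add, Nat.sub_add_cancel hj, pow_mul, pow_mul, sq_abs]
        rw [e1, e2]
        have e3 : (3 : ℝ) ^ (2 * M - j) ≤ |t| ^ (2 * M - j) :=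
          pow_le_pow_left₀ (by norm_num) h.le _
        have e4 : 0 ≤ |t| ^ j * 3 ^ j := by positivity
        nlinarith [mul_le_mul_of_nonneg_left e3 e4]
      have h6 : |t| ^ j ≤ 3 ^ j * (t ^ (2 * M) / 9 ^ M) := by
        rw [← mul_div_assoc, le_div_iff₀ (by positivity)]
        exact h5
      linarith
  have := abs_sub_le (s ^ j) (c ^ j) (t ^ j)
  linarith

theorem p_CPX (hSPC : Stmt_SPC) (hSPD : Stmt_SPD) (hSDE : Stmt_SDE) : Stmt_CPX := by
  intro m₁ δ hδ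
  have hq : (0 : ℝ) < δ / (3 * (4 * 3 ^ m₁)) := by positivity
  obtain ⟨M₀, hM₀⟩ := exists_pow_lt_of_lt_one hq (show (4 / 9 : ℝ) < 1 by norm_num)
  obtain ⟨N₀, hN₀⟩ := exists_nat_gt (3 * (m₁ * 4 ^ m₁) / δ)
  set M := M₀ + m₁ with hM
  have hMδ : 4 * 3 ^ m₁ * (4 / 9 : ℝ) ^ M ≤ δ / 3 := by
    have h1 : (4 / 9 : ℝ) ^ M ≤ (4 / 9 : ℝ) ^ M₀ :=
      pow_le_pow_of_le_one (by norm_num) (by norm_num) (by omega)
    have h2 : (4 / 9 : ℝ) ^ M ≤ δ / (3 * (4 * 3 ^ m₁)) := h1.trans hM₀.le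
    rw [le_div_iff₀ (by positivity)] at h2
    linarith
  refine ⟨2 * M + m₁ + 2, N₀, min 1 (δ / 3), lt_min one_pos (by positivity), ?_⟩
  intro N f X hN hN1 hf hX hmom
  have hNpos : (0 : ℝ) < N := by exact_mod_cast hN1
  have hNne : (N : ℝ) ≠ 0 := hNpos.ne'
  obtain ⟨U, l, hU, -, hXl⟩ := hSPC N X hX
  obtain ⟨-, -, -, d4, -, d6, -, -⟩ := hSPD N U l hN1 hU
  have hD : Polynomial.aeval X f = dg U (fun a => f.eval (l a)) := by
    rw [hXl]; exact d6 f
  obtain ⟨g1, -, -, g4, g5, -, -, -⟩ := hSPD N U (fun a => f.eval (l a)) hN1 hU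
  -- the second moment
  have hmomr : ∀ j ≤ 2 * M + m₁ + 2,
      ‖(((N : ℝ)⁻¹ * ∑ a, l a ^ j : ℝ) : ℂ) - cat j‖ ≤ min 1 (δ / 3) := by
    intro j hj
    rw [← d4 j, ← hXl]
    exact hmom j hj
  have hsum2 : (N : ℝ)⁻¹ * ∑ a, l a ^ 2 ≤ 2 := by
    have h := hmomr 2 (by omega)
    rw [CPX_cat2 hSDE] at h
    have h1 : ((N : ℝ)⁻¹ * ∑ a, l a ^ 2) - 1 ≤ 1 := by
      have h2 := (Complex.re_le_norm _).trans (h.trans (min_le_left _ _))
      rw [Complex.sub_re, Complex.ofReal_re, Complex.one_re] at h2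
      exact h2
    linarith
  have hl2 : ∀ a, |l a| ≤ Real.sqrt (2 * N) := by
    intro a
    apply Real.abs_le_sqrt
    have h1 : l a ^ 2 ≤ ∑ a, l a ^ 2 :=
      Finset.single_le_sum (f := fun a => l a ^ 2) (fun i _ => sq_nonneg _) (Finset.mem_univ a)
    have h2 : ∑ a, l a ^ 2 ≤ 2 * N := by
      rw [inv_mul_le_iff₀ hNpos] at hsum2
      linarith
    linarith
  have hfl : ∀ a, |f.eval (l a) - max (-3) (min 3 (l a))| ≤ 1 / N := fun a => hf _ (hl2 a)
  have hN1' : (1 : ℝ) / N ≤ 1 := by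
    rw [div_le_one hNpos]; exact_mod_cast hN1
  have hf4 : ∀ a, |f.eval (l a)| ≤ 4 := by
    intro a
    have h1 := (CPX_clamp (l a)).1
    have h2 : |f.eval (l a)| ≤ |f.eval (l a) - max (-3) (min 3 (l a))| +
        |max (-3) (min 3 (l a))| := by
      have := abs_add_le (f.eval (l a) - max (-3) (min 3 (l a))) (max (-3) (min 3 (l a)))
      simpa using this
    have h3 := hfl a
    linarith
  refine ⟨?_, ?_, ?_⟩
  · rw [hD]; exact g1
  · rw [hD]; exact (g5 4 (by norm_num)).2 hf4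
  · intro j hj
    rw [hD, g4 j]
    have hM2 : (N : ℝ)⁻¹ * ∑ a, l a ^ (2 * M) ≤ 4 ^ M + 1 := by
      have h := hmomr (2 * M) (by omega)
      have h1 := CPX_cat_le hSDE (2 * M)
      have h2 : ‖(((N : ℝ)⁻¹ * ∑ a, l a ^ (2 * M) : ℝ) : ℂ)‖ ≤ 1 + 2 ^ (2 * M) := by
        have h3 := norm_add_le ((((N : ℝ)⁻¹ * ∑ a, l a ^ (2 * M) : ℝ) : ℂ) - cat (2 * M))
          (cat (2 * M))
        rw [sub_add_cancel] at h3
        have h4 := h.trans (min_le_left _ _)
        linarith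
      rw [Complex.norm_real] at h2
      have h5 := (le_abs_self _).trans h2
      have h6 : (2 : ℝ) ^ (2 * M) = 4 ^ M := by rw [pow_mul]; norm_num
      rw [h6] at h5
      linarith
    have hstep : ‖(((N : ℝ)⁻¹ * ∑ a, f.eval (l a) ^ j : ℝ) : ℂ) -
        (((N : ℝ)⁻¹ * ∑ a, l a ^ j : ℝ) : ℂ)‖ ≤ 2 * (δ / 3) := by
      rw [← Complex.ofReal_sub, Complex.norm_real, ← mul_sub, ← Finset.sum_sub_distrib,
        Real.norm_eq_abs, abs_mul, abs_of_pos (inv_pos.2 hNpos)]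
      have h1 : |∑ a, (f.eval (l a) ^ j - l a ^ j)| ≤
          ∑ a, (j * 4 ^ j * (1 / (N : ℝ)) + 2 * 3 ^ j * (l a ^ (2 * M) / 9 ^ M)) := by
        refine (Finset.abs_sum_le_sum_abs _ _).trans (Finset.sum_le_sum fun a _ => ?_)
        exact CPX_pt M j (by omega) (l a) (f.eval (l a)) (1 / N) hN1' (hfl a)
      have h2 : ∑ a : Fin N, (j * 4 ^ j * (1 / (N : ℝ)) + 2 * 3 ^ j * (l a ^ (2 * M) / 9 ^ M)) =
          j * 4 ^ j + 2 * 3 ^ j / 9 ^ M * ∑ a, l a ^ (2 * M) := by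
        rw [Finset.sum_add_distrib, Finset.sum_const, Finset.card_univ, Fintype.card_fin,
          nsmul_eq_mul, Finset.mul_sum]
        congr 1
        · field_simp
        · refine Finset.sum_congr rfl fun a _ => ?_
          ring
      rw [h2] at h1
      have h3 : (N : ℝ)⁻¹ * |∑ a, (f.eval (l a) ^ j - l a ^ j)| ≤
          (N : ℝ)⁻¹ * (j * 4 ^ j + 2 * 3 ^ j / 9 ^ M * ∑ a, l a ^ (2 * M)) :=
        mul_le_mul_of_nonneg_left h1 (by positivity)
      refine h3.trans ?_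
      have h4 : (N : ℝ)⁻¹ * (j * 4 ^ j + 2 * 3 ^ j / 9 ^ M * ∑ a, l a ^ (2 * M)) =
          j * 4 ^ j / N + 2 * 3 ^ j / 9 ^ M * ((N : ℝ)⁻¹ * ∑ a, l a ^ (2 * M)) := by
        field_simp
      rw [h4]
      have h5 : (j : ℝ) * 4 ^ j / N ≤ δ / 3 := by
        have a1 : (j : ℝ) * 4 ^ j ≤ m₁ * 4 ^ m₁ :=
          mul_le_mul (by exact_mod_cast hj) (pow_le_pow_right₀ (by norm_num) hj)
            (by positivity) (by positivity)
        have a2 : (N₀ : ℝ) ≤ N := by exact_mod_cast hN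
        have a3 : 3 * (m₁ * 4 ^ m₁) / δ ≤ N := (hN₀.le).trans a2
        rw [div_le_iff₀ hδ] at a3
        rw [div_le_iff₀ hNpos]
        nlinarith
      have h6 : 2 * 3 ^ j / 9 ^ M * ((N : ℝ)⁻¹ * ∑ a, l a ^ (2 * M)) ≤ δ / 3 := by
        have b1 : (2 : ℝ) * 3 ^ j / 9 ^ M * ((N : ℝ)⁻¹ * ∑ a, l a ^ (2 * M)) ≤
            2 * 3 ^ j / 9 ^ M * (4 ^ M + 1) :=
          mul_le_mul_of_nonneg_left hM2 (by positivity)
        have b2 : (4 : ℝ) ^ M + 1 ≤ 2 * 4 ^ M := by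
          have : (1 : ℝ) ≤ 4 ^ M := one_le_pow₀ (by norm_num)
          linarith
        have b3 : (2 : ℝ) * 3 ^ j / 9 ^ M * (4 ^ M + 1) ≤ 2 * 3 ^ m₁ / 9 ^ M * (2 * 4 ^ M) := by
          apply mul_le_mul _ b2 (by positivity) (by positivity)
          apply div_le_div_of_nonneg_right _ (by positivity)
          apply mul_le_mul_of_nonneg_left _ (by norm_num)
          exact pow_le_pow_right₀ (by norm_num) hj
        have b4 : (2 : ℝ) * 3 ^ m₁ / 9 ^ M * (2 * 4 ^ M) = 4 * 3 ^ m₁ * (4 / 9 : ℝ) ^ M := by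
          rw [div_pow]; ring
        linarith
      linarith
    have hlast := (hmomr j (by omega)).trans (min_le_right _ _)
    have htri := norm_sub_le_norm_sub_add_norm_sub
      (((N : ℝ)⁻¹ * ∑ a, f.eval (l a) ^ j : ℝ) : ℂ) (((N : ℝ)⁻¹ * ∑ a, l a ^ j : ℝ) : ℂ) (cat j)
    linarith

end Pool.FR
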