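import Pool.Agent.Work.MP_118406_fr.Interface

set_option autoImplicit false

/-!
# MP_118406_an, THEOREM IR, block CRL: the fractional Sobolev classes
-/

open scoped InnerProductSpace ComplexConjugate Topology BigOperators
open Set Filter MeasureTheory Pool.SI

noncomputable section

namespace Pool.FR

theorem CRL_ev (p : ℝ → Prop) (h : ∀ θ : ℝ, 0 < θ → θ ≤ 1 → p θ) : ∀ᶠ θ in 𝓝[>] (0 : ℝ), p θ := by
  have h1 : Ioc (0 : ℝ) 1 ∈ 𝓝[>] (0 : ℝ) := Ioc_mem_nhdsGT one_pos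
  filter_upwards [h1] with θ hθ
  exact h θ hθ.1 hθ.2

/-- **CRL**: the fractional Sobolev classes. -/
theorem p_CRL (hNTH : Stmt_NTH) (hNTO : Stmt_NTO) (hCOR : Stmt_COR) : Stmt_CRL := by
  intro n k hk y hy α h0 h1 hs
  obtain ⟨c, hc, hcy⟩ := hCOR n k hk
  have hk1 : (0 : ℝ) < (k : ℝ) - 1 := by
    have h2 : (2 : ℝ) ≤ (k : ℝ) := by exact_mod_cast hk
    linarith
  obtain ⟨s, hsdef⟩ : ∃ s : ℝ, s = 2 * (n : ℝ) / ((k : ℝ) - 1) := ⟨_, rfl⟩
  have hE : ∀ θ : ℝ, 0 < θ → θ ≤ 1 → c * θ ^ s ≤ ∑ j, Nth θ (y j (vac (n + 1))) := by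
    intro θ a b
    rw [hsdef]
    exact hcy y hy θ a b
  constructor
  · by_contra hcon
    push Not at hcon
    have hs2 : s < 2 * α := by
      rw [hsdef, div_lt_iff₀ hk1]
      linarith
    obtain ⟨S, hS⟩ : ∃ S : ℝ, S = ∑ j, 2 * ∑' w, (cnt w : ℝ) ^ α *
        ‖(y j (vac (n + 1))) w‖ ^ 2 := ⟨_, rfl⟩
    have hb : ∀ θ : ℝ, 0 < θ → θ ≤ 1 → c ≤ θ ^ (2 * α - s) * S := by
      intro θ ht ht1
      have h3 : ∑ j, Nth θ (y j (vac (n + 1))) ≤ θ ^ (2 * α) * S := by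
        rw [hS, Finset.mul_sum]
        refine Finset.sum_le_sum fun j _ => ?_
        have h4 := (hNTH n θ ht.le ht1).2.2 α (y j (vac (n + 1))) h0 h1 (hs j)
        calc Nth θ (y j (vac (n + 1))) ≤ _ := h4
          _ = _ := by ring
      have h4 := (hE θ ht ht1).trans h3
      rw [Real.rpow_sub ht, div_mul_eq_mul_div, le_div_iff₀ (Real.rpow_pos_of_pos ht s)]
      exact h4
    have hlim : Tendsto (fun θ : ℝ => θ ^ (2 * α - s) * S) (𝓝[>] 0) (𝓝 0) := by
      have h5 : Tendsto (fun θ : ℝ => θ ^ (2 * α - s)) (𝓝[>] 0) (𝓝 0) := by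
        have h6 : (0 : ℝ) < 2 * α - s := by linarith
        have h7 := (Real.continuousAt_rpow_const 0 (2 * α - s) (Or.inr h6.le)).tendsto
        rw [Real.zero_rpow h6.ne'] at h7
        exact h7.mono_left nhdsWithin_le_nhds
      simpa using h5.mul_const S
    have h8 : c ≤ 0 := ge_of_tendsto hlim (CRL_ev _ hb)
    linarith
  · intro ha
    by_contra hcon
    push Not at hcon
    have hs2 : s ≤ 2 * α := by
      rw [hsdef, div_le_iff₀ hk1]
      linarith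
    have hb : ∀ θ : ℝ, 0 < θ → θ ≤ 1 →
        c ≤ (∑ j, Nth θ (y j (vac (n + 1)))) / θ ^ (2 * α) := by
      intro θ ht ht1
      rw [le_div_iff₀ (Real.rpow_pos_of_pos ht _)]
      refine le_trans ?_ (hE θ ht ht1)
      exact mul_le_mul_of_nonneg_left (Real.rpow_le_rpow_of_exponent_ge ht ht1 hs2) hc.le
    have hlim : Tendsto (fun θ : ℝ => (∑ j, Nth θ (y j (vac (n + 1)))) / θ ^ (2 * α))
        (𝓝[>] 0) (𝓝 0) := by
      simp_rw [Finset.sum_div]
      have h9 := tendsto_finsetSum (Finset.univ : Finset (Fin k))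
        (fun j _ => hNTO n α (y j (vac (n + 1))) h0 ha (hs j))
      simpa using h9
    have h8 : c ≤ 0 := ge_of_tendsto hlim (CRL_ev _ hb)
    linarith

end Pool.FR
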