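import Pool.Agent.Work.MP_118406_fr.Interface

set_option autoImplicit false

open scoped InnerProductSpace ComplexConjugate Topology BigOperators
open Set Filter MeasureTheory Pool.SI

noncomputable section

namespace Pool.FR

theorem p_EMB (hSDE : Stmt_SDE) : Stmt_EMB := by
  intro k m f w hf
  induction hn : w.length using Nat.strong_induction_on generalizing w with
  | _ n ih =>
    cases w with
    | nil =>
      rw [List.map_nil]
      exact (hSDE m).1.trans (hSDE k).1.symm
    | cons i w =>
      rw [List.map_cons, (hSDE m).2.2.2.1, (hSDE k).2.2.2.1]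
      have hlen : (w.map f).length = w.length := List.length_map f
      have hn' : w.length < n := by
        rw [← hn]; simp
      refine Fintype.sum_equiv (finCongr hlen) _ _ ?_
      intro p
      have hg : (w.map f).get p = f (w.get (finCongr hlen p)) := by
        simp
      have ht : (w.map f).take (p : ℕ) = (w.take (p : ℕ)).map f := List.map_take.symm
      have hd : (w.map f).drop ((p : ℕ) + 1) = (w.drop ((p : ℕ) + 1)).map f := List.map_drop.symm
      have e1 : tau ((w.take (p : ℕ)).map f) = tau (w.take (p : ℕ)) :=
        ih _ (lt_of_le_of_lt (by simp) hn') _ rfl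
      have e2 : tau ((w.drop ((p : ℕ) + 1)).map f) = tau (w.drop ((p : ℕ) + 1)) :=
        ih _ (lt_of_le_of_lt (by simp) hn') _ rfl
      rw [hg, ht, hd, e1, e2]
      by_cases h : w.get (finCongr hlen p) = i
      · rw [if_pos (by rw [h]), if_pos h]
        simp
      · rw [if_neg (fun h' => h (hf h')), if_neg h]

end Pool.FR
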