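import Pool.Agent.Work.MP_118406_fr.Interface

set_option autoImplicit false

/-! Block MXA: the normalised Hilbert-Schmidt norm. -/

open scoped InnerProductSpace ComplexConjugate Topology BigOperators
open Set Filter MeasureTheory Pool.SI

noncomputable section

namespace Pool.FR

lemma MXA_nonneg {N : ℕ} (A : Mat N) : 0 ≤ nn A := by
  unfold nn; positivity

lemma MXA_star {N : ℕ} (A : Mat N) : nn (star A) = nn A := by
  unfold nn
  rw [Finset.sum_comm]
  congr 1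
  refine Finset.sum_congr rfl fun a _ => Finset.sum_congr rfl fun b _ => ?_
  rw [Matrix.star_eq_conjTranspose, Matrix.conjTranspose_apply, norm_star]

lemma MXA_tr {N : ℕ} (A : Mat N) : ntr (star A * A) = (nn A : ℂ) := by
  unfold nn ntr
  push_cast
  congr 1
  rw [Matrix.trace, Finset.sum_comm]
  refine Finset.sum_congr rfl fun a _ => ?_
  rw [Matrix.diag_apply, Matrix.mul_apply]
  refine Finset.sum_congr rfl fun b _ => ?_
  rw [Matrix.star_eq_conjTranspose, Matrix.conjTranspose_apply, Complex.star_def, Complex.conj_mul']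

lemma MXA_comm {N : ℕ} (A B : Mat N) : ntr (A * B) = ntr (B * A) := by
  unfold ntr; rw [Matrix.trace_mul_comm]

lemma MXA_smul {N : ℕ} (c : ℂ) (A : Mat N) : nn (c • A) = ‖c‖ ^ 2 * nn A := by
  have h : ∑ a, ∑ b, ‖(c • A) a b‖ ^ 2 = ‖c‖ ^ 2 * ∑ a, ∑ b, ‖A a b‖ ^ 2 := by
    rw [Finset.mul_sum]
    refine Finset.sum_congr rfl fun a _ => ?_
    rw [Finset.mul_sum]
    refine Finset.sum_congr rfl fun b _ => ?_
    rw [Matrix.smul_apply, norm_smul, mul_pow]
  unfold nn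
  rw [h]; ring

lemma MXA_cs {N : ℕ} (hN : 1 ≤ N) (A B : Mat N) : ‖ntr (A * B)‖ ^ 2 ≤ nn A * nn B := by
  have hN' : (0 : ℝ) < N := by exact_mod_cast hN
  have h1 : ‖(A * B).trace‖ ≤ ∑ p : Fin N × Fin N, ‖A p.1 p.2‖ * ‖B p.2 p.1‖ := by
    rw [Matrix.trace, Fintype.sum_prod_type]
    refine (norm_sum_le _ _).trans (Finset.sum_le_sum fun a _ => ?_)
    rw [Matrix.diag_apply, Matrix.mul_apply]
    refine (norm_sum_le _ _).trans (Finset.sum_le_sum fun b _ => ?_)
    rw [norm_mul]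
  have h2 : (∑ p : Fin N × Fin N, ‖A p.1 p.2‖ * ‖B p.2 p.1‖) ^ 2 ≤
      (∑ p : Fin N × Fin N, ‖A p.1 p.2‖ ^ 2) * ∑ p : Fin N × Fin N, ‖B p.2 p.1‖ ^ 2 :=
    Finset.sum_mul_sq_le_sq_mul_sq _ _ _
  have h3 : ∑ p : Fin N × Fin N, ‖A p.1 p.2‖ ^ 2 = N * nn A := by
    unfold nn
    rw [Fintype.sum_prod_type, ← mul_assoc, mul_inv_cancel₀ hN'.ne', one_mul]
  have h4 : ∑ p : Fin N × Fin N, ‖B p.2 p.1‖ ^ 2 = N * nn B := by
    unfold nn
    rw [Fintype.sum_prod_type, ← mul_assoc, mul_inv_cancel₀ hN'.ne', one_mul, Finset.sum_comm]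
  have h5 : ‖ntr (A * B)‖ ^ 2 = ((N : ℝ)⁻¹) ^ 2 * ‖(A * B).trace‖ ^ 2 := by
    unfold ntr
    rw [norm_mul, mul_pow, norm_inv, Complex.norm_natCast]
  have h6 : ‖(A * B).trace‖ ^ 2 ≤ (N * nn A) * (N * nn B) := by
    rw [← h3, ← h4]
    exact (pow_le_pow_left₀ (norm_nonneg _) h1 2).trans h2
  rw [h5]
  calc ((N : ℝ)⁻¹) ^ 2 * ‖(A * B).trace‖ ^ 2
      ≤ ((N : ℝ)⁻¹) ^ 2 * ((N * nn A) * (N * nn B)) := by gcongr
    _ = nn A * nn B := by field_simp

lemma MXA_one {N : ℕ} (hN : 1 ≤ N) : nn (1 : Mat N) = 1 := by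
  have hN' : (N : ℝ) ≠ 0 := by
    have : (0 : ℝ) < N := by exact_mod_cast hN
    exact this.ne'
  unfold nn
  have : ∀ a b : Fin N, ‖(1 : Mat N) a b‖ ^ 2 = if a = b then (1 : ℝ) else 0 := by
    intro a b
    rw [Matrix.one_apply]
    split_ifs <;> simp
  simp only [this]
  simp [hN']

/-- `nn` as the square of a Euclidean norm. -/
def MXA_v {N : ℕ} (A : Mat N) : EuclideanSpace ℂ (Fin N × Fin N) :=
  WithLp.toLp 2 fun p => A p.1 p.2

lemma MXA_v_norm {N : ℕ} (A : Mat N) : nn A = (N : ℝ)⁻¹ * ‖MXA_v A‖ ^ 2 := by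
  unfold nn MXA_v
  rw [EuclideanSpace.norm_sq_eq, Fintype.sum_prod_type]

lemma MXA_v_add {N : ℕ} (A B : Mat N) : MXA_v (A + B) = MXA_v A + MXA_v B := by
  ext p; simp [MXA_v]

lemma MXA_sqrt {N : ℕ} (A : Mat N) :
    Real.sqrt (nn A) = Real.sqrt ((N : ℝ)⁻¹) * ‖MXA_v A‖ := by
  rw [MXA_v_norm, Real.sqrt_mul (by positivity), Real.sqrt_sq (norm_nonneg _)]

lemma MXA_mink {N : ℕ} (A B : Mat N) :
    Real.sqrt (nn (A + B)) ≤ Real.sqrt (nn A) + Real.sqrt (nn B) := by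
  rw [MXA_sqrt, MXA_sqrt, MXA_sqrt, MXA_v_add, ← mul_add]
  exact mul_le_mul_of_nonneg_left (norm_add_le _ _) (Real.sqrt_nonneg _)

lemma MXA_add {N : ℕ} (A B : Mat N) : nn (A + B) ≤ 2 * nn A + 2 * nn B := by
  have h := MXA_mink A B
  have ha := Real.sq_sqrt (MXA_nonneg A)
  have hb := Real.sq_sqrt (MXA_nonneg B)
  have hab := Real.sq_sqrt (MXA_nonneg (A + B))
  have h0 := Real.sqrt_nonneg (nn (A + B))
  have h1 := Real.sqrt_nonneg (nn A)
  have h2 := Real.sqrt_nonneg (nn B)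
  rw [← ha, ← hb, ← hab]
  nlinarith [sq_nonneg (Real.sqrt (nn A) - Real.sqrt (nn B)),
    mul_self_le_mul_self h0 h]

lemma MXA_neg {N : ℕ} (A : Mat N) : nn (-A) = nn A := by
  have := MXA_smul (-1) A
  simpa using this

theorem p_MXA : Stmt_MXA := by
  intro N hN
  refine ⟨fun A => ⟨MXA_nonneg A, MXA_star A, MXA_tr A⟩, fun A B => ⟨MXA_add A B, ?_⟩,
    MXA_cs hN, ?_, MXA_comm, MXA_mink, MXA_smul, ?_⟩
  · have := MXA_add A (-B)
    rwa [MXA_neg, ← sub_eq_add_neg] at this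
  · intro A
    have := MXA_cs hN A 1
    rwa [mul_one, MXA_one hN, mul_one] at this
  · intro V A hV
    have key : ∀ B : Mat N, nn (V * B) = nn B := by
      intro B
      have h1 : ((nn (V * B) : ℝ) : ℂ) = (nn B : ℂ) := by
        rw [← MXA_tr, ← MXA_tr]
        congr 1
        rw [star_mul]
        calc star B * star V * (V * B) = star B * ((star V * V) * B) := by
              simp only [mul_assoc]
          _ = star B * B := by rw [hV.1, one_mul]
      exact_mod_cast h1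
    have key' : ∀ B : Mat N, nn (star V * B) = nn B := by
      intro B
      have h1 : ((nn (star V * B) : ℝ) : ℂ) = (nn B : ℂ) := by
        rw [← MXA_tr, ← MXA_tr]
        congr 1
        rw [star_mul, star_star]
        calc star B * V * (star V * B) = star B * ((V * star V) * B) := by
              simp only [mul_assoc]
          _ = star B * B := by rw [hV.2, one_mul]
      exact_mod_cast h1
    refine ⟨key A, ?_⟩
    rw [← MXA_star, star_mul, key', MXA_star]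

end Pool.FR
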