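import Pool.Agent.Work.MP_118406_fr.Interface

set_option autoImplicit false

/-!
# Block MXA: the normalised Hilbert-Schmidt norm
-/

open scoped InnerProductSpace ComplexConjugate Topology BigOperators
open Set Filter MeasureTheory Pool.SI

noncomputable section

namespace Pool.FR

theorem MXA_nonneg {N : ℕ} (A : Mat N) : 0 ≤ nn A := by
  unfold nn
  positivity

theorem MXA_star {N : ℕ} (A : Mat N) : nn (star A) = nn A := by
  unfold nn
  congr 1
  rw [Finset.sum_comm]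
  refine Finset.sum_congr rfl fun a _ => Finset.sum_congr rfl fun b _ => ?_
  rw [Matrix.star_apply, norm_star]

theorem MXA_ntr {N : ℕ} (A : Mat N) : ntr (star A * A) = (nn A : ℂ) := by
  unfold ntr nn
  push_cast
  congr 1
  rw [Matrix.trace, Finset.sum_comm]
  refine Finset.sum_congr rfl fun a _ => ?_
  rw [Matrix.diag_apply, Matrix.mul_apply]
  refine Finset.sum_congr rfl fun b _ => ?_
  rw [Matrix.star_apply]
  have h : (star (A b a)) * A b a = (‖A b a‖ : ℂ) ^ 2 := by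
    rw [mul_comm]
    exact Complex.mul_conj' (A b a)
  exact h

theorem MXA_cs {N : ℕ} (hN : 1 ≤ N) (A B : Mat N) : ‖ntr (A * B)‖ ^ 2 ≤ nn A * nn B := by
  have hNr : (0 : ℝ) < N := by exact_mod_cast hN
  have h1 : ‖(A * B).trace‖ ≤ ∑ q : Fin N × Fin N, ‖A q.1 q.2‖ * ‖B q.2 q.1‖ := by
    rw [Matrix.trace, Fintype.sum_prod_type]
    refine (norm_sum_le _ _).trans (Finset.sum_le_sum fun a _ => ?_)
    rw [Matrix.diag_apply, Matrix.mul_apply]
    refine (norm_sum_le _ _).trans (Finset.sum_le_sum fun b _ => ?_)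
    rw [norm_mul]
  have h2 := Finset.sum_mul_sq_le_sq_mul_sq (Finset.univ : Finset (Fin N × Fin N))
    (fun q => ‖A q.1 q.2‖) (fun q => ‖B q.2 q.1‖)
  have h3 : ∑ q : Fin N × Fin N, ‖A q.1 q.2‖ ^ 2 = ∑ a, ∑ b, ‖A a b‖ ^ 2 :=
    Fintype.sum_prod_type _
  have h4 : ∑ q : Fin N × Fin N, ‖B q.2 q.1‖ ^ 2 = ∑ a, ∑ b, ‖B a b‖ ^ 2 := by
    rw [Fintype.sum_prod_type, Finset.sum_comm]
  rw [h3, h4] at h2
  have h5 : ‖(A * B).trace‖ ^ 2 ≤ (∑ a, ∑ b, ‖A a b‖ ^ 2) * ∑ a, ∑ b, ‖B a b‖ ^ 2 :=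
    (pow_le_pow_left₀ (norm_nonneg _) h1 2).trans h2
  unfold ntr nn
  rw [norm_mul, mul_pow, norm_inv, Complex.norm_natCast]
  calc ((N : ℝ)⁻¹) ^ 2 * ‖(A * B).trace‖ ^ 2
      ≤ ((N : ℝ)⁻¹) ^ 2 * ((∑ a, ∑ b, ‖A a b‖ ^ 2) * ∑ a, ∑ b, ‖B a b‖ ^ 2) :=
        mul_le_mul_of_nonneg_left h5 (by positivity)
    _ = _ := by ring

theorem MXA_one {N : ℕ} (hN : 1 ≤ N) : nn (1 : Mat N) = 1 := by
  have hNr : (0 : ℝ) < N := by exact_mod_cast hN
  unfold nn
  have h : ∀ a : Fin N, ∑ b, ‖(1 : Mat N) a b‖ ^ 2 = 1 := by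
    intro a
    rw [Finset.sum_eq_single a]
    · simp
    · intro b _ hb
      rw [Matrix.one_apply_ne (Ne.symm hb)]
      simp
    · intro h
      exact absurd (Finset.mem_univ a) h
  rw [Finset.sum_congr rfl fun a _ => h a]
  simp only [Finset.sum_const, Finset.card_univ, Fintype.card_fin, nsmul_eq_mul, mul_one]
  field_simp

theorem MXA_comm {N : ℕ} (A B : Mat N) : ntr (A * B) = ntr (B * A) := by
  unfold ntr
  rw [Matrix.trace_mul_comm]

theorem MXA_sqrt {N : ℕ} (A : Mat N) : Real.sqrt (nn A) =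
    Real.sqrt ((N : ℝ)⁻¹) * ‖(WithLp.toLp 2 fun q : Fin N × Fin N => A q.1 q.2 :
      EuclideanSpace ℂ (Fin N × Fin N))‖ := by
  rw [EuclideanSpace.norm_eq, ← Real.sqrt_mul (by positivity)]
  unfold nn
  congr 2
  exact (Fintype.sum_prod_type fun q : Fin N × Fin N => ‖A q.1 q.2‖ ^ 2).symm

theorem MXA_mink {N : ℕ} (A B : Mat N) :
    Real.sqrt (nn (A + B)) ≤ Real.sqrt (nn A) + Real.sqrt (nn B) := by
  rw [MXA_sqrt, MXA_sqrt, MXA_sqrt, ← mul_add]
  refine mul_le_mul_of_nonneg_left ?_ (Real.sqrt_nonneg _)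
  exact norm_add_le
    (WithLp.toLp 2 fun q : Fin N × Fin N => A q.1 q.2 : EuclideanSpace ℂ (Fin N × Fin N))
    (WithLp.toLp 2 fun q : Fin N × Fin N => B q.1 q.2 : EuclideanSpace ℂ (Fin N × Fin N))

theorem MXA_par {N : ℕ} (A B : Mat N) :
    nn (A + B) ≤ 2 * nn A + 2 * nn B ∧ nn (A - B) ≤ 2 * nn A + 2 * nn B := by
  have h : ∀ A B : Mat N, nn (A + B) ≤ 2 * nn A + 2 * nn B := by
    intro A B
    have e1 := MXA_mink A B
    have e2 := Real.sq_sqrt (MXA_nonneg (A + B))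
    have e3 := Real.sq_sqrt (MXA_nonneg A)
    have e4 := Real.sq_sqrt (MXA_nonneg B)
    have e5 := Real.sqrt_nonneg (nn (A + B))
    nlinarith [sq_nonneg (Real.sqrt (nn A) - Real.sqrt (nn B)),
      Real.sqrt_nonneg (nn A), Real.sqrt_nonneg (nn B)]
  refine ⟨h A B, ?_⟩
  have e : nn (-B) = nn B := by
    unfold nn
    simp
  rw [sub_eq_add_neg]
  have := h A (-B)
  rwa [e] at this

theorem MXA_smul {N : ℕ} (c : ℂ) (A : Mat N) : nn (c • A) = ‖c‖ ^ 2 * nn A := by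
  unfold nn
  simp only [Matrix.smul_apply, smul_eq_mul, norm_mul, mul_pow]
  simp only [← Finset.mul_sum]
  ring

theorem MXA_uni {N : ℕ} (V A : Mat N) (hV : Uni V) : nn (V * A) = nn A ∧ nn (A * V) = nn A := by
  have h1 : ∀ V A : Mat N, star V * V = 1 → nn (V * A) = nn A := by
    intro V A h
    have e1 := MXA_ntr (V * A)
    rw [star_mul, mul_assoc, ← mul_assoc (star V), h, one_mul, MXA_ntr] at e1
    exact_mod_cast e1.symm
  refine ⟨h1 V A hV.1, ?_⟩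
  rw [← MXA_star, star_mul, h1 (star V) (star A) (by rw [star_star]; exact hV.2), MXA_star]

theorem p_MXA : Stmt_MXA := by
  intro N hN
  refine ⟨fun A => ⟨MXA_nonneg A, MXA_star A, MXA_ntr A⟩, fun A B => MXA_par A B,
    fun A B => MXA_cs hN A B, fun A => ?_, fun A B => MXA_comm A B, fun A B => MXA_mink A B,
    fun c A => MXA_smul c A, fun V A hV => MXA_uni V A hV⟩
  have h := MXA_cs hN A 1
  rwa [mul_one, MXA_one hN, mul_one] at h

end Pool.FR
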