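import Pool.Agent.Work.MP_118406_fr.Interface

set_option autoImplicit false

/-!
# Block UPP: the probability of the good `Y`
-/

open scoped InnerProductSpace ComplexConjugate Topology BigOperators
open Set Filter MeasureTheory Pool.SI

noncomputable section

namespace Pool.FR

theorem UPP_exp : Real.exp (1 / 2) * 20 ≤ 33 := by
  have h1 : Real.exp (1 / 2) ^ 2 < 2.7182818286 := by
    have h2 : Real.exp (1 / 2) ^ 2 = Real.exp 1 := by
      rw [← Real.exp_nat_mul]
      norm_num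
    rw [h2]
    exact Real.exp_one_lt_d9
  have h0 : 0 < Real.exp (1 / 2) := Real.exp_pos _
  nlinarith [h1, h0]

theorem UPP_one (h1 : Stmt_MXA) (h2 : Stmt_HMB) {N : ℕ} (hN : 1 ≤ N) (V Z : Mat N) (hV : Uni V) :
    ∃ z : Fin N × Fin N → ℝ, ∀ x : Fin N × Fin N → ℝ,
      (∑ p, (z p - x p) ^ 2) / (N : ℝ) ^ 2 ≤ nn (Z - V * hm x * star V) := by
  obtain ⟨m1, m2, m3, m4, m5, m6, m7, m8⟩ := h1 N hN
  obtain ⟨a1, a2, a3, a4, a5, a6, a7⟩ := h2 N hN
  obtain ⟨z, hz⟩ := a7 (star V * Z * V)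
  refine ⟨z, fun x => ?_⟩
  have hV' : Uni (star V) := ⟨by rw [star_star]; exact hV.2, by rw [star_star]; exact hV.1⟩
  have e : star V * (Z - V * hm x * star V) * V = star V * Z * V - hm x := by
    have e1 : star V * (Z - V * hm x * star V) * V =
        star V * Z * V - (star V * V) * hm x * (star V * V) := by
      noncomm_ring
    rw [e1, hV.1, one_mul, mul_one]
  have e2 : nn (Z - V * hm x * star V) = nn (star V * Z * V - hm x) := by
    rw [← e, (m8 V _ hV).2, (m8 (star V) _ hV').1]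
  rw [e2]
  exact hz x

theorem p_UPP (h1 : Stmt_MXA) (h2 : Stmt_HMB) (h3 : Stmt_GSB) : Stmt_UPP := by
  intro k N L v Z ε hN hε hv
  have hNpos : (0 : ℝ) < N := by exact_mod_cast hN
  have key : ∀ l : Fin L, (gs (Fin k × Fin N × Fin N)) {g | ∑ j,
      nn (Z j - v l * hmk g j * star (v l)) ≤ 400 * k * ε ^ 2} ≤
        ENNReal.ofReal ((33 * ε) ^ (k * N ^ 2)) := by
    intro l
    choose z hz using fun j => UPP_one h1 h2 hN (v l) (Z j) (hv l)
    have hcard : Fintype.card (Fin k × Fin N × Fin N) = k * N ^ 2 := by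
      simp [Fintype.card_prod, sq]
    have hsub : {g : Fin k × Fin N × Fin N → ℝ | ∑ j,
        nn (Z j - v l * hmk g j * star (v l)) ≤ 400 * k * ε ^ 2} ⊆
        {g | ∑ q : Fin k × Fin N × Fin N, ((fun q => z q.1 q.2) q - g q) ^ 2 ≤
          (20 * ε) ^ 2 * Fintype.card (Fin k × Fin N × Fin N)} := by
      intro g hg
      simp only [mem_setOf_eq] at hg ⊢
      have hs : ∑ q : Fin k × Fin N × Fin N, (z q.1 q.2 - g q) ^ 2 =
          ∑ j, ∑ p : Fin N × Fin N, (z j p - g (j, p)) ^ 2 := Fintype.sum_prod_type _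
      have hle : ∑ j, ∑ p : Fin N × Fin N, (z j p - g (j, p)) ^ 2 ≤
          ∑ j, (N : ℝ) ^ 2 * nn (Z j - v l * hmk g j * star (v l)) := by
        refine Finset.sum_le_sum fun j _ => ?_
        have := hz j (fun p => g (j, p))
        rw [div_le_iff₀ (by positivity)] at this
        rw [mul_comm]
        exact this
      rw [hs]
      refine hle.trans ?_
      rw [← Finset.mul_sum, hcard]
      push_cast
      calc (N : ℝ) ^ 2 * ∑ j, nn (Z j - v l * hmk g j * star (v l))
          ≤ (N : ℝ) ^ 2 * (400 * k * ε ^ 2) := by gcongr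
        _ = (20 * ε) ^ 2 * (k * (N : ℝ) ^ 2) := by ring
    refine (measure_mono hsub).trans ?_
    refine (h3 (Fin k × Fin N × Fin N) (fun q => z q.1 q.2) (20 * ε) (by positivity)).trans ?_
    apply ENNReal.ofReal_le_ofReal
    rw [hcard]
    apply pow_le_pow_left₀ (by positivity)
    have := UPP_exp
    calc Real.exp (1 / 2) * (20 * ε) = Real.exp (1 / 2) * 20 * ε := by ring
      _ ≤ 33 * ε := by gcongr
  have hset : {g : Fin k × Fin N × Fin N → ℝ | ∃ l, ∑ j,
      nn (Z j - v l * hmk g j * star (v l)) ≤ 400 * k * ε ^ 2} =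
      ⋃ l, {g | ∑ j, nn (Z j - v l * hmk g j * star (v l)) ≤ 400 * k * ε ^ 2} := by
    ext g
    simp
  rw [hset]
  calc (gs (Fin k × Fin N × Fin N)) (⋃ l, {g | ∑ j,
        nn (Z j - v l * hmk g j * star (v l)) ≤ 400 * k * ε ^ 2})
      ≤ ∑ l, (gs (Fin k × Fin N × Fin N)) {g | ∑ j,
        nn (Z j - v l * hmk g j * star (v l)) ≤ 400 * k * ε ^ 2} := by
        exact measure_iUnion_fintype_le _ _
    _ ≤ ∑ _l : Fin L, ENNReal.ofReal ((33 * ε) ^ (k * N ^ 2)) :=
        Finset.sum_le_sum fun l _ => key l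
    _ = ENNReal.ofReal (L * (33 * ε) ^ (k * N ^ 2)) := by
        rw [Finset.sum_const, Finset.card_univ, Fintype.card_fin, nsmul_eq_mul,
          ENNReal.ofReal_mul (by positivity), ENNReal.ofReal_natCast]

end Pool.FR
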