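import Mathlib
import Pool.Agent.Work.MP_118406_si.All

set_option autoImplicit false

/-!
# Irregularity of all isomorphisms between the C*-algebras `Alg k`: definitions

`Mat N`: complex `N × N` matrices; `ntr` the normalised trace, `nn A` the SQUARE of the normalised
Hilbert-Schmidt norm (`nn A = ntr (A* A)`); `OB c A`: the operator norm of `A` is at most `c` (multiplication by
`A` from the left and from the right has norm at most `c` for `nn`).  `hm x` is the hermitian matrix with the real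
coordinates `x`, normalised such that `nn (hm x) = |x|² / N²`; `hmk g i` the `i`-th matrix of a tuple.  `gs ι` is the
standard Gaussian measure on `ι → ℝ`, so `hm x` is a GUE matrix under `gs (Fin N × Fin N)`.  `tau w` is the vacuum
expectation of the monomial `w` in the semicircular operators `sc i`.
-/

open scoped InnerProductSpace ComplexConjugate Topology BigOperators
open Set Filter MeasureTheory Pool.SI

noncomputable section

namespace Pool.FR

/-- Complex matrices. -/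
abbrev Mat (N : ℕ) := Matrix (Fin N) (Fin N) ℂ

/-- The normalised trace. -/
def ntr {N : ℕ} (A : Mat N) : ℂ := (N : ℂ)⁻¹ * A.trace

/-- The square of the normalised Hilbert-Schmidt norm. -/
def nn {N : ℕ} (A : Mat N) : ℝ := (N : ℝ)⁻¹ * ∑ a, ∑ b, ‖A a b‖ ^ 2

/-- The operator norm of `A` is at most `c`. -/
def OB {N : ℕ} (c : ℝ) (A : Mat N) : Prop :=
  0 ≤ c ∧ ∀ D : Mat N, nn (A * D) ≤ c ^ 2 * nn D ∧ nn (D * A) ≤ c ^ 2 * nn D

/-- Unitary matrices. -/
def Uni {N : ℕ} (V : Mat N) : Prop := star V * V = 1 ∧ V * star V = 1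

/-- The hermitian matrix with the eigenvalues `l` and the eigenvectors `U`. -/
def dg {N : ℕ} (U : Mat N) (l : Fin N → ℝ) : Mat N :=
  U * Matrix.diagonal (fun a => (l a : ℂ)) * star U

/-- The hermitian matrix with the real coordinates `x`. -/
def hm {N : ℕ} (x : Fin N × Fin N → ℝ) : Mat N := fun a b =>
  if a = b then ((x (a, a) / Real.sqrt N : ℝ) : ℂ)
  else if a < b then ((x (a, b) / Real.sqrt (2 * N) : ℝ) : ℂ) +
    Complex.I * ((x (b, a) / Real.sqrt (2 * N) : ℝ) : ℂ)
  else ((x (b, a) / Real.sqrt (2 * N) : ℝ) : ℂ) -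
    Complex.I * ((x (a, b) / Real.sqrt (2 * N) : ℝ) : ℂ)

/-- The coordinate vector of the pair `(a, b)`. -/
def cv {N : ℕ} (p : Fin N × Fin N) : Fin N × Fin N → ℝ := fun q => if q = p then 1 else 0

/-- A tuple of hermitian matrices. -/
def hmk {Γ : Type} {N : ℕ} (g : Γ × Fin N × Fin N → ℝ) (i : Γ) : Mat N :=
  hm fun p => g (i, p)

/-- The standard Gaussian measure. -/
def gs (ι : Type) [Fintype ι] : Measure (ι → ℝ) :=
  Measure.pi fun _ => ProbabilityTheory.gaussianReal 0 1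

/-- Evaluation of a noncommutative polynomial. -/
abbrev ev {k : Type} {R : Type} [Ring R] [Algebra ℂ R] (a : k → R) : FreeAlgebra ℂ k →ₐ[ℂ] R :=
  FreeAlgebra.lift ℂ a

/-- The vacuum expectation of a monomial. -/
def tau {k : ℕ} (w : List (Fin k)) : ℂ := ⟪vac k, (mon w : Fk k →L[ℂ] Fk k) (vac k)⟫_ℂ

/-- The moments of a semicircular operator. -/
def cat (j : ℕ) : ℂ := tau (List.replicate j (0 : Fin 1))

/-- `A` is a tuple of hermitian matrices whose moments up to the order `m` are those of `k` free semicircular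
operators up to `γ`. -/
def MC (k m : ℕ) (γ : ℝ) (N : ℕ) (A : Fin k → Mat N) : Prop :=
  (∀ i, (A i).IsHermitian) ∧
    ∀ w : List (Fin k), w.length ≤ m → ‖ntr ((w.map A).prod) - tau w‖ ≤ γ

/-- The rotation of the matrices `1, .., n` by the angle `θ` towards `G` (the matrix `0` is fixed). -/
def rotm {n N : ℕ} (θ : ℝ) (A : Fin (n + 1) → Mat N) (G : Fin n → Mat N) : Fin (n + 1) → Mat N :=
  Fin.cons (A 0) fun i => (Real.cos θ : ℂ) • A i.succ + (Real.sin θ : ℂ) • G i

/-- The number of letters different from `0`. -/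
def cnt {n : ℕ} (w : List (Fin (n + 1))) : ℕ := w.countP fun i => decide (i ≠ 0)

/-- The square of the distance of `x` and of its rotation, `ξ = x Ω`. -/
def Nth {n : ℕ} (θ : ℝ) (ξ : Fk (n + 1)) : ℝ :=
  2 * ∑' w : List (Fin (n + 1)), (1 - Real.cos θ ^ cnt w) * ‖ξ w‖ ^ 2

/-- The expectation of a product of normalised traces of words in the matrices `D i` (letters
`Sum.inl i`) and the independent GUE matrices `G j` (letters `Sum.inr j`). -/
def Ex {Δ Γ : Type} [Fintype Γ] {N : ℕ} (D : Δ → Mat N) (S : List (List (Δ ⊕ Γ))) : ℂ :=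
  ∫ g : Γ × Fin N × Fin N → ℝ,
    (S.map fun w => ntr ((w.map (Sum.elim D (hmk g))).prod)).prod ∂(gs (Γ × Fin N × Fin N))

/-- The matrices of the letters as matrices of polynomials in the Gaussian coordinates. -/
def Lp {Δ Γ : Type} {N : ℕ} (D : Δ → Mat N) (c : Δ ⊕ Γ) :
    Matrix (Fin N) (Fin N) (MvPolynomial (Γ × Fin N × Fin N) ℂ) :=
  Sum.elim (fun i => (D i).map MvPolynomial.C)
    (fun i => ∑ p : Fin N × Fin N, (MvPolynomial.X (i, p) : MvPolynomial (Γ × Fin N × Fin N) ℂ) •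
      (hm (cv p) : Mat N).map MvPolynomial.C) c

/-- Words in these matrices. -/
def Wp {Δ Γ : Type} {N : ℕ} (D : Δ → Mat N) (w : List (Δ ⊕ Γ)) :
    Matrix (Fin N) (Fin N) (MvPolynomial (Γ × Fin N × Fin N) ℂ) := (w.map (Lp D)).prod

/-- Their normalised traces. -/
def Tp {Δ Γ : Type} {N : ℕ} (D : Δ → Mat N) (w : List (Δ ⊕ Γ)) :
    MvPolynomial (Γ × Fin N × Fin N) ℂ := MvPolynomial.C ((N : ℂ)⁻¹) * (Wp D w).trace

/-- The rotation as a substitution of polynomials: the letters `1, .., n` are turned towards `n` new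
letters. -/
def rt {n : ℕ} (θ : ℝ) : Fin (n + 1) → FreeAlgebra ℂ (Fin (n + 1 + n)) :=
  Fin.cons (FreeAlgebra.ι ℂ (Fin.castAdd n 0)) fun i =>
    (Real.cos θ : ℂ) • FreeAlgebra.ι ℂ (Fin.castAdd n i.succ) +
      (Real.sin θ : ℂ) • FreeAlgebra.ι ℂ (Fin.natAdd (n + 1) i)

/-- The map `F(x, b) = p(f(x), b)`. -/
def FF {n k N : ℕ} (p : Fin k → FreeAlgebra ℂ (Fin (n + 1))) (f : Polynomial ℝ)
    (x : Fin N × Fin N → ℝ) (b : Fin n × Fin N × Fin N → ℝ) (j : Fin k) : Mat N :=
  ev (Fin.cons (Polynomial.aeval (hm x : Mat N) f) (hmk b) : Fin (n + 1) → Mat N) (p j)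

/-- `b` is in the ball and `F(x, b)` is close to a conjugate of `Y` by a member of the net. -/
def Good {n k N L : ℕ} (p : Fin k → FreeAlgebra ℂ (Fin (n + 1))) (f : Polynomial ℝ)
    (v : Fin L → Mat N) (ε : ℝ) (Y : Fin k → Mat N)
    (x : Fin N × Fin N → ℝ) (b : Fin n × Fin N × Fin N → ℝ) : Prop :=
  ∑ i, b i ^ 2 ≤ 80 * n * (N : ℝ) ^ 2 ∧
    ∃ l, ∑ j, nn (FF p f x b j - v l * Y j * star (v l)) ≤ 400 * k * ε ^ 2

/-- `f` is close to the clamp function. -/
def Clm (N : ℕ) (f : Polynomial ℝ) : Prop :=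
  ∀ t : ℝ, |t| ≤ Real.sqrt (2 * N) → |f.eval t - max (-3) (min 3 t)| ≤ 1 / N

/-- `y` is a semicircular family in `Alg (n + 1)` which generates a weakly dense subalgebra (bounded
approximation of the `sc i` in the 2-norm). -/
structure Gen (n k : ℕ) (y : Fin k → (Fk (n + 1) →L[ℂ] Fk (n + 1))) : Prop where
  mem : ∀ j, y j ∈ Alg (n + 1)
  sa : ∀ j, star (y j) = y j
  mom : ∀ w : List (Fin k), ⟪vac (n + 1), ((w.map y).prod) (vac (n + 1))⟫_ℂ = tau w
  gen : ∃ M : ℝ, ∀ (i : Fin (n + 1)) (η : ℝ), 0 < η → ∃ q : FreeAlgebra ℂ (Fin k),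
    ‖ev y q‖ ≤ M ∧ ‖(sc i - ev y q) (vac (n + 1))‖ ≤ η

end Pool.FR
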