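import Pool.Agent.Work.MP_118406_fr.Defs

set_option autoImplicit false

/-!
# Irregularity of all isomorphisms: interface

File of block `X`: `Pool/Agent/Work/MP_118406_fr/B_X.lean`: `import Pool.Agent.Work.MP_118406_fr.Interface`, the same `open` lines,
`namespace Pool.FR`, `theorem p_X (hA : Stmt_A) (hB : Stmt_B) .. : Stmt_X` with the blocks of the
column `uses` in that order (`-` = none); auxiliary lemmas with the prefix `X_`.  The facts `Pool.SI.t_BAS`, `t_JOP`, `t_SPN`, `t_CYC`,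
`t_ALC`, `t_SCM`, `t_IMP`, `t_UTF` of `Work/MP_118406_si/All.lean` (statements in `Work/MP_118406_si/Interface.lean`) are PROVED and may be
used everywhere.

Notation of the comments: `‖A‖₂² = nn A` (normalised Hilbert-Schmidt norm), `tr = ntr`, `Ω` = `vac`, `τ(w) = tau w`,
`A_v` the product `(v.map A).prod`, `v†` the reversed word, `A*` = `star A`.
-/

open scoped InnerProductSpace ComplexConjugate Topology BigOperators
open Set Filter MeasureTheory Pool.SI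

noncomputable section

namespace Pool.FR

/-! ## A. Matrices -/

/-- BLOCK MXA (uses -): the normalised Hilbert-Schmidt norm.
PROOF.  All statements are finite sums.  `‖tr(AB)‖² ≤ ‖A‖₂² ‖B‖₂²`: Cauchy-Schwarz for `∑_{a,b} A a b * B b a` (and `nn (star B) = nn B`); (4) is the case
`B = 1`, `nn 1 = 1`.  (6) Minkowski (or (5) of the real inner product).  (8): `nn (V A) = tr((VA)*(VA)) = tr(A* A)`, (3) and (5). -/
def Stmt_MXA : Prop := ∀ N : ℕ, 1 ≤ N →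
  (∀ A : Mat N, 0 ≤ nn A ∧ nn (star A) = nn A ∧ ntr (star A * A) = (nn A : ℂ)) ∧
  (∀ A B : Mat N, nn (A + B) ≤ 2 * nn A + 2 * nn B ∧ nn (A - B) ≤ 2 * nn A + 2 * nn B) ∧
  (∀ A B : Mat N, ‖ntr (A * B)‖ ^ 2 ≤ nn A * nn B) ∧
  (∀ A : Mat N, ‖ntr A‖ ^ 2 ≤ nn A) ∧
  (∀ A B : Mat N, ntr (A * B) = ntr (B * A)) ∧
  (∀ A B : Mat N, Real.sqrt (nn (A + B)) ≤ Real.sqrt (nn A) + Real.sqrt (nn B)) ∧
  (∀ (c : ℂ) (A : Mat N), nn (c • A) = ‖c‖ ^ 2 * nn A) ∧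
  (∀ V A : Mat N, Uni V → nn (V * A) = nn A ∧ nn (A * V) = nn A)

/-- BLOCK OBB (uses MXA): calculus of the operator norm bound.
PROOF.  Products: `nn (A * (B * D)) ≤ c² nn (B * D) ≤ c² d² nn D`.  Sums: MXA (6) and `Real.sqrt`.  Adjoint: `nn (star A * D) = nn (star D * A)` (MXA (1)).
`nn A = nn (A * 1) ≤ c²` (`nn 1 = 1`).  Unitary: MXA (8). -/
def Stmt_OBB : Prop := ∀ N : ℕ, 1 ≤ N →
  OB 1 (1 : Mat N) ∧
  (∀ (c d : ℝ) (A B : Mat N), OB c A → OB d B →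
    OB (c * d) (A * B) ∧ OB (c + d) (A + B) ∧ OB (c + d) (A - B)) ∧
  (∀ (c : ℝ) (z : ℂ) (A : Mat N), OB c A → OB (‖z‖ * c) (z • A)) ∧
  (∀ (c : ℝ) (A : Mat N), OB c A → OB c (star A) ∧ nn A ≤ c ^ 2 ∧ ∀ d, c ≤ d → OB d A) ∧
  (∀ V : Mat N, Uni V → OB 1 V ∧ OB 1 (star V))

/-- BLOCK SPC (uses -): the spectral theorem with ordered eigenvalues.
PROOF.  `Matrix.IsHermitian.spectral_theorem`; sort the eigenvalues by a permutation (`Tuple.sort`, `Tuple.monotone_sort`) and multiply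
the unitary matrix by the permutation matrix. -/
def Stmt_SPC : Prop := ∀ (N : ℕ) (C : Mat N), C.IsHermitian →
  ∃ (U : Mat N) (l : Fin N → ℝ), Uni U ∧ Monotone l ∧ C = dg U l

/-- BLOCK SPD (uses MXA): diagonalised matrices.
PROOF.  `dg U l = U Λ U*`, `U* U = 1`.  `nn` and `tr` are invariant under conjugation by `U` (MXA).  (5): `nn (Λ D) = N⁻¹ ∑ l_a² ‖D a b‖²`, so `OB c Λ` if all
`|l_a| ≤ c`; conversely test `D` = the matrix unit with the entry `1` at `(a, a)`.  (6): linear in `f`, monomials. -/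
def Stmt_SPD : Prop := ∀ (N : ℕ) (U : Mat N) (l : Fin N → ℝ), 1 ≤ N → Uni U →
  (dg U l).IsHermitian ∧
  nn (dg U l) = (N : ℝ)⁻¹ * ∑ a, l a ^ 2 ∧
  (∀ j : ℕ, (dg U l) ^ j = dg U (fun a => l a ^ j)) ∧
  (∀ j : ℕ, ntr ((dg U l) ^ j) = (((N : ℝ)⁻¹ * ∑ a, l a ^ j : ℝ) : ℂ)) ∧
  (∀ c : ℝ, 0 ≤ c → (OB c (dg U l) ↔ ∀ a, |l a| ≤ c)) ∧
  (∀ f : Polynomial ℝ, Polynomial.aeval (dg U l) f = dg U (fun a => f.eval (l a))) ∧
  (∀ m : Fin N → ℝ, dg U l - dg U m = dg U (fun a => l a - m a)) ∧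
  (∀ V : Mat N, V * dg U l * star V = dg (V * U) l)

/-- BLOCK HMB (uses MXA): the real coordinates of hermitian matrices.
PROOF.  Entrywise, split the double sums into `a = b`, `a < b`, `a > b` (for (4): `∑_{a,b} ‖hm x a b‖²`, the pair `{(a,b), (b,a)}`, `a < b`, contributes
`2 (x(a,b)² + x(b,a)²) / (2N)`).  (6): `A a b = u + i v` for `a < b`: `x (a,b) = √(2N) u`, `x (b,a) = √(2N) v`, `x (a,a) = √N A a a`.
(7): let `hm z = (Z + Z*) / 2`; `hm z - hm x = ((Z - hm x) + (Z - hm x)*) / 2`, so its `nn` is at most `nn (Z - hm x)` (MXA (6), (1)); now (2), (4). -/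
def Stmt_HMB : Prop := ∀ N : ℕ, 1 ≤ N →
  (∀ x, (hm x : Mat N).IsHermitian) ∧
  (∀ x y, (hm (x + y) : Mat N) = hm x + hm y ∧ (hm (x - y) : Mat N) = hm x - hm y) ∧
  (∀ (c : ℝ) (x : Fin N × Fin N → ℝ), (hm (c • x) : Mat N) = (c : ℂ) • hm x) ∧
  (∀ x, nn (hm x : Mat N) = (∑ p, x p ^ 2) / (N : ℝ) ^ 2) ∧
  (∀ x, (hm x : Mat N) = ∑ p, (x p : ℂ) • hm (cv p)) ∧
  (∀ A : Mat N, A.IsHermitian → ∃ x, hm x = A) ∧
  (∀ Z : Mat N, ∃ z : Fin N × Fin N → ℝ, ∀ x,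
    (∑ p, (z p - x p) ^ 2) / (N : ℝ) ^ 2 ≤ nn (Z - hm x))

/-- BLOCK CMP (uses -): completeness of the basis `hm (cv p)`.
PROOF.  `hm (cv p)` has at most two non-zero entries.  For `a = b`, `c = d`: only `p = (a,a)` can contribute, and only if `a = c`: `(1/√N)² = 1/N`.
For `a ≠ b`: only `p = (a,b)` and `p = (b,a)` have a non-zero entry at `(a,b)`: the entries at `(a,b)` are `1/√(2N)`, `± i/√(2N)`, those at `(b,a)` the conjugates, those at `(a,b)` again: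
the sum over the two `p` of `E(a,b)²` is `0`, of `E(a,b) E(b,a)` is `2/(2N) = 1/N`. -/
def Stmt_CMP : Prop := ∀ N : ℕ, 1 ≤ N → ∀ a b c d : Fin N,
  ∑ p : Fin N × Fin N, (hm (cv p) : Mat N) a b * (hm (cv p) : Mat N) c d =
    if a = d ∧ b = c then (N : ℂ)⁻¹ else 0

/-- BLOCK BDT (uses MXA, OBB): polynomials in bounded matrices.
PROOF.  `FreeAlgebra.induction` on `p` (statement: there is `K`).  Product: `pq - p'q' = (p - p') q + p' (q - q')`,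
`nn (pq - p'q') ≤ 2 K_q² nn (p - p') + 2 K_p² nn (q - q')`. -/
def Stmt_BDT : Prop := ∀ (k : Type) [Fintype k] (p : FreeAlgebra ℂ k), ∃ K : ℝ, 0 ≤ K ∧
  ∀ (N : ℕ) (A B : k → Mat N), 1 ≤ N → (∀ i, OB 4 (A i)) → (∀ i, OB 4 (B i)) →
    OB K (ev A p) ∧ nn (ev A p - ev B p) ≤ K * ∑ i, nn (A i - B i)

/-! ## B. Gaussian measures -/

/-- BLOCK STE (uses -): Stein's lemma for polynomials.
PROOF.  One variable: all moments of `gaussianReal 0 1` are finite and `∫ x^(n+1) = n ∫ x^(n-1)` (integration by parts with the density, or Mathlib's moment lemmas).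
Monomials: `Measure.pi`, `integral_fintype_prod_eq_prod`, `Integrable.fintype_prod`.  General: `MvPolynomial.induction_on'` / sums of monomials. -/
def Stmt_STE : Prop := ∀ (ι : Type) [Fintype ι] [DecidableEq ι] (P : MvPolynomial ι ℂ),
  Integrable (fun g : ι → ℝ => MvPolynomial.aeval (fun i => (g i : ℂ)) P) (gs ι) ∧
  ∀ i : ι, ∫ g, MvPolynomial.aeval (fun j => (g j : ℂ)) (MvPolynomial.X i * P) ∂(gs ι) =
    ∫ g, MvPolynomial.aeval (fun j => (g j : ℂ)) (MvPolynomial.pderiv i P) ∂(gs ι)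

/-- BLOCK GDE (uses -): the density of a Gaussian vector is bounded.
PROOF.  The law of `c + σ g` under `gs ι` is `Measure.pi (gaussianReal (c i) (σ²))` and each factor is `≤ (√(2π) σ)⁻¹ • volume` (`gaussianPDF_le` / the density is at most
`(√(2π) σ)⁻¹`).  So the product measure has a density `≤ (√(2π) σ)^(-card)` with respect to `volume` (for example: `gs ι = volume.withDensity (∏ gaussianPDF)`
(`Measure.pi` of `withDensity`), then the linear change of variables; or `Measure.pi_mono`-type induction on boxes: `Measure.pi` is monotone in its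
factors because it is the product outer measure). -/
def Stmt_GDE : Prop := ∀ (ι : Type) [Fintype ι] (c : ι → ℝ) (σ : ℝ) (E : Set (ι → ℝ)), 0 < σ →
  MeasurableSet E →
  (gs ι) {g | (fun i => c i + σ * g i) ∈ E} ≤
    ENNReal.ofReal (((Real.sqrt (2 * Real.pi) * σ) ^ Fintype.card ι)⁻¹) * volume E

/-- BLOCK GVB (uses -): the volume of a ball.
PROOF.  On the set, `1 ≤ exp(R card / 2) ∏ exp(-x_i²/2)`; `∫ exp(-x²/2) dx = √(2π)` (`integral_gaussian`), `lintegral` of a product over `Measure.pi`. -/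
def Stmt_GVB : Prop := ∀ (ι : Type) [Fintype ι] (R : ℝ), 0 ≤ R →
  volume {x : ι → ℝ | ∑ i, x i ^ 2 ≤ R * Fintype.card ι} ≤
    ENNReal.ofReal ((Real.sqrt (2 * Real.pi) * Real.exp (R / 2)) ^ Fintype.card ι)

/-- BLOCK GSB (uses -): small balls of the Gaussian measure.
PROOF.  If `r ≥ 1` the right side is `≥ 1`.  If `r < 1` let `λ = 1/r² - 1 > 0`: on the set `1 ≤ exp(λ r² card/2) ∏ exp(-λ (y_i - x_i)²/2)`, and
`∫ exp(-λ (y - x)²/2) d gaussianReal 0 1 (x) = (1+λ)^(-1/2) exp(-λ y²/(2(1+λ))) ≤ (1+λ)^(-1/2) = r`.  So the measure is at most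
`exp((1 - r²) card/2) r^card ≤ (exp(1/2) r)^card`. -/
def Stmt_GSB : Prop := ∀ (ι : Type) [Fintype ι] (y : ι → ℝ) (r : ℝ), 0 < r →
  (gs ι) {x | ∑ i, (y i - x i) ^ 2 ≤ r ^ 2 * Fintype.card ι} ≤
    ENNReal.ofReal ((Real.exp (1 / 2) * r) ^ Fintype.card ι)

/-- BLOCK GMK (uses -): Markov's inequality for `|x|²`.
PROOF.  `∫ ∑ x_i² = card ι`, Markov (`mul_meas_ge_le_lintegral` or `meas_ge_le_lintegral_div`); if `card ι = 0` the set is empty. -/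
def Stmt_GMK : Prop := ∀ (ι : Type) [Fintype ι] (R : ℝ), 0 < R →
  (gs ι) {x | R * Fintype.card ι < ∑ i, x i ^ 2} ≤ ENNReal.ofReal (1 / R)

/-! ## C. Traces of words in GUE matrices -/

/-- BLOCK RPR (uses HMB): the polynomials `Tp D w` represent the traces of the words.
PROOF.  `aeval` at the real point `g` is a ring homomorphism `MvPolynomial → ℂ`; mapped over matrices it sends `Lp D (inl i)` to `D i` and `Lp D (inr i)` to
`∑ p, g (i, p) • hm (cv p) = hmk g i` (HMB (5)). -/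
def Stmt_RPR : Prop := ∀ (Δ Γ : Type) [Fintype Γ] (N : ℕ) (D : Δ → Mat N) (w : List (Δ ⊕ Γ))
  (g : Γ × Fin N × Fin N → ℝ), 1 ≤ N →
  (MvPolynomial.aeval (fun i => (g i : ℂ))) (Tp D w) = ntr ((w.map (Sum.elim D (hmk g))).prod)

/-- BLOCK RDW (uses -): the derivative of a word.
PROOF.  Induction on `w`: `Wp D (c :: w) = Lp D c * Wp D w`, Leibniz for the matrix product (entrywise, `Derivation.leibniz`, sums), `(Lp D (inl i)).map ∂ = 0`,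
`(Lp D (inr i')).map ∂_(i,q) = hm (cv q)` if `i' = i`, else `0` (`pderiv_X`, `pderiv_C`); `Fin.sum_univ_succ` for `Fin (w.length + 1)`. -/
def Stmt_RDW : Prop := ∀ (Δ Γ : Type) [DecidableEq Δ] [DecidableEq Γ] (N : ℕ)
  (D : Δ → Mat N) (w : List (Δ ⊕ Γ)) (i : Γ) (q : Fin N × Fin N),
  (Wp D w).map (MvPolynomial.pderiv (i, q)) = ∑ p : Fin w.length,
    if w.get p = Sum.inr i then
      Wp D (w.take p) * (hm (cv q) : Mat N).map MvPolynomial.C * Wp D (w.drop (p + 1)) else 0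

/-- BLOCK INT (uses STE, RPR): integrability.
PROOF.  The function is `aeval g` of the polynomial `(S.map (Tp D)).prod`. -/
def Stmt_INT : Prop := ∀ (Δ Γ : Type) [Fintype Γ] (N : ℕ) (D : Δ → Mat N)
  (S : List (List (Δ ⊕ Γ))), 1 ≤ N →
  Integrable (fun g : Γ × Fin N × Fin N → ℝ =>
    (S.map fun w => ntr ((w.map (Sum.elim D (hmk g))).prod)).prod) (gs (Γ × Fin N × Fin N))

/-- BLOCK REC (uses STE, RPR, RDW, CMP): the Schwinger-Dyson recursion.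
PROOF.  `E` = integral of `aeval`.  `Tp (inr i :: w) = ∑_q X_(i,q) * P_q`, `P_q = N⁻¹ Tr(E_q W)`, `E_q = hm (cv q)`, `W = Wp D w`.  With `Π = (S.map Tp).prod`, STE gives
`E[Tp(inr i :: w) Π] = ∑_q E[∂_(i,q)(P_q Π)]`.  (a) `∑_q ∂ P_q = N⁻¹ ∑_q ∑_p Tr(E_q W(take p) E_q W(drop (p+1)))` (RDW) and by CMP `∑_q Tr(E_q M E_q M') = N⁻¹ Tr(M) Tr(M')`
(entries in any commutative `ℂ`-algebra), which gives `∑_p Tp(take p) Tp(drop (p+1))`.  (b) `∂ Π = ∑_s (∂ Tp(S_s)) ∏_{others}` and `∑_q Tr(E_q W) Tr(U E_q U') = N⁻¹ Tr(W U' U)` by CMP: the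
total factor is `N⁻¹ N⁻¹ N⁻¹ Tr = N⁻² N⁻¹ Tr`. -/
def Stmt_REC : Prop := ∀ (Δ Γ : Type) [Fintype Γ] [DecidableEq Δ] [DecidableEq Γ] (N : ℕ)
  (D : Δ → Mat N) (i : Γ) (w : List (Δ ⊕ Γ)) (S : List (List (Δ ⊕ Γ))), 1 ≤ N →
  Ex D ((Sum.inr i :: w) :: S) =
    (∑ p : Fin w.length, if w.get p = Sum.inr i then
      Ex D (w.take p :: w.drop (p + 1) :: S) else 0) +
    ((N : ℂ) ^ 2)⁻¹ * ∑ q : Fin S.length, ∑ p : Fin (S.get q).length,
      if (S.get q).get p = Sum.inr i then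
        Ex D ((w ++ (S.get q).drop (p + 1) ++ (S.get q).take p) :: S.eraseIdx q) else 0

/-- BLOCK CNV (uses MXA, REC): convergence.
PROOF.  Strong induction on the number of letters `Sum.inr _` in `S.flatten` (for all `κ`).  If there is none, every word of `S` is `w.map Sum.inl`, `Ex D S` is the constant
`∏ ntr(D_w)` (probability measure), close to `∏ t` (continuity of a finite product).  Otherwise permute `S` (`Ex` and the product of the `t` are invariant under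
`List.Perm`) so that its first word contains such a letter and rotate this word cyclically (`ntr (A * B) = ntr (B * A)`, and `t (u ++ v) = t (v ++ u)`) so that it starts with
`Sum.inr i`: apply REC.  All words lists on the right contain two Gaussian letters less, so their `Ex` is within `κ'` of the product of `t` for `N` large, `D` good;
the terms with the factor `N⁻²` are bounded, so they are small for `N` large; the limit of the first sum is `∑_p t(take) t(drop) ∏_S t = t(inr i :: w) ∏_S t`. -/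
def Stmt_CNV : Prop := ∀ (Δ Γ : Type) [Fintype Γ] [DecidableEq Δ] [DecidableEq Γ]
  (t : List (Δ ⊕ Γ) → ℂ), (∀ u v, t (u ++ v) = t (v ++ u)) →
  (∀ (i : Γ) (w : List (Δ ⊕ Γ)), t (Sum.inr i :: w) =
    ∑ p : Fin w.length, if w.get p = Sum.inr i then t (w.take p) * t (w.drop (p + 1)) else 0) →
  ∀ (S : List (List (Δ ⊕ Γ))) (κ : ℝ), 0 < κ → ∃ (m N₀ : ℕ) (δ : ℝ), 0 < δ ∧
    ∀ N : ℕ, N₀ ≤ N → 1 ≤ N → ∀ D : Δ → Mat N,
      (∀ w : List Δ, w.length ≤ m → ‖ntr ((w.map D).prod) - t (w.map Sum.inl)‖ ≤ δ) →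
      ‖Ex D S - (S.map t).prod‖ ≤ κ

/-! ## D. The Fock space -/

/-- BLOCK SDE (uses -): the recursion for `tau`.
PROOF.  `mon (u ++ v) = mon u * mon v`, `mon w ∈ Alg k`: (2) is ALC (3).  (3): `(mon w)* = mon w.reverse` (SPN (3)).  (4): `tau (i :: w) = ⟪s_i Ω, mon w Ω⟫ = ⟪r_i Ω, mon w Ω⟫`
(`s_i Ω = r_i Ω = bs [i]`) `= ⟪Ω, dq i (mon w) Ω⟫` (`r_i* Ω = 0`), and `dq i` is a derivation with `dq i (s_j) = δ_ij P` (COM (1), `t_COM`), `P = Pv k`: so `dq i (mon w)` is the sum over the positions `p` with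
`w_p = i` of `mon (take) P mon (drop)` (induction on `w`, `Fin.sum_univ_succ`) and `⟪Ω, x P y Ω⟫ = τ(x) τ(y)`.  (5) `‖sc i‖ ≤ 2` (BAS (8)). -/
def Stmt_SDE : Prop := ∀ k : ℕ, tau ([] : List (Fin k)) = 1 ∧
  (∀ u v : List (Fin k), tau (u ++ v) = tau (v ++ u)) ∧
  (∀ w : List (Fin k), tau w.reverse = conj (tau w)) ∧
  (∀ (i : Fin k) (w : List (Fin k)), tau (i :: w) =
    ∑ p : Fin w.length, if w.get p = i then tau (w.take p) * tau (w.drop (p + 1)) else 0) ∧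
  (∀ w : List (Fin k), ‖tau w‖ ≤ 2 ^ w.length)

/-- BLOCK EMB (uses SDE): renaming the letters.
PROOF.  Strong induction on the length with SDE (4): `(w.map f).get p = f (w.get p)`, `f` injective. -/
def Stmt_EMB : Prop := ∀ (k m : ℕ) (f : Fin k → Fin m) (w : List (Fin k)),
  Function.Injective f → tau (w.map f) = tau w

/-- BLOCK ROT (uses -): the rotation on the Fock space.
PROOF.  `l_i`, `L_0 = l_(castAdd 0)`, `L_(i+1) = cos θ l_(castAdd (i+1)) + sin θ l_(natAdd i)` on `Fk (n+1+n)`: `L_i* L_j = δ_ij`, `L_j* Ω = 0`.  So the vectors `L_w Ω` (`w` a word) are orthonormal and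
there is an isometry `T_θ : Fk (n+1) → Fk (n+1+n)` with `T_θ (bs w) = L_w Ω` (as in the definition of `lc`: `Orthonormal.orthogonalFamily.linearIsometry`; you may also use the vectors `L_w Ω`
only for finite sums).  `T_θ (sc i ξ) = (L_i + L_i*) T_θ ξ` (on the `bs w`: `sc i (bs w) = bs (i :: w) + [w = i :: w'] bs w'`), `T_θ Ω = Ω`, and `ev sc (rt θ i) = L_i + L_i*`: so
`ev sc (lift (rt θ) p) Ω = T_θ (ev sc p Ω)` (for all products, induction on `p`: both sides are algebra homomorphisms intertwined by `T_θ`).  `⟪L^θ_w Ω, L^0_v Ω⟫ = δ_wv cos(θ)^(cnt w)`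
(`(L^θ_i)* L^0_j = δ_ij (1 or cos θ)`, induction).  So with `ξ = ev sc p Ω`:
`‖T_θ ξ - T_0 ξ‖² = 2 ‖ξ‖² - 2 Re ⟪T_θ ξ, T_0 ξ⟫ = 2 ∑ (1 - cos(θ)^(cnt w)) ‖ξ w‖²`. -/
def Stmt_ROT : Prop := ∀ (n : ℕ) (θ : ℝ) (p : FreeAlgebra ℂ (Fin (n + 1))),
  ‖(ev sc (FreeAlgebra.lift ℂ (rt θ) p) - ev sc (FreeAlgebra.lift ℂ (rt 0) p))
    (vac (n + 1 + n))‖ ^ 2 = Nth θ ((ev sc p) (vac (n + 1)))

/-- BLOCK NTH (uses -): the functional `Nth`.
PROOF.  `0 ≤ 1 - cos(θ)^m ≤ 1` for `0 ≤ θ ≤ 1`, so all series converge (`∑ ‖ξ w‖² = ‖ξ‖²`).  (1) `‖ξ w‖² ≤ 2 ‖η w‖² + 2 ‖(ξ - η) w‖²`.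
(3) `1 - c^m ≤ m (1 - c)` (Bernoulli), `1 - cos θ ≤ θ²/2`, and `min(1, u) ≤ u^α`: `1 - cos(θ)^m ≤ (m θ²/2)^α ≤ m^α θ^(2α)` (for `m = 0` both sides are `0`). -/
def Stmt_NTH : Prop := ∀ (n : ℕ) (θ : ℝ), 0 ≤ θ → θ ≤ 1 →
  (∀ ξ η : Fk (n + 1), 0 ≤ Nth θ ξ ∧ Nth θ ξ ≤ 2 * Nth θ η + 4 * ‖ξ - η‖ ^ 2) ∧
  (∀ ξ : Fk (n + 1), Summable (fun w => (1 - Real.cos θ ^ cnt w) * ‖ξ w‖ ^ 2) ∧
    Nth θ ξ ≤ 2 * ‖ξ‖ ^ 2) ∧
  (∀ (α : ℝ) (ξ : Fk (n + 1)), 0 < α → α ≤ 1 →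
    Summable (fun w => (cnt w : ℝ) ^ α * ‖ξ w‖ ^ 2) →
    Nth θ ξ ≤ 2 * θ ^ (2 * α) * ∑' w, (cnt w : ℝ) ^ α * ‖ξ w‖ ^ 2)

/-- BLOCK NTO (uses -): the sharper behaviour for exponents `< 1`.
PROOF.  Dominated convergence (`tendsto_tsum_of_dominated_convergence`): `(1 - cos(θ)^m) / θ^(2α) ≤ m^α` (NTH (3)) and `→ 0` for every fixed `m` as `θ → 0+`, because `1 - cos(θ)^m ≤ m θ²/2`,
`2α < 2`. -/
def Stmt_NTO : Prop := ∀ (n : ℕ) (α : ℝ) (ξ : Fk (n + 1)), 0 < α → α < 1 →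
  Summable (fun w => (cnt w : ℝ) ^ α * ‖ξ w‖ ^ 2) →
  Tendsto (fun θ : ℝ => Nth θ ξ / θ ^ (2 * α)) (𝓝[>] 0) (𝓝 0)

/-- BLOCK SPL (uses -): approximation by polynomials.
PROOF.  SPN (2): `x` is in the closure of the span of the monomials; `mon w = ev sc` of the product of the generators. -/
def Stmt_SPL : Prop := ∀ (k : ℕ) (x : Fk k →L[ℂ] Fk k), x ∈ Alg k → ∀ η : ℝ, 0 < η →
  ∃ p : FreeAlgebra ℂ (Fin k), ‖x - ev sc p‖ ≤ η

/-- BLOCK RBD (uses -): right multiplication.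
PROOF.  For `w ∈ Alg k`: `‖w Ω‖ = ‖w* Ω‖` (ALC (2), JOP (5)).  `‖x z Ω‖ = ‖z* x* Ω‖ ≤ ‖z‖ ‖x* Ω‖ = ‖z‖ ‖x Ω‖`. -/
def Stmt_RBD : Prop := ∀ (k : ℕ) (x z : Fk k →L[ℂ] Fk k), x ∈ Alg k → z ∈ Alg k →
  ‖(star x) (vac k)‖ = ‖x (vac k)‖ ∧ ‖(x * z) (vac k)‖ ≤ ‖z‖ * ‖x (vac k)‖

/-- BLOCK EV2 (uses RBD): polynomials are continuous for the 2-norm on bounded sets.
PROOF.  `FreeAlgebra.induction` on `r` (statement: there is `K`, and `ev a r ∈ Alg k`).  Product: `(p q - p' q') Ω = (p - p') q Ω + p' (q - q') Ω`, RBD for the first term. -/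
def Stmt_EV2 : Prop := ∀ (k : ℕ) (ι : Type) [Fintype ι] (M : ℝ) (r : FreeAlgebra ℂ ι),
  ∃ K : ℝ, 0 ≤ K ∧ ∀ a b : ι → (Fk k →L[ℂ] Fk k), (∀ i, a i ∈ Alg k ∧ ‖a i‖ ≤ M) →
    (∀ i, b i ∈ Alg k ∧ ‖b i‖ ≤ M) → ev a r ∈ Alg k ∧ ‖ev a r‖ ≤ K ∧
      ‖(ev a r - ev b r) (vac k)‖ ≤ K * ∑ i, ‖(a i - b i) (vac k)‖

/-! ## E. Noncommutative polynomials -/

/-- BLOCK WRD (uses -): a polynomial is a combination of words.
PROOF.  `FreeAlgebra.induction`; for products use `Finsupp` sums over pairs (or: the set of such `p` is a subalgebra containing the generators). -/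
def Stmt_WRD : Prop := ∀ (k : Type) (p : FreeAlgebra ℂ k), ∃ c : List k →₀ ℂ,
  ∀ (R : Type) [Ring R] [Algebra ℂ R] (a : k → R), ev a p = c.sum fun w z => z • (w.map a).prod

/-- BLOCK DAG (uses -): the adjoint polynomial.
PROOF.  `FreeAlgebra.induction` on `p` (the statement with `∃ p'`): scalars `conj c`, generators, sums, products in the reversed order. -/
def Stmt_DAG : Prop := ∀ (k : Type) (p : FreeAlgebra ℂ k), ∃ p' : FreeAlgebra ℂ k,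
  ∀ (R : Type) [Ring R] [StarRing R] [Algebra ℂ R] [StarModule ℂ R] (a : k → R),
    (∀ i, star (a i) = a i) → ev a p' = star (ev a p)

/-- BLOCK CTN (uses -): continuity.
PROOF.  `FreeAlgebra.induction` on `p`. -/
def Stmt_CTN : Prop := ∀ (k : Type) (p : FreeAlgebra ℂ k) (N : ℕ) (X : Type) [TopologicalSpace X]
  (a : k → X → Mat N), (∀ i, Continuous (a i)) → Continuous fun x => ev (fun i => a i x) p

/-! ## F. From `Y` to `A` -/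

/-- BLOCK TR1 (uses MXA, SDE, RBD, EV2, WRD, DAG): the matrices `C_i = q_i(Y)`.
PROOF.  `M` from `Gen.gen`.  For `η > 0` let `q⁰_i` with `‖ev y q⁰_i‖ ≤ M`, `‖(s_i - ev y q⁰_i) Ω‖ ≤ η` and `q_i = (q⁰_i + q⁰_i') / 2`, `q⁰_i'` from DAG: then `ev Y q_i` is hermitian for hermitian `Y`
(DAG for `R = Mat N`), `ev y q_i = Re (ev y q⁰_i)` has norm `≤ M` and `‖(s_i - ev y q_i) Ω‖ ≤ η` (RBD (1) and `s_i* = s_i`, `y_j* = y_j`).  By EV2 with `M' = max M 2 (max ‖y_j‖)` for the tuples `Sum.elim sc y` and `Sum.elim (ev y q_i) y`,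
`|⟪Ω, ev(..) r Ω⟫ - ⟪Ω, ev(..) r Ω⟫| ≤ K_r ∑ ‖(s_i - ev y q_i) Ω‖ ≤ κ/2` for all `r ∈ R` if `η` is small.  Fix `q`.  `r_q = lift (Sum.elim q ι) r` satisfies
`ev Y r_q = ev (Sum.elim (ev Y q) Y) r`, the same for `y`.  WRD: `ntr (ev Y r_q) = ∑_w c_w ntr(Y_w)` and `⟪Ω, ev y r_q Ω⟫ = ∑_w c_w τ(w)` (`Gen.mom`): they differ by at most
`γ ∑ |c_w| ≤ κ/2` if `m` is at least the length of all words and `γ` is small. -/
def Stmt_TR1 : Prop := ∀ (n k : ℕ) (y : Fin k → (Fk (n + 1) →L[ℂ] Fk (n + 1))), Gen n k y →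
  ∀ (R : Finset (FreeAlgebra ℂ (Fin (n + 1) ⊕ Fin k))) (κ : ℝ), 0 < κ →
  ∃ (q : Fin (n + 1) → FreeAlgebra ℂ (Fin k)) (m : ℕ) (γ : ℝ), 0 < γ ∧
    ∀ (N : ℕ) (Y : Fin k → Mat N), 1 ≤ N → MC k m γ N Y →
      (∀ i, (ev Y (q i)).IsHermitian) ∧
      ∀ r ∈ R, ‖ntr (ev (Sum.elim (fun i => ev Y (q i)) Y) r) -
        ⟪vac (n + 1), (ev (Sum.elim sc y) r) (vac (n + 1))⟫_ℂ‖ ≤ κ

/-- BLOCK CLP (uses SPC, SPD): the clamped matrix.
PROOF.  `C = dg U l`, `A = dg U (max (-3) (min 3 l))` (SPD (5), (7)).  `|clamp x - x|^r ≤ |x|^(2M) 3^(r - 2M)` for `r = 2, 4`, `2M ≥ r` (it is `0` if `|x| ≤ 3`).  So `nn (A - C) = N⁻¹ ∑ (..)² ≤ 9 · 9^(-M) N⁻¹ ∑ l^(2M)`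
and `nn ((A - C)²) = N⁻¹ ∑ (..)⁴` (SPD (3), (2)). -/
def Stmt_CLP : Prop := ∀ (N : ℕ) (C : Mat N), 1 ≤ N → C.IsHermitian →
  ∃ A : Mat N, A.IsHermitian ∧ OB 3 A ∧ ∀ M : ℕ, 2 ≤ M →
    nn (A - C) ≤ 9 * (ntr (C ^ (2 * M))).re / 9 ^ M ∧
    nn ((A - C) * (A - C)) ≤ 81 * (ntr (C ^ (2 * M))).re / 9 ^ M

/-- BLOCK TR2 (uses MXA, OBB, SDE, WRD, CLP): clamping the tuple `C`.
PROOF.  `A_i` from CLP for `C_i`.  `(ntr (C_i^(2M))).re ≤ 4^M + γ` (MC for the word `i^(2M)`, SDE (5)), so `nn (A_i - C_i)`, `nn ((A_i - C_i)²)` are `≤ 81 (4^M + 1)/9^M =: β`, as small as we want.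
Words: `A_v - C_v = ∑_{v = v1 i v2} A_v1 (A_i - C_i) C_v2`.  With `X = A_v1` (`OB (3^|v1|)`), `Δ = A_i - C_i`, `Z = C_v2`: `‖ntr (X Δ Z)‖² ≤ nn (X Δ) nn Z ≤ 9^|v1| β nn Z`, and `nn Z = ntr (Z* Z) = ntr (C_(v2† v2))` is within `γ` of
a number of modulus `≤ 4^|v2|`: so the moments of `A` up to the order `m₁` are within `δ` of `τ`.  Polynomials (WRD): `nn (X Δ Z) ≤ 9^|v1| nn (Δ Z)`, `nn (Δ Z) = ntr (Z* Δ² Z) = ntr (Δ² (Z Z*)) ≤ (nn (Δ²) nn (Z Z*))^(1/2)`, and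
`nn (Z Z*) = ntr ((Z Z*)²)` is a moment of `C` of order `4 |v2|`.  So `nn (ev A p - ev C p) ≤ (number of terms) ∑ .. ≤ κ` for `β` small.  `m` = a bound for the orders of all moments used (also `2M`). -/
def Stmt_TR2 : Prop := ∀ (n m₁ : ℕ) (δ κ : ℝ) (ι : Type) [Fintype ι]
  (p : ι → FreeAlgebra ℂ (Fin (n + 1))), 0 < δ → 0 < κ → ∃ (m : ℕ) (γ : ℝ), 0 < γ ∧
    ∀ (N : ℕ) (C : Fin (n + 1) → Mat N), 1 ≤ N → MC (n + 1) m γ N C →
      ∃ A : Fin (n + 1) → Mat N, (∀ i, OB 3 (A i)) ∧ MC (n + 1) m₁ δ N A ∧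
        ∀ j, nn (ev A (p j) - ev C (p j)) ≤ κ

/-- BLOCK TRA (uses MXA, DAG, TR1, TR2): from `Y` to `A`.
PROOF.  TR2 with `κ = ε²/2` gives `m'`, `γ'`.  TR1 with `κ = min γ' (ε²/2)` and `R` = the words of length `≤ m'` in the letters `inl i` (finitely many; products of generators) and the polynomials
`r_j = (P_j - ι (inr j))' * (P_j - ι (inr j))`, `P_j = lift (ι ∘ inl) (p j)`, `'` from DAG.  For a hermitian tuple `ntr (ev r_j) = nn (ev C (p j) - Y j)` (MXA (1)) and the limit is `‖(ev sc (p j) - y j) Ω‖² ≤ ε²`.  So `C_i = ev Y (q i)` satisfies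
`MC (n+1) m' γ'` and `nn (ev C (p j) - Y j) ≤ 3 ε²/2`; TR2: `nn (ev A (p j) - Y j) ≤ 2 (ε²/2) + 2 (3 ε²/2) = 4 ε²`. -/
def Stmt_TRA : Prop := ∀ (n k : ℕ) (y : Fin k → (Fk (n + 1) →L[ℂ] Fk (n + 1))), Gen n k y →
  ∀ (p : Fin k → FreeAlgebra ℂ (Fin (n + 1))) (ε : ℝ), 0 < ε →
  (∀ j, ‖y j - ev sc (p j)‖ ≤ ε) → ∀ (m₁ : ℕ) (δ : ℝ), 0 < δ → ∃ (m : ℕ) (γ : ℝ), 0 < γ ∧
    ∀ (N : ℕ) (Y : Fin k → Mat N), 1 ≤ N → MC k m γ N Y →
      ∃ A : Fin (n + 1) → Mat N, (∀ i, OB 3 (A i)) ∧ MC (n + 1) m₁ δ N A ∧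
        ∀ j, nn (ev A (p j) - Y j) ≤ 4 * ε ^ 2

/-! ## G. The gauge matrix -/

/-- BLOCK CPX (uses SPC, SPD, SDE): the clamped gauge matrix.
PROOF.  `X = dg U l`.  With `m ≥ 2`, `γ ≤ 1`: `∑ l_a² = N (ntr X²).re ≤ 2 N` (`cat 2 = 1` from SDE (4)), so `|l_a| ≤ √(2N)` and `|f(l_a) - clamp(l_a)| ≤ 1/N ≤ 1`: `|f(l_a)| ≤ 4` and `D = aeval X f = dg U (f ∘ l)` (SPD (6)).
`|f(l)^j - l^j| ≤ |f(l)^j - clamp(l)^j| + |clamp(l)^j - l^j| ≤ j 4^j / N + 2 · 3^j l^(2M) / 9^M` for `2M ≥ j` (the second is `0` if `|l| ≤ 3`).  Average over `a`: `N⁻¹ ∑ l^(2M) = (ntr X^(2M)).re ≤ 4^M + 1` (SDE (5): `‖cat (2M)‖ ≤ 4^M`).  Choose `M`, then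
`m = max(2M, m₁, 2)`, `N₀`, `γ`. -/
def Stmt_CPX : Prop := ∀ (m₁ : ℕ) (δ : ℝ), 0 < δ → ∃ (m N₀ : ℕ) (γ : ℝ), 0 < γ ∧
  ∀ (N : ℕ) (f : Polynomial ℝ) (X : Mat N), N₀ ≤ N → 1 ≤ N → Clm N f → X.IsHermitian →
    (∀ j ≤ m, ‖ntr (X ^ j) - cat j‖ ≤ γ) →
    (Polynomial.aeval X f).IsHermitian ∧ OB 4 (Polynomial.aeval X f) ∧
      ∀ j ≤ m₁, ‖ntr ((Polynomial.aeval X f) ^ j) - cat j‖ ≤ δ

/-- BLOCK MT1 (uses -): two ordered sequences with close counting functions.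
PROOF.  `h = 8/J`, `t_j = -4 + j h`, `c_l(t) = #{a : t < l a}`.  The sets `{a : t < l a}`, `{a : t < x a}` are final segments, so one contains the other and
`#{a : t between l a and x a (min ≤ t < max)} = |c_l(t) - c_x(t)|`.  `|l a - x a| ≤ h (#{j : min ≤ t_j < max} + 1)`, so `∑ |l a - x a| ≤ h (N + ∑_j |c_l(t_j) - c_x(t_j)|)`.  By hypothesis
`|c_l(t_j) - c_x(t_j)| ≤ (c_x(t_j - h) - c_x(t_j)) + (c_l(t_j - h) - c_l(t_j)) + κ N`; the brackets telescope over `j = 0..J` (`t_j - h = t_(j-1)`), each sum is `≤ N`.  So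
`∑ |l a - x a| ≤ h (3 N + (J+1) κ N) ≤ N (24/J + 16 κ)` and `(l a - x a)² ≤ 8 |l a - x a|`. -/
def Stmt_MT1 : Prop := ∀ (N J : ℕ) (l x : Fin N → ℝ) (κ : ℝ), 1 ≤ N → 1 ≤ J → 0 ≤ κ →
  Monotone l → Monotone x → (∀ a, |l a| ≤ 4) → (∀ a, |x a| ≤ 4) →
  (∀ j : ℕ, j ≤ J →
    ((Finset.univ.filter fun a => -4 + 8 * (j : ℝ) / J < l a).card : ℝ) ≤
      (Finset.univ.filter fun a => -4 + 8 * (j : ℝ) / J - 8 / J < x a).card + κ * N ∧
    ((Finset.univ.filter fun a => -4 + 8 * (j : ℝ) / J < x a).card : ℝ) ≤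
      (Finset.univ.filter fun a => -4 + 8 * (j : ℝ) / J - 8 / J < l a).card + κ * N) →
  ∑ a, (l a - x a) ^ 2 ≤ 8 * N * (24 / J + 16 * κ)

/-- BLOCK MTC (uses MXA, SPC, SPD, MT1): hermitian matrices with close moments are almost unitarily equivalent.
PROOF.  `P = dg U l`, `Q = dg U' x` with `l`, `x` monotone, `|l|, |x| ≤ 4` (SPD (5)); `V = U' U*`: `V P V* = dg U' l` (SPD (8), `U* U = 1`), `nn (V P V* - Q) = N⁻¹ ∑ (l a - x a)²`.  Choose `J`, `κ` with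
`8 (24/J + 16 κ) ≤ η`.  For `j ≤ J` let `g_j` be the continuous function `0` on `t ≤ t_j - h`, `1` on `t ≥ t_j`, linear between, and `P_j` a real polynomial with `|P_j - g_j| ≤ κ/4` on `[-4, 4]`
(Weierstrass, `exists_polynomial_near_continuousOn`).  `c_l(t_j)/N ≤ N⁻¹ ∑ g_j(l a) ≤ N⁻¹ ∑ P_j(l a) + κ/4 ≤ N⁻¹ ∑ P_j(x a) + κ/2 ≤ N⁻¹ ∑ g_j(x a) + 3κ/4 ≤ c_x(t_j - h)/N + κ`, if
`δ ∑ |coeff P_j| ≤ κ/4` (SPD (4)), `m` ≥ all degrees. -/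
def Stmt_MTC : Prop := ∀ η : ℝ, 0 < η → ∃ (m : ℕ) (δ : ℝ), 0 < δ ∧ ∀ (N : ℕ) (P Q : Mat N), 1 ≤ N →
  P.IsHermitian → Q.IsHermitian → OB 4 P → OB 4 Q →
  (∀ j ≤ m, ‖ntr (P ^ j) - ntr (Q ^ j)‖ ≤ δ) → ∃ V : Mat N, Uni V ∧ nn (V * P * star V - Q) ≤ η

/-! ## H. GUE matrices are microstates; the rotation -/

/-- BLOCK GOD (uses HMB, INT, CNV, SDE): most GUE tuples are microstates.
PROOF.  The matrices are hermitian (HMB (1)).  For a word `w`: `∫ |ntr G_w - τ(w)|² = Ex [w, w†] - τ(w) conj.. - .. + |τ(w)|²`, where `conj (ntr G_w) = ntr G_(w†)`; `CNV` with `Δ = Empty`, `Γ = Fin k`,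
`t v = tau (v.map (Sum.elim Empty.elim id))` (hypotheses: SDE (2), (4); for words in `Empty` use SDE (1) and `ntr 1 = 1`): `Ex → τ(w) τ(w†) = |τ(w)|²` and `∫ ntr G_w → τ(w)`, so the integral tends to `0`.  Chebyshev for each of the finitely
many words of length `≤ m`, union bound. -/
def Stmt_GOD : Prop := ∀ (k m : ℕ) (γ : ℝ), 0 < γ → ∃ N₀ : ℕ, ∀ N : ℕ, N₀ ≤ N → 1 ≤ N →
  (gs (Fin k × Fin N × Fin N)) {g | ¬ MC k m γ N (hmk g)} ≤ ENNReal.ofReal (1 / 4)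

/-- BLOCK GO1 (uses GOD): the case of one matrix.
PROOF.  `gs (Fin N × Fin N)` is the image of `gs (Fin 1 × Fin N × Fin N)` under the obvious bijection of the coordinates (`measurePreserving_piCongrLeft` or `Measure.pi_map_piCongrLeft`), `(List.replicate j 0).map A` has the product `A 0 ^ j`. -/
def Stmt_GO1 : Prop := ∀ (m : ℕ) (γ : ℝ), 0 < γ → ∃ N₀ : ℕ, ∀ N : ℕ, N₀ ≤ N → 1 ≤ N →
  (gs (Fin N × Fin N)) {x | ∃ j ≤ m, γ < ‖ntr ((hm x : Mat N) ^ j) - cat j‖} ≤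
    ENNReal.ofReal (1 / 4)

/-- BLOCK GEX (uses MXA, HMB, INT, CNV, SDE, EMB, ROT, WRD, DAG): the mean of the rotation error.
PROOF.  Letters `Fin (n+1) ⊕ Fin n`, `e : Fin (n+1) ⊕ Fin n → Fin (n+1+n)` (`Fin.castAdd n`, `Fin.natAdd (n+1)`; bijective).  Let `P_θ = lift (..) p` with values in `FreeAlgebra ℂ (Fin (n+1) ⊕ Fin n)` such that
`ev (Sum.elim A G) P_θ = ev (rotm θ A G) p` (the analogue of `rt`), `P_0` with `ev (Sum.elim A G) P_0 = ev A p`.  With DAG `r = (P_θ - P_0)' (P_θ - P_0)`; the tuples are hermitian, so `nn (ev (rotm θ A G) p - ev A p) = ntr (ev (Sum.elim A G) r)`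
(MXA (1)) `= ∑_w c_w ntr (..)_w` (WRD).  Integrate (INT) and use CNV with `D = A`, `t v = tau (v.map e)` (SDE (2), (4) with `e` injective; the hypothesis on `D` is `MC` and EMB) for the finitely many lists `[w]`: the limit is
`∑ c_w tau (w.map e) = ⟪Ω, ev (sc ∘ e) r Ω⟫ = ‖(ev (sc ∘ e) P_θ - ev (sc ∘ e) P_0) Ω‖² = Nth θ (ev sc p Ω)` (ROT; `ev (sc ∘ e) P_θ = ev sc (lift (rt θ) p)`). -/
def Stmt_GEX : Prop := ∀ (n : ℕ) (p : FreeAlgebra ℂ (Fin (n + 1))) (θ κ : ℝ), 0 < κ →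
  ∃ (m N₀ : ℕ) (δ : ℝ), 0 < δ ∧ ∀ (N : ℕ) (A : Fin (n + 1) → Mat N), N₀ ≤ N → 1 ≤ N →
    MC (n + 1) m δ N A →
    Integrable (fun g : Fin n × Fin N × Fin N → ℝ => nn (ev (rotm θ A (hmk g)) p - ev A p))
      (gs (Fin n × Fin N × Fin N)) ∧
    ∫ g : Fin n × Fin N × Fin N → ℝ, nn (ev (rotm θ A (hmk g)) p - ev A p)
      ∂(gs (Fin n × Fin N × Fin N)) ≤ Nth θ ((ev sc p) (vac (n + 1))) + κ

/-- BLOCK LOW (uses MXA, OBB, HMB, BDT, SDE, EMB, NTH, SPL, TRA, CPX, MTC, GEX): for good `Y` and good gauge `x` the rotation works.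
PROOF.  `p j` with `‖y j - ev sc (p j)‖ ≤ ε` (SPL).  `Nth θ (ev sc (p j) Ω) ≤ 2 ε² + 4 ε² = 6 ε²` (NTH (1)).  GEX with `κ = ε²`: `m₀`, `δ₀` (for all `j`).  BDT for the words of length `≤ m₀` (as polynomials) and for the `p j`: constant `K ≥ 1`.  Let `η` with
`K η ≤ ε²` and `(K η)^(1/2) ≤ δ₀/2`.  MTC for `η`: `m₂`, `δ₂`.  TRA with `m₁ = max m₀ m₂`, `δ = min (δ₀/2) (δ₂/2)`; CPX with `m₂`, `δ₂/2`.  Given `Y`, `x`: `A` from TRA, `D = aeval (hm x) f` from CPX.  `ntr (A_0^j)` and `ntr (D^j)` are within `δ₂` (`tau` of the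
word `0^j` is `cat j`, EMB), so MTC gives a unitary `V` with `nn (V A_0 V* - D) ≤ η`.  `A' = (D, V A_1 V*, .., V A_n V*)`, `A'' = V A V*`: `nn (A'_i - A''_i) ≤ η` for `i = 0`, `0` for the others, all `OB 4`.  Moments of `A''` = those of `A`; those of
`A'` differ by at most `(K η)^(1/2)` (MXA (4), BDT): so `MC (n+1) m₀ δ₀ N A'`, and `nn (ev A' (p j) - V (ev A (p j)) V*) ≤ K η ≤ ε²`.  Let `c` with `hmk c i = V A_(i+1) V*` (HMB (6); `∑ c² = N² ∑ nn ≤ 9 n N²`, OBB).  Then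
`hmk (cos θ c + sin θ g) i = cos θ V A_(i+1) V* + sin θ hmk g i` (HMB (2), (3)), so `FF p f x (..) j = ev (rotm θ A' (hmk g)) (p j)`, and
`nn (FF .. j - V Y_j V*) ≤ 3 nn (ev (rotm ..) (p j) - ev A' (p j)) + 3 nn (ev A' (p j) - V ev A (p j) V*) + 3 nn (ev A (p j) - Y_j)`, with mean `≤ 3 (7 ε² + ε² + 4 ε²) = 36 ε²`.  Markov for the sum over `j`.  (If `k = 0` the set is empty.) -/
def Stmt_LOW : Prop := ∀ (n k : ℕ) (y : Fin k → (Fk (n + 1) →L[ℂ] Fk (n + 1))), Gen n k y →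
  ∀ θ ε : ℝ, 0 < θ → θ ≤ 1 → 0 < ε → ε ≤ 1 → (∀ j, Nth θ (y j (vac (n + 1))) ≤ ε ^ 2) →
  ∃ (p : Fin k → FreeAlgebra ℂ (Fin (n + 1))) (m N₀ : ℕ) (γ : ℝ), 0 < γ ∧
    ∀ (N : ℕ) (f : Polynomial ℝ), N₀ ≤ N → 1 ≤ N → Clm N f →
    ∀ (Y : Fin k → Mat N) (x : Fin N × Fin N → ℝ), MC k m γ N Y →
      (∀ j ≤ m, ‖ntr ((hm x : Mat N) ^ j) - cat j‖ ≤ γ) →
      ∃ (V : Mat N) (c : Fin n × Fin N × Fin N → ℝ), Uni V ∧ ∑ i, c i ^ 2 ≤ 9 * n * (N : ℝ) ^ 2 ∧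
        (gs (Fin n × Fin N × Fin N)) {g | 144 * k * ε ^ 2 <
          ∑ j, nn (FF p f x (fun i => Real.cos θ * c i + Real.sin θ * g i) j -
            V * Y j * star V)} ≤ ENNReal.ofReal (1 / 4)

/-! ## I. Nets -/

/-- BLOCK NTP (uses -): nets in a ball of a finite dimensional normed space.
PROOF.  Let `s` be a maximal (by cardinality) `ε`-separated finite subset of the closed ball of radius `R`.  The open balls of radius `ε/2` around its points are disjoint and contained in the ball of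
radius `R + ε/2`: with an additive Haar measure (`MeasureTheory.Measure.addHaar_ball_mul`, `addHaar_ball`) `card s * (ε/2)^d ≤ (R + ε/2)^d`, so `card s ≤ ((2R + ε)/ε)^d ≤ (3R/ε)^d`.  The same bound holds for every separated set, so a maximal one exists. -/
def Stmt_NTP : Prop := ∀ (E : Type) [NormedAddCommGroup E] [NormedSpace ℝ E]
  [FiniteDimensional ℝ E] (R ε : ℝ), 0 < ε → ε ≤ R →
  ∃ s : Finset E, (s.card : ℝ) ≤ (3 * R / ε) ^ Module.finrank ℝ E ∧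
    ∀ x : E, ‖x‖ ≤ R → ∃ c ∈ s, ‖x - c‖ ≤ ε

/-- BLOCK NEU (uses MXA, HMB, NTP): a net of the unitary group.
PROOF.  Use the operator norm (`open scoped Matrix.Norms.L2Operator`).  `E` = the real vector space of the hermitian matrices (`selfAdjoint (Mat N)`) with this norm, of dimension `N²` (HMB: `hm` is a linear bijection from `Fin N × Fin N → ℝ`).  NTP
with `R = 4` and `ε' = ε / e⁵`: a net `s` of the ball of radius `4` with at most `(12 e⁵ / ε)^(N²)` points; `v` = the unitary matrices `exp(i H')`, `H' ∈ s`.  A unitary `V` is `exp(i H)` with `H` hermitian, `‖H‖ ≤ π ≤ 4`: the spectrum is finite, so `H = cfc (arg) V` is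
defined (`Set.Finite.continuousOn`), and `exp (i arg z) = z` on the spectrum (or: diagonalise the normal matrix `V`).  `‖exp(iH) - exp(iH')‖ ≤ e^(‖H‖ + ‖H'‖ ..) ‖H - H'‖` (power series), at most `ε` for `H'` within `ε'` of `H`
(points of `s` may be taken in the ball of radius `5`; if not, drop them).  `V Y V* - v Y v* = (V - v) Y V* + v Y (V - v)*` and `nn (B Y) ≤ ‖B‖² nn Y` for the operator norm: total `≤ (2 ε)² nn Y` (MXA (6), (8)). -/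
def Stmt_NEU : Prop := ∃ C₁ : ℝ, 0 < C₁ ∧ ∀ (ε : ℝ) (N : ℕ), 0 < ε → ε ≤ 1 → 1 ≤ N →
  ∃ (L : ℕ) (v : Fin L → Mat N), (L : ℝ) ≤ (C₁ / ε) ^ (N ^ 2) ∧ (∀ l, Uni (v l)) ∧
    ∀ V : Mat N, Uni V → ∃ l, ∀ Y : Mat N,
      nn (V * Y * star V - v l * Y * star (v l)) ≤ 4 * ε ^ 2 * nn Y

/-! ## J. The double counting -/

/-- BLOCK LOV (uses MXA, HMB, GDE, GMK, SDE, CTN, LOW): the volume of the good `b`.
PROOF.  From LOW (take `m ≥ 2`, `γ ≤ 1`: increase `m`, decrease `γ`).  `b = cos θ c + sin θ g`: `∑ b² ≤ 2 ∑ c² + 2 ∑ g² ≤ 18 n N² + 2 ∑ g²`, and `∑ g² ≤ 31 n N²` with probability `≥ 1 - 1/31` (GMK).  With probability `≥ 1/2` both `∑ b² ≤ 80 n N²` and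
`∑_j nn (FF .. j - V Y_j V*) ≤ 144 k ε²`; take `l` for `V` in the net: `nn (V Y_j V* - v_l Y_j v_l*) ≤ 4 ε² nn Y_j ≤ 8 ε²` (`nn Y_j = ntr Y_j² ≤ 2`, MC for the word `[j, j]`, `tau [j, j] = 1`), so `∑_j nn (FF .. j - v_l Y_j v_l*) ≤ 288 k ε² + 16 k ε² ≤ 400 k ε²`.  The set
of the `b` is closed (CTN, finite union), so GDE with `σ = sin θ` gives `1/2 ≤ (√(2π) sin θ)^(-n N²) volume(..)`. -/
def Stmt_LOV : Prop := ∀ (n k : ℕ) (y : Fin k → (Fk (n + 1) →L[ℂ] Fk (n + 1))), Gen n k y →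
  ∀ θ ε : ℝ, 0 < θ → θ ≤ 1 → 0 < ε → ε ≤ 1 → (∀ j, Nth θ (y j (vac (n + 1))) ≤ ε ^ 2) →
  ∃ (p : Fin k → FreeAlgebra ℂ (Fin (n + 1))) (m N₀ : ℕ) (γ : ℝ), 0 < γ ∧
    ∀ (N : ℕ) (f : Polynomial ℝ) (L : ℕ) (v : Fin L → Mat N), N₀ ≤ N → 1 ≤ N → Clm N f →
    (∀ V : Mat N, Uni V → ∃ l, ∀ Y : Mat N,
      nn (V * Y * star V - v l * Y * star (v l)) ≤ 4 * ε ^ 2 * nn Y) →
    ∀ (Y : Fin k → Mat N) (x : Fin N × Fin N → ℝ), MC k m γ N Y →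
      (∀ j ≤ m, ‖ntr ((hm x : Mat N) ^ j) - cat j‖ ≤ γ) →
      ENNReal.ofReal (1 / 2 * (Real.sqrt (2 * Real.pi) * Real.sin θ) ^ (n * N ^ 2)) ≤
        volume {b : Fin n × Fin N × Fin N → ℝ | Good p f v ε Y x b}

/-- BLOCK UPP (uses MXA, HMB, GSB): the probability of the good `Y`.
PROOF.  Union bound over `l`.  `nn (Z_j - v G_j v*) = nn (v* Z_j v - G_j) ≥ N⁻² ∑_p (z_j p - g (j, p))²` (MXA (8), HMB (7)), so the event is contained in `∑_(j,p) (z_j p - g (j,p))² ≤ 400 ε² k N²`: GSB with `r = 20 ε`, `card = k N²`;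
`exp(1/2) ≤ 1.65` (`Real.exp_one_lt_d9`), so `exp(1/2) · 20 ≤ 33`. -/
def Stmt_UPP : Prop := ∀ (k N L : ℕ) (v : Fin L → Mat N) (Z : Fin k → Mat N) (ε : ℝ), 1 ≤ N →
  0 < ε → (∀ l, Uni (v l)) →
  (gs (Fin k × Fin N × Fin N)) {g | ∃ l, ∑ j, nn (Z j - v l * hmk g j * star (v l)) ≤
    400 * k * ε ^ 2} ≤ ENNReal.ofReal (L * (33 * ε) ^ (k * N ^ 2))

/-- BLOCK MEA (uses CTN): measurability.
PROOF.  `hm`, `hmk`, `nn` are continuous, `x ↦ aeval (hm x) f` is a polynomial in the entries, CTN: all functions are continuous on the product space; the set is a finite union of closed sets. -/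
def Stmt_MEA : Prop := ∀ (n k N L : ℕ) (p : Fin k → FreeAlgebra ℂ (Fin (n + 1)))
  (f : Polynomial ℝ) (v : Fin L → Mat N) (ε : ℝ),
  MeasurableSet {z : (Fin k × Fin N × Fin N → ℝ) ×
    ((Fin N × Fin N → ℝ) × (Fin n × Fin N × Fin N → ℝ)) |
      ∑ q, z.2.1 q ^ 2 ≤ 2 * (N : ℝ) ^ 2 ∧ Good p f v ε (hmk z.1) z.2.1 z.2.2}

/-- BLOCK ASM (uses HMB, SDE, GDE, GVB, GOD, GO1, NEU, LOV, UPP, MEA): the double counting.
PROOF.  `C₁` from NEU.  Given `y`, `θ`, `ε`: `p`, `m`, `N₀`, `γ` from LOV (take `m ≥ 2`, `γ ≤ 1`), `N` large.  `f` a polynomial with `Clm N f` (Weierstrass).  `L`, `v` from NEU.  `K` = the set of MEA, `μ = gs (Fin k × Fin N × Fin N)` times `volume` times `volume`.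
LOWER BOUND (Tonelli): for `g` with `MC` (measure `≥ 3/4`, GOD) and `x` with good moments (then `∑ x² = N² (ntr (hm x)²).re ≤ 2 N²`, HMB (4), `cat 2 = 1`), the section has volume `≥ (1/2) (√(2π) sin θ)^(n N²)` (LOV).  The set of good `x` has `gs`-measure `≥ 3/4` (GO1), so volume
`≥ (3/4) (√(2π))^(N²)` (GDE with `c = 0`, `σ = 1`).  So `μ(K) ≥ (3/4)(3/4)(1/2) (√(2π))^(N²) (√(2π) sin θ)^(n N²)`.  (The set of good `g` is closed, so measurable.)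
UPPER BOUND: for fixed `(x, b)` UPP with `Z_j = FF p f x b j`; the `(x, b)` lie in the product of the balls `∑ x² ≤ 2 N²`, `∑ b² ≤ 80 n N²`: GVB with `R = 2`, `R = 80` (`card = N²`, `n N²`).  So
`μ(K) ≤ L (33 ε)^(k N²) (√(2π) e)^(N²) (√(2π) e^40)^(n N²)`.  Divide by `(√(2π))^((n+1) N²)`; `(3/4)(3/4)(1/2) ≥ 1/8`. -/
def Stmt_ASM : Prop := ∃ C₁ : ℝ, 0 < C₁ ∧
  ∀ (n k : ℕ) (y : Fin k → (Fk (n + 1) →L[ℂ] Fk (n + 1))), Gen n k y →
  ∀ θ ε : ℝ, 0 < θ → θ ≤ 1 → 0 < ε → ε ≤ 1 → (∀ j, Nth θ (y j (vac (n + 1))) ≤ ε ^ 2) →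
  ∃ N₀ : ℕ, ∀ N : ℕ, N₀ ≤ N → 1 ≤ N →
    (1 / 8) * Real.sin θ ^ (n * N ^ 2) ≤
      (C₁ / ε) ^ (N ^ 2) * (33 * ε) ^ (k * N ^ 2) * Real.exp (1 + 40 * n) ^ (N ^ 2)

/-- BLOCK COR (uses ASM): the core inequality.
PROOF.  Take the `N²`-th root and `N → ∞` (`(1/8)^(1/N²) → 1`; or: if `a < b`, `0 ≤ a`, then `(1/8) b^M ≤ a^M` fails for large `M`): `sin(θ)^n ≤ (C₁/ε) (33 ε)^k e^(1+40n)`, that is `≤ C₁ 33^k e^(1+40n) ε^(k-1)` (`k ≥ 1`).  `sin θ ≥ 2θ/π ≥ θ/2` (`Real.mul_le_sin` or `Real.sin_gt_sub_cube`).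
So `θ^n ≤ K ε^(k-1)`.  Let `E = ∑_j Nth θ (y j Ω)`.  If `E ≥ 1` the claim holds with `c ≤ 1` (`θ ≤ 1`).  If `0 < E < 1` take `ε = √E`: `E ≥ (θ^n/K)^(2/(k-1))`.  If `E = 0` every `ε` is allowed and `θ^n ≤ K ε^(k-1) → 0`, impossible (`k ≥ 2`). -/
def Stmt_COR : Prop := ∀ n k : ℕ, 2 ≤ k → ∃ c : ℝ, 0 < c ∧
  ∀ y : Fin k → (Fk (n + 1) →L[ℂ] Fk (n + 1)), Gen n k y → ∀ θ : ℝ, 0 < θ → θ ≤ 1 →
    c * θ ^ (2 * (n : ℝ) / ((k : ℝ) - 1)) ≤ ∑ j, Nth θ (y j (vac (n + 1)))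

/-- BLOCK CRL (uses NTH, NTO, COR): the fractional Sobolev classes.
PROOF.  (1) NTH (3): `∑_j Nth ≤ C θ^(2α)` for `0 < θ ≤ 1`, so `c θ^(2n/(k-1)) ≤ C θ^(2α)` for all small `θ`, hence `2n/(k-1) ≥ 2α`.  (2) by NTO `∑_j Nth / θ^(2α) → 0`; if `n/(k-1) = α` then `c ≤ ∑_j Nth / θ^(2α)`, a contradiction; with (1) `n/(k-1) > α`. -/
def Stmt_CRL : Prop := ∀ n k : ℕ, 2 ≤ k →
  ∀ y : Fin k → (Fk (n + 1) →L[ℂ] Fk (n + 1)), Gen n k y → ∀ α : ℝ, 0 < α → α ≤ 1 →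
    (∀ j, Summable (fun w => (cnt w : ℝ) ^ α * ‖(y j (vac (n + 1))) w‖ ^ 2)) →
    α * ((k : ℝ) - 1) ≤ n ∧ (α < 1 → α * ((k : ℝ) - 1) < n)

/-- BLOCK GNF (uses SPL): homomorphisms with weakly dense range give generating families.
PROOF.  `σ(x) = ⟪Ω, φ(x) Ω⟫` is a bounded (`‖φ x‖ ≤ ‖x‖`, `NonUnitalStarAlgHom.norm_apply_le` or `StarAlgHom`; both algebras are closed, so C*-algebras, see `B_IMP.lean`) trace on `Alg k` (ALC (3)) with `σ 1 = 1`, so `σ = τ` (`t_UTF`, `k ≥ 2`): this is `mom` (`φ` of the monomial).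
`sa`: `φ` preserves `star`, `sc j` is self-adjoint.  `gen`: `x` as in the hypothesis for `η/2`, `q` with `‖x - ev sc q‖ ≤ min 1 (η/2)` (SPL); `φ (ev ge q) = ev y q` and `‖φ x - ev y q‖ ≤ min 1 (η/2)`; constant `M + 1`. -/
def Stmt_GNF : Prop := ∀ n k : ℕ, 2 ≤ k → ∀ φ : Alg k →⋆ₐ[ℂ] Alg (n + 1),
  (∃ M : ℝ, ∀ (i : Fin (n + 1)) (η : ℝ), 0 < η → ∃ x : Alg k, ‖φ x‖ ≤ M ∧
    ‖(sc i - (φ x : Fk (n + 1) →L[ℂ] Fk (n + 1))) (vac (n + 1))‖ ≤ η) →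
  Gen n k fun j => (φ (ge j) : Fk (n + 1) →L[ℂ] Fk (n + 1))

end Pool.FR
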