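import Pool.Agent.Work.MP_118406_fr.Interface

set_option autoImplicit false

/-!
# Irregularity of all isomorphisms: sub-families

The statements LOW, LOV, GSB, UPP, MEA, ASM, COR, CRL for a sub-family `S` of the generators `y j`: only the `y j`, `j ∈ S`,
are compared.  The proofs are the same.
-/

open scoped InnerProductSpace ComplexConjugate Topology BigOperators
open Set Filter MeasureTheory Pool.SI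

noncomputable section

namespace Pool.FR

/-- `b` is in the ball and `F(x, b)` is close to a conjugate of `Y` by a member of the net, for the indices in `S`. -/
def GoodS {n k N L : ℕ} (S : Finset (Fin k)) (p : Fin k → FreeAlgebra ℂ (Fin (n + 1)))
    (f : Polynomial ℝ) (v : Fin L → Mat N) (ε : ℝ) (Y : Fin k → Mat N)
    (x : Fin N × Fin N → ℝ) (b : Fin n × Fin N × Fin N → ℝ) : Prop :=
  ∑ i, b i ^ 2 ≤ 80 * n * (N : ℝ) ^ 2 ∧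
    ∃ l, ∑ j ∈ S, nn (FF p f x b j - v l * Y j * star (v l)) ≤ 400 * S.card * ε ^ 2

def Stmt_LOS : Prop := ∀ (n k : ℕ) (S : Finset (Fin k))
  (y : Fin k → (Fk (n + 1) →L[ℂ] Fk (n + 1))), Gen n k y →
  ∀ θ ε : ℝ, 0 < θ → θ ≤ 1 → 0 < ε → ε ≤ 1 → (∀ j ∈ S, Nth θ (y j (vac (n + 1))) ≤ ε ^ 2) →
  ∃ (p : Fin k → FreeAlgebra ℂ (Fin (n + 1))) (m N₀ : ℕ) (γ : ℝ), 0 < γ ∧
    ∀ (N : ℕ) (f : Polynomial ℝ), N₀ ≤ N → 1 ≤ N → Clm N f →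
    ∀ (Y : Fin k → Mat N) (x : Fin N × Fin N → ℝ), MC k m γ N Y →
      (∀ j ≤ m, ‖ntr ((hm x : Mat N) ^ j) - cat j‖ ≤ γ) →
      ∃ (V : Mat N) (c : Fin n × Fin N × Fin N → ℝ), Uni V ∧ ∑ i, c i ^ 2 ≤ 9 * n * (N : ℝ) ^ 2 ∧
        (gs (Fin n × Fin N × Fin N)) {g | 144 * S.card * ε ^ 2 <
          ∑ j ∈ S, nn (FF p f x (fun i => Real.cos θ * c i + Real.sin θ * g i) j -
            V * Y j * star V)} ≤ ENNReal.ofReal (1 / 4)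

def Stmt_LVS : Prop := ∀ (n k : ℕ) (S : Finset (Fin k))
  (y : Fin k → (Fk (n + 1) →L[ℂ] Fk (n + 1))), Gen n k y →
  ∀ θ ε : ℝ, 0 < θ → θ ≤ 1 → 0 < ε → ε ≤ 1 → (∀ j ∈ S, Nth θ (y j (vac (n + 1))) ≤ ε ^ 2) →
  ∃ (p : Fin k → FreeAlgebra ℂ (Fin (n + 1))) (m N₀ : ℕ) (γ : ℝ), 0 < γ ∧
    ∀ (N : ℕ) (f : Polynomial ℝ) (L : ℕ) (v : Fin L → Mat N), N₀ ≤ N → 1 ≤ N → Clm N f →
    (∀ V : Mat N, Uni V → ∃ l, ∀ Y : Mat N,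
      nn (V * Y * star V - v l * Y * star (v l)) ≤ 4 * ε ^ 2 * nn Y) →
    ∀ (Y : Fin k → Mat N) (x : Fin N × Fin N → ℝ), MC k m γ N Y →
      (∀ j ≤ m, ‖ntr ((hm x : Mat N) ^ j) - cat j‖ ≤ γ) →
      ENNReal.ofReal (1 / 2 * (Real.sqrt (2 * Real.pi) * Real.sin θ) ^ (n * N ^ 2)) ≤
        volume {b : Fin n × Fin N × Fin N → ℝ | GoodS S p f v ε Y x b}

def Stmt_GSS : Prop := ∀ (ι : Type) [Fintype ι] (T : Finset ι) (y : ι → ℝ) (r : ℝ), 0 < r →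
  (gs ι) {x | ∑ i ∈ T, (y i - x i) ^ 2 ≤ r ^ 2 * T.card} ≤
    ENNReal.ofReal ((Real.exp (1 / 2) * r) ^ T.card)

def Stmt_UPS : Prop := ∀ (k N L : ℕ) (S : Finset (Fin k)) (v : Fin L → Mat N)
  (Z : Fin k → Mat N) (ε : ℝ), 1 ≤ N → 0 < ε → (∀ l, Uni (v l)) →
  (gs (Fin k × Fin N × Fin N)) {g | ∃ l, ∑ j ∈ S, nn (Z j - v l * hmk g j * star (v l)) ≤
    400 * S.card * ε ^ 2} ≤ ENNReal.ofReal (L * (33 * ε) ^ (S.card * N ^ 2))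

def Stmt_MES : Prop := ∀ (n k N L : ℕ) (S : Finset (Fin k))
  (p : Fin k → FreeAlgebra ℂ (Fin (n + 1))) (f : Polynomial ℝ) (v : Fin L → Mat N) (ε : ℝ),
  MeasurableSet {z : (Fin k × Fin N × Fin N → ℝ) ×
    ((Fin N × Fin N → ℝ) × (Fin n × Fin N × Fin N → ℝ)) |
      ∑ q, z.2.1 q ^ 2 ≤ 2 * (N : ℝ) ^ 2 ∧ GoodS S p f v ε (hmk z.1) z.2.1 z.2.2}

def Stmt_ASS : Prop := ∃ C₁ : ℝ, 0 < C₁ ∧
  ∀ (n k : ℕ) (S : Finset (Fin k)) (y : Fin k → (Fk (n + 1) →L[ℂ] Fk (n + 1))), Gen n k y →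
  ∀ θ ε : ℝ, 0 < θ → θ ≤ 1 → 0 < ε → ε ≤ 1 → (∀ j ∈ S, Nth θ (y j (vac (n + 1))) ≤ ε ^ 2) →
  ∃ N₀ : ℕ, ∀ N : ℕ, N₀ ≤ N → 1 ≤ N →
    (1 / 8) * Real.sin θ ^ (n * N ^ 2) ≤
      (C₁ / ε) ^ (N ^ 2) * (33 * ε) ^ (S.card * N ^ 2) * Real.exp (1 + 40 * n) ^ (N ^ 2)

def Stmt_COS : Prop := ∀ n s : ℕ, 2 ≤ s → ∃ c : ℝ, 0 < c ∧ ∀ (k : ℕ) (S : Finset (Fin k)),
  S.card = s → ∀ y : Fin k → (Fk (n + 1) →L[ℂ] Fk (n + 1)), Gen n k y →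
  ∀ θ : ℝ, 0 < θ → θ ≤ 1 →
    c * θ ^ (2 * (n : ℝ) / ((s : ℝ) - 1)) ≤ ∑ j ∈ S, Nth θ (y j (vac (n + 1)))

def Stmt_CRS : Prop := ∀ (n k : ℕ) (S : Finset (Fin k)), 2 ≤ S.card →
  ∀ y : Fin k → (Fk (n + 1) →L[ℂ] Fk (n + 1)), Gen n k y → ∀ α : ℝ, 0 < α → α ≤ 1 →
    (∀ j ∈ S, Summable (fun w => (cnt w : ℝ) ^ α * ‖(y j (vac (n + 1))) w‖ ^ 2)) →
    α * ((S.card : ℝ) - 1) ≤ n ∧ (α < 1 → α * ((S.card : ℝ) - 1) < n)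

end Pool.FR
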