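import Pool.Agent.Work.MP_118406_fr.InterfaceS
import Pool.Agent.Work.MP_118406_fr.B_UPP

set_option autoImplicit false

open scoped InnerProductSpace ComplexConjugate Topology BigOperators
open Set Filter MeasureTheory Pool.SI

noncomputable section

namespace Pool.FR

theorem p_UPS (h1 : Stmt_MXA) (h2 : Stmt_HMB) (h3 : Stmt_GSS) : Stmt_UPS := by
  intro k N L S v Z ε hN hε hv
  have hNpos : (0 : ℝ) < N := by exact_mod_cast hN
  have key : ∀ l : Fin L, (gs (Fin k × Fin N × Fin N)) {g | ∑ j ∈ S,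
      nn (Z j - v l * hmk g j * star (v l)) ≤ 400 * S.card * ε ^ 2} ≤
        ENNReal.ofReal ((33 * ε) ^ (S.card * N ^ 2)) := by
    intro l
    choose z hz using fun j => UPP_one h1 h2 hN (v l) (Z j) (hv l)
    have hcard : (S ×ˢ (Finset.univ : Finset (Fin N × Fin N))).card = S.card * N ^ 2 := by
      rw [Finset.card_product, Finset.card_univ, Fintype.card_prod, Fintype.card_fin, sq]
    have hsub : {g : Fin k × Fin N × Fin N → ℝ | ∑ j ∈ S,
        nn (Z j - v l * hmk g j * star (v l)) ≤ 400 * S.card * ε ^ 2} ⊆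
        {g | ∑ q ∈ S ×ˢ (Finset.univ : Finset (Fin N × Fin N)),
          ((fun q : Fin k × Fin N × Fin N => z q.1 q.2) q - g q) ^ 2 ≤
          (20 * ε) ^ 2 * (S ×ˢ (Finset.univ : Finset (Fin N × Fin N))).card} := by
      intro g hg
      simp only [mem_setOf_eq] at hg ⊢
      have hs : ∑ q ∈ S ×ˢ (Finset.univ : Finset (Fin N × Fin N)), (z q.1 q.2 - g q) ^ 2 =
          ∑ j ∈ S, ∑ p : Fin N × Fin N, (z j p - g (j, p)) ^ 2 := Finset.sum_product _ _ _
      have hle : ∑ j ∈ S, ∑ p : Fin N × Fin N, (z j p - g (j, p)) ^ 2 ≤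
          ∑ j ∈ S, (N : ℝ) ^ 2 * nn (Z j - v l * hmk g j * star (v l)) := by
        refine Finset.sum_le_sum fun j _ => ?_
        have := hz j (fun p => g (j, p))
        rw [div_le_iff₀ (by positivity)] at this
        rw [mul_comm]
        exact this
      rw [hs]
      refine hle.trans ?_
      rw [← Finset.mul_sum, hcard]
      push_cast
      calc (N : ℝ) ^ 2 * ∑ j ∈ S, nn (Z j - v l * hmk g j * star (v l))
          ≤ (N : ℝ) ^ 2 * (400 * S.card * ε ^ 2) := by gcongr
        _ = (20 * ε) ^ 2 * (S.card * (N : ℝ) ^ 2) := by ring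
    refine (measure_mono hsub).trans ?_
    refine (h3 (Fin k × Fin N × Fin N) (S ×ˢ (Finset.univ : Finset (Fin N × Fin N)))
      (fun q => z q.1 q.2) (20 * ε) (by positivity)).trans ?_
    apply ENNReal.ofReal_le_ofReal
    rw [hcard]
    apply pow_le_pow_left₀ (by positivity)
    have := UPP_exp
    calc Real.exp (1 / 2) * (20 * ε) = Real.exp (1 / 2) * 20 * ε := by ring
      _ ≤ 33 * ε := by gcongr
  have hset : {g : Fin k × Fin N × Fin N → ℝ | ∃ l, ∑ j ∈ S,
      nn (Z j - v l * hmk g j * star (v l)) ≤ 400 * S.card * ε ^ 2} =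
      ⋃ l, {g | ∑ j ∈ S, nn (Z j - v l * hmk g j * star (v l)) ≤ 400 * S.card * ε ^ 2} := by
    ext g
    simp
  rw [hset]
  calc (gs (Fin k × Fin N × Fin N)) (⋃ l, {g | ∑ j ∈ S,
        nn (Z j - v l * hmk g j * star (v l)) ≤ 400 * S.card * ε ^ 2})
      ≤ ∑ l, (gs (Fin k × Fin N × Fin N)) {g | ∑ j ∈ S,
        nn (Z j - v l * hmk g j * star (v l)) ≤ 400 * S.card * ε ^ 2} := by
        exact measure_iUnion_fintype_le _ _
    _ ≤ ∑ _l : Fin L, ENNReal.ofReal ((33 * ε) ^ (S.card * N ^ 2)) :=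
        Finset.sum_le_sum fun l _ => key l
    _ = ENNReal.ofReal (L * (33 * ε) ^ (S.card * N ^ 2)) := by
        rw [Finset.sum_const, Finset.card_univ, Fintype.card_fin, nsmul_eq_mul,
          ENNReal.ofReal_mul (by positivity), ENNReal.ofReal_natCast]

end Pool.FR
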